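import Pool.Agent.ALC.Defs

/-!
# ALC CR: vertex critical induced subgraphs

PROOF.  Let `A` be a set of minimal cardinality such that the induced subgraph is not
`r`-colourable (`univ` is such a set; see the beginning of the proof of
`Pool.Agent.ALB.exists_crit` in `Pool/Agent/ALB/Crit.lean` for the transfer of colourings).
`nc` is clear.  `del`: for `v : {x // x ∈ A}` the graph induced on `A.erase v` has a colouring
`g` with `r` colours; `f x = g ⟨x, _⟩` for `x ≠ v` and `f v` = any colour (`0 < r`).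
-/

set_option autoImplicit false

namespace Pool.Agent.ALC

open Pool.Agent.ALB

theorem exists_vc {V : Type} [Fintype V] {G : SimpleGraph V} {r : ℕ} (hr : 0 < r)
    (hχ : ¬ G.Colorable r) :
    ∃ A : Finset V, VC (G.comap (Subtype.val : {x // x ∈ A} → V)) r := by
  classical
  obtain ⟨A, hA, hmin⟩ := Finset.exists_min_image
    (Finset.univ.filter fun A : Finset V =>
      ¬ (G.comap (Subtype.val : {x // x ∈ A} → V)).Colorable r) Finset.card
    ⟨Finset.univ, by
      rw [Finset.mem_filter]
      refine ⟨Finset.mem_univ _, fun hc => hχ ?_⟩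
      obtain ⟨c⟩ := hc
      exact ⟨SimpleGraph.Coloring.mk (fun v => c ⟨v, Finset.mem_univ v⟩) fun {v w} hvw =>
        c.valid (v := ⟨v, Finset.mem_univ v⟩) (w := ⟨w, Finset.mem_univ w⟩) hvw⟩⟩
  rw [Finset.mem_filter] at hA
  have hmin' : ∀ B : Finset V, B.card < A.card →
      (G.comap (Subtype.val : {x // x ∈ B} → V)).Colorable r := by
    intro B hB
    by_contra hcon
    have := hmin B (by
      rw [Finset.mem_filter]
      exact ⟨Finset.mem_univ _, hcon⟩)
    omega
  refine ⟨A, hA.2, fun v => ?_⟩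
  obtain ⟨c⟩ := hmin' (A.erase v.1) (Finset.card_erase_lt_of_mem v.2)
  have hmem : ∀ x : {x // x ∈ A}, x ≠ v → x.1 ∈ A.erase v.1 := fun x hx =>
    Finset.mem_erase.2 ⟨fun h => hx (Subtype.ext h), x.2⟩
  refine ⟨fun x => if h : x = v then ⟨0, hr⟩ else c ⟨x.1, hmem x h⟩, ?_⟩
  intro x y hx hy hxy
  simp only [dif_neg hx, dif_neg hy]
  exact c.valid (v := ⟨x.1, hmem x hx⟩) (w := ⟨y.1, hmem y hy⟩) hxy

end Pool.Agent.ALC
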