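import Pool.Agent.ALC.Gl

/-!
# ALC CAS2: many pairs which are not rigid

PROOF.  Let `η₀, r₀` be the numbers of `gl` for `C, ρ / 2`, `η = min 1 (η₀ / 4)`, `Y = s` and
`Γ.Adj i j ↔ i ∈ T ∧ j ∈ T ∧ i ≠ j` as in `Cas1` (same bound for `miss Γ`).
`Bg H v f i j = Bg H v f j i`, so (reversing walks) `Rig i j ↔ Rig j i`; `NR` is symmetric.  For
`i < j` in `T` with `¬ Rig i j` choose a walk `W i j` from `s i` to `s j` in `Bg H v f i j` and an
edge `e₀ i j ∈ E s(i, j)` which is not on it.  Put `E' s(i, j) = (W i j).edges.toFinset` for these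
`i < j` and `E' s(i, j) = E s(i, j)` for the other `i < j` in `T`.
`PS` for `E'`: an edge of `W i j` is an edge of `Bg H v f i j`, so it is in `H` and its `f`-image is
`s(i, j)`; the walk `W i j` is mapped to `H` (same edges).
`Λ = {e₀ i j | i < j, i, j ∈ T, ¬ Rig i j}`.  As `(e₀ i j).map f = s(i, j)`, the map
`(i, j) ↦ e₀ i j` is injective on the pairs `i < j`, and `#NR = 2 #Λ`; so `#Λ ≥ (ρ/2) r^2`.
`e₀ i j ∉ E' p`: for `p ≠ s(i, j)` because of the colours, for `p = s(i, j)` by the choice.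
-/

set_option autoImplicit false

namespace Pool.Agent.ALC

open Pool.Agent.ALB

/-- the pairs of `T` are the edges of `Γ`: few pairs are missing -/
private theorem miss_le {r : ℕ} (T : Finset (Fin r)) (Γ : SimpleGraph (Fin r))
    (hΓ : ∀ i j, Γ.Adj i j ↔ i ∈ T ∧ j ∈ T ∧ i ≠ j) : miss Γ ≤ r + 2 * (r * (r - T.card)) := by
  classical
  have hsub : {p : Fin r × Fin r | ¬ Γ.Adj p.1 p.2} ⊆
      (((Finset.univ.image fun i : Fin r => (i, i)) ∪ (Tᶜ ×ˢ Finset.univ) ∪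
        (Finset.univ ×ˢ Tᶜ) : Finset (Fin r × Fin r)) : Set (Fin r × Fin r)) := by
    rintro ⟨i, j⟩ hij
    have h1 : ¬ Γ.Adj i j := hij
    rw [hΓ] at h1
    rw [Finset.mem_coe, Finset.mem_union, Finset.mem_union, Finset.mem_product, Finset.mem_product,
      Finset.mem_compl, Finset.mem_compl, Finset.mem_image]
    by_cases hi : i ∈ T
    · by_cases hj : j ∈ T
      · left
        left
        refine ⟨i, Finset.mem_univ _, ?_⟩
        by_contra hne
        refine h1 ⟨hi, hj, fun h => hne ?_⟩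
        rw [h]
      · right
        exact ⟨Finset.mem_univ _, hj⟩
    · left
      right
      exact ⟨hi, Finset.mem_univ _⟩
  have h2 := Set.ncard_le_ncard hsub (Finset.finite_toSet _)
  rw [Set.ncard_coe_finset] at h2
  refine h2.trans ?_
  refine (Finset.card_union_le _ _).trans ?_
  have h3 := Finset.card_union_le (Finset.univ.image fun i : Fin r => (i, i)) (Tᶜ ×ˢ (Finset.univ : Finset (Fin r)))
  have h4 : (Finset.univ.image fun i : Fin r => (i, i)).card ≤ r := by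
    refine Finset.card_image_le.trans ?_
    rw [Finset.card_univ, Fintype.card_fin]
  have h5 : (Tᶜ ×ˢ (Finset.univ : Finset (Fin r))).card = r * (r - T.card) := by
    rw [Finset.card_product, Finset.card_compl, Finset.card_univ, Fintype.card_fin, Nat.mul_comm]
  have h6 : ((Finset.univ : Finset (Fin r)) ×ˢ Tᶜ).card = r * (r - T.card) := by
    rw [Finset.card_product, Finset.card_compl, Finset.card_univ, Fintype.card_fin]
  rw [h6]
  rw [h5] at h3
  omega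

/-- the two-to-one map from ordered pairs to unordered pairs -/
private theorem two_to_one {r : ℕ} (S : Finset (Fin r × Fin r)) (N : Finset (Sym2 (Fin r)))
    (h : ∀ p ∈ S, s(p.1, p.2) ∈ N) : S.card ≤ 2 * N.card := by
  classical
  have h1 := Finset.card_le_mul_card_image (f := fun p : Fin r × Fin r => s(p.1, p.2)) S 2 ?_
  · refine h1.trans (Nat.mul_le_mul_left 2 (Finset.card_le_card ?_))
    intro q hq
    obtain ⟨p, hp, rfl⟩ := Finset.mem_image.1 hq
    exact h p hp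
  · intro a ha
    obtain ⟨⟨i, j⟩, hp, rfl⟩ := Finset.mem_image.1 ha
    refine (Finset.card_le_card (t := {(i, j), (j, i)}) ?_).trans Finset.card_le_two
    rintro ⟨x, y⟩ hxy
    have h2 : s(x, y) = s(i, j) := (Finset.mem_filter.1 hxy).2
    rw [Sym2.eq_iff] at h2
    rw [Finset.mem_insert, Finset.mem_singleton]
    rcases h2 with ⟨rfl, rfl⟩ | ⟨rfl, rfl⟩
    · exact Or.inl rfl
    · exact Or.inr rfl

/-- the unordered pair `q` is not rigid -/
private def NQ {V : Type} (H : SimpleGraph V) {r : ℕ} (v : V) (f : V → Fin r) (s : Fin r → V)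
    (T : Finset (Fin r)) (E : Sym2 (Fin r) → Finset (Sym2 V)) (q : Sym2 (Fin r)) : Prop :=
  ∃ i j, q = s(i, j) ∧ i ∈ T ∧ j ∈ T ∧ i ≠ j ∧ ¬ Rig H v f s E i j

private theorem exists_A {V : Type} (H : SimpleGraph V) {r : ℕ} (v : V) (f : V → Fin r) (s : Fin r → V)
    (T : Finset (Fin r)) (E : Sym2 (Fin r) → Finset (Sym2 V)) (hP : PFam H v f s T E)
    (q : Sym2 (Fin r)) (hq : ∃ i j, q = s(i, j) ∧ i ∈ T ∧ j ∈ T ∧ i ≠ j) :
    ∃ (A : Finset (Sym2 V)) (e₀ : Sym2 V), (∀ e ∈ A, e ∈ H.edgeSet ∧ e.map f = q) ∧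
      (∀ i j, q = s(i, j) → ∃ W : H.Walk (s i) (s j), ∀ e ∈ W.edges, e ∈ A) ∧
      (NQ H v f s T E q → e₀ ∈ E q ∧ e₀ ∉ A) := by
  classical
  by_cases hn : NQ H v f s T E q
  · obtain ⟨i, j, rfl, hi, hj, hij, hr⟩ := hn
    unfold Rig at hr
    push Not at hr
    obtain ⟨W, e₀, he₀, heW⟩ := hr
    have hsub : ∀ e ∈ W.edges, e ∈ H.edgeSet ∧ e.map f = s(i, j) := by
      intro e he
      have h1 := W.edges_subset_edgeSet he
      induction e using Sym2.ind with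
      | _ x y =>
        have h2 : (Bg H v f i j).Adj x y := (SimpleGraph.mem_edgeSet _).1 h1
        obtain ⟨h3, -, -, h4⟩ := h2
        refine ⟨(SimpleGraph.mem_edgeSet _).2 h3, ?_⟩
        rw [Sym2.map_mk]
        rcases h4 with ⟨hx, hy⟩ | ⟨hx, hy⟩
        · change s(f x, f y) = s(i, j)
          rw [hx, hy]
        · change s(f x, f y) = s(i, j)
          rw [hx, hy, Sym2.eq_swap]
    have hW : ∀ e ∈ (W.transfer H fun e he => (hsub e he).1).edges, e ∈ W.edges.toFinset := by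
      intro e he
      rw [SimpleGraph.Walk.edges_transfer] at he
      exact List.mem_toFinset.2 he
    refine ⟨W.edges.toFinset, e₀, fun e he => hsub e (List.mem_toFinset.1 he), ?_, fun _ => ⟨he₀, ?_⟩⟩
    · intro i' j' hij'
      rw [Sym2.eq_iff] at hij'
      rcases hij' with ⟨rfl, rfl⟩ | ⟨rfl, rfl⟩
      · exact ⟨_, hW⟩
      · refine ⟨(W.transfer H fun e he => (hsub e he).1).reverse, fun e he => hW e ?_⟩
        rw [SimpleGraph.Walk.edges_reverse, List.mem_reverse] at he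
        exact he
    · rw [List.mem_toFinset]
      exact heW
  · obtain ⟨i, j, rfl, hi, hj, hij⟩ := hq
    refine ⟨E s(i, j), s(v, v), fun e he => ?_, ?_, fun h => absurd h hn⟩
    · have h1 := hP.sub i j hi hj hij e he
      exact ⟨h1.1, h1.2.2⟩
    · intro i' j' hij'
      rw [Sym2.eq_iff] at hij'
      rcases hij' with ⟨rfl, rfl⟩ | ⟨rfl, rfl⟩
      · exact hP.walk i j hi hj hij
      · obtain ⟨W, hW⟩ := hP.walk _ _ hi hj hij
        refine ⟨W.reverse, fun e he => hW e ?_⟩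
        rw [SimpleGraph.Walk.edges_reverse, List.mem_reverse] at he
        exact he

theorem cas2 {c : ℝ} (hc : Lim c) {C ρ : ℝ} (hC : 0 < C) (hρ : 0 < ρ) :
    ∃ η : ℝ, 0 < η ∧ ∃ r₀ : ℕ, ∀ (V : Type) (_ : Fintype V) (H : SimpleGraph V) (D : Drw H),
      D.NoAdj → ∀ r : ℕ, r₀ ≤ r → (Fintype.card V : ℝ) ≤ C * (r : ℝ) →
      ∀ (v : V) (f : V → Fin r) (s : Fin r → V) (T : Finset (Fin r))
        (E : Sym2 (Fin r) → Finset (Sym2 V)), KD H v f s → PFam H v f s T E →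
        (r : ℝ) - (T.card : ℝ) ≤ η * (r : ℝ) →
        ρ * (r : ℝ) ^ 2 ≤ ((NR H v f s T E).ncard : ℝ) → crK (r + 1) ≤ D.cr := by
  classical
  obtain ⟨η₀, hη₀, r₁, hgl⟩ := gl hc hC (half_pos hρ)
  refine ⟨min 1 (η₀ / 4), lt_min one_pos (by positivity), max r₁ (⌈2 / η₀⌉₊ + 1), ?_⟩
  intro V _ H D hD r hr hcard v f s T E hK hP hT hN
  have hr1 : r₁ ≤ r := (le_max_left _ _).trans hr
  have hr2 : ⌈2 / η₀⌉₊ + 1 ≤ r := (le_max_right _ _).trans hr
  have hr3 : 2 / η₀ ≤ (r : ℝ) := (Nat.le_ceil _).trans (by exact_mod_cast (by omega : ⌈2 / η₀⌉₊ ≤ r))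
  have hr0 : (0 : ℝ) ≤ r := Nat.cast_nonneg r
  let Γ : SimpleGraph (Fin r) :=
    { Adj := fun i j => i ∈ T ∧ j ∈ T ∧ i ≠ j
      symm := ⟨fun i j h => ⟨h.2.1, h.1, h.2.2.symm⟩⟩
      loopless := ⟨fun i h => h.2.2 rfl⟩ }
  have hΓ : ∀ i j, Γ.Adj i j ↔ i ∈ T ∧ j ∈ T ∧ i ≠ j := fun _ _ => Iff.rfl
  have hΓe : ∀ q ∈ Γ.edgeSet, ∃ i j, q = s(i, j) ∧ i ∈ T ∧ j ∈ T ∧ i ≠ j := by
    intro q hq
    induction q using Sym2.ind with
    | _ i j =>
      have h1 : Γ.Adj i j := (SimpleGraph.mem_edgeSet _).1 hq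
      exact ⟨i, j, rfl, h1.1, h1.2.1, h1.2.2⟩
  have hA : ∀ q : Sym2 (Fin r), ∃ (A : Finset (Sym2 V)) (e₀ : Sym2 V), q ∈ Γ.edgeSet →
      (∀ e ∈ A, e ∈ H.edgeSet ∧ e.map f = q) ∧
      (∀ i j, q = s(i, j) → ∃ W : H.Walk (s i) (s j), ∀ e ∈ W.edges, e ∈ A) ∧
      (NQ H v f s T E q → e₀ ∈ E q ∧ e₀ ∉ A) := by
    intro q
    by_cases hq : q ∈ Γ.edgeSet
    · obtain ⟨A, e₀, h⟩ := exists_A H v f s T E hP q (hΓe q hq)
      exact ⟨A, e₀, fun _ => h⟩
    · exact ⟨∅, s(v, v), fun h => absurd h hq⟩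
  choose A e₀ hAe using hA
  have hNΓ : ∀ q, NQ H v f s T E q → q ∈ Γ.edgeSet := by
    rintro q ⟨i, j, rfl, hi, hj, hij, -⟩
    exact (SimpleGraph.mem_edgeSet _).2 ⟨hi, hj, hij⟩
  have hmap : ∀ q, NQ H v f s T E q → e₀ q ∈ H.edgeSet ∧ (e₀ q).map f = q := by
    intro q hq
    have h1 := ((hAe q (hNΓ q hq)).2.2 hq).1
    obtain ⟨i, j, rfl, hi, hj, hij, -⟩ := hq
    have h2 := hP.sub i j hi hj hij _ h1
    exact ⟨h2.1, h2.2.2⟩
  have hPS : PS H f s Γ A := by
    refine ⟨hK.fs, fun p hp => (hAe p hp).1, fun i j hij => ?_⟩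
    exact (hAe s(i, j) ((SimpleGraph.mem_edgeSet _).2 hij)).2.1 i j rfl
  obtain ⟨N, hNdef⟩ : ∃ N : Finset (Sym2 (Fin r)), N = Finset.univ.filter fun q => NQ H v f s T E q := ⟨_, rfl⟩
  have hNm : ∀ q, q ∈ N ↔ NQ H v f s T E q := by
    intro q
    rw [hNdef, Finset.mem_filter]
    exact ⟨fun h => h.2, fun h => ⟨Finset.mem_univ _, h⟩⟩
  have hcardN : (N.image e₀).card = N.card := by
    refine Finset.card_image_of_injOn ?_
    intro q hq q' hq' he
    have h1 := (hmap q ((hNm q).1 hq)).2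
    have h2 := (hmap q' ((hNm q').1 hq')).2
    have h3 : e₀ q = e₀ q' := he
    rw [← h1, ← h2, h3]
  have hcount : (NR H v f s T E).ncard ≤ 2 * N.card := by
    obtain ⟨S, hS⟩ : ∃ S : Finset (Fin r × Fin r), (S : Set (Fin r × Fin r)) = NR H v f s T E :=
      ⟨(Set.toFinite (NR H v f s T E)).toFinset, Set.Finite.coe_toFinset _⟩
    rw [← hS, Set.ncard_coe_finset]
    refine two_to_one S N ?_
    intro p hp
    have h1 : p ∈ NR H v f s T E := by
      rw [← hS]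
      exact hp
    obtain ⟨h2, h3, h4, h5⟩ := h1
    exact (hNm _).2 ⟨p.1, p.2, rfl, h2, h3, h4, h5⟩
  have hmiss : (miss Γ : ℝ) ≤ η₀ * (r : ℝ) ^ 2 := by
    have h1 := miss_le T Γ hΓ
    have hTr : T.card ≤ r := by
      have h2 := Finset.card_le_univ T
      rwa [Fintype.card_fin] at h2
    have h2 : (miss Γ : ℝ) ≤ r + 2 * (r * (r - T.card)) := by
      have h3 : (miss Γ : ℝ) ≤ ((r + 2 * (r * (r - T.card)) : ℕ) : ℝ) := by exact_mod_cast h1
      refine h3.trans (le_of_eq ?_)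
      push_cast [Nat.cast_sub hTr]
      ring
    have h3 : min 1 (η₀ / 4) ≤ η₀ / 4 := min_le_right _ _
    have h4 : (r : ℝ) - (T.card : ℝ) ≤ η₀ / 4 * (r : ℝ) :=
      hT.trans (mul_le_mul_of_nonneg_right h3 hr0)
    have h5 : (r : ℝ) * (r - T.card) ≤ r * (η₀ / 4 * (r : ℝ)) := mul_le_mul_of_nonneg_left h4 hr0
    have h6 : (r : ℝ) ≤ η₀ / 2 * (r : ℝ) ^ 2 := by
      have h7 : 2 ≤ η₀ * (r : ℝ) := by
        rw [div_le_iff₀ hη₀] at hr3
        linarith
      nlinarith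
    nlinarith
  refine hgl V inferInstance H D hD r hr1 hcard f s Γ A (N.image e₀) hPS hmiss ?_ ?_ ?_
  · intro e he
    obtain ⟨q, hq, rfl⟩ := Finset.mem_image.1 he
    exact (hmap q ((hNm q).1 hq)).1
  · intro p hp e he heN
    obtain ⟨q, hq, rfl⟩ := Finset.mem_image.1 heN
    have hq' := (hNm q).1 hq
    have h1 := ((hAe p hp).1 _ he).2
    have h2 := (hmap q hq').2
    have h3 : q = p := by rw [← h2, h1]
    subst h3
    exact ((hAe q hp).2.2 hq').2 he
  · rw [hcardN]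
    have h1 : ((NR H v f s T E).ncard : ℝ) ≤ 2 * (N.card : ℝ) := by exact_mod_cast hcount
    linarith

end Pool.Agent.ALC
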