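import Pool.Agent.ALC.Gl

/-!
# ALC CASA: other terminals on the paths

PROOF.  Let `η₀, r₀` be the numbers of `gl` for `C` and `ρ = 1/4`; `η = min (1/2) η₀`.
`Y i = x i` for `i ∈ J` and `Y i = s i` otherwise.  `Γ.Adj i j` iff `i ∈ J`, `j ∈ J`, `i ≠ j`,
`On E (x i) s(i, j)` and `On E (x j) s(i, j)` (symmetric because `s(i, j) = s(j, i)`).  For `i < j`
with `Γ.Adj i j` let `e₀ i j ∈ E s(i, j)` be the edge of `PFam.tail i j`, and
`E' s(i, j) = E s(i, j) \ {e₀ i j}`; the walk from `x i` to `x j` in `E'` is given by `tail`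
(`x i ≠ s i`; `x j ≠ s i` because `f (x j) = j ≠ i = f (s i)`).  `PS` for `E'`: `sub` from
`PFam.sub`.  `Λ = {e₀ i j | i < j, Γ.Adj i j}`: the elements are different for different pairs
(colours), so `#Λ = (r^2 - miss Γ) / 2 ≥ r^2 / 4`; they are in no `E' p` (colours, and for
`p = s(i, j)` by definition).
-/

set_option autoImplicit false

namespace Pool.Agent.ALC

open Pool.Agent.ALB

private theorem pairs_card {r : ℕ} (Γ : SimpleGraph (Fin r)) :
    r ^ 2 = miss Γ + 2 * (Set.toFinite Γ.edgeSet).toFinset.card := by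
  classical
  have h1 : miss Γ = (Finset.univ.filter (fun p : Fin r × Fin r => ¬ Γ.Adj p.1 p.2)).card := by
    unfold miss
    rw [Set.ncard_eq_toFinset_card']
    congr 1
    ext p
    simp
  have h2 : (Finset.univ.filter (fun p : Fin r × Fin r => Γ.Adj p.1 p.2)).card =
      2 * (Set.toFinite Γ.edgeSet).toFinset.card := by
    have h3 : (Set.toFinite Γ.edgeSet).toFinset = Γ.edgeFinset := by
      ext e
      rw [Set.Finite.mem_toFinset, SimpleGraph.mem_edgeFinset]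
    rw [h3, ← SimpleGraph.sum_degrees_eq_twice_card_edges, Finset.card_filter,
      Fintype.sum_prod_type]
    refine Finset.sum_congr rfl fun i _ => ?_
    rw [← Finset.card_filter, ← SimpleGraph.card_neighborFinset_eq_degree]
    congr 1
    ext j
    simp
  have h4 := Finset.card_filter_add_card_filter_not (s := (Finset.univ : Finset (Fin r × Fin r)))
    (fun p => Γ.Adj p.1 p.2)
  rw [h2, ← h1, Finset.card_univ, Fintype.card_prod, Fintype.card_fin] at h4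
  rw [pow_two, ← h4, add_comm]

theorem casA {c : ℝ} (hc : Lim c) {C : ℝ} (hC : 0 < C) :
    ∃ η : ℝ, 0 < η ∧ ∃ r₀ : ℕ, ∀ (V : Type) (_ : Fintype V) (H : SimpleGraph V) (D : Drw H),
      D.NoAdj → ∀ r : ℕ, r₀ ≤ r → (Fintype.card V : ℝ) ≤ C * (r : ℝ) →
      ∀ (v : V) (f : V → Fin r) (s : Fin r → V) (T : Finset (Fin r))
        (E : Sym2 (Fin r) → Finset (Sym2 V)), KD H v f s → PFam H v f s T E →
      ∀ (J : Finset (Fin r)) (x : Fin r → V), J ⊆ T →
        (∀ i ∈ J, x i ≠ v ∧ f (x i) = i ∧ x i ≠ s i) →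
        ({p : Fin r × Fin r | ¬ (p.1 ∈ J ∧ p.2 ∈ J ∧ p.1 ≠ p.2 ∧ On E (x p.1) s(p.1, p.2) ∧
          On E (x p.2) s(p.1, p.2))}.ncard : ℝ) ≤ η * (r : ℝ) ^ 2 → crK (r + 1) ≤ D.cr := by
  classical
  obtain ⟨η₀, hη₀, r₀, hgl⟩ := gl hc hC (ρ := 1 / 4) (by norm_num)
  refine ⟨min (1 / 2) η₀, lt_min (by norm_num) hη₀, r₀, ?_⟩
  intro V _ H D hD r hr hV v f s T E hK hP J x hJT hx hmiss
  obtain ⟨Y, hY⟩ : ∃ Y : Fin r → V, Y = fun i => if i ∈ J then x i else s i := ⟨_, rfl⟩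
  have hYJ : ∀ i ∈ J, Y i = x i := fun i hi => by rw [hY]; simp [hi]
  obtain ⟨Γ, hΓ⟩ : ∃ Γ : SimpleGraph (Fin r), ∀ i j, Γ.Adj i j ↔
      (i ∈ J ∧ j ∈ J ∧ i ≠ j ∧ On E (x i) s(i, j) ∧ On E (x j) s(i, j)) :=
    ⟨{ Adj := fun i j => i ∈ J ∧ j ∈ J ∧ i ≠ j ∧ On E (x i) s(i, j) ∧ On E (x j) s(i, j)
       symm := ⟨fun i j h => ⟨h.2.1, h.1, h.2.2.1.symm, by
          rw [Sym2.eq_swap]; exact h.2.2.2.2, by rw [Sym2.eq_swap]; exact h.2.2.2.1⟩⟩
       loopless := ⟨fun i h => h.2.2.1 rfl⟩ }, fun i j => Iff.rfl⟩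
  have hm : miss Γ = ({p : Fin r × Fin r | ¬ (p.1 ∈ J ∧ p.2 ∈ J ∧ p.1 ≠ p.2 ∧
      On E (x p.1) s(p.1, p.2) ∧ On E (x p.2) s(p.1, p.2))}.ncard) := by
    unfold miss
    congr 1
    ext p
    simp only [Set.mem_ofPred_eq]
    rw [hΓ]
  have hmiss' : (miss Γ : ℝ) ≤ min (1 / 2) η₀ * (r : ℝ) ^ 2 := by
    rw [hm]; exact hmiss
  -- the first edges
  have hch : ∀ p : Sym2 (Fin r), ∃ e₀ : Sym2 V, p ∈ Γ.edgeSet → e₀ ∈ E p ∧ ∃ i j : Fin r,
      p = s(i, j) ∧ ∃ W : H.Walk (Y i) (Y j), ∀ e ∈ W.edges, e ∈ E p ∧ e ≠ e₀ := by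
    intro p
    by_cases hp : p ∈ Γ.edgeSet
    · induction p using Sym2.ind with
      | _ i j =>
        rw [SimpleGraph.mem_edgeSet, hΓ] at hp
        obtain ⟨hi, hj, hij, oi, oj⟩ := hp
        obtain ⟨e₀, he₀, hW⟩ := hP.tail i j (hJT hi) (hJT hj) hij
        refine ⟨e₀, fun _ => ⟨he₀, i, j, rfl, ?_⟩⟩
        rw [hYJ i hi, hYJ j hj]
        refine hW (x i) (x j) (hx i hi).2.2 ?_ oi oj
        intro h
        apply hij
        have h1 := congrArg f h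
        rw [(hx j hj).2.1, hK.fs] at h1
        exact h1.symm
    · exact ⟨s(v, v), fun h => absurd h hp⟩
  choose e₀ he₀ using hch
  have hsub : ∀ p ∈ Γ.edgeSet, ∀ e ∈ E p, e ∈ H.edgeSet ∧ e.map f = p := by
    intro p hp e he
    induction p using Sym2.ind with
    | _ i j =>
      rw [SimpleGraph.mem_edgeSet, hΓ] at hp
      obtain ⟨h1, -, h2⟩ := hP.sub i j (hJT hp.1) (hJT hp.2.1) hp.2.2.1 e he
      exact ⟨h1, h2⟩
  have hmap : ∀ p ∈ Γ.edgeSet, (e₀ p).map f = p := fun p hp => (hsub p hp _ (he₀ p hp).1).2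
  have hPS : PS H f Y Γ (fun p => (E p).erase (e₀ p)) := by
    refine ⟨fun i => ?_, fun p hp e he => ?_, fun i j hij => ?_⟩
    · rw [hY]
      by_cases hi : i ∈ J
      · simp only [hi, if_true]
        exact (hx i hi).2.1
      · simp only [hi, if_false]
        exact hK.fs i
    · exact hsub p hp e (Finset.mem_of_mem_erase he)
    · have hp : s(i, j) ∈ Γ.edgeSet := hij
      obtain ⟨h1, i', j', hpp, W, hW⟩ := he₀ _ hp
      rcases Sym2.eq_iff.1 hpp with ⟨rfl, rfl⟩ | ⟨rfl, rfl⟩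
      · exact ⟨W, fun e he => Finset.mem_erase.2 ⟨(hW e he).2, (hW e he).1⟩⟩
      · refine ⟨W.reverse, fun e he => ?_⟩
        rw [SimpleGraph.Walk.edges_reverse, List.mem_reverse] at he
        exact Finset.mem_erase.2 ⟨(hW e he).2, (hW e he).1⟩
  have hinj : Set.InjOn e₀ ((Set.toFinite Γ.edgeSet).toFinset : Set (Sym2 (Fin r))) := by
    intro p hp q hq h
    have hp' : p ∈ Γ.edgeSet := (Set.Finite.mem_toFinset _).1 hp
    have hq' : q ∈ Γ.edgeSet := (Set.Finite.mem_toFinset _).1 hq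
    rw [← hmap p hp', ← hmap q hq', h]
  refine hgl V _ H D hD r hr hV f Y Γ (fun p => (E p).erase (e₀ p))
    ((Set.toFinite Γ.edgeSet).toFinset.image e₀) hPS ?_ ?_ ?_ ?_
  · refine hmiss'.trans ?_
    exact mul_le_mul_of_nonneg_right (min_le_right _ _) (by positivity)
  · intro e he
    obtain ⟨p, hp, rfl⟩ := Finset.mem_image.1 he
    have hp' : p ∈ Γ.edgeSet := (Set.Finite.mem_toFinset _).1 hp
    exact (hsub p hp' _ (he₀ p hp').1).1
  · intro p hp e he hΛ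
    obtain ⟨q, hq, rfl⟩ := Finset.mem_image.1 hΛ
    have hq' : q ∈ Γ.edgeSet := (Set.Finite.mem_toFinset _).1 hq
    obtain ⟨h1, h2⟩ := Finset.mem_erase.1 he
    have h3 : p = q := by rw [← (hsub p hp _ h2).2, hmap q hq']
    subst h3
    exact h1 rfl
  · rw [Finset.card_image_of_injOn hinj]
    have h1 := pairs_card Γ
    have h2 : (r : ℝ) ^ 2 = (miss Γ : ℝ) + 2 * ((Set.toFinite Γ.edgeSet).toFinset.card : ℝ) := by
      exact_mod_cast h1
    have h3 : min (1 / 2) η₀ * (r : ℝ) ^ 2 ≤ 1 / 2 * (r : ℝ) ^ 2 :=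
      mul_le_mul_of_nonneg_right (min_le_left _ _) (by positivity)
    linarith

end Pool.Agent.ALC
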