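import Pool.Agent.ALC.Sing

/-!
# ALC CASB: many colour classes with one vertex

PROOF.  `s` is injective (`h.fs`) and `v` is not in its range (`h.adj`), so
`W = {x | x ≠ v ∧ x ∉ Set.range s}` has `card V - 1 - r` elements, and this number is `≥ 0`.
We may assume `2 #J ≥ r` (otherwise the left side is `≤ 0`).
Let `w ∈ W`.  Claim: `w` is on at least `2 #J - r` elements of `UE H T E`.  `w` is on at least `r`
edges of `H` (`hdeg`).  An edge `e` at `w` which is not in `UE` is in some `E s(i, j)`, `i ≠ j` in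
`T`; as `e.map f = s(i, j)`, one of `i, j` is `f w`; say `i = f w ∈ T`.  If `j ∈ J` then `sing` gives
`w = s i` or `w = s j`, impossible; if `i ∈ J` then `w = s i` by `hs` (`w ≠ v`), impossible.  So
`j ∈ T \ J` (and `J ⊆ T`), and for every `j` there are at most two such edges (`PFam.two`); in all
at most `2 (#T - #J) ≤ 2 (r - #J)`.  Hence at least `r - 2 (r - #J) = 2 #J - r` edges at `w` are in
`UE`.
Summing over `w ∈ W` every element of `UE` is counted at most twice.
-/

set_option autoImplicit false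

namespace Pool.Agent.ALC

open Pool.Agent.ALB

open Classical in
private theorem casB_two {V : Type} [Fintype V] (W : Finset V) (U : Finset (Sym2 V)) :
    ∑ w ∈ W, (U.filter (fun e => w ∈ e)).card ≤ 2 * U.card := by
  have h1 : ∑ w ∈ W, (U.filter (fun e => w ∈ e)).card = ∑ e ∈ U, (W.filter (fun w => w ∈ e)).card := by
    simp only [Finset.card_filter]
    exact Finset.sum_comm
  have h2 : ∀ e ∈ U, (W.filter (fun w => w ∈ e)).card ≤ 2 := by
    intro e _
    induction e using Sym2.ind with
    | h a b =>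
      refine le_trans (Finset.card_le_card (t := {a, b}) ?_) Finset.card_le_two
      intro w hw
      have hw' := (Finset.mem_filter.1 hw).2
      rw [Sym2.mem_iff] at hw'
      simpa using hw'
  rw [h1]
  calc ∑ e ∈ U, (W.filter (fun w => w ∈ e)).card ≤ ∑ _e ∈ U, 2 := Finset.sum_le_sum h2
    _ = 2 * U.card := by rw [Finset.sum_const, smul_eq_mul, mul_comm]

open Classical in
private theorem casB_at {V : Type} [Fintype V] {H : SimpleGraph V} {r : ℕ} {v : V} {f : V → Fin r}
    {s : Fin r → V} {T : Finset (Fin r)} {E : Sym2 (Fin r) → Finset (Sym2 V)} (h : KD H v f s)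
    (hE : PFam H v f s T E) (J : Finset (Fin r)) (hJ : J ⊆ T)
    (hs : ∀ i ∈ J, ∀ x, x ≠ v → f x = i → x = s i) {w : V} (hdeg : r ≤ {y | H.Adj w y}.ncard)
    (_hw : w ≠ v) (hws : ∀ i, w ≠ s i) (U : Finset (Sym2 V)) (hU : ∀ e, e ∈ U ↔ e ∈ UE H T E) :
    r ≤ (U.filter (fun e => w ∈ e)).card + 2 * (r - J.card) := by
  have hTJ : (T \ J).card ≤ r - J.card := by
    rw [Finset.card_sdiff_of_subset hJ]
    have h1 := Finset.card_le_univ T
    rw [Fintype.card_fin] at h1
    omega
  have key : ({y | H.Adj w y} : Finset V).image (fun y => s(w, y)) ⊆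
      U.filter (fun e => w ∈ e) ∪
        (((T \ J).filter (fun j => f w ∈ T ∧ f w ≠ j)).biUnion
          (fun j => (E s(f w, j)).filter (fun e => w ∈ e))) := by
    intro e he
    obtain ⟨y, hy, rfl⟩ := Finset.mem_image.1 he
    have hy' : H.Adj w y := (Finset.mem_filter.1 hy).2
    by_cases hue : s(w, y) ∈ UE H T E
    · exact Finset.mem_union_left _ (Finset.mem_filter.2 ⟨(hU _).2 hue, Sym2.mem_mk_left w y⟩)
    · apply Finset.mem_union_right
      have hex : ∃ i ∈ T, ∃ j ∈ T, i ≠ j ∧ s(w, y) ∈ E s(i, j) := by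
        by_contra hn
        push Not at hn
        exact hue ⟨hy', fun i hi j hj hij => hn i hi j hj hij⟩
      have hex2 : ∃ j ∈ T, f w ∈ T ∧ f w ≠ j ∧ s(w, y) ∈ E s(f w, j) := by
        obtain ⟨i, hi, j, hj, hij, hm⟩ := hex
        have h2 := (hE.sub i j hi hj hij _ hm).2.2
        rw [Sym2.map_mk, Sym2.eq_iff] at h2
        rcases h2 with ⟨h3, _⟩ | ⟨h3, _⟩
        · rw [h3]
          exact ⟨j, hj, hi, hij, hm⟩
        · rw [h3]
          refine ⟨i, hi, hj, hij.symm, ?_⟩
          rw [Sym2.eq_swap]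
          exact hm
      obtain ⟨j, hj, hi, hij, hm⟩ := hex2
      have hon : On E w s(f w, j) := ⟨_, hm, Sym2.mem_mk_left w y⟩
      have hjJ : j ∉ J := by
        intro hjJ
        rcases sing h hE hi hj hij (hs j hjJ) hon with h4 | h4
        · exact hws _ h4
        · exact hws _ h4
      refine Finset.mem_biUnion.2 ⟨j, Finset.mem_filter.2 ⟨Finset.mem_sdiff.2 ⟨hj, hjJ⟩, hi, hij⟩, ?_⟩
      exact Finset.mem_filter.2 ⟨hm, Sym2.mem_mk_left w y⟩
  have hinj : Function.Injective (fun y : V => s(w, y)) := by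
    intro a b hab
    have hab' : s(w, a) = s(w, b) := hab
    exact Sym2.congr_right.1 hab'
  have h5 := Finset.card_le_card key
  rw [Finset.card_image_of_injective _ hinj] at h5
  have h6 : ({y | H.Adj w y} : Set V).ncard = ({y | H.Adj w y} : Finset V).card := by
    rw [← Set.ncard_coe_finset]
    congr 1
    ext y
    simp
  have h7 : ((((T \ J).filter (fun j => f w ∈ T ∧ f w ≠ j)).biUnion
          (fun j => (E s(f w, j)).filter (fun e => w ∈ e)))).card ≤
      ((T \ J).filter (fun j => f w ∈ T ∧ f w ≠ j)).card * 2 := by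
    apply Finset.card_biUnion_le_card_mul
    intro j hj
    obtain ⟨hj1, hi, hij⟩ := Finset.mem_filter.1 hj
    have h8 := hE.two (f w) j hi (Finset.mem_sdiff.1 hj1).1 hij w
    have h9 : {e | e ∈ E s(f w, j) ∧ w ∈ e} = (((E s(f w, j)).filter (fun e => w ∈ e) : Finset (Sym2 V)) : Set (Sym2 V)) := by
      ext e
      simp
    rw [h9, Set.ncard_coe_finset] at h8
    exact h8
  have h10 := Finset.card_filter_le (T \ J) (fun j => f w ∈ T ∧ f w ≠ j)
  have h11 := Finset.card_union_le (U.filter (fun e => w ∈ e))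
    ((((T \ J).filter (fun j => f w ∈ T ∧ f w ≠ j)).biUnion
          (fun j => (E s(f w, j)).filter (fun e => w ∈ e))))
  rw [h6] at hdeg
  omega

theorem casB {V : Type} [Fintype V] {H : SimpleGraph V} {r : ℕ} {v : V} {f : V → Fin r}
    {s : Fin r → V} {T : Finset (Fin r)} {E : Sym2 (Fin r) → Finset (Sym2 V)} (h : KD H v f s)
    (hE : PFam H v f s T E) (hdeg : ∀ x : V, r ≤ {y | H.Adj x y}.ncard)
    (J : Finset (Fin r)) (hJ : J ⊆ T) (hs : ∀ i ∈ J, ∀ x, x ≠ v → f x = i → x = s i) :
    ((Fintype.card V : ℝ) - 1 - (r : ℝ)) * (2 * (J.card : ℝ) - (r : ℝ)) ≤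
      2 * ((UE H T E).ncard : ℝ) := by
  classical
  obtain ⟨U, hU⟩ : ∃ U : Finset (Sym2 V), ∀ e, e ∈ U ↔ e ∈ UE H T E :=
    ⟨(Set.toFinite (UE H T E)).toFinset, fun e => Set.Finite.mem_toFinset _⟩
  have hUc : (UE H T E).ncard = U.card := by
    rw [← Set.ncard_coe_finset]
    congr 1
    ext e
    rw [Finset.mem_coe, hU]
  have hsi : Function.Injective s := fun i j hij => by
    rw [← h.fs i, ← h.fs j, hij]
  have hv : v ∉ Finset.univ.image s := by
    intro hv
    obtain ⟨i, _, hi⟩ := Finset.mem_image.1 hv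
    exact (h.adj i).ne hi.symm
  have hA : (insert v (Finset.univ.image s)).card = r + 1 := by
    rw [Finset.card_insert_of_notMem hv, Finset.card_image_of_injective _ hsi, Finset.card_univ,
      Fintype.card_fin]
  have hW : ((Finset.univ \ insert v (Finset.univ.image s)).card : ℝ) = (Fintype.card V : ℝ) - 1 - (r : ℝ) := by
    have h1 := Finset.card_sdiff_add_card_eq_card (Finset.subset_univ (insert v (Finset.univ.image s)))
    rw [hA, Finset.card_univ] at h1
    have h2 : (((Finset.univ \ insert v (Finset.univ.image s)).card : ℝ) + ((r : ℝ) + 1)) = (Fintype.card V : ℝ) := by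
      exact_mod_cast h1
    linarith
  have hle : ∀ w ∈ Finset.univ \ insert v (Finset.univ.image s),
      2 * (J.card : ℝ) - (r : ℝ) ≤ ((U.filter (fun e => w ∈ e)).card : ℝ) := by
    intro w hw
    have hw' := (Finset.mem_sdiff.1 hw).2
    rw [Finset.mem_insert, not_or] at hw'
    have h1 := casB_at h hE J hJ hs (hdeg w) hw'.1 (fun i hi => hw'.2 (Finset.mem_image.2
      ⟨i, Finset.mem_univ i, hi.symm⟩)) U hU
    have h2 : J.card ≤ r := by
      have h3 := Finset.card_le_univ J
      rwa [Fintype.card_fin] at h3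
    have h4 : 2 * J.card ≤ (U.filter (fun e => w ∈ e)).card + r := by omega
    have h5 : 2 * (J.card : ℝ) ≤ ((U.filter (fun e => w ∈ e)).card : ℝ) + (r : ℝ) := by
      exact_mod_cast h4
    linarith
  have h6 := Finset.card_nsmul_le_sum _ _ _ hle
  rw [nsmul_eq_mul, hW] at h6
  have h7 := casB_two (Finset.univ \ insert v (Finset.univ.image s)) U
  have h8 : (∑ w ∈ Finset.univ \ insert v (Finset.univ.image s), ((U.filter (fun e => w ∈ e)).card : ℝ)) ≤
      2 * (U.card : ℝ) := by
    exact_mod_cast h7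
  rw [hUc]
  exact h6.trans h8

end Pool.Agent.ALC
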