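import Pool.Agent.ALC.Defs

/-!
# ALC KD: vertex critical graphs, degrees and unique colours

PROOFS.  `exists_kd`: `f` from `h.del v`.  For every colour `i` there is a neighbour of `v` of
colour `i`: otherwise `Function.update f v i` is a proper colouring of `H` with `r` colours.
`vc_deg`: with `exists_kd`, `s` is an injection (`fs`) from `Fin r` into the neighbours of `x`.
`exists_T`: `T = {i | Un H v f s i}`.  The neighbours of `v` are counted by colours: a colour
`i ∈ T` has exactly one, a colour `i ∉ T` has at least two (`s i` and another one), so the degree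
of `v` is at least `#T + 2 (r - #T) = 2 r - #T`.
-/

set_option autoImplicit false

namespace Pool.Agent.ALC

open Pool.Agent.ALB

theorem exists_kd {V : Type} {H : SimpleGraph V} {r : ℕ} (h : VC H r) (v : V) :
    ∃ (f : V → Fin r) (s : Fin r → V), KD H v f s := by
  classical
  obtain ⟨f, hf⟩ := h.del v
  have key : ∀ i : Fin r, ∃ y, H.Adj v y ∧ f y = i := by
    intro i
    by_contra hcon
    push Not at hcon
    refine h.nc ⟨SimpleGraph.Coloring.mk (Function.update f v i) ?_⟩
    intro a b hab
    by_cases ha : a = v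
    · subst ha
      have hb : b ≠ a := hab.ne'
      rw [Function.update_self, Function.update_of_ne hb]
      exact (hcon b hab).symm
    · by_cases hb : b = v
      · subst hb
        rw [Function.update_self, Function.update_of_ne ha]
        exact hcon a hab.symm
      · rw [Function.update_of_ne ha, Function.update_of_ne hb]
        exact hf a b ha hb hab
  choose s hs1 hs2 using key
  exact ⟨f, s, h.nc, hf, hs1, hs2⟩

theorem vc_deg {V : Type} [Fintype V] {H : SimpleGraph V} {r : ℕ} (h : VC H r) (x : V) :
    r ≤ {y | H.Adj x y}.ncard := by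
  obtain ⟨f, s, hk⟩ := exists_kd h x
  have hinj : Function.Injective s := by
    intro i j hij
    rw [← hk.fs i, ← hk.fs j, hij]
  have h1 : (s '' Set.univ).ncard = r := by
    rw [Set.ncard_image_of_injective _ hinj, Set.ncard_univ, Nat.card_eq_fintype_card,
      Fintype.card_fin]
  rw [← h1]
  refine Set.ncard_le_ncard ?_ (Set.toFinite _)
  rintro _ ⟨i, -, rfl⟩
  exact hk.adj i

theorem exists_T {V : Type} [Fintype V] {H : SimpleGraph V} {r : ℕ} {v : V} {f : V → Fin r}
    {s : Fin r → V} (h : KD H v f s) :
    ∃ T : Finset (Fin r), (∀ i ∈ T, Un H v f s i) ∧ 2 * r ≤ {x | H.Adj v x}.ncard + T.card := by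
  classical
  obtain ⟨T, hT⟩ : ∃ T : Finset (Fin r), T = Finset.univ.filter fun i => Un H v f s i := ⟨_, rfl⟩
  obtain ⟨N, hN⟩ : ∃ N : Finset V, N = Finset.univ.filter fun x => H.Adj v x := ⟨_, rfl⟩
  refine ⟨T, fun i hi => by rw [hT] at hi; exact (Finset.mem_filter.1 hi).2, ?_⟩
  have hcard : {x | H.Adj v x}.ncard = N.card := by
    rw [← Set.ncard_coe_finset]
    congr 1
    ext x
    simp [hN]
  have hmemN : ∀ x, x ∈ N ↔ H.Adj v x := fun x => by simp [hN]
  have hfib : N.card = ∑ i : Fin r, (N.filter fun x => f x = i).card :=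
    Finset.card_eq_sum_card_fiberwise fun x _ => Finset.mem_univ _
  have hTc : T.card = ∑ i : Fin r, if i ∈ T then 1 else 0 := by
    rw [Finset.sum_ite_mem, Finset.univ_inter, Finset.sum_const, smul_eq_mul, mul_one]
  have hterm : ∀ i : Fin r, 2 ≤ (N.filter fun x => f x = i).card + if i ∈ T then 1 else 0 := by
    intro i
    have hsi : s i ∈ N.filter fun x => f x = i :=
      Finset.mem_filter.2 ⟨(hmemN _).2 (h.adj i), h.fs i⟩
    by_cases hi : i ∈ T
    · rw [if_pos hi]
      have := Finset.card_pos.2 ⟨_, hsi⟩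
      omega
    · rw [if_neg hi, add_zero]
      have hnu : ¬ Un H v f s i := fun hu => hi (by rw [hT]; exact Finset.mem_filter.2 ⟨Finset.mem_univ _, hu⟩)
      unfold Un at hnu
      push Not at hnu
      obtain ⟨x, hx1, hx2, hx3⟩ := hnu
      have hx : x ∈ N.filter fun x => f x = i := Finset.mem_filter.2 ⟨(hmemN _).2 hx1, hx2⟩
      exact Finset.one_lt_card.2 ⟨x, hx, s i, hsi, hx3⟩
  calc 2 * r = ∑ _i : Fin r, 2 := by
        rw [Finset.sum_const, Finset.card_univ, Fintype.card_fin, smul_eq_mul, mul_comm]
    _ ≤ ∑ i : Fin r, ((N.filter fun x => f x = i).card + if i ∈ T then 1 else 0) :=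
        Finset.sum_le_sum fun i _ => hterm i
    _ = {x | H.Adj v x}.ncard + T.card := by
        rw [Finset.sum_add_distrib, ← hfib, ← hTc, hcard]

end Pool.Agent.ALC
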