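import Pool.Agent.ALC.Kem

/-!
# ALC PF: the family of Kempe paths

PROOF.  For `i < j` in `T`, `kempe` and `SimpleGraph.Reachable.exists_isPath` (or
`Reachable.elim_path`) give a path `P i j : (Bg H v f i j).Walk (s i) (s j)`, `IsPath`.  Let
`E s(i, j)` be its set of edges (`E p = ∅` if `p` is not of this form; for instance
`E p = univ.filter ..` is not available for infinite `V`, so choose for every `p : Sym2 (Fin r)` by
cases: if there are `i < j` in `T` with `p = s(i, j)` then `(P i j).edges.toFinset` (classical
decidability), else `∅`; `i, j` are determined by `p`).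
For `i ≠ j` in `T` either `i < j` or `j < i`; it is convenient to prove first for every path
`P : (Bg H v f i j).Walk (s i) (s j)` (any `i ≠ j`) the five properties for `E = P.edges`, and
to note that they hold for `P.reverse` as well (`Bg H v f i j = Bg H v f j i`,
`Walk.edges_reverse`, `IsPath.reverse`).
* `sub`: an edge of `P` is an edge of `Bg`, so it is in `H`, does not contain `v`, colours `i`, `j`.
* `walk`: `P` mapped to `H` (`Walk.mapLe`/`Walk.map` of the inclusion homomorphism, edges are the
  same).
* `two`: a vertex of a path is on at most two of its edges (for instance induction on the path: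
  `cons h P'`: the first vertex is only on the first edge; for the other vertices use the
  induction hypothesis, where the start vertex of `P'` is on at most one edge of `P'`).
* `one`: the end vertex is on at most one edge (induction or reverse; the start vertex `a` of
  `cons h P'` is not in the support of `P'`).
* `tail`: `s i ≠ s j`, so `P = cons h P'`; `e₀ = s(s i, next)`.  `s i` is not in the support of `P'`,
  so no edge of `P'` contains `s i`, `e₀` is not an edge of `P'`.  A vertex `x ≠ s i` on an edge of
  `P` is in the support of `P'`.  For two such vertices `x, y` the walk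
  `(P'.takeUntil x).reverse.append (P'.takeUntil y)` has edges among those of `P'`.
-/

set_option autoImplicit false

namespace Pool.Agent.ALC

open Pool.Agent.ALB

section paths

variable {V : Type} {B : SimpleGraph V}

/-- at the first vertex of a path there is at most one edge -/
private theorem deg_start {a b : V} (W : B.Walk a b) (hW : W.IsPath) :
    {e | e ∈ W.edges ∧ a ∈ e}.ncard ≤ 1 := by
  cases W with
  | nil => simp
  | @cons _ c _ h P =>
    rw [SimpleGraph.Walk.cons_isPath_iff] at hW
    have hsub : {e | e ∈ (SimpleGraph.Walk.cons h P).edges ∧ a ∈ e} ⊆ {s(a, c)} := by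
      rintro e ⟨he, hae⟩
      rw [SimpleGraph.Walk.edges_cons, List.mem_cons] at he
      rcases he with he | he
      · exact he
      · exact (hW.2 (P.mem_support_of_mem_edges he hae)).elim
    refine (Set.ncard_le_ncard hsub (Set.finite_singleton _)).trans ?_
    rw [Set.ncard_singleton]

/-- a vertex of a path is on at most two edges -/
private theorem deg_two {a b : V} (W : B.Walk a b) (hW : W.IsPath) (x : V) :
    {e | e ∈ W.edges ∧ x ∈ e}.ncard ≤ 2 := by
  induction W with
  | nil => simp
  | @cons a c b h P ih =>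
    by_cases hxa : x = a
    · subst hxa
      exact (deg_start _ hW).trans (by norm_num)
    · rw [SimpleGraph.Walk.cons_isPath_iff] at hW
      by_cases hxc : x = c
      · subst hxc
        have hsub : {e | e ∈ (SimpleGraph.Walk.cons h P).edges ∧ x ∈ e} ⊆
            {s(a, x)} ∪ {e | e ∈ P.edges ∧ x ∈ e} := by
          rintro e ⟨he, hae⟩
          rw [SimpleGraph.Walk.edges_cons, List.mem_cons] at he
          rcases he with he | he
          · exact Or.inl he
          · exact Or.inr ⟨he, hae⟩
        have hfin : {e | e ∈ P.edges ∧ x ∈ e}.Finite :=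
          (List.finite_toSet P.edges).subset (fun e he => he.1)
        refine (Set.ncard_le_ncard hsub ((Set.finite_singleton _).union hfin)).trans ?_
        refine (Set.ncard_union_le _ _).trans ?_
        rw [Set.ncard_singleton]
        have := deg_start P hW.1
        omega
      · have hsub : {e | e ∈ (SimpleGraph.Walk.cons h P).edges ∧ x ∈ e} ⊆
            {e | e ∈ P.edges ∧ x ∈ e} := by
          rintro e ⟨he, hae⟩
          rw [SimpleGraph.Walk.edges_cons, List.mem_cons] at he
          rcases he with he | he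
          · subst he
            rcases Sym2.mem_iff.mp hae with h1 | h1
            · exact (hxa h1).elim
            · exact (hxc h1).elim
          · exact ⟨he, hae⟩
        have hfin : {e | e ∈ P.edges ∧ x ∈ e}.Finite :=
          (List.finite_toSet P.edges).subset (fun e he => he.1)
        exact (Set.ncard_le_ncard hsub hfin).trans (ih hW.1)

/-- at the last vertex of a path there is at most one edge -/
private theorem deg_end {a b : V} (W : B.Walk a b) (hW : W.IsPath) :
    {e | e ∈ W.edges ∧ b ∈ e}.ncard ≤ 1 := by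
  have h1 := deg_start W.reverse hW.reverse
  have h2 : {e | e ∈ W.reverse.edges ∧ b ∈ e} = {e | e ∈ W.edges ∧ b ∈ e} := by
    ext e
    rw [Set.mem_ofPred_eq, Set.mem_ofPred_eq, SimpleGraph.Walk.edges_reverse, List.mem_reverse]
  rwa [h2] at h1

/-- a path without its first edge -/
private theorem path_tail {a b : V} (W : B.Walk a b) (hW : W.IsPath) (hab : a ≠ b) :
    ∃ e₀ ∈ W.edges, ∀ x y, x ≠ a → y ≠ a → (∃ e ∈ W.edges, x ∈ e) → (∃ e ∈ W.edges, y ∈ e) →
      ∃ U : B.Walk x y, ∀ e ∈ U.edges, e ∈ W.edges ∧ e ≠ e₀ := by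
  classical
  cases W with
  | nil => exact (hab rfl).elim
  | @cons _ c _ h P =>
    rw [SimpleGraph.Walk.cons_isPath_iff] at hW
    refine ⟨s(a, c), by rw [SimpleGraph.Walk.edges_cons]; exact List.mem_cons_self, ?_⟩
    have hsup : ∀ x, x ≠ a → (∃ e ∈ (SimpleGraph.Walk.cons h P).edges, x ∈ e) → x ∈ P.support := by
      rintro x hx ⟨e, he, hxe⟩
      rw [SimpleGraph.Walk.edges_cons, List.mem_cons] at he
      rcases he with he | he
      · subst he
        rcases Sym2.mem_iff.mp hxe with h1 | h1
        · exact (hx h1).elim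
        · rw [h1]
          exact P.start_mem_support
      · exact P.mem_support_of_mem_edges he hxe
    intro x y hx hy hx' hy'
    have h1 := hsup x hx hx'
    have h2 := hsup y hy hy'
    refine ⟨(P.takeUntil x h1).reverse.append (P.takeUntil y h2), ?_⟩
    intro e he
    rw [SimpleGraph.Walk.edges_append, List.mem_append, SimpleGraph.Walk.edges_reverse,
      List.mem_reverse] at he
    have h3 : e ∈ P.edges := by
      rcases he with he | he
      · exact P.edges_takeUntil_subset_edges h1 he
      · exact P.edges_takeUntil_subset_edges h2 he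
    refine ⟨by rw [SimpleGraph.Walk.edges_cons]; exact List.mem_cons_of_mem _ h3, ?_⟩
    rintro rfl
    exact hW.2 (P.mem_support_of_mem_edges h3 (Sym2.mem_mk_left _ _))

end paths

private theorem bg_symm {V : Type} (H : SimpleGraph V) {r : ℕ} (v : V) (f : V → Fin r)
    (i j : Fin r) : Bg H v f i j = Bg H v f j i := by
  ext x y
  constructor
  · rintro ⟨h1, h2, h3, h4⟩
    exact ⟨h1, h2, h3, h4.symm⟩
  · rintro ⟨h1, h2, h3, h4⟩
    exact ⟨h1, h2, h3, h4.symm⟩

private theorem bg_le {V : Type} (H : SimpleGraph V) {r : ℕ} (v : V) (f : V → Fin r)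
    (i j : Fin r) : Bg H v f i j ≤ H := fun _ _ h => h.1

/-- the choice of the paths -/
private theorem exists_paths {V : Type} {H : SimpleGraph V} {r : ℕ} {v : V} {f : V → Fin r}
    {s : Fin r → V} (h : KD H v f s) (T : Finset (Fin r)) (hT : ∀ i ∈ T, Un H v f s i) :
    ∃ E : Sym2 (Fin r) → Finset (Sym2 V), ∀ i j, i ∈ T → j ∈ T → i ≠ j →
      ∃ W : (Bg H v f i j).Walk (s i) (s j), W.IsPath ∧ ∀ e, e ∈ E s(i, j) ↔ e ∈ W.edges := by
  classical
  have key : ∀ p : Sym2 (Fin r), ∃ F : Finset (Sym2 V), ∀ i j, i ∈ T → j ∈ T → i ≠ j →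
      p = s(i, j) →
      ∃ W : (Bg H v f i j).Walk (s i) (s j), W.IsPath ∧ ∀ e, e ∈ F ↔ e ∈ W.edges := by
    intro p
    induction p using Sym2.ind with
    | _ a b =>
      by_cases hab : a ∈ T ∧ b ∈ T ∧ a ≠ b
      · obtain ⟨ha, hb, hne⟩ := hab
        obtain ⟨W, hW⟩ := (kempe h (hT a ha) (hT b hb) hne).exists_isPath
        refine ⟨W.edges.toFinset, ?_⟩
        intro i j hi hj hij hp
        rcases Sym2.eq_iff.mp hp with ⟨h1, h2⟩ | ⟨h1, h2⟩
        · subst h1 h2
          exact ⟨W, hW, fun e => List.mem_toFinset⟩
        · subst h1 h2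
          rw [bg_symm H v f b a]
          refine ⟨W.reverse, hW.reverse, fun e => ?_⟩
          rw [SimpleGraph.Walk.edges_reverse, List.mem_reverse]
          exact List.mem_toFinset
      · refine ⟨∅, ?_⟩
        intro i j hi hj hij hp
        exfalso
        apply hab
        rcases Sym2.eq_iff.mp hp with ⟨h1, h2⟩ | ⟨h1, h2⟩
        · subst h1 h2
          exact ⟨hi, hj, hij⟩
        · subst h1 h2
          exact ⟨hj, hi, hij.symm⟩
  choose E hE using key
  exact ⟨E, fun i j hi hj hij => hE s(i, j) i j hi hj hij rfl⟩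

theorem exists_pfam {V : Type} {H : SimpleGraph V} {r : ℕ} {v : V} {f : V → Fin r}
    {s : Fin r → V} (h : KD H v f s) (T : Finset (Fin r)) (hT : ∀ i ∈ T, Un H v f s i) :
    ∃ E : Sym2 (Fin r) → Finset (Sym2 V), PFam H v f s T E := by
  obtain ⟨E, hE⟩ := exists_paths h T hT
  refine ⟨E, ⟨?_, ?_, ?_, ?_, ?_⟩⟩
  · intro i j hi hj hij e he
    obtain ⟨W, hW, hWe⟩ := hE i j hi hj hij
    have h1 := W.edges_subset_edgeSet ((hWe e).mp he)
    induction e using Sym2.ind with
    | _ x y =>
      obtain ⟨g1, g2, g3, g4⟩ := h1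
      refine ⟨g1, ?_, ?_⟩
      · intro hv
        rcases Sym2.mem_iff.mp hv with h2 | h2
        · exact g2 h2.symm
        · exact g3 h2.symm
      · rw [Sym2.map_mk, Sym2.eq_iff]
        exact g4
  · intro i j hi hj hij
    obtain ⟨W, hW, hWe⟩ := hE i j hi hj hij
    refine ⟨W.mapLe (bg_le H v f i j), fun e he => ?_⟩
    rw [SimpleGraph.Walk.edges_mapLe_eq_edges] at he
    exact (hWe e).mpr he
  · intro i j hi hj hij x
    obtain ⟨W, hW, hWe⟩ := hE i j hi hj hij
    have h1 := deg_two W hW x
    simpa only [hWe] using h1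
  · intro i j hi hj hij
    obtain ⟨W, hW, hWe⟩ := hE i j hi hj hij
    have h1 := deg_end W hW
    simpa only [hWe] using h1
  · intro i j hi hj hij
    obtain ⟨W, hW, hWe⟩ := hE i j hi hj hij
    have hsij : s i ≠ s j := fun h2 => hij (by rw [← h.fs i, ← h.fs j, h2])
    obtain ⟨e₀, he₀, h1⟩ := path_tail W hW hsij
    refine ⟨e₀, (hWe e₀).mpr he₀, ?_⟩
    intro x y hx hy hx' hy'
    obtain ⟨U, hU⟩ := h1 x y hx hy
      (by obtain ⟨e, he, hxe⟩ := hx'; exact ⟨e, (hWe e).mp he, hxe⟩)
      (by obtain ⟨e, he, hxe⟩ := hy'; exact ⟨e, (hWe e).mp he, hxe⟩)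
    refine ⟨U.mapLe (bg_le H v f i j), fun e he => ?_⟩
    rw [SimpleGraph.Walk.edges_mapLe_eq_edges] at he
    exact ⟨(hWe e).mpr (hU e he).1, (hU e he).2⟩

end Pool.Agent.ALC
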