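import Pool.Agent.ALC.Defs

/-!
# ALC SING: paths to a colour class with one vertex

PROOF.  Let `e ∈ E s(i, j)` with `w ∈ e`.  Every `e' ∈ E s(i, j)` has one end of colour `i` and one
end `y` of colour `j` (`e'.map f = s(i, j)`), `y ≠ v` (`v ∉ e'`), so `y = s j` by `hs`.  So all
elements of `E s(i, j)` contain `s j`, and by `PFam.one` there is only one, `e`.  The walk of
`PFam.walk` from `s i` to `s j` (`s i ≠ s j`, their colours differ) has an edge containing `s i`;
it is in `E s(i, j)`, so `s i ∈ e`, and `e = s(s i, s j)`.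
-/

set_option autoImplicit false

namespace Pool.Agent.ALC

open Pool.Agent.ALB

private theorem sing_edge {V : Type} {H : SimpleGraph V} {a b : V} (W : H.Walk a b)
    (h : a ≠ b) : ∃ e ∈ W.edges, a ∈ e := by
  cases W with
  | nil => exact absurd rfl h
  | @cons _ u _ hadj q => exact ⟨s(a, u), by simp, Sym2.mem_mk_left _ _⟩

theorem sing {V : Type} {H : SimpleGraph V} {r : ℕ} {v : V} {f : V → Fin r} {s : Fin r → V}
    {T : Finset (Fin r)} {E : Sym2 (Fin r) → Finset (Sym2 V)} (h : KD H v f s)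
    (hE : PFam H v f s T E) {i j : Fin r} (hi : i ∈ T) (hj : j ∈ T) (hij : i ≠ j)
    (hs : ∀ x, x ≠ v → f x = j → x = s j) {w : V} (hw : On E w s(i, j)) :
    w = s i ∨ w = s j := by
  classical
  have key : ∀ e ∈ E s(i, j), s j ∈ e := by
    intro e he
    obtain ⟨-, hv, hm⟩ := hE.sub i j hi hj hij e he
    induction e using Sym2.ind with
    | _ x y =>
      rw [Sym2.map_mk] at hm
      have hx : x ≠ v := fun e' => hv (by rw [e']; exact Sym2.mem_mk_left v y)
      have hy : y ≠ v := fun e' => hv (by rw [e']; exact Sym2.mem_mk_right x v)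
      rcases Sym2.eq_iff.1 hm with ⟨-, h2⟩ | ⟨h1, -⟩
      · rw [← hs y hy h2]
        exact Sym2.mem_mk_right x y
      · rw [← hs x hx h1]
        exact Sym2.mem_mk_left x y
  have hfin : {e | e ∈ E s(i, j) ∧ s j ∈ e}.Finite :=
    (E s(i, j)).finite_toSet.subset fun e he => he.1
  have huni : ∀ e ∈ E s(i, j), ∀ e' ∈ E s(i, j), e = e' := fun e he e' he' =>
    (Set.ncard_le_one hfin).1 (hE.one i j hi hj hij) e ⟨he, key e he⟩ e' ⟨he', key e' he'⟩
  obtain ⟨W, hW⟩ := hE.walk i j hi hj hij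
  have hne : s i ≠ s j := fun e => hij (by rw [← h.fs i, ← h.fs j, e])
  have hsi : ∃ e ∈ E s(i, j), s i ∈ e := by
    obtain ⟨e, h1, h2⟩ := sing_edge W hne
    exact ⟨e, hW e h1, h2⟩
  obtain ⟨e', he', hsie⟩ := hsi
  obtain ⟨e, he, hwe⟩ := hw
  have hee : e = e' := huni e he e' he'
  subst hee
  have h2 : e = s(s i, s j) := (Sym2.mem_and_mem_iff hne).1 ⟨hsie, key e he⟩
  rw [h2] at hwe
  exact Sym2.mem_iff.1 hwe

end Pool.Agent.ALC
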