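import Pool.Agent.ALC.Good
import Pool.Agent.ALC.Sing

/-!
# ALC SPLIT: the structure if almost all edges are on paths and almost all pairs are rigid

PROOF.  For a colour `i` let `n_i = #{l | (i, l) ∈ NR}` and
`u_i = #{e ∈ UE | ∃ w ∈ e, w ≠ v ∧ f w = i}`.  `∑ n_i = #NR ≤ θ² r²`, `∑ u_i ≤ 2 #UE ≤ 2 θ² r²`
(an edge has two ends).  Call `i ∈ T` good if `n_i ≤ θ r` and `u_i ≤ θ r`; fewer than `θ r`
(at most `θ r`) colours have `n_i > θ r`, at most `2 θ r` colours have `u_i > θ r`.  So the set `Gd`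
of good colours has `#Gd ≥ #T - 3 θ r`.
For good `i` and a vertex `w ≠ v`, `f w = i`, `w ≠ s i`: the number of elements of `UE` at `w` is at
most `u_i ≤ θ r`, so `2 n_i + .. + 2 ≤ 3 θ r + 2 < r` (`θ ≤ 1/8`, `r ≥ 16`) and `good` gives
(*) `#{j ∈ T | j ≠ i ∧ ¬ On E w s(i, j)} ≤ θ r`.
Let `J₂` be the set of the good `i` which have such a vertex `w = x i` (choose one; `x i = s i` for
the other `i`), `J₁` the set of the other good colours; for `j ∈ J₁` all `x ≠ v` of colour `j` are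
`s j`.
If `J₂ = ∅` the second alternative holds with `J = Gd`.
If `i ∈ J₂` then for all `j ∈ J₁` we have `¬ On E (x i) s(i, j)` (`sing`: otherwise `x i = s i` or
`x i = s j`; the colours of `x i` and `s j` differ), so `#J₁ ≤ θ r` by (*), and
`#J₂ ≥ #T - 4 θ r`.  First alternative with `J = J₂`: a pair `(i, j)` in the set has `i ∉ J` or
`j ∉ J` (at most `2 r (r - #J) ≤ 2 r (r - #T) + 8 θ r²` pairs), or `i = j` (`r` pairs), or
`i, j ∈ J`, `i ≠ j` and `¬ On E (x i) s(i, j)` or `¬ On E (x j) s(i, j)`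
(at most `2 · r · θ r` pairs by (*)).
-/

set_option autoImplicit false

namespace Pool.Agent.ALC

open Pool.Agent.ALB

/-- counting pairs by the first entry -/
theorem ncard_pairs {r : ℕ} (P : Fin r → Fin r → Prop) :
    {p : Fin r × Fin r | P p.1 p.2}.ncard = ∑ i, {j | P i j}.ncard := by
  classical
  rw [Set.ncard_eq_toFinset_card']
  have h1 : ∀ i, {j | P i j}.ncard = ∑ j, if P i j then 1 else 0 := by
    intro i
    rw [Set.ncard_eq_toFinset_card', ← Finset.card_filter]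
    congr 1
    ext j
    simp
  simp only [h1]
  rw [← Fintype.sum_prod_type', ← Finset.card_filter]
  congr 1
  ext p
  simp

theorem pairs_le {r : ℕ} (P : Fin r → Fin r → Prop) (m : ℝ)
    (h : ∀ i, ({j | P i j}.ncard : ℝ) ≤ m) :
    ({p : Fin r × Fin r | P p.1 p.2}.ncard : ℝ) ≤ (r : ℝ) * m := by
  rw [ncard_pairs, Nat.cast_sum]
  refine (Finset.sum_le_sum fun i _ => h i).trans ?_
  simp

theorem pairs_le' {r : ℕ} (P : Fin r → Fin r → Prop) (m : ℝ)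
    (h : ∀ j, ({i | P i j}.ncard : ℝ) ≤ m) :
    ({p : Fin r × Fin r | P p.1 p.2}.ncard : ℝ) ≤ (r : ℝ) * m := by
  refine le_trans ?_ (pairs_le (fun i j => P j i) m h)
  norm_cast
  refine Set.ncard_le_ncard_of_injOn (fun p => (p.2, p.1)) ?_ ?_ (Set.toFinite _)
  · intro p hp
    exact hp
  · rintro ⟨a, b⟩ - ⟨c, d⟩ - h'
    simp only [Prod.mk.injEq] at h' ⊢
    exact ⟨h'.2, h'.1⟩

/-- the colours at unused edges, counted -/
theorem sum_ends_le {V : Type} [Fintype V] {r : ℕ} (U : Set (Sym2 V)) (v : V) (f : V → Fin r) :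
    ∑ i, {e | e ∈ U ∧ ∃ w ∈ e, w ≠ v ∧ f w = i}.ncard ≤ 2 * U.ncard := by
  classical
  have h1 : ∀ i, {e | e ∈ U ∧ ∃ w ∈ e, w ≠ v ∧ f w = i}.ncard =
      ∑ e : Sym2 V, if (e ∈ U ∧ ∃ w ∈ e, w ≠ v ∧ f w = i) then 1 else 0 := by
    intro i
    rw [Set.ncard_eq_toFinset_card', ← Finset.card_filter]
    congr 1
    ext e
    simp
  have h2 : U.ncard = ∑ e : Sym2 V, if e ∈ U then 1 else 0 := by
    rw [Set.ncard_eq_toFinset_card', ← Finset.card_filter]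
    congr 1
    ext e
    simp
  simp only [h1]
  rw [Finset.sum_comm, h2, Finset.mul_sum]
  refine Finset.sum_le_sum fun e _ => ?_
  by_cases he : e ∈ U
  · simp only [he, true_and, if_true, mul_one]
    rw [← Finset.card_filter]
    induction e using Sym2.ind with
    | _ a b =>
      have h3 : (Finset.univ.filter fun i => ∃ w ∈ s(a, b), w ≠ v ∧ f w = i) ⊆ {f a, f b} := by
        intro i hi
        rw [Finset.mem_filter] at hi
        obtain ⟨-, w, hw, -, hfw⟩ := hi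
        rw [Sym2.mem_iff] at hw
        rw [Finset.mem_insert, Finset.mem_singleton]
        rcases hw with rfl | rfl
        · exact Or.inl hfw.symm
        · exact Or.inr hfw.symm
      exact (Finset.card_le_card h3).trans Finset.card_le_two
  · simp [he]

/-- Markov's inequality for counting -/
theorem markov {r : ℕ} (n : Fin r → ℕ) {B θ : ℝ} (h : ((∑ i, n i : ℕ) : ℝ) ≤ B) :
    ((Finset.univ.filter fun i => θ < (n i : ℝ)).card : ℝ) * θ ≤ B := by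
  classical
  refine le_trans ?_ h
  rw [Nat.cast_sum, ← nsmul_eq_mul, ← Finset.sum_const]
  refine (Finset.sum_le_sum fun i hi => ((Finset.mem_filter.1 hi).2).le).trans ?_
  exact Finset.sum_le_sum_of_subset_of_nonneg (Finset.filter_subset _ _)
    fun i _ _ => Nat.cast_nonneg _

theorem split {V : Type} [Fintype V] {H : SimpleGraph V} {r : ℕ} {v : V} {f : V → Fin r}
    {s : Fin r → V} {T : Finset (Fin r)} {E : Sym2 (Fin r) → Finset (Sym2 V)} (h : KD H v f s)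
    (hT : ∀ i ∈ T, Un H v f s i) (hE : PFam H v f s T E)
    (hdeg : ∀ x : V, r ≤ {y | H.Adj x y}.ncard) {θ : ℝ} (hθ : 0 < θ) (hθ1 : θ ≤ 1 / 8)
    (hr : 16 ≤ r) (hU : ((UE H T E).ncard : ℝ) ≤ θ ^ 2 * (r : ℝ) ^ 2)
    (hN : ((NR H v f s T E).ncard : ℝ) ≤ θ ^ 2 * (r : ℝ) ^ 2) :
    (∃ (J : Finset (Fin r)) (x : Fin r → V), J ⊆ T ∧
      (∀ i ∈ J, x i ≠ v ∧ f (x i) = i ∧ x i ≠ s i) ∧
      ({p : Fin r × Fin r | ¬ (p.1 ∈ J ∧ p.2 ∈ J ∧ p.1 ≠ p.2 ∧ On E (x p.1) s(p.1, p.2) ∧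
          On E (x p.2) s(p.1, p.2))}.ncard : ℝ) ≤
        2 * ((r : ℝ) - (T.card : ℝ)) * (r : ℝ) + 12 * θ * (r : ℝ) ^ 2 + (r : ℝ)) ∨
    (∃ J : Finset (Fin r), J ⊆ T ∧ (T.card : ℝ) - 3 * θ * (r : ℝ) ≤ (J.card : ℝ) ∧
      ∀ i ∈ J, ∀ x, x ≠ v → f x = i → x = s i) := by
  classical
  have hr0 : (16 : ℝ) ≤ (r : ℝ) := by exact_mod_cast hr
  have hrp : (0 : ℝ) < (r : ℝ) := by linarith
  have hθr : 0 < θ * (r : ℝ) := mul_pos hθ hrp
  set n : Fin r → ℕ := fun i => {l | (i, l) ∈ NR H v f s T E}.ncard with hn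
  set u : Fin r → ℕ := fun i => {e | e ∈ UE H T E ∧ ∃ w ∈ e, w ≠ v ∧ f w = i}.ncard with hu
  have hsn : ∑ i, n i = (NR H v f s T E).ncard := by
    rw [hn, ← ncard_pairs (fun i l => (i, l) ∈ NR H v f s T E)]
    rfl
  have hsu : ∑ i, u i ≤ 2 * (UE H T E).ncard := sum_ends_le _ _ _
  set B1 : Finset (Fin r) := Finset.univ.filter fun i => θ * (r : ℝ) < (n i : ℝ) with hB1
  set B2 : Finset (Fin r) := Finset.univ.filter fun i => θ * (r : ℝ) < (u i : ℝ) with hB2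
  have hb1 : (B1.card : ℝ) ≤ θ * (r : ℝ) := by
    have h1 := markov n (B := θ ^ 2 * (r : ℝ) ^ 2) (θ := θ * (r : ℝ)) (by rw [hsn]; exact hN)
    have h2 : (B1.card : ℝ) * (θ * (r : ℝ)) ≤ (θ * (r : ℝ)) * (θ * (r : ℝ)) := by
      refine h1.trans (le_of_eq ?_)
      ring
    exact le_of_mul_le_mul_right h2 hθr
  have hb2 : (B2.card : ℝ) ≤ 2 * (θ * (r : ℝ)) := by
    have h0 : ((∑ i, u i : ℕ) : ℝ) ≤ 2 * (θ ^ 2 * (r : ℝ) ^ 2) := by
      have : ((∑ i, u i : ℕ) : ℝ) ≤ 2 * ((UE H T E).ncard : ℝ) := by exact_mod_cast hsu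
      linarith
    have h1 := markov u (B := 2 * (θ ^ 2 * (r : ℝ) ^ 2)) (θ := θ * (r : ℝ)) h0
    have h2 : (B2.card : ℝ) * (θ * (r : ℝ)) ≤ (2 * (θ * (r : ℝ))) * (θ * (r : ℝ)) := by
      refine h1.trans (le_of_eq ?_)
      ring
    exact le_of_mul_le_mul_right h2 hθr
  set Gd : Finset (Fin r) := T.filter fun i => (n i : ℝ) ≤ θ * (r : ℝ) ∧ (u i : ℝ) ≤ θ * (r : ℝ)
    with hGd
  have hGT : Gd ⊆ T := Finset.filter_subset _ _
  have hGc : (T.card : ℝ) - 3 * θ * (r : ℝ) ≤ (Gd.card : ℝ) := by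
    have h1 : T ⊆ Gd ∪ (B1 ∪ B2) := by
      intro i hi
      by_cases hg : (n i : ℝ) ≤ θ * (r : ℝ) ∧ (u i : ℝ) ≤ θ * (r : ℝ)
      · exact Finset.mem_union_left _ (Finset.mem_filter.2 ⟨hi, hg⟩)
      · refine Finset.mem_union_right _ ?_
        rw [not_and_or, not_le, not_le] at hg
        rcases hg with hg | hg
        · exact Finset.mem_union_left _ (Finset.mem_filter.2 ⟨Finset.mem_univ _, hg⟩)
        · exact Finset.mem_union_right _ (Finset.mem_filter.2 ⟨Finset.mem_univ _, hg⟩)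
    have h2 : T.card ≤ Gd.card + (B1.card + B2.card) :=
      (Finset.card_le_card h1).trans ((Finset.card_union_le _ _).trans
        (Nat.add_le_add_left (Finset.card_union_le _ _) _))
    have h3 : (T.card : ℝ) ≤ (Gd.card : ℝ) + ((B1.card : ℝ) + (B2.card : ℝ)) := by
      exact_mod_cast h2
    linarith
  -- the vertices of good colours are on almost all paths
  have hgood : ∀ i ∈ Gd, ∀ w, w ≠ v → f w = i → w ≠ s i →
      ({j | j ∈ T ∧ j ≠ i ∧ ¬ On E w s(i, j)}.ncard : ℝ) ≤ θ * (r : ℝ) := by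
    intro i hi w hwv hfw hws
    obtain ⟨hiT, hin, hiu⟩ := Finset.mem_filter.1 hi
    have h1 : {e | e ∈ UE H T E ∧ w ∈ e}.ncard ≤ u i :=
      Set.ncard_le_ncard (fun e he => ⟨he.1, w, he.2, hwv, hfw⟩) (Set.toFinite _)
    have h1' : ({e | e ∈ UE H T E ∧ w ∈ e}.ncard : ℝ) ≤ θ * (r : ℝ) :=
      le_trans (by exact_mod_cast h1) hiu
    have hθr8 : θ * (r : ℝ) ≤ 1 / 8 * (r : ℝ) := mul_le_mul_of_nonneg_right hθ1 hrp.le
    have h2 : 2 * {l | (i, l) ∈ NR H v f s T E}.ncard + {e | e ∈ UE H T E ∧ w ∈ e}.ncard + 2 < r := by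
      have h3 : (2 * ({l | (i, l) ∈ NR H v f s T E}.ncard : ℝ) +
          ({e | e ∈ UE H T E ∧ w ∈ e}.ncard : ℝ) + 2 : ℝ) < (r : ℝ) := by
        have h4 : (({l | (i, l) ∈ NR H v f s T E}.ncard : ℕ) : ℝ) ≤ θ * (r : ℝ) := hin
        linarith
      exact_mod_cast h3
    have h3 := good h hT hE hdeg hiT hwv hfw hws h2
    exact le_trans (by exact_mod_cast h3) h1'
  set J2 : Finset (Fin r) := Gd.filter fun i => ∃ w, w ≠ v ∧ f w = i ∧ w ≠ s i with hJ2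
  by_cases hJe : J2 = ∅
  · right
    refine ⟨Gd, hGT, hGc, ?_⟩
    intro i hi x hxv hfx
    by_contra hxs
    have : i ∈ J2 := Finset.mem_filter.2 ⟨hi, x, hxv, hfx, hxs⟩
    rw [hJe] at this
    exact absurd this (Finset.notMem_empty _)
  · left
    obtain ⟨i0, hi0⟩ := Finset.nonempty_iff_ne_empty.2 hJe
    have hx : ∀ i, ∃ w, i ∈ J2 → w ≠ v ∧ f w = i ∧ w ≠ s i := by
      intro i
      by_cases hi : i ∈ J2
      · obtain ⟨-, w, hw⟩ := Finset.mem_filter.1 hi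
        exact ⟨w, fun _ => hw⟩
      · exact ⟨v, fun h' => absurd h' hi⟩
    choose x hx using hx
    have hJG : J2 ⊆ Gd := Finset.filter_subset _ _
    -- the other good colours
    have hJ1 : ((Gd \ J2).card : ℝ) ≤ θ * (r : ℝ) := by
      obtain ⟨hxv, hfx, hxs⟩ := hx i0 hi0
      refine le_trans ?_ (hgood i0 (hJG hi0) (x i0) hxv hfx hxs)
      norm_cast
      rw [← Set.ncard_coe_finset]
      refine Set.ncard_le_ncard ?_ (Set.toFinite _)
      intro j hj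
      rw [Finset.mem_coe, Finset.mem_sdiff] at hj
      have hji : j ≠ i0 := fun h' => hj.2 (h' ▸ hi0)
      refine ⟨hGT hj.1, hji, ?_⟩
      intro hon
      have hs : ∀ y, y ≠ v → f y = j → y = s j := by
        intro y hyv hfy
        by_contra hys
        exact hj.2 (Finset.mem_filter.2 ⟨hj.1, y, hyv, hfy, hys⟩)
      rcases sing h hE (hGT (hJG hi0)) (hGT hj.1) (Ne.symm hji) hs hon with h1 | h1
      · exact hxs h1
      · apply hji
        rw [← h.fs j, ← h1, hfx]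
    have hJc : (T.card : ℝ) - 4 * θ * (r : ℝ) ≤ (J2.card : ℝ) := by
      have h1 : (Gd \ J2).card + J2.card = Gd.card := Finset.card_sdiff_add_card_eq_card hJG
      have h2 : ((Gd \ J2).card : ℝ) + (J2.card : ℝ) = (Gd.card : ℝ) := by exact_mod_cast h1
      linarith
    refine ⟨J2, x, hJG.trans hGT, hx, ?_⟩
    -- the count
    have hcompl : ({j : Fin r | j ∉ J2}.ncard : ℝ) ≤ (r : ℝ) - (J2.card : ℝ) := by
      have h1 : {j : Fin r | j ∉ J2} = ((J2ᶜ : Finset (Fin r)) : Set (Fin r)) := by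
        ext j
        simp
      rw [h1, Set.ncard_coe_finset, Finset.card_compl, Fintype.card_fin,
        Nat.cast_sub (by simpa using Finset.card_le_univ J2)]
    have c1 : ({p : Fin r × Fin r | p.2 ∉ J2}.ncard : ℝ) ≤ (r : ℝ) * ((r : ℝ) - (J2.card : ℝ)) :=
      pairs_le (fun _ j => j ∉ J2) _ fun _ => hcompl
    have c2 : ({p : Fin r × Fin r | p.1 ∉ J2}.ncard : ℝ) ≤ (r : ℝ) * ((r : ℝ) - (J2.card : ℝ)) :=
      pairs_le' (fun i _ => i ∉ J2) _ fun _ => hcompl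
    have c3 : ({p : Fin r × Fin r | p.1 = p.2}.ncard : ℝ) ≤ (r : ℝ) * 1 := by
      refine pairs_le (fun i j => i = j) _ fun i => ?_
      have h1 : {j : Fin r | i = j} = {i} := by
        ext j
        simp [eq_comm]
      rw [h1]
      simp
    have c4 : ({p : Fin r × Fin r | p.1 ∈ J2 ∧ p.2 ∈ J2 ∧ p.1 ≠ p.2 ∧
        ¬ On E (x p.1) s(p.1, p.2)}.ncard : ℝ) ≤ (r : ℝ) * (θ * (r : ℝ)) := by
      refine pairs_le (fun i j => i ∈ J2 ∧ j ∈ J2 ∧ i ≠ j ∧ ¬ On E (x i) s(i, j)) _ fun i => ?_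
      by_cases hi : i ∈ J2
      · obtain ⟨hxv, hfx, hxs⟩ := hx i hi
        refine le_trans ?_ (hgood i (hJG hi) (x i) hxv hfx hxs)
        norm_cast
        refine Set.ncard_le_ncard ?_ (Set.toFinite _)
        rintro j ⟨-, hj, hij, hon⟩
        exact ⟨hGT (hJG hj), Ne.symm hij, hon⟩
      · have h1 : {j : Fin r | i ∈ J2 ∧ j ∈ J2 ∧ i ≠ j ∧ ¬ On E (x i) s(i, j)} = ∅ := by
          ext j
          simp [hi]
        rw [h1]
        simpa using hθr.le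
    have c5 : ({p : Fin r × Fin r | p.1 ∈ J2 ∧ p.2 ∈ J2 ∧ p.1 ≠ p.2 ∧
        ¬ On E (x p.2) s(p.1, p.2)}.ncard : ℝ) ≤ (r : ℝ) * (θ * (r : ℝ)) := by
      refine pairs_le' (fun i j => i ∈ J2 ∧ j ∈ J2 ∧ i ≠ j ∧ ¬ On E (x j) s(i, j)) _ fun j => ?_
      by_cases hj : j ∈ J2
      · obtain ⟨hxv, hfx, hxs⟩ := hx j hj
        refine le_trans ?_ (hgood j (hJG hj) (x j) hxv hfx hxs)
        norm_cast
        refine Set.ncard_le_ncard ?_ (Set.toFinite _)
        rintro i ⟨hi, -, hij, hon⟩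
        refine ⟨hGT (hJG hi), hij, ?_⟩
        rw [Sym2.eq_swap]
        exact hon
      · have h1 : {i : Fin r | i ∈ J2 ∧ j ∈ J2 ∧ i ≠ j ∧ ¬ On E (x j) s(i, j)} = ∅ := by
          ext i
          simp [hj]
        rw [h1]
        simpa using hθr.le
    have hsub : {p : Fin r × Fin r | ¬ (p.1 ∈ J2 ∧ p.2 ∈ J2 ∧ p.1 ≠ p.2 ∧
        On E (x p.1) s(p.1, p.2) ∧ On E (x p.2) s(p.1, p.2))} ⊆
        {p : Fin r × Fin r | p.2 ∉ J2} ∪ ({p : Fin r × Fin r | p.1 ∉ J2} ∪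
        ({p : Fin r × Fin r | p.1 = p.2} ∪ ({p : Fin r × Fin r | p.1 ∈ J2 ∧ p.2 ∈ J2 ∧ p.1 ≠ p.2 ∧
        ¬ On E (x p.1) s(p.1, p.2)} ∪ {p : Fin r × Fin r | p.1 ∈ J2 ∧ p.2 ∈ J2 ∧ p.1 ≠ p.2 ∧
        ¬ On E (x p.2) s(p.1, p.2)}))) := by
      intro p hp
      simp only [Set.mem_ofPred_eq, Set.mem_union] at hp ⊢
      tauto
    have h1 := Set.ncard_le_ncard hsub (Set.toFinite _)
    have h2 := h1.trans ((Set.ncard_union_le _ _).trans (Nat.add_le_add_left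
      ((Set.ncard_union_le _ _).trans (Nat.add_le_add_left
      ((Set.ncard_union_le _ _).trans (Nat.add_le_add_left (Set.ncard_union_le _ _) _)) _)) _))
    have h3 : ({p : Fin r × Fin r | ¬ (p.1 ∈ J2 ∧ p.2 ∈ J2 ∧ p.1 ≠ p.2 ∧
        On E (x p.1) s(p.1, p.2) ∧ On E (x p.2) s(p.1, p.2))}.ncard : ℝ) ≤
        ({p : Fin r × Fin r | p.2 ∉ J2}.ncard : ℝ) + (({p : Fin r × Fin r | p.1 ∉ J2}.ncard : ℝ) +
        (({p : Fin r × Fin r | p.1 = p.2}.ncard : ℝ) +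
        (({p : Fin r × Fin r | p.1 ∈ J2 ∧ p.2 ∈ J2 ∧ p.1 ≠ p.2 ∧
        ¬ On E (x p.1) s(p.1, p.2)}.ncard : ℝ) +
        ({p : Fin r × Fin r | p.1 ∈ J2 ∧ p.2 ∈ J2 ∧ p.1 ≠ p.2 ∧
        ¬ On E (x p.2) s(p.1, p.2)}.ncard : ℝ)))) := by
      exact_mod_cast h2
    refine h3.trans ?_
    have h4 : (r : ℝ) * ((r : ℝ) - (J2.card : ℝ)) ≤
        (r : ℝ) * ((r : ℝ) - (T.card : ℝ) + 4 * θ * (r : ℝ)) :=
      mul_le_mul_of_nonneg_left (by linarith) hrp.le
    have h5 : 0 ≤ θ * (r : ℝ) ^ 2 := by positivity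
    nlinarith [c1, c2, c3, c4, c5, h4, h5]

end Pool.Agent.ALC
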