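import Pool.Agent.ALC.Cas1
import Pool.Agent.ALC.Cas2
import Pool.Agent.ALC.CasA
import Pool.Agent.ALC.CasB
import Pool.Agent.ALC.Split
import Pool.Agent.ALC.Pf
import Pool.Agent.ALC.Kd

/-!
# ALC RA: the case of at least `(1+g) r` vertices

PROOF.  Let `ηA, rA` be the numbers of `casA` for `C`, `θ = min (1/8) (min (g/8) (ηA/48))`, `η₁, r₁`
the numbers of `cas1` and `η₂, r₂` the ones of `cas2`, both for `C` and `ρ = θ²`.
`ε = min (min η₁ η₂) (min (1/16) (ηA/8))`, `r₀ = max` of `rA, r₁, r₂, 16, ⌈2/ηA⌉, ⌈2/g⌉`.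
Given `H, D, r, v`: `exists_kd`, `exists_T` give `f, s, T` with `2 r ≤ deg v + #T`, so
`r - #T ≤ ε r`; `exists_pfam` gives `E`.  If `#UE ≥ θ² r²` use `cas1`; if `#NR ≥ θ² r²` use `cas2`.
Otherwise `split` (with `vc_deg`).  In the first alternative the number of pairs is at most
`2 ε r² + 12 θ r² + r ≤ (ηA/4 + ηA/4 + ηA/2) r²`: `casA`.  In the second alternative
`2 #J - r ≥ 2 (1 - ε - 3θ) r - r ≥ r / 8` (`ε ≤ 1/16`, `θ ≤ 1/8`) and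
`card V - 1 - r ≥ g r - 1 ≥ g r / 2`, so `casB` gives `#UE ≥ g r² / 32 > θ² r²`
(`θ² ≤ (1/8) (g/8) = g/64`), a contradiction.
-/

set_option autoImplicit false

namespace Pool.Agent.ALC

open Pool.Agent.ALB

theorem rA {c : ℝ} (hc : Lim c) {C g : ℝ} (hC : 0 < C) (hg : 0 < g) :
    ∃ ε : ℝ, 0 < ε ∧ ∃ r₀ : ℕ, ∀ (V : Type) (_ : Fintype V) (H : SimpleGraph V) (D : Drw H),
      D.NoAdj → ∀ r : ℕ, r₀ ≤ r → VC H r → (1 + g) * (r : ℝ) ≤ (Fintype.card V : ℝ) →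
      (Fintype.card V : ℝ) ≤ C * (r : ℝ) →
      (∃ v : V, ({x | H.Adj v x}.ncard : ℝ) ≤ (1 + ε) * (r : ℝ)) → crK (r + 1) ≤ D.cr := by
  obtain ⟨ηA, hηA, rA, hA⟩ := casA hc hC
  set θ : ℝ := min (1 / 8) (min (g / 8) (ηA / 48)) with hθd
  have hθ : 0 < θ := by
    rw [hθd]
    exact lt_min (by norm_num) (lt_min (by positivity) (by positivity))
  have hθ1 : θ ≤ 1 / 8 := min_le_left _ _
  have hθ2 : θ ≤ g / 8 := (min_le_right _ _).trans (min_le_left _ _)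
  have hθ3 : θ ≤ ηA / 48 := (min_le_right _ _).trans (min_le_right _ _)
  have hρ : 0 < θ ^ 2 := by positivity
  obtain ⟨η1, hη1, r1, h1⟩ := cas1 hc hC hρ
  obtain ⟨η2, hη2, r2, h2⟩ := cas2 hc hC hρ
  set ε : ℝ := min (min η1 η2) (min (1 / 16) (ηA / 8)) with hεd
  have hε : 0 < ε := by
    rw [hεd]
    exact lt_min (lt_min hη1 hη2) (lt_min (by norm_num) (by positivity))
  have hε1 : ε ≤ η1 := (min_le_left _ _).trans (min_le_left _ _)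
  have hε2 : ε ≤ η2 := (min_le_left _ _).trans (min_le_right _ _)
  have hε3 : ε ≤ 1 / 16 := (min_le_right _ _).trans (min_le_left _ _)
  have hε4 : ε ≤ ηA / 8 := (min_le_right _ _).trans (min_le_right _ _)
  obtain ⟨m1, hm1⟩ := exists_nat_ge (2 / ηA)
  obtain ⟨m2, hm2⟩ := exists_nat_ge (2 / g)
  refine ⟨ε, hε, rA + r1 + r2 + 16 + m1 + m2, ?_⟩
  intro V _ H D hD r hr hVC hV1 hV2 ⟨v, hv⟩
  have hr16 : 16 ≤ r := by omega
  have hr0 : (16 : ℝ) ≤ (r : ℝ) := by exact_mod_cast hr16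
  have hrp : (0 : ℝ) < (r : ℝ) := by linarith
  have hrm1 : 2 / ηA ≤ (r : ℝ) := hm1.trans (by exact_mod_cast (by omega : m1 ≤ r))
  have hrm2 : 2 / g ≤ (r : ℝ) := hm2.trans (by exact_mod_cast (by omega : m2 ≤ r))
  obtain ⟨f, s, hK⟩ := exists_kd hVC v
  obtain ⟨T, hT, hTd⟩ := exists_T hK
  obtain ⟨E, hE⟩ := exists_pfam hK T hT
  have hTr : (r : ℝ) - (T.card : ℝ) ≤ ε * (r : ℝ) := by
    have h3 : (2 * (r : ℝ)) ≤ ({x | H.Adj v x}.ncard : ℝ) + (T.card : ℝ) := by exact_mod_cast hTd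
    linarith
  have hεr1 : ε * (r : ℝ) ≤ η1 * (r : ℝ) := mul_le_mul_of_nonneg_right hε1 hrp.le
  have hεr2 : ε * (r : ℝ) ≤ η2 * (r : ℝ) := mul_le_mul_of_nonneg_right hε2 hrp.le
  by_cases hU : θ ^ 2 * (r : ℝ) ^ 2 ≤ ((UE H T E).ncard : ℝ)
  · exact h1 V _ H D hD r (by omega) hV2 v f s T E hK hE (hTr.trans hεr1) hU
  by_cases hN : θ ^ 2 * (r : ℝ) ^ 2 ≤ ((NR H v f s T E).ncard : ℝ)
  · exact h2 V _ H D hD r (by omega) hV2 v f s T E hK hE (hTr.trans hεr2) hN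
  rw [not_le] at hU hN
  rcases split hK hT hE (vc_deg hVC) hθ hθ1 hr16 hU.le hN.le with
    ⟨J, x, hJT, hx, hcount⟩ | ⟨J, hJT, hJc, hJs⟩
  · refine hA V _ H D hD r (by omega) hV2 v f s T E hK hE J x hJT hx (hcount.trans ?_)
    have h3 : 2 * ((r : ℝ) - (T.card : ℝ)) * (r : ℝ) ≤ 2 * (ε * (r : ℝ)) * (r : ℝ) :=
      mul_le_mul_of_nonneg_right (by linarith) hrp.le
    have h4 : ε * (r : ℝ) ^ 2 ≤ ηA / 8 * (r : ℝ) ^ 2 := mul_le_mul_of_nonneg_right hε4 (by positivity)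
    have h5 : θ * (r : ℝ) ^ 2 ≤ ηA / 48 * (r : ℝ) ^ 2 :=
      mul_le_mul_of_nonneg_right hθ3 (by positivity)
    have h6 : (r : ℝ) ≤ ηA / 2 * (r : ℝ) ^ 2 := by
      have h7 : 2 ≤ (r : ℝ) * ηA := (div_le_iff₀ hηA).1 hrm1
      nlinarith
    nlinarith
  · exfalso
    have h3 := casB hK hE (vc_deg hVC) J hJT hJs
    have hεr : ε * (r : ℝ) ≤ 1 / 16 * (r : ℝ) := mul_le_mul_of_nonneg_right hε3 hrp.le
    have hθr : θ * (r : ℝ) ≤ 1 / 8 * (r : ℝ) := mul_le_mul_of_nonneg_right hθ1 hrp.le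
    have h4 : (r : ℝ) / 8 ≤ 2 * (J.card : ℝ) - (r : ℝ) := by linarith
    have h5 : g * (r : ℝ) / 2 ≤ (Fintype.card V : ℝ) - 1 - (r : ℝ) := by
      have h7 : 2 ≤ (r : ℝ) * g := (div_le_iff₀ hg).1 hrm2
      linarith
    have h6 : g * (r : ℝ) / 2 * ((r : ℝ) / 8) ≤
        ((Fintype.card V : ℝ) - 1 - (r : ℝ)) * (2 * (J.card : ℝ) - (r : ℝ)) :=
      mul_le_mul h5 h4 (by positivity) (le_trans (by positivity) h5)
    have h7 : θ ^ 2 ≤ 1 / 8 * (g / 8) := by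
      rw [pow_two]
      exact mul_le_mul hθ1 hθ2 hθ.le (by norm_num)
    have h8 : θ ^ 2 * (r : ℝ) ^ 2 ≤ 1 / 8 * (g / 8) * (r : ℝ) ^ 2 :=
      mul_le_mul_of_nonneg_right h7 (by positivity)
    have h9 : 0 < g * (r : ℝ) ^ 2 := by positivity
    nlinarith

end Pool.Agent.ALC
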