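import Pool.Agent.ALC.Psg
import Pool.Agent.ALB.PscDefs
import Pool.Agent.ALB.Psd

/-!
# ALC HUB: non-adjacent pairs are joined through hubs

PROOF.  `T = univ \ Z` has `r + 1` elements; let `Y : Fin (r + 1) → V` be an enumeration of `T`, and
`z : Fin m → V` an enumeration of `Z`.  For `p = s(i, j)`, `i ≠ j`, with `x = Y i`, `y = Y j`:
`E p = {s(x, y)}` if `H.Adj x y`, and `E p = {s(x, z k), s(y, z k)}` with `k = c s(x, y)` otherwise
(`Z ⊆ W` consists of universal vertices).  Apply `psg` with `Γ = ⊤` (or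
`Pool.Agent.ALB.psd`, which gives `crK (r+1)` at once; then `import Pool.Agent.ALB.Psd`).
Disjointness: `s(x, z k)` is in `E s(i, j)` only if `x` is one of the two ends and
`c s(x, y) = k` for the other end `y`, not adjacent to `x`; `y` is unique by `hc`.
Hypothesis on the terminals: clear, `z k ∉ T`.
Vertices: a vertex outside `T` is `z k`; it is on `E s(i, j)` only if `c s(Y i, Y j) = k` and `Y i`, `Y j`
are not adjacent; then both are not in `W`, there are at most `4 m` vertices outside `W`, and each of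
them is in at most one such pair, so the number of these `p` is at most `4 m`; the number of pairs
`(p, q)` with `z k` on both is at most `16 m^2`, and the sum over `k` at most `16 m^3`.
Crossings: let `A` be the union of the `E p` and `L` the set of the edges between `Z` and `W \ Z`
(the set in the definition of `Phi`).  `A` and `L` are disjoint: an edge `s(x, z k) ∈ A` has
`x ∉ W` (it has a non-neighbour), an edge `s(x, y) ∈ A` has no end in `Z`.  So
`∑_{A × A} N + Phi D W Z ≤ D.cr` (`Phi` is the sum over `L × ed H`).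
-/

set_option autoImplicit false

namespace Pool.Agent.ALC

open Pool.Agent.ALB

theorem hub {V : Type} [Fintype V] {H : SimpleGraph V} (D : Drw H) {r m : ℕ}
    (hn : Fintype.card V = r + 1 + m) (W : Finset V) (hW : ∀ w ∈ W, ∀ x, x ≠ w → H.Adj w x)
    (hR : Fintype.card V ≤ W.card + 4 * m) (Z : Finset V) (hZW : Z ⊆ W) (hZ : Z.card = m)
    (c : Sym2 V → Fin m) (hc : ∀ x y z, x ≠ y → x ≠ z → y ≠ z → ¬ H.Adj x y → ¬ H.Adj x z →
      c s(x, y) ≠ c s(x, z)) :
    crK (r + 1) + Phi D W Z ≤ D.cr + 16 * m ^ 3 := by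
  classical
  -- enumerations
  have hcT : Fintype.card {x : V // x ∉ Z} = r + 1 := by
    have h1 : Fintype.card {x : V // x ∉ Z} = (Finset.univ.filter (fun x : V => x ∉ Z)).card :=
      Fintype.card_subtype _
    have h2 : (Finset.univ.filter (fun x : V => x ∉ Z)) = Zᶜ := by
      ext x
      simp
    rw [h1, h2, Finset.card_compl, hn, hZ]
    omega
  have hcZ : Fintype.card {x : V // x ∈ Z} = m := by
    rw [Fintype.card_coe, hZ]
  obtain ⟨Y, hY, hYr⟩ : ∃ Y : Fin (r + 1) → V, Function.Injective Y ∧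
      ∀ x, x ∈ Set.range Y ↔ x ∉ Z := by
    refine ⟨fun i => ((Fintype.equivFinOfCardEq hcT).symm i).1,
      Subtype.val_injective.comp (Equiv.injective _), fun x => ⟨?_, fun h => ?_⟩⟩
    · rintro ⟨i, rfl⟩
      exact ((Fintype.equivFinOfCardEq hcT).symm i).2
    · exact ⟨Fintype.equivFinOfCardEq hcT ⟨x, h⟩, by simp⟩
  obtain ⟨z, hz, hzr⟩ : ∃ z : Fin m → V, Function.Injective z ∧
      ∀ x, x ∈ Set.range z ↔ x ∈ Z := by
    refine ⟨fun i => ((Fintype.equivFinOfCardEq hcZ).symm i).1,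
      Subtype.val_injective.comp (Equiv.injective _), fun x => ⟨?_, fun h => ?_⟩⟩
    · rintro ⟨i, rfl⟩
      exact ((Fintype.equivFinOfCardEq hcZ).symm i).2
    · exact ⟨Fintype.equivFinOfCardEq hcZ ⟨x, h⟩, by simp⟩
  have hYZ : ∀ i, Y i ∉ Z := fun i => (hYr _).1 ⟨i, rfl⟩
  have hzZ : ∀ k, z k ∈ Z := fun k => (hzr _).1 ⟨k, rfl⟩
  have hYz : ∀ i k, Y i ≠ z k := fun i k h => hYZ i (h ▸ hzZ k)
  have hzW : ∀ k, z k ∈ W := fun k => hZW (hzZ k)
  -- the path system
  set B : Sym2 (Fin (r + 1)) → Prop := fun p => ¬ p.IsDiag ∧ Sym2.map Y p ∉ H.edgeSet with hB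
  obtain ⟨E, hE⟩ : ∃ E : Sym2 (Fin (r + 1)) → Finset (Sym2 V), ∀ p e, e ∈ E p ↔
      (Sym2.map Y p ∈ H.edgeSet ∧ e = Sym2.map Y p) ∨
      (B p ∧ ∃ i ∈ p, e = s(Y i, z (c (Sym2.map Y p)))) := by
    refine ⟨fun p => Finset.univ.filter (fun e => (Sym2.map Y p ∈ H.edgeSet ∧ e = Sym2.map Y p) ∨
      (B p ∧ ∃ i ∈ p, e = s(Y i, z (c (Sym2.map Y p))))), fun p e => ?_⟩
    simp only [Finset.mem_filter, Finset.mem_univ, true_and]
  -- two bad pairs with a common element and the same colour are equal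
  have huniq : ∀ p q, B p → B q → c (Sym2.map Y p) = c (Sym2.map Y q) →
      ∀ i, i ∈ p → i ∈ q → p = q := by
    intro p q hp hq hk i hip hiq
    obtain ⟨j, rfl⟩ := Sym2.mem_iff_exists.1 hip
    obtain ⟨j', rfl⟩ := Sym2.mem_iff_exists.1 hiq
    by_contra hne
    have hij : i ≠ j := fun h => hp.1 (Sym2.mk_isDiag_iff.2 h)
    have hij' : i ≠ j' := fun h => hq.1 (Sym2.mk_isDiag_iff.2 h)
    have hjj' : j ≠ j' := fun h => hne (by rw [h])
    exact hc (Y i) (Y j) (Y j') (fun h => hij (hY h)) (fun h => hij' (hY h))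
      (fun h => hjj' (hY h)) hp.2 hq.2 hk
  -- a bad pair has its ends outside `W`
  have hBW : ∀ p, B p → ∀ i ∈ p, Y i ∉ W := by
    intro p hp i hi hiW
    obtain ⟨j, rfl⟩ := Sym2.mem_iff_exists.1 hi
    have hij : i ≠ j := fun h => hp.1 (Sym2.mk_isDiag_iff.2 h)
    exact hp.2 (hW (Y i) hiW (Y j) (fun h => hij (hY h).symm))
  have hEe : ∀ p, ∀ e ∈ E p, e ∈ H.edgeSet := by
    intro p e he
    rcases (hE p e).1 he with ⟨h1, h2⟩ | ⟨-, i, -, h2⟩
    · rw [h2]; exact h1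
    · rw [h2]
      exact (hW _ (hzW _) (Y i) (hYz i _)).symm
  -- vertices
  have hmemv : ∀ p, ∀ e ∈ E p, ∀ x ∈ e, (∃ i ∈ p, x = Y i) ∨
      (B p ∧ x = z (c (Sym2.map Y p))) := by
    intro p e he x hx
    rcases (hE p e).1 he with ⟨-, h2⟩ | ⟨h1, i, hi, h2⟩
    · rw [h2, Sym2.mem_map] at hx
      obtain ⟨i, hi, hix⟩ := hx
      exact Or.inl ⟨i, hi, hix.symm⟩
    · rw [h2] at hx
      rcases Sym2.mem_iff.1 hx with h | h
      · exact Or.inl ⟨i, hi, h⟩
      · exact Or.inr ⟨h1, h⟩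
  have hdis : ∀ p ∈ (⊤ : SimpleGraph (Fin (r + 1))).edgeSet,
      ∀ q ∈ (⊤ : SimpleGraph (Fin (r + 1))).edgeSet, p ≠ q → ∀ e ∈ E p, e ∉ E q := by
    intro p _ q _ hpq e hep heq
    rcases (hE p e).1 hep with ⟨-, h2⟩ | ⟨hp1, i, hi, h2⟩ <;>
      rcases (hE q e).1 heq with ⟨-, h4⟩ | ⟨hq1, i', hi', h4⟩
    · exact hpq (Sym2.map.injective hY (h2.symm.trans h4))
    · have h5 : z (c (Sym2.map Y q)) ∈ Sym2.map Y p := by
        rw [← h2, h4]; exact Sym2.mem_mk_right _ _
      obtain ⟨l, -, hl⟩ := Sym2.mem_map.1 h5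
      exact hYz l _ hl
    · have h5 : z (c (Sym2.map Y p)) ∈ Sym2.map Y q := by
        rw [← h4, h2]; exact Sym2.mem_mk_right _ _
      obtain ⟨l, -, hl⟩ := Sym2.mem_map.1 h5
      exact hYz l _ hl
    · have h5 := h2.symm.trans h4
      rw [Sym2.eq_iff] at h5
      rcases h5 with ⟨h6, h7⟩ | ⟨h6, -⟩
      · have h8 : i = i' := hY h6
        exact hpq (huniq p q hp1 hq1 (hz h7) i hi (h8 ▸ hi'))
      · exact hYz _ _ h6
  have hbound := psd D Y hY E hEe
    (fun i j hij => by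
      by_cases h : H.Adj (Y i) (Y j)
      · refine ⟨SimpleGraph.Walk.cons h SimpleGraph.Walk.nil, fun e he => ?_⟩
        rw [SimpleGraph.Walk.edges_cons, SimpleGraph.Walk.edges_nil, List.mem_singleton] at he
        rw [hE]
        exact Or.inl ⟨h, he⟩
      · have hb : B s(i, j) := ⟨fun h' => hij (Sym2.mk_isDiag_iff.1 h'), h⟩
        refine ⟨SimpleGraph.Walk.cons (hW _ (hzW (c (Sym2.map Y s(i, j)))) (Y i) (hYz i _)).symm
          (SimpleGraph.Walk.cons (hW _ (hzW (c (Sym2.map Y s(i, j)))) (Y j) (hYz j _))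
            SimpleGraph.Walk.nil), fun e he => ?_⟩
        rw [SimpleGraph.Walk.edges_cons, SimpleGraph.Walk.edges_cons,
          SimpleGraph.Walk.edges_nil, List.mem_cons, List.mem_cons] at he
        rw [hE]
        rcases he with he | he | he
        · exact Or.inr ⟨hb, i, Sym2.mem_mk_left i j, he⟩
        · exact Or.inr ⟨hb, j, Sym2.mem_mk_right i j, by rw [he, Sym2.eq_swap]⟩
        · exact absurd he (List.not_mem_nil))
    (fun i j _ e he x hx hxY => by
      rcases hmemv _ e he x hx with ⟨l, hl, hxl⟩ | ⟨-, hxz⟩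
      · rcases Sym2.mem_iff.1 hl with h | h
        · exact Or.inl (by rw [hxl, h])
        · exact Or.inr (by rw [hxl, h])
      · obtain ⟨l, hl⟩ := hxY
        exact absurd (hl.trans hxz) (hYz l _))
    hdis
  -- enlarge the inner sum
  have hb2 : crK (r + 1) ≤ ∑ p ∈ ed (⊤ : SimpleGraph (Fin (r + 1))),
      ∑ q ∈ ed (⊤ : SimpleGraph (Fin (r + 1))),
        ((∑ e ∈ E p, ∑ f ∈ E q, D.N e f) +
          {x : V | x ∉ Set.range Y ∧ (∃ e ∈ E p, x ∈ e) ∧ (∃ f ∈ E q, x ∈ f)}.ncard) :=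
    hbound.trans (Finset.sum_le_sum fun p _ =>
      Finset.sum_le_sum_of_subset (Finset.erase_subset p _))
  simp only [Finset.sum_add_distrib] at hb2
  set K := ed (⊤ : SimpleGraph (Fin (r + 1))) with hK
  -- the vertex term
  have hvert : ∑ p ∈ K, ∑ q ∈ K,
      {x : V | x ∉ Set.range Y ∧ (∃ e ∈ E p, x ∈ e) ∧ (∃ f ∈ E q, x ∈ f)}.ncard ≤ 16 * m ^ 3 := by
    have h1 : ∀ p q, {x : V | x ∉ Set.range Y ∧ (∃ e ∈ E p, x ∈ e) ∧ (∃ f ∈ E q, x ∈ f)}.ncard ≤
        ∑ k : Fin m, (if B p ∧ c (Sym2.map Y p) = k then 1 else 0) *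
          (if B q ∧ c (Sym2.map Y q) = k then 1 else 0) := by
      intro p q
      have h2 : {x : V | x ∉ Set.range Y ∧ (∃ e ∈ E p, x ∈ e) ∧ (∃ f ∈ E q, x ∈ f)} ⊆
          (((Finset.univ.filter (fun k : Fin m => (B p ∧ c (Sym2.map Y p) = k) ∧
            (B q ∧ c (Sym2.map Y q) = k))).image z : Finset V) : Set V) := by
        rintro x ⟨hx1, ⟨e, he, hxe⟩, ⟨f, hf, hxf⟩⟩
        rcases hmemv p e he x hxe with ⟨i, -, hi⟩ | ⟨hp1, hp2⟩
        · exact absurd ⟨i, hi.symm⟩ hx1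
        · rcases hmemv q f hf x hxf with ⟨i, -, hi⟩ | ⟨hq1, hq2⟩
          · exact absurd ⟨i, hi.symm⟩ hx1
          · simp only [Finset.coe_image, Set.mem_image, Finset.coe_filter, Finset.mem_univ,
              true_and, Set.mem_ofPred_eq]
            exact ⟨c (Sym2.map Y p), ⟨⟨hp1, rfl⟩, hq1, hz (hq2.symm.trans hp2)⟩, hp2.symm⟩
      refine (Set.ncard_le_ncard h2 (Finset.finite_toSet _)).trans ?_
      rw [Set.ncard_coe_finset]
      refine Finset.card_image_le.trans ?_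
      rw [Finset.card_filter]
      refine Finset.sum_le_sum fun k _ => ?_
      by_cases hk1 : B p ∧ c (Sym2.map Y p) = k <;> by_cases hk2 : B q ∧ c (Sym2.map Y q) = k <;>
        simp [hk1, hk2]
    have h3 : ∀ k : Fin m, ∑ p ∈ K, (if B p ∧ c (Sym2.map Y p) = k then 1 else 0) ≤ 4 * m := by
      intro k
      rw [← Finset.card_filter]
      have h4 : (K.filter (fun p => B p ∧ c (Sym2.map Y p) = k)).card ≤ (Wᶜ).card := by
        refine Finset.card_le_card_of_injOn (fun p => Y p.out.1) ?_ ?_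
        · intro p hp
          simp only [Finset.coe_filter, Set.mem_ofPred_eq] at hp
          simp only [Finset.coe_compl, Set.mem_compl_iff, Finset.mem_coe]
          exact hBW p hp.2.1 _ (Sym2.out_fst_mem p)
        · intro p hp q hq hpq
          simp only [Finset.coe_filter, Set.mem_ofPred_eq] at hp hq
          have h5 : p.out.1 = q.out.1 := hY hpq
          exact huniq p q hp.2.1 hq.2.1 (hp.2.2.trans hq.2.2.symm) _ (Sym2.out_fst_mem p)
            (h5 ▸ Sym2.out_fst_mem q)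
      refine h4.trans ?_
      rw [Finset.card_compl]
      omega
    calc ∑ p ∈ K, ∑ q ∈ K,
        {x : V | x ∉ Set.range Y ∧ (∃ e ∈ E p, x ∈ e) ∧ (∃ f ∈ E q, x ∈ f)}.ncard
        ≤ ∑ p ∈ K, ∑ q ∈ K, ∑ k : Fin m, (if B p ∧ c (Sym2.map Y p) = k then 1 else 0) *
          (if B q ∧ c (Sym2.map Y q) = k then 1 else 0) :=
          Finset.sum_le_sum fun p _ => Finset.sum_le_sum fun q _ => h1 p q
      _ = ∑ k : Fin m, (∑ p ∈ K, (if B p ∧ c (Sym2.map Y p) = k then 1 else 0)) *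
          (∑ q ∈ K, (if B q ∧ c (Sym2.map Y q) = k then 1 else 0)) := by
          simp only [Finset.sum_mul_sum]
          rw [Finset.sum_comm' (s := Finset.univ) (t := fun _ : Fin m => K) (t' := K)
            (s' := fun _ => Finset.univ) (by simp)]
          refine Finset.sum_congr rfl fun p _ => ?_
          rw [Finset.sum_comm]
      _ ≤ ∑ _k : Fin m, (4 * m) * (4 * m) :=
          Finset.sum_le_sum fun k _ => Nat.mul_le_mul (h3 k) (h3 k)
      _ = 16 * m ^ 3 := by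
          rw [Finset.sum_const, Finset.card_univ, Fintype.card_fin, smul_eq_mul]
          ring
  -- the crossing term
  set A : Finset (Sym2 V) := K.biUnion E with hA
  have hpd : Set.PairwiseDisjoint (K : Set (Sym2 (Fin (r + 1)))) E := by
    intro p hp q hq hpq
    rw [Function.onFun, Finset.disjoint_left]
    exact fun e he => hdis p (mem_ed.1 (Finset.mem_coe.1 hp)) q (mem_ed.1 (Finset.mem_coe.1 hq))
      hpq e he
  have hcross : ∑ p ∈ K, ∑ q ∈ K, ∑ e ∈ E p, ∑ f ∈ E q, D.N e f =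
      ∑ e ∈ A, ∑ f ∈ A, D.N e f := by
    rw [hA, Finset.sum_biUnion hpd]
    refine Finset.sum_congr rfl fun p _ => ?_
    rw [Finset.sum_comm]
    refine Finset.sum_congr rfl fun e _ => ?_
    rw [Finset.sum_biUnion hpd]
  have hAed : A ⊆ ed H := by
    intro e he
    rw [hA, Finset.mem_biUnion] at he
    obtain ⟨p, -, hp⟩ := he
    exact mem_ed.2 (hEe p e hp)
  have hphi : ∃ L : Finset (Sym2 V), L ⊆ ed H ∧ Disjoint A L ∧
      Phi D W Z = ∑ e ∈ L, ∑ f ∈ ed H, D.N e f := by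
    refine ⟨(ed H).filter (fun e => ∃ z ∈ Z, ∃ h ∈ W, h ∉ Z ∧ e = s(z, h)),
      Finset.filter_subset _ _, ?_, ?_⟩
    · rw [Finset.disjoint_left]
      intro e he heL
      rw [Finset.mem_filter] at heL
      obtain ⟨-, x, hxZ, h, hhW, hhZ, hexh⟩ := heL
      rw [hA, Finset.mem_biUnion] at he
      obtain ⟨p, -, hp⟩ := he
      rcases (hE p e).1 hp with ⟨-, h2⟩ | ⟨hp1, i, hi, h2⟩
      · have h3 : x ∈ Sym2.map Y p := by
          rw [← h2, hexh]; exact Sym2.mem_mk_left _ _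
        obtain ⟨l, -, hl⟩ := Sym2.mem_map.1 h3
        exact hYZ l (hl ▸ hxZ)
      · have h3 := h2.symm.trans hexh
        rw [Sym2.eq_iff] at h3
        rcases h3 with ⟨h4, -⟩ | ⟨h4, -⟩
        · exact hYZ i (h4 ▸ hxZ)
        · exact hBW p hp1 i hi (h4 ▸ hhW)
    · unfold Phi
      refine Finset.sum_congr ?_ fun _ _ => rfl
      ext e
      simp only [Finset.mem_filter]
  obtain ⟨L, hLed, hAL, hphi⟩ := hphi
  have hfinal : ∑ e ∈ A, ∑ f ∈ A, D.N e f + Phi D W Z ≤ D.cr := by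
    rw [hphi]
    calc ∑ e ∈ A, ∑ f ∈ A, D.N e f + ∑ e ∈ L, ∑ f ∈ ed H, D.N e f
        ≤ ∑ e ∈ A, ∑ f ∈ ed H, D.N e f + ∑ e ∈ L, ∑ f ∈ ed H, D.N e f :=
          Nat.add_le_add_right (Finset.sum_le_sum fun e _ =>
            Finset.sum_le_sum_of_subset hAed) _
      _ = ∑ e ∈ A ∪ L, ∑ f ∈ ed H, D.N e f := (Finset.sum_union hAL).symm
      _ ≤ ∑ e ∈ ed H, ∑ f ∈ ed H, D.N e f :=
          Finset.sum_le_sum_of_subset (Finset.union_subset hAed hLed)
      _ = D.cr := rfl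
  rw [hcross] at hb2
  omega

end Pool.Agent.ALC
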