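import Pool.Agent.ALC.Defs

/-!
# ALC UMB: crown argument

PROOF.  Let `Z' = {z | z ∉ Q ∧ ∃ q ∈ Q, ¬ H.Adj z q}` and suppose `#Q < #Z'`.  For `B ⊆ Q` let
`N B = {z ∈ Z' | ∃ q ∈ B, ¬ H.Adj z q}`.  Choose `A ⊆ Q` such that `#A - #(N A)` (an integer) is
maximal; comparing with `∅` it is `≥ 0`.  Put `B = Q \ A` and `C = Z' \ N A`; `C ≠ ∅` because
`#(N A) ≤ #A ≤ #Q < #Z'`.
(1) For `B' ⊆ B`: `#B' ≤ #(N B' ∩ C)`, otherwise `A ∪ B'` would be better than `A`.  By Hall's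
theorem (`Finset.all_card_le_biUnion_card_iff_exists_injective`) there is an injection
`μ : B → C` with `¬ H.Adj (μ b) b`.
(2) `B ≠ ∅`: an element `z` of `C ⊆ Z'` has some `q ∈ Q` with `¬ H.Adj z q`; `q ∉ A` as `z ∉ N A`.
(3) Let `b₀ ∈ B` and let `f` be the colouring of `H - b₀` (`h.del b₀`).  Define `f' b = f (μ b)` for
`b ∈ B` and `f' x = f x` for `x ∉ B`.  `f'` is a proper colouring of `H` with `r` colours, against
`h.nc`: let `x ≠ y`, `f' x = f' y`; to show `¬ H.Adj x y`: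
* `x, y ∉ B`: `f` is proper there (`b₀ ∈ B`);
* `x, y ∈ B`: `f (μ x) = f (μ y)`, but `μ x ≠ μ y` are in `C`, not in `Q`, so adjacent (`hQ`), and
  `f (μ x) ≠ f (μ y)`: impossible;
* `x ∉ B`, `y ∈ B` (or conversely): `f x = f (μ y)`.  If `x = μ y` then `¬ H.Adj x y` by the choice of
  `μ`.  Otherwise `x` and `μ y` are not adjacent (`f` proper off `b₀`, `μ y ∉ Q` and so `μ y ≠ b₀`,
  `x ≠ b₀`).  `x ∉ Q` is impossible by `hQ` (`μ y ∉ Q`); so `x ∈ Q`, `x ∉ B`, i.e. `x ∈ A`, and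
  `μ y ∈ Z'` is not adjacent to `x ∈ A`, so `μ y ∈ N A`, against `μ y ∈ C`.
-/

set_option autoImplicit false

namespace Pool.Agent.ALC

open Pool.Agent.ALB

theorem crown {V : Type} [Fintype V] {H : SimpleGraph V} {r : ℕ} (h : VC H r) (Q : Finset V)
    (hQ : ∀ x, x ∉ Q → ∀ y, y ∉ Q → x ≠ y → H.Adj x y) :
    {z | z ∉ Q ∧ ∃ q ∈ Q, ¬ H.Adj z q}.ncard ≤ Q.card := by
  classical
  obtain ⟨Z, hZ⟩ : ∃ Z : Finset V, ∀ z, z ∈ Z ↔ z ∉ Q ∧ ∃ q ∈ Q, ¬ H.Adj z q :=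
    ⟨Finset.univ.filter (fun z => z ∉ Q ∧ ∃ q ∈ Q, ¬ H.Adj z q), fun z => by simp⟩
  have hset : {z | z ∉ Q ∧ ∃ q ∈ Q, ¬ H.Adj z q} = (Z : Set V) := by
    ext z
    rw [Finset.mem_coe, hZ]
    rfl
  rw [hset, Set.ncard_coe_finset]
  by_contra hcon
  push Not at hcon
  -- the neighbourhoods in the complement
  obtain ⟨N, hN⟩ : ∃ N : Finset V → Finset V, ∀ B z, z ∈ N B ↔ z ∈ Z ∧ ∃ q ∈ B, ¬ H.Adj z q :=
    ⟨fun B => Z.filter (fun z => ∃ q ∈ B, ¬ H.Adj z q), fun B z => by simp⟩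
  obtain ⟨A, hAQ, hmax⟩ := Finset.exists_max_image Q.powerset
    (fun B => (B.card : ℤ) - ((N B).card : ℤ)) ⟨∅, Finset.empty_mem_powerset Q⟩
  rw [Finset.mem_powerset] at hAQ
  have hNA : (N A).card ≤ A.card := by
    have h1 := hmax ∅ (Finset.empty_mem_powerset Q)
    have h2 : N ∅ = ∅ := by
      rw [Finset.eq_empty_iff_forall_notMem]
      intro z hz
      obtain ⟨-, q, hq, -⟩ := (hN ∅ z).1 hz
      exact absurd hq (Finset.notMem_empty q)
    simp only [h2, Finset.card_empty] at h1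
    omega
  have hAc := Finset.card_le_card hAQ
  obtain ⟨z0, hz0, hz0'⟩ : ∃ z ∈ Z, z ∉ N A :=
    Finset.exists_mem_notMem_of_card_lt_card (by omega)
  -- Hall
  obtain ⟨t, ht⟩ : ∃ t : {x // x ∈ Q \ A} → Finset V,
      ∀ b z, z ∈ t b ↔ (z ∈ Z ∧ z ∉ N A) ∧ ¬ H.Adj z b :=
    ⟨fun b => (Z \ N A).filter (fun z => ¬ H.Adj z b), fun b z => by simp⟩
  obtain ⟨μ, hμ, hμt⟩ := (Finset.all_card_le_biUnion_card_iff_exists_injective t).1 (by
    intro s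
    have h1 : s.image Subtype.val ⊆ Q \ A := by
      intro x hx
      obtain ⟨y, -, rfl⟩ := Finset.mem_image.1 hx
      exact y.2
    have h2 := hmax (A ∪ s.image Subtype.val) (by
      rw [Finset.mem_powerset]
      exact Finset.union_subset hAQ (h1.trans Finset.sdiff_subset))
    have h3 : (A ∪ s.image Subtype.val).card = A.card + s.card := by
      rw [Finset.card_union_of_disjoint, Finset.card_image_of_injective _ Subtype.val_injective]
      exact Finset.disjoint_of_subset_right h1 Finset.disjoint_sdiff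
    have h4 : N (A ∪ s.image Subtype.val) ⊆ N A ∪ s.biUnion t := by
      intro z hz
      obtain ⟨hzZ, q, hq, hzq⟩ := (hN _ z).1 hz
      by_cases hzA : z ∈ N A
      · exact Finset.mem_union_left _ hzA
      · rcases Finset.mem_union.1 hq with hq | hq
        · exact absurd ((hN A z).2 ⟨hzZ, q, hq, hzq⟩) hzA
        · obtain ⟨b, hb, rfl⟩ := Finset.mem_image.1 hq
          exact Finset.mem_union_right _
            (Finset.mem_biUnion.2 ⟨b, hb, (ht b z).2 ⟨⟨hzZ, hzA⟩, hzq⟩⟩)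
    have h5 := (Finset.card_le_card h4).trans (Finset.card_union_le _ _)
    simp only [h3] at h2
    push_cast at h2
    omega)
  have hμ1 : ∀ b, μ b ∈ Z := fun b => ((ht b _).1 (hμt b)).1.1
  have hμ2 : ∀ b, μ b ∉ N A := fun b => ((ht b _).1 (hμt b)).1.2
  have hμ3 : ∀ b, ¬ H.Adj (μ b) b := fun b => ((ht b _).1 (hμt b)).2
  have hμ4 : ∀ b, μ b ∉ Q := fun b => ((hZ _).1 (hμ1 b)).1
  obtain ⟨b0, hb0⟩ : ∃ b0, b0 ∈ Q \ A := by
    obtain ⟨-, q, hq, hzq⟩ := (hZ z0).1 hz0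
    refine ⟨q, Finset.mem_sdiff.2 ⟨hq, fun hqA => ?_⟩⟩
    exact hz0' ((hN A z0).2 ⟨hz0, q, hqA, hzq⟩)
  have hb0Q : b0 ∈ Q := (Finset.mem_sdiff.1 hb0).1
  obtain ⟨f, hf⟩ := h.del b0
  have hne : ∀ b, μ b ≠ b0 := by
    intro b hb
    exact hμ4 b (by rw [hb]; exact hb0Q)
  have aux : ∀ x y (_ : x ∉ Q \ A) (hy : y ∈ Q \ A), H.Adj x y → f x ≠ f (μ ⟨y, hy⟩) := by
    intro x y hx hy hadj heq
    by_cases hxy : x = μ ⟨y, hy⟩
    · rw [hxy] at hadj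
      exact hμ3 ⟨y, hy⟩ hadj
    · have hx0 : x ≠ b0 := fun h0 => hx (by rw [h0]; exact hb0)
      have hnadj : ¬ H.Adj x (μ ⟨y, hy⟩) := fun h1 => hf x _ hx0 (hne _) h1 heq
      by_cases hxQ : x ∈ Q
      · have hxA : x ∈ A := by
          by_contra hxA
          exact hx (Finset.mem_sdiff.2 ⟨hxQ, hxA⟩)
        exact hμ2 ⟨y, hy⟩ ((hN A _).2 ⟨hμ1 _, x, hxA, fun h1 => hnadj h1.symm⟩)
      · exact hnadj (hQ x hxQ _ (hμ4 _) hxy)
  apply h.nc
  refine ⟨SimpleGraph.Coloring.mk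
    (fun x => if hx : x ∈ Q \ A then f (μ ⟨x, hx⟩) else f x) ?_⟩
  intro x y hadj
  by_cases hx : x ∈ Q \ A
  · by_cases hy : y ∈ Q \ A
    · simp only [hx, hy, dif_pos]
      have h1 : μ ⟨x, hx⟩ ≠ μ ⟨y, hy⟩ := fun h1 =>
        hadj.ne (congrArg Subtype.val (hμ h1))
      exact hf _ _ (hne _) (hne _) (hQ _ (hμ4 _) _ (hμ4 _) h1)
    · simp only [hx, hy, dif_pos, dif_neg, not_false_eq_true]
      exact (aux y x hy hx hadj.symm).symm
  · by_cases hy : y ∈ Q \ A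
    · simp only [hx, hy, dif_pos, dif_neg, not_false_eq_true]
      exact aux x y hx hy hadj
    · simp only [hx, hy, dif_neg, not_false_eq_true]
      exact hf x y (fun h0 => hx (by rw [h0]; exact hb0)) (fun h0 => hy (by rw [h0]; exact hb0))
        hadj

end Pool.Agent.ALC
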