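import Pool.Agent.ALC.UmA
import Pool.Agent.ALC.UmB

/-!
# ALC UM: universal vertices

PROOF.  `Q` from `exists_match`, `Z' = {z | z ∉ Q ∧ ∃ q ∈ Q, ¬ H.Adj z q}`, `#Z' ≤ #Q` by `crown`,
`W = univ \ (Q ∪ Z')`.  A vertex `w ∈ W` is adjacent to all `q ∈ Q` (not in `Z'`) and to all
`x ∉ Q`, `x ≠ w`.  `#W ≥ card V - 2 #Q ≥ card V - 4 (card V - (r + 1))`.
-/

set_option autoImplicit false

namespace Pool.Agent.ALC

open Pool.Agent.ALB

theorem exists_univ {V : Type} [Fintype V] {H : SimpleGraph V} {r : ℕ} (h : VC H r) :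
    ∃ W : Finset V, (∀ w ∈ W, ∀ x, x ≠ w → H.Adj w x) ∧
      Fintype.card V + 4 * (r + 1) ≤ W.card + 4 * Fintype.card V := by
  classical
  obtain ⟨Q, hQ1, hQ2⟩ := exists_match h.nc
  have hZ := crown h Q hQ2
  refine ⟨Finset.univ.filter (fun w => w ∉ Q ∧ ∀ q ∈ Q, H.Adj w q), ?_, ?_⟩
  · intro w hw x hx
    rw [Finset.mem_filter] at hw
    by_cases hxQ : x ∈ Q
    · exact hw.2.2 x hxQ
    · exact hQ2 w hw.2.1 x hxQ (Ne.symm hx)
  · have e1 : {z | z ∉ Q ∧ ∃ q ∈ Q, ¬ H.Adj z q}.ncard =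
        (Finset.univ.filter (fun z => z ∉ Q ∧ ∃ q ∈ Q, ¬ H.Adj z q)).card := by
      rw [← Set.ncard_coe_finset]
      congr 1
      ext z
      simp
    rw [e1] at hZ
    have e2 : (Finset.univ : Finset V) ⊆ (Q ∪ Finset.univ.filter (fun z => z ∉ Q ∧ ∃ q ∈ Q, ¬ H.Adj z q)) ∪
        Finset.univ.filter (fun w => w ∉ Q ∧ ∀ q ∈ Q, H.Adj w q) := by
      intro x _
      rw [Finset.mem_union, Finset.mem_union, Finset.mem_filter, Finset.mem_filter]
      by_cases h1 : x ∈ Q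
      · exact Or.inl (Or.inl h1)
      · by_cases h2 : ∀ q ∈ Q, H.Adj x q
        · exact Or.inr ⟨Finset.mem_univ _, h1, h2⟩
        · push Not at h2
          exact Or.inl (Or.inr ⟨Finset.mem_univ _, h1, h2⟩)
    have e3 := Finset.card_le_card e2
    have e4 := Finset.card_union_le (Q ∪ Finset.univ.filter (fun z => z ∉ Q ∧ ∃ q ∈ Q, ¬ H.Adj z q))
        (Finset.univ.filter (fun w => w ∉ Q ∧ ∀ q ∈ Q, H.Adj w q))
    have e5 := Finset.card_union_le Q (Finset.univ.filter (fun z => z ∉ Q ∧ ∃ q ∈ Q, ¬ H.Adj z q))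
    rw [Finset.card_univ] at e3
    omega

end Pool.Agent.ALC
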