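import Pool.Agent.ALC.Vz4

/-!
# ALC VZ: Vizing theorem

PROOF.  For a finset `A` of vertices let `F_A` be the graph with `x ~ y` iff `F.Adj x y`, `x ∈ A`,
`y ∈ A`.  By induction on `A` (`Finset.induction_on`) `F_A` has a colouring `EC F_A c (range m)`: for
`insert v A`, `v ∉ A`, use `vz_step` with `n = m`, `S = Finset.range m`, `u₀ = v`; the graph
`dl (F_(insert v A)) v` is `F_A`; all degrees in `F_(insert v A)` are at most the degrees in `F`, so
at most `m - 1`.  For `A = univ`: `F_univ = F`.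
If `V` is empty then `Sym2 V` is empty; otherwise `0 < m` (from `h`), and the colour
`c e : ℕ`, `c e < m` for the edges, is turned into an element of `Fin m`
(`⟨c e % m, _⟩`).
-/

set_option autoImplicit false

namespace Pool.Agent.ALC



/-- the edges inside `A` -/
private def rg {V : Type} (F : SimpleGraph V) (A : Finset V) : SimpleGraph V where
  Adj x y := F.Adj x y ∧ x ∈ A ∧ y ∈ A
  symm.symm := fun _ _ h => ⟨h.1.symm, h.2.2, h.2.1⟩
  loopless := ⟨fun _ h => h.1.ne rfl⟩

private theorem rg_deg {V : Type} [Fintype V] (F : SimpleGraph V) (A : Finset V) (x : V) :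
    {y | (rg F A).Adj x y}.ncard ≤ {y | F.Adj x y}.ncard :=
  Set.ncard_le_ncard (fun _ hy => hy.1) (Set.toFinite _)

private theorem rg_dl {V : Type} [DecidableEq V] (F : SimpleGraph V) (A : Finset V) {v : V} (hv : v ∉ A) :
    dl (rg F (insert v A)) v = rg F A := by
  ext x y
  constructor
  · rintro ⟨⟨h1, h2, h3⟩, h4, h5⟩
    exact ⟨h1, (Finset.mem_insert.1 h2).resolve_left h4, (Finset.mem_insert.1 h3).resolve_left h5⟩
  · rintro ⟨h1, h2, h3⟩
    refine ⟨⟨h1, Finset.mem_insert_of_mem h2, Finset.mem_insert_of_mem h3⟩, ?_, ?_⟩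
    · rintro rfl
      exact hv h2
    · rintro rfl
      exact hv h3

theorem vizing {V : Type} [Fintype V] (F : SimpleGraph V) (m : ℕ)
    (h : ∀ x, {y | F.Adj x y}.ncard < m) :
    ∃ c : Sym2 V → Fin m, ∀ x y z, F.Adj x y → F.Adj x z → y ≠ z → c s(x, y) ≠ c s(x, z) := by
  classical
  have key : ∀ A : Finset V, ∃ c : Sym2 V → ℕ, EC (rg F A) c (Finset.range m) := by
    intro A
    induction A using Finset.induction_on with
    | empty =>
      exact ⟨fun _ => 0, ⟨fun x y h => absurd h.2.1 (Finset.notMem_empty _),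
        fun x y z h => absurd h.2.1 (Finset.notMem_empty _)⟩⟩
    | insert v A hv ih =>
      have hd : ∀ x, {y | (rg F (insert v A)).Adj x y}.ncard < m := fun x =>
        lt_of_le_of_lt (rg_deg F _ x) (h x)
      refine vz_step m V inferInstance (rg F (insert v A)) v v (Finset.range m) (Finset.card_range m)
        (hd v).le (fun x _ => ⟨(hd x).le, fun _ => hd x⟩) ?_
      rw [rg_dl F A hv]
      exact ih
  obtain ⟨c, hc⟩ := key Finset.univ
  rcases isEmpty_or_nonempty V with hV | ⟨⟨v⟩⟩
  · exact ⟨fun e => (hV.false (Quot.out e).1).elim, fun x => (hV.false x).elim⟩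
  · have hm : 0 < m := lt_of_le_of_lt (Nat.zero_le _) (h v)
    refine ⟨fun e => ⟨c e % m, Nat.mod_lt _ hm⟩, ?_⟩
    intro x y z hxy hxz hyz he
    have h1 : (rg F Finset.univ).Adj x y := ⟨hxy, Finset.mem_univ _, Finset.mem_univ _⟩
    have h2 : (rg F Finset.univ).Adj x z := ⟨hxz, Finset.mem_univ _, Finset.mem_univ _⟩
    have h3 := Finset.mem_range.1 (hc.mem x y h1)
    have h4 := Finset.mem_range.1 (hc.mem x z h2)
    have h5 : c s(x, y) % m = c s(x, z) % m := congrArg Fin.val he
    rw [Nat.mod_eq_of_lt h3, Nat.mod_eq_of_lt h4] at h5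
    exact hc.ne x y z h1 h2 hyz h5

end Pool.Agent.ALC
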