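import Pool.Agent.ALC.KexB
import Pool.Agent.ALC.Hub
import Pool.Agent.ALC.Vz
import Pool.Agent.ALC.Um
import Pool.Agent.ALC.Kd
import Pool.Agent.ALB.Psc
import Pool.Agent.ALB.Lim

/-!
# ALC RB: the case of at most `(7/6) r` vertices

PROOF.  By `hc.ge (c/2)` there is `a₀ ≥ 4` with `(c/2) choose a 4 ≤ crK a` for `a ≥ a₀`, and
`a^4 ≤ 256 choose a 4` (`lim_pow_le`), so `crK a ≥ (c/512) a^4`.  Let `r₀ ≥ 2 a₀`, `r₀ ≥ 1`, and
`r₀ ≥ 2 · 64 · 512 / c`.  Let `r ≥ r₀`.  Any vertex has at least `r` neighbours (`vc_deg`; `V` is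
nonempty as `H` is not `r`-colourable), so `card V = r + 1 + m` with `m : ℕ`, and `6 m ≤ r`.
`W` from `exists_univ`, `p = #W ≥ r + 1 - 3 m ≥ r / 2`; `card V ≤ p + 4 m`, `p ≥ 2 m`, `p ≤ card V`.
So `p ≥ a₀` and `crK p ≥ (c/512) p^4 ≥ 64 p^3 ≥ 16 p r^2` (`r ≤ 2 p`, `p ≥ r/2 ≥ 64 · 512 / c`).
* `m = 0`: every vertex has `r` neighbours among the `r` other vertices, `H` is complete,
  `crK_le_cr_of_clique`.
* `m ≥ 1` and some `v` has exactly `r` neighbours: `exists_kd`, and `exists_T` gives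
  `2 r ≤ r + #T`, so `T = univ`.  `v ∉ W`, because a vertex of `W` has `card V - 1 > r` neighbours.
  `kexB`: `p crK (r+1) + m crK p ≤ p (D.cr + 16 m r^2)` and `m crK p ≥ 16 m p r^2`, so
  `p crK (r+1) ≤ p D.cr`.
* `m ≥ 1` and every vertex has at least `r + 1` neighbours: in `F = Hᶜ` every vertex has at most
  `card V - 1 - (r + 1) = m - 1 < m` neighbours; `vizing F m` gives `c` (`F.Adj x y` iff `x ≠ y` and
  `¬ H.Adj x y`).  `exists_Z D W` (in `Pool/Agent/ALB/Psc.lean`, `1 ≤ m`, `2 m ≤ p`) gives `Z` with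
  `m crK p ≤ p Phi D W Z`, and `hub`: `crK (r+1) + Phi ≤ D.cr + 16 m^3`.  Hence
  `p crK (r+1) + m crK p ≤ p D.cr + 16 p m^3` and `m crK p ≥ 16 m p r^2 ≥ 16 p m^3`.
-/

set_option autoImplicit false

namespace Pool.Agent.ALC

open Pool.Agent.ALB

/-- the numeric estimate: `16 p r² ≤ crK p` -/
theorem rB_num {c : ℝ} (hc : 0 < c) {a₀ : ℕ} (ha₀ : 4 ≤ a₀)
    (hge : ∀ a : ℕ, a₀ ≤ a → (c - c / 2) * (a.choose 4 : ℝ) ≤ (crK a : ℝ))
    {p r : ℕ} (hp : a₀ ≤ p) (hr : r ≤ 2 * p) (hpc : 65536 / c ≤ (r : ℝ)) :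
    16 * p * r ^ 2 ≤ crK p := by
  have h1 := hge p hp
  have h2 : ((p : ℝ)) ^ 4 ≤ 256 * (p.choose 4 : ℝ) := by
    exact_mod_cast lim_pow_le (ha₀.trans hp)
  have h3 : (65536 : ℝ) ≤ r * c := (div_le_iff₀ hc).1 hpc
  have hr' : (r : ℝ) ≤ 2 * p := by exact_mod_cast hr
  have hp0 : (0 : ℝ) ≤ p := Nat.cast_nonneg p
  have hr0 : (0 : ℝ) ≤ r := Nat.cast_nonneg r
  have h4 : (32768 : ℝ) ≤ c * p := by nlinarith
  have h5 : c / 512 * (p : ℝ) ^ 4 ≤ (crK p : ℝ) := by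
    refine le_trans ?_ h1
    have : c / 512 * (p : ℝ) ^ 4 ≤ c / 512 * (256 * (p.choose 4 : ℝ)) :=
      mul_le_mul_of_nonneg_left h2 (by positivity)
    linarith
  have h6 : (64 : ℝ) * (p : ℝ) ^ 3 ≤ c / 512 * (p : ℝ) ^ 4 := by
    have h7 : c / 512 * (p : ℝ) ^ 4 = (c * p / 512) * (p : ℝ) ^ 3 := by ring
    rw [h7]
    refine mul_le_mul_of_nonneg_right ?_ (by positivity)
    linarith
  have h8 : (16 : ℝ) * p * r ^ 2 ≤ 64 * (p : ℝ) ^ 3 := by
    have h9 : (r : ℝ) ^ 2 ≤ (2 * p) ^ 2 := pow_le_pow_left₀ hr0 hr' 2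
    have h10 : (16 : ℝ) * p * r ^ 2 ≤ 16 * p * (2 * p) ^ 2 :=
      mul_le_mul_of_nonneg_left h9 (by positivity)
    refine h10.trans (le_of_eq ?_)
    ring
  have h11 : ((16 * p * r ^ 2 : ℕ) : ℝ) ≤ (crK p : ℝ) := by
    push_cast
    exact h8.trans (h6.trans h5)
  exact_mod_cast h11

theorem rB {c : ℝ} (hc : Lim c) : ∃ r₀ : ℕ, ∀ (V : Type) (_ : Fintype V) (H : SimpleGraph V)
    (D : Drw H) (r : ℕ), r₀ ≤ r → VC H r → 6 * Fintype.card V ≤ 7 * r → crK (r + 1) ≤ D.cr := by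
  classical
  obtain ⟨a₀, ha₀, hge⟩ := hc.ge (c / 2) (half_pos hc.pos)
  obtain ⟨n₀, hn₀⟩ := exists_nat_ge (65536 / c)
  refine ⟨2 * a₀ + n₀ + 1, fun V _ H D r hr h hV => ?_⟩
  have hne : Nonempty V := by
    by_contra hcon
    rw [not_nonempty_iff] at hcon
    exact h.nc ⟨SimpleGraph.Coloring.mk (fun x => (hcon.false x).elim) fun {x} => (hcon.false x).elim⟩
  obtain ⟨x₀⟩ := hne
  have hcompl : ∀ x : V, {y | H.Adj x y}.ncard + 1 ≤ Fintype.card V := by
    intro x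
    have h1 : (insert x {y | H.Adj x y}).ncard = {y | H.Adj x y}.ncard + 1 :=
      Set.ncard_insert_of_notMem (fun hx => (hx : H.Adj x x).ne rfl) (Set.toFinite _)
    rw [← h1, ← Nat.card_eq_fintype_card, ← Set.ncard_univ]
    exact Set.ncard_le_ncard (Set.subset_univ _) (Set.toFinite _)
  have hx₀ := hcompl x₀
  have hd₀ := vc_deg h x₀
  obtain ⟨m, hm⟩ : ∃ m, Fintype.card V = r + 1 + m := Nat.exists_eq_add_of_le (by omega)
  rcases Nat.eq_zero_or_pos m with hm0 | hm0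
  · subst hm0
    exact crK_le_of_card_succ D h.nc (by rw [hm, add_zero])
  obtain ⟨W, hW, hWc⟩ := exists_univ h
  have hpV : W.card ≤ Fintype.card V := Finset.card_le_univ W
  obtain ⟨p, hp⟩ : ∃ p, p = W.card := ⟨_, rfl⟩
  have hpr : r ≤ 2 * p := by omega
  have hpm : 2 * m ≤ p := by omega
  have hnum : 16 * p * r ^ 2 ≤ crK p := by
    refine rB_num hc.pos ha₀ hge (by omega) hpr (hn₀.trans ?_)
    exact_mod_cast (by omega : n₀ ≤ r)
  have hp0 : 0 < p := by omega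
  by_cases hdeg : ∃ v, {y | H.Adj v y}.ncard = r
  · obtain ⟨v, hv⟩ := hdeg
    obtain ⟨f, s, hk⟩ := exists_kd h v
    obtain ⟨T, hT, hTc⟩ := exists_T hk
    have hTu : T = Finset.univ := by
      refine Finset.eq_univ_of_card T ?_
      have := Finset.card_le_univ T
      rw [Fintype.card_fin] at this ⊢
      omega
    have hvW : v ∉ W := by
      intro hvW
      have h1 : insert v {y | H.Adj v y} = (Set.univ : Set V) := by
        refine Set.eq_univ_of_forall fun x => ?_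
        by_cases hx : x = v
        · exact Or.inl hx
        · exact Or.inr (hW v hvW x hx)
      have h2 : (insert v {y | H.Adj v y}).ncard = {y | H.Adj v y}.ncard + 1 :=
        Set.ncard_insert_of_notMem (fun hx => (hx : H.Adj v v).ne rfl) (Set.toFinite _)
      rw [h1, Set.ncard_univ, Nat.card_eq_fintype_card] at h2
      omega
    have h1 := kexB D hk (fun i => hT i (by rw [hTu]; exact Finset.mem_univ i)) hm W hW hvW
      (by omega)
    rw [← hp] at h1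
    have h2 : m * (16 * p * r ^ 2) ≤ m * crK p := Nat.mul_le_mul_left m hnum
    have h3 : p * crK (r + 1) ≤ p * D.cr := by
      have h4 : p * (D.cr + 16 * m * r ^ 2) = p * D.cr + m * (16 * p * r ^ 2) := by ring
      rw [h4] at h1
      omega
    exact Nat.le_of_mul_le_mul_left h3 hp0
  · push Not at hdeg
    have hF : ∀ x, {y | Hᶜ.Adj x y}.ncard < m := by
      intro x
      have h1 : (insert x {y | H.Adj x y}).ncard = {y | H.Adj x y}.ncard + 1 :=
        Set.ncard_insert_of_notMem (fun hx => (hx : H.Adj x x).ne rfl) (Set.toFinite _)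
      have h2 : {y | Hᶜ.Adj x y} = (insert x {y | H.Adj x y})ᶜ := by
        ext y
        simp only [Set.mem_ofPred_eq, SimpleGraph.compl_adj, Set.mem_compl_iff, Set.mem_insert_iff,
          not_or]
        exact ⟨fun h => ⟨fun h' => h.1 h'.symm, h.2⟩, fun h => ⟨fun h' => h.1 h'.symm, h.2⟩⟩
      have h3 := Set.ncard_add_ncard_compl (insert x {y | H.Adj x y})
        (Set.toFinite _) (Set.toFinite _)
      rw [Nat.card_eq_fintype_card] at h3
      rw [h2]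
      have h4 := vc_deg h x
      have h5 := hdeg x
      have h6 : r + 1 ≤ {y | H.Adj x y}.ncard := Nat.lt_of_le_of_ne h4 (Ne.symm h5)
      omega
    obtain ⟨col, hcol⟩ := vizing Hᶜ m hF
    obtain ⟨Z, hZW, hZ, hZP⟩ := exists_Z D W
      (fun a ha b _ hab => hW a ha b hab.symm) hm0 (by omega)
    have h1 := hub D hm W hW (by omega) Z hZW hZ col (fun x y z hxy hxz hyz h1 h2 =>
      hcol x y z ((SimpleGraph.compl_adj _ _ _).2 ⟨hxy, h1⟩)
        ((SimpleGraph.compl_adj _ _ _).2 ⟨hxz, h2⟩) hyz)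
    rw [← hp] at hZP
    have h2 : m * (16 * p * r ^ 2) ≤ m * crK p := Nat.mul_le_mul_left m hnum
    have h3 : p * (16 * m ^ 3) ≤ m * (16 * p * r ^ 2) := by
      have h4 : m ^ 2 ≤ r ^ 2 := Nat.pow_le_pow_left (by omega) 2
      calc p * (16 * m ^ 3) = m * (16 * p * m ^ 2) := by ring
        _ ≤ m * (16 * p * r ^ 2) := Nat.mul_le_mul_left _ (Nat.mul_le_mul_left _ h4)
    have h5 : p * crK (r + 1) + p * Phi D W Z ≤ p * D.cr + p * (16 * m ^ 3) := by
      rw [← mul_add, ← mul_add]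
      exact Nat.mul_le_mul_left p h1
    have h6 : p * crK (r + 1) ≤ p * D.cr := by omega
    exact Nat.le_of_mul_le_mul_left h6 hp0

end Pool.Agent.ALC
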