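import Pool.Agent.ALB.Defs

/-!
# ALC: Albertson's conjecture for `(1+ε)t`-degenerate graphs (MP_b9e35b_co): definitions

`H` is a graph on the finite type `V`, `r` the number of colours (so the relevant complete graph
is `K_{r+1}`), `v` a vertex, `f : V → Fin r` a proper colouring of `H - v` (the value `f v` is
irrelevant), `s : Fin r → V` chooses a neighbour of `v` of every colour.
`Un H v f s i` says that `s i` is the only neighbour of `v` of colour `i`.
`Bg H v f i j` is the Kempe graph of the colours `i, j`.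
`E : Sym2 (Fin r) → Finset (Sym2 V)`: for two different colours `i, j ∈ T` the set `E s(i, j)` is
the edge set of a path from `s i` to `s j` in the Kempe graph (`PFam`).
`PS` is the hypothesis of the drawing lemma: a system of walks between terminals `Y i`.
-/

set_option autoImplicit false

namespace Pool.Agent.ALC

open Pool.Agent.ALB

/-- `H` is not `r`-colourable, but every `H - v` is -/
structure VC {V : Type} (H : SimpleGraph V) (r : ℕ) : Prop where
  nc : ¬ H.Colorable r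
  del : ∀ v : V, ∃ f : V → Fin r, ∀ x y, x ≠ v → y ≠ v → H.Adj x y → f x ≠ f y

/-- a colouring `f` of `H - v` with `r` colours and a neighbour `s i` of `v` of every colour -/
structure KD {V : Type} (H : SimpleGraph V) {r : ℕ} (v : V) (f : V → Fin r) (s : Fin r → V) :
    Prop where
  nc : ¬ H.Colorable r
  off : ∀ x y, x ≠ v → y ≠ v → H.Adj x y → f x ≠ f y
  adj : ∀ i, H.Adj v (s i)
  fs : ∀ i, f (s i) = i

/-- `s i` is the only neighbour of `v` of colour `i` -/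
def Un {V : Type} (H : SimpleGraph V) {r : ℕ} (v : V) (f : V → Fin r) (s : Fin r → V)
    (i : Fin r) : Prop :=
  ∀ x, H.Adj v x → f x = i → x = s i

/-- the Kempe graph of the colours `i` and `j` -/
def Bg {V : Type} (H : SimpleGraph V) {r : ℕ} (v : V) (f : V → Fin r) (i j : Fin r) :
    SimpleGraph V where
  Adj x y := H.Adj x y ∧ x ≠ v ∧ y ≠ v ∧ ((f x = i ∧ f y = j) ∨ (f x = j ∧ f y = i))
  symm.symm := fun _ _ h => ⟨h.1.symm, h.2.2.1, h.2.1, h.2.2.2.elim (fun h' => Or.inr ⟨h'.2, h'.1⟩)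
    (fun h' => Or.inl ⟨h'.2, h'.1⟩)⟩
  loopless := ⟨fun _ h => h.1.ne rfl⟩

/-- the sets `E s(i, j)`, `i ≠ j` in `T`, are the edge sets of paths from `s i` to `s j` in the
Kempe graphs.  `two`: at most two edges at a vertex, `one`: at most one edge at the end `s j`
(by symmetry of `i, j` also at `s i`), `tail`: without its first edge `e₀` the path still connects
all its vertices except `s i`. -/
structure PFam {V : Type} (H : SimpleGraph V) {r : ℕ} (v : V) (f : V → Fin r) (s : Fin r → V)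
    (T : Finset (Fin r)) (E : Sym2 (Fin r) → Finset (Sym2 V)) : Prop where
  sub : ∀ i j, i ∈ T → j ∈ T → i ≠ j → ∀ e ∈ E s(i, j),
    e ∈ H.edgeSet ∧ v ∉ e ∧ e.map f = s(i, j)
  walk : ∀ i j, i ∈ T → j ∈ T → i ≠ j → ∃ W : H.Walk (s i) (s j), ∀ e ∈ W.edges, e ∈ E s(i, j)
  two : ∀ i j, i ∈ T → j ∈ T → i ≠ j → ∀ x : V, {e | e ∈ E s(i, j) ∧ x ∈ e}.ncard ≤ 2
  one : ∀ i j, i ∈ T → j ∈ T → i ≠ j → {e | e ∈ E s(i, j) ∧ s j ∈ e}.ncard ≤ 1
  tail : ∀ i j, i ∈ T → j ∈ T → i ≠ j → ∃ e₀ ∈ E s(i, j), ∀ x y, x ≠ s i → y ≠ s i →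
    (∃ e ∈ E s(i, j), x ∈ e) → (∃ e ∈ E s(i, j), y ∈ e) →
      ∃ W : H.Walk x y, ∀ e ∈ W.edges, e ∈ E s(i, j) ∧ e ≠ e₀

/-- the vertex `x` is on the path `E p` -/
def On {V : Type} {r : ℕ} (E : Sym2 (Fin r) → Finset (Sym2 V)) (x : V) (p : Sym2 (Fin r)) :
    Prop :=
  ∃ e ∈ E p, x ∈ e

/-- the pair `i, j` is rigid: every walk from `s i` to `s j` in the Kempe graph contains all edges
of the path -/
def Rig {V : Type} (H : SimpleGraph V) {r : ℕ} (v : V) (f : V → Fin r) (s : Fin r → V)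
    (E : Sym2 (Fin r) → Finset (Sym2 V)) (i j : Fin r) : Prop :=
  ∀ W : (Bg H v f i j).Walk (s i) (s j), ∀ e ∈ E s(i, j), e ∈ W.edges

/-- the edges on no path -/
def UE {V : Type} (H : SimpleGraph V) {r : ℕ} (T : Finset (Fin r))
    (E : Sym2 (Fin r) → Finset (Sym2 V)) : Set (Sym2 V) :=
  {e | e ∈ H.edgeSet ∧ ∀ i ∈ T, ∀ j ∈ T, i ≠ j → e ∉ E s(i, j)}

/-- (ordered) pairs which are not rigid -/
def NR {V : Type} (H : SimpleGraph V) {r : ℕ} (v : V) (f : V → Fin r) (s : Fin r → V)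
    (T : Finset (Fin r)) (E : Sym2 (Fin r) → Finset (Sym2 V)) : Set (Fin r × Fin r) :=
  {p | p.1 ∈ T ∧ p.2 ∈ T ∧ p.1 ≠ p.2 ∧ ¬ Rig H v f s E p.1 p.2}

/-- a path system: terminals `Y i` of colour `i`; for every edge `p = s(i, j)` of `Γ` the set
`E p` contains a walk from `Y i` to `Y j` and consists of edges with end points of the colours
`i` and `j` -/
structure PS {V : Type} (G : SimpleGraph V) {r : ℕ} (f : V → Fin r) (Y : Fin r → V)
    (Γ : SimpleGraph (Fin r)) (E : Sym2 (Fin r) → Finset (Sym2 V)) : Prop where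
  fY : ∀ i, f (Y i) = i
  sub : ∀ p ∈ Γ.edgeSet, ∀ e ∈ E p, e ∈ G.edgeSet ∧ e.map f = p
  walk : ∀ i j, Γ.Adj i j → ∃ W : G.Walk (Y i) (Y j), ∀ e ∈ W.edges, e ∈ E s(i, j)

/-- the number of ordered pairs (with the diagonal) which are not edges of `Γ` -/
noncomputable def miss {r : ℕ} (Γ : SimpleGraph (Fin r)) : ℕ :=
  {p : Fin r × Fin r | ¬ Γ.Adj p.1 p.2}.ncard

/-- `c` is the limit of `crK a / binom(a, 4)` -/
structure Lim (c : ℝ) : Prop where
  pos : 0 < c
  le : ∀ k : ℕ, (crK k : ℝ) ≤ c * (k.choose 4 : ℝ)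
  ge : ∀ δ : ℝ, 0 < δ → ∃ a₀ : ℕ, 4 ≤ a₀ ∧ ∀ a : ℕ, a₀ ≤ a →
    (c - δ) * (a.choose 4 : ℝ) ≤ (crK a : ℝ)

end Pool.Agent.ALC
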