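import Pool.Agent.ALC.CrL
import Pool.Agent.ALC.Defs

/-!
# ALC RC: the case of many vertices

PROOF.  `hc.ge (c/2)` gives `a ≥ 4` with `crK a ≥ (c/2) choose a 4 > 0`.  `B` from `crL`.
`C = 256 B^2 (c + 1)`, `r₀ = 8 B`.  Let `n = card V ≥ C r`, `2 #(ed G) = ∑ degrees ≥ r n`
(`SimpleGraph.sum_degrees_eq_twice_card_edges`, or count the pairs `(x, e)`, `x ∈ e`), and
`q = r / (4 B)` (natural division), so `4 B q ≤ r` and `8 B q ≥ r` (`r ≥ 8 B`: `q ≥ r/(4B) - 1 ≥ r/(8B)`).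
`crL`: `D.cr ≥ q^2 r n / 2 - B n q^3 = n q^2 (r / 2 - B q) ≥ n q^2 r / 4 ≥ n r^3 / (256 B^2)
≥ C r^4 / (256 B^2) ≥ (c + 1) r^4`.
On the other side `crK (r+1) ≤ c choose (r+1) 4 ≤ c (r+1)^4 / 24 ≤ c (2 r)^4 / 24 ≤ c r^4`.
-/

set_option autoImplicit false

namespace Pool.Agent.ALC

open Pool.Agent.ALB

private theorem rC_deg {V : Type} [Fintype V] (G : SimpleGraph V) (r : ℕ)
    (h : ∀ x : V, r ≤ {y | G.Adj x y}.ncard) : Fintype.card V * r ≤ 2 * (ed G).card := by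
  classical
  have h1 : (ed G).card = G.edgeFinset.card := by
    congr 1
    ext e
    simp
  have h2 : ∀ x : V, G.degree x = {y | G.Adj x y}.ncard := by
    intro x
    rw [Set.ncard_eq_toFinset_card', ← G.card_neighborFinset_eq_degree]
    congr 1
  rw [h1, ← G.sum_degrees_eq_twice_card_edges]
  calc Fintype.card V * r = ∑ _x : V, r := by simp
    _ ≤ ∑ x : V, G.degree x := by
        refine Finset.sum_le_sum fun x _ => ?_
        rw [h2 x]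
        exact h x

private theorem rC_choose (r : ℕ) (hr : 1 ≤ r) : (((r + 1).choose 4 : ℕ) : ℝ) ≤ (r : ℝ) ^ 4 := by
  have h1 : (((r + 1).choose 4 : ℕ) : ℝ) ≤ ((r + 1 : ℕ) : ℝ) ^ 4 / (Nat.factorial 4 : ℝ) :=
    Nat.choose_le_pow_div 4 (r + 1)
  have h2 : ((r + 1 : ℕ) : ℝ) ^ 4 ≤ (2 * (r : ℝ)) ^ 4 := by
    apply pow_le_pow_left₀ (by positivity)
    push_cast
    have : (1 : ℝ) ≤ r := by exact_mod_cast hr
    linarith
  have h3 : (Nat.factorial 4 : ℝ) = 24 := by norm_num [Nat.factorial]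
  rw [h3] at h1
  have h4 : (0 : ℝ) ≤ (r : ℝ) ^ 4 := by positivity
  have h5 : (2 * (r : ℝ)) ^ 4 = 16 * (r : ℝ) ^ 4 := by ring
  rw [h5] at h2
  linarith

theorem rC {c : ℝ} (hc : Lim c) : ∃ C : ℝ, 0 < C ∧ ∃ r₀ : ℕ, ∀ (V : Type) (_ : Fintype V)
    (G : SimpleGraph V) (D : Drw G), D.NoAdj → ∀ r : ℕ, r₀ ≤ r →
      (∀ x : V, r ≤ {y | G.Adj x y}.ncard) → C * (r : ℝ) ≤ (Fintype.card V : ℝ) →
      crK (r + 1) ≤ D.cr := by
  have hc0 : 0 < c := hc.pos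
  obtain ⟨a, ha4, hage⟩ := hc.ge (c / 2) (by positivity)
  have ha : crK a ≠ 0 := by
    intro h
    have h1 := hage a le_rfl
    rw [h] at h1
    have h2 : 1 ≤ a.choose 4 := Nat.choose_pos ha4
    have h3 : (1 : ℝ) ≤ (a.choose 4 : ℝ) := by exact_mod_cast h2
    have h4 : (c - c / 2) * 1 ≤ (c - c / 2) * (a.choose 4 : ℝ) :=
      mul_le_mul_of_nonneg_left h3 (by linarith)
    push_cast at h1
    linarith
  obtain ⟨B, hB, hcrL⟩ := crL ha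
  have hBR : (1 : ℝ) ≤ B := by exact_mod_cast hB
  refine ⟨256 * (B : ℝ) ^ 2 * (c + 1), by positivity, 8 * B, ?_⟩
  intro V iV G D hNA r hr hdeg hn
  obtain ⟨n, hnn⟩ : ∃ n : ℕ, n = Fintype.card V := ⟨_, rfl⟩
  obtain ⟨E, hE⟩ : ∃ E : ℕ, E = (ed G).card := ⟨_, rfl⟩
  obtain ⟨M, hM⟩ : ∃ M : ℕ, M = D.cr := ⟨_, rfl⟩
  have hr1 : 1 ≤ r := by omega
  have hr1R : (1 : ℝ) ≤ r := by exact_mod_cast hr1
  have hdeg' := rC_deg G r hdeg
  obtain ⟨q, hq⟩ : ∃ q : ℕ, q = r / (4 * B) := ⟨_, rfl⟩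
  have hq1 : 4 * B * q ≤ r := by rw [hq]; exact Nat.mul_div_le r (4 * B)
  have hq2 : r ≤ 8 * B * q := by
    have h1 : r < 4 * B * (q + 1) := by
      rw [hq]
      have := Nat.lt_mul_div_succ r (b := 4 * B) (by omega)
      exact this
    have h2 : 4 * B * (q + 1) = 4 * B * q + 4 * B := by ring
    have h3 : 8 * B * q = 2 * (4 * B * q) := by ring
    omega
  have hq0 : 0 < q := by
    rcases Nat.eq_zero_or_pos q with h | h
    · rw [h] at hq2; omega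
    · exact h
  have hcr := hcrL V iV G D hNA q hq0
  rw [← hnn, ← hE, ← hM] at hcr
  rw [← hnn, ← hE] at hdeg'
  rw [← hnn] at hn
  rw [← hM]
  have hq1R : 4 * (B : ℝ) * q ≤ r := by exact_mod_cast hq1
  have hq2R : (r : ℝ) ≤ 8 * (B : ℝ) * q := by exact_mod_cast hq2
  have hcrR : (q : ℝ) ^ 2 * E ≤ (B : ℝ) * n * (q : ℝ) ^ 3 + M := by exact_mod_cast hcr
  have hdegR : (n : ℝ) * r ≤ 2 * E := by exact_mod_cast hdeg'
  have hn0 : (0 : ℝ) ≤ n := Nat.cast_nonneg n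
  have hqR : (0 : ℝ) < q := by exact_mod_cast hq0
  -- the lower bound
  have h1 : (n : ℝ) * (q : ℝ) ^ 2 * (r / 4) ≤ M := by
    have h2 : (q : ℝ) ^ 2 * ((n : ℝ) * r) ≤ (q : ℝ) ^ 2 * (2 * E) :=
      mul_le_mul_of_nonneg_left hdegR (by positivity)
    have h3 : (n : ℝ) * (q : ℝ) ^ 2 * (4 * (B : ℝ) * q) ≤ (n : ℝ) * (q : ℝ) ^ 2 * r :=
      mul_le_mul_of_nonneg_left hq1R (by positivity)
    nlinarith
  have h2 : (r : ℝ) ^ 2 ≤ 64 * (B : ℝ) ^ 2 * (q : ℝ) ^ 2 := by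
    have h3 := pow_le_pow_left₀ (by positivity) hq2R 2
    nlinarith
  have h3 : (c + 1) * (r : ℝ) ^ 4 ≤ M := by
    have h4 : 256 * (B : ℝ) ^ 2 * ((n : ℝ) * (q : ℝ) ^ 2 * (r / 4)) ≤ 256 * (B : ℝ) ^ 2 * M :=
      mul_le_mul_of_nonneg_left h1 (by positivity)
    have h5 : (n : ℝ) * r * (r : ℝ) ^ 2 ≤ (n : ℝ) * r * (64 * (B : ℝ) ^ 2 * (q : ℝ) ^ 2) :=
      mul_le_mul_of_nonneg_left h2 (by positivity)
    have h6 : 256 * (B : ℝ) ^ 2 * (c + 1) * r * (r : ℝ) ^ 3 ≤ (n : ℝ) * (r : ℝ) ^ 3 :=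
      mul_le_mul_of_nonneg_right hn (by positivity)
    have h7 : 256 * (B : ℝ) ^ 2 * ((c + 1) * (r : ℝ) ^ 4) ≤ 256 * (B : ℝ) ^ 2 * M := by
      nlinarith
    exact le_of_mul_le_mul_left h7 (by positivity)
  -- the upper bound
  have h4 : (crK (r + 1) : ℝ) ≤ c * (r : ℝ) ^ 4 :=
    (hc.le (r + 1)).trans (mul_le_mul_of_nonneg_left (rC_choose r hr1) hc0.le)
  have h5 : (crK (r + 1) : ℝ) ≤ (M : ℝ) := by
    have h6 : (0 : ℝ) ≤ (r : ℝ) ^ 4 := by positivity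
    nlinarith
  exact_mod_cast h5

end Pool.Agent.ALC
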