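import Mathlib

/-!
# ALC CNT: sums over all functions `Fin m → V`

PROOF.  Induction on `m`, or: `Equiv.piEquivPiSubtypeProd` with the predicate `j ∈ Set.range α`,
`Fintype.card_fun`, and the bijection `Fin s ≃ {j // j ∈ Set.range α}`
(`Equiv.ofInjective`).  `sum_two`, `sum_four` are special cases of `sum_comp` (`s = 2, 4`,
`α = ![i, j]`, `![i, j, k, l]`), together with `Fin.consEquiv`/`piFinTwoEquiv` to write the sum
over `Fin s → V` as an iterated sum; or prove them directly by the same method.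
-/

set_option autoImplicit false

namespace Pool.Agent.ALC



theorem sum_comp {V : Type} [Fintype V] {s m : ℕ} (α : Fin s → Fin m)
    (hα : Function.Injective α) (g : (Fin s → V) → ℕ) :
    ∑ φ : Fin m → V, g (φ ∘ α) = Fintype.card V ^ (m - s) * ∑ ψ : Fin s → V, g ψ := by
  classical
  let e₁ := Equiv.piEquivPiSubtypeProd (fun j => j ∈ Set.range α) (fun _ : Fin m => V)
  let e₂ : ({j // j ∈ Set.range α} → V) ≃ (Fin s → V) :=
    Equiv.arrowCongr (Equiv.ofInjective α hα).symm (Equiv.refl V)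
  let e : (Fin m → V) ≃ (Fin s → V) × ({j // ¬ j ∈ Set.range α} → V) :=
    e₁.trans (Equiv.prodCongr e₂ (Equiv.refl _))
  have hfst : ∀ φ : Fin m → V, (e φ).1 = φ ∘ α := by
    intro φ
    rfl
  have h1 : ∑ φ : Fin m → V, g (φ ∘ α) =
      ∑ q : (Fin s → V) × ({j // ¬ j ∈ Set.range α} → V), g q.1 := by
    refine Fintype.sum_equiv e _ _ ?_
    intro φ
    rw [hfst]
  rw [h1, Fintype.sum_prod_type, Finset.mul_sum]
  refine Finset.sum_congr rfl fun ψ _ => ?_
  simp only [Finset.sum_const, Finset.card_univ, smul_eq_mul]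
  congr 1
  rw [Fintype.card_fun]
  congr 1
  have h2 : Fintype.card {j // j ∈ Set.range α} = s := by
    have := Fintype.card_congr (Equiv.ofInjective α hα)
    rw [Fintype.card_fin] at this
    exact this.symm
  have h3 := Fintype.card_subtype_compl (fun j => j ∈ Set.range α)
  rw [Fintype.card_fin, h2] at h3
  convert h3

theorem sum_two {V : Type} [Fintype V] {m : ℕ} {i j : Fin m} (hij : i ≠ j) (g : V → V → ℕ) :
    ∑ φ : Fin m → V, g (φ i) (φ j) = Fintype.card V ^ (m - 2) * ∑ x, ∑ y, g x y := by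
  classical
  have hinj : Function.Injective ![i, j] := by
    intro a b hab
    fin_cases a <;> fin_cases b <;> simp_all [eq_comm]
  have h := sum_comp (V := V) ![i, j] hinj (fun ψ => g (ψ 0) (ψ 1))
  simp only [Function.comp_apply, Matrix.cons_val_zero, Matrix.cons_val_one] at h
  rw [h]
  congr 1
  rw [← Equiv.sum_comp (finTwoArrowEquiv V).symm, Fintype.sum_prod_type]
  rfl

theorem sum_four {V : Type} [Fintype V] {m : ℕ} {i j k l : Fin m} (hij : i ≠ j) (hik : i ≠ k)
    (hil : i ≠ l) (hjk : j ≠ k) (hjl : j ≠ l) (hkl : k ≠ l) (g : V → V → V → V → ℕ) :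
    ∑ φ : Fin m → V, g (φ i) (φ j) (φ k) (φ l) =
      Fintype.card V ^ (m - 4) * ∑ x, ∑ y, ∑ z, ∑ w, g x y z w := by
  classical
  have hinj : Function.Injective ![i, j, k, l] := by
    intro a b hab
    fin_cases a <;> fin_cases b <;> simp_all [eq_comm]
  have h := sum_comp (V := V) ![i, j, k, l] hinj (fun ψ => g (ψ 0) (ψ 1) (ψ 2) (ψ 3))
  have h0 : ∀ φ : Fin m → V, g (φ i) (φ j) (φ k) (φ l) =
      (fun ψ : Fin 4 → V => g (ψ 0) (ψ 1) (ψ 2) (ψ 3)) (φ ∘ ![i, j, k, l]) := by
    intro φ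
    rfl
  rw [Finset.sum_congr rfl fun φ _ => h0 φ, h]
  congr 1
  let e : (Fin 4 → V) ≃ V × V × V × V :=
    { toFun := fun ψ => (ψ 0, ψ 1, ψ 2, ψ 3)
      invFun := fun q => ![q.1, q.2.1, q.2.2.1, q.2.2.2]
      left_inv := by
        intro ψ
        funext a
        fin_cases a <;> rfl
      right_inv := by
        rintro ⟨a, b, c, d⟩
        rfl }
  rw [← Equiv.sum_comp e.symm, Fintype.sum_prod_type]
  refine Finset.sum_congr rfl fun x _ => ?_
  rw [Fintype.sum_prod_type]
  refine Finset.sum_congr rfl fun y _ => ?_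
  rw [Fintype.sum_prod_type]
  rfl

end Pool.Agent.ALC
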