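import Mathlib

/-!
# ALC KST: a dense 0/1 matrix contains an all-ones `a × b` submatrix

PROOF (Kovari, Sos, Turan).  We may assume `1 ≤ a`, `1 ≤ b` (for `a = 0` or `b = 0` choose `m₀`
with `b ≤ m₀`, `a ≤ m₀`; any injections work).  Let `m₀` be a natural number with
`a + b ^ 2 < d ^ b * m₀` and `1 ≤ m₀`.  Let `m ≥ m₀` and let `d(u) = #{y | R u y}`.  The number `N`
of pairs `(u, y)`, `u : Fin m`, `y : Fin b → Fin m` with `R u (y j)` for all `j` is
`∑_u d(u)^b ≥ m (∑ d(u) / m)^b ≥ m (d m)^b` (power mean inequality: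
`pow_sum_div_card_le_sum_pow` or `Real.pow_arith_mean_le_arith_mean_pow`).
If the claim fails, every injective `y` has fewer than `a` such `u` (otherwise choose `a`
different `u`); there are at most `m^b` injective `y` and at most `b^2 m^(b-1)` non-injective
ones, each with at most `m` such `u`.  So `N ≤ a m^b + b^2 m^b`, i.e.
`d^b m^(b+1) ≤ (a + b^2) m^b`, `d^b m ≤ a + b^2`, a contradiction.
-/

set_option autoImplicit false

namespace Pool.Agent.ALC



theorem kst_pow_sum {m : ℕ} (f : Fin m → ℝ) (hf : ∀ u, 0 ≤ f u) (n : ℕ) :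
    (∑ u, f u) ^ (n + 1) ≤ (m : ℝ) ^ n * ∑ u, f u ^ (n + 1) := by
  rcases Nat.eq_zero_or_pos m with rfl | hm
  · simp
  have h1 := pow_sum_div_card_le_sum_pow (s := Finset.univ) (f := f) (fun u _ => hf u) n
  rw [Finset.card_univ, Fintype.card_fin, div_le_iff₀ (by positivity)] at h1
  rw [mul_comm]
  exact h1

open Classical in
/-- number of maps which are not injective -/
theorem kst_noninj (m b : ℕ) :
    (Finset.univ.filter fun y : Fin b → Fin m => ¬ Function.Injective y).card * m ≤
      b ^ 2 * m ^ b := by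
  have h1 : (Finset.univ.filter fun y : Fin b → Fin m => ¬ Function.Injective y) ⊆
      (Finset.univ.filter fun q : Fin b × Fin b => q.1 ≠ q.2).biUnion
        fun q => Finset.univ.filter fun y : Fin b → Fin m => y q.1 = y q.2 := by
    intro y hy
    rw [Finset.mem_filter] at hy
    have h2 := hy.2
    unfold Function.Injective at h2
    push Not at h2
    obtain ⟨i, j, hij, hne⟩ := h2
    rw [Finset.mem_biUnion]
    exact ⟨(i, j), Finset.mem_filter.2 ⟨Finset.mem_univ _, hne⟩,
      Finset.mem_filter.2 ⟨Finset.mem_univ _, hij⟩⟩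
  have h2 : ∀ q ∈ (Finset.univ.filter fun q : Fin b × Fin b => q.1 ≠ q.2),
      (Finset.univ.filter fun y : Fin b → Fin m => y q.1 = y q.2).card * m ≤ m ^ b := by
    rintro ⟨i, j⟩ hq
    have hne : i ≠ j := (Finset.mem_filter.1 hq).2
    have h3 : ((Finset.univ.filter fun y : Fin b → Fin m => y i = y j) ×ˢ
        (Finset.univ : Finset (Fin m))).card ≤ (Finset.univ : Finset (Fin b → Fin m)).card := by
      refine Finset.card_le_card_of_injOn (fun z => Function.update z.1 i z.2)
        (fun _ _ => Finset.mem_coe.2 (Finset.mem_univ _)) ?_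
      rintro ⟨y, t⟩ hy ⟨y', t'⟩ hy' he
      have hy1 : y i = y j := by
        have := (Finset.mem_product.1 (Finset.mem_coe.1 hy)).1
        exact (Finset.mem_filter.1 this).2
      have hy2 : y' i = y' j := by
        have := (Finset.mem_product.1 (Finset.mem_coe.1 hy')).1
        exact (Finset.mem_filter.1 this).2
      have e : ∀ k, Function.update y i t k = Function.update y' i t' k := fun k => congrFun he k
      have ht : t = t' := by
        have := e i
        rwa [Function.update_self, Function.update_self] at this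
      have hyy : ∀ k, k ≠ i → y k = y' k := by
        intro k hk
        have := e k
        rwa [Function.update_of_ne hk, Function.update_of_ne hk] at this
      have hy3 : y = y' := by
        funext k
        by_cases hk : k = i
        · rw [hk, hy1, hy2, hyy j hne.symm]
        · exact hyy k hk
      rw [ht, hy3]
    rw [Finset.card_product, Finset.card_univ, Finset.card_univ, Fintype.card_fin,
      Fintype.card_fun, Fintype.card_fin, Fintype.card_fin] at h3
    exact h3
  calc (Finset.univ.filter fun y : Fin b → Fin m => ¬ Function.Injective y).card * m ≤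
      (∑ q ∈ (Finset.univ.filter fun q : Fin b × Fin b => q.1 ≠ q.2),
        (Finset.univ.filter fun y : Fin b → Fin m => y q.1 = y q.2).card) * m :=
        Nat.mul_le_mul_right m ((Finset.card_le_card h1).trans Finset.card_biUnion_le)
    _ = ∑ q ∈ (Finset.univ.filter fun q : Fin b × Fin b => q.1 ≠ q.2),
        (Finset.univ.filter fun y : Fin b → Fin m => y q.1 = y q.2).card * m := by
        rw [Finset.sum_mul]
    _ ≤ ∑ q ∈ (Finset.univ.filter fun q : Fin b × Fin b => q.1 ≠ q.2), m ^ b :=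
        Finset.sum_le_sum h2
    _ = (Finset.univ.filter fun q : Fin b × Fin b => q.1 ≠ q.2).card * m ^ b := by
        rw [Finset.sum_const, smul_eq_mul]
    _ ≤ b ^ 2 * m ^ b := by
        refine Nat.mul_le_mul_right _ ?_
        refine (Finset.card_filter_le _ _).trans ?_
        rw [Finset.card_univ, Fintype.card_prod, Fintype.card_fin, pow_two]

/-- power mean inequality -/
theorem kst_pm {m : ℕ} (f : Fin m → ℝ) (hf : ∀ u, 0 ≤ f u) (b : ℕ) :
    (m : ℝ) * (∑ u, f u) ^ b ≤ (m : ℝ) ^ b * ∑ u, f u ^ b := by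
  cases b with
  | zero => simp
  | succ n =>
    have h1 := kst_pow_sum f hf n
    have h2 : (m : ℝ) * (∑ u, f u) ^ (n + 1) ≤ (m : ℝ) * ((m : ℝ) ^ n * ∑ u, f u ^ (n + 1)) :=
      mul_le_mul_of_nonneg_left h1 (Nat.cast_nonneg m)
    rw [pow_succ' (m : ℝ), mul_assoc]
    exact h2

theorem kst (a b : ℕ) {d : ℝ} (hd : 0 < d) : ∃ m₀ : ℕ, ∀ m : ℕ, m₀ ≤ m →
    ∀ R : Fin m → Fin m → Prop,
      d * (m : ℝ) ^ 2 ≤ ({p : Fin m × Fin m | R p.1 p.2}.ncard : ℝ) →
      ∃ (x : Fin a → Fin m) (y : Fin b → Fin m), Function.Injective x ∧ Function.Injective y ∧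
        ∀ i j, R (x i) (y j) := by
  classical
  have hdb : 0 < d ^ b := pow_pos hd b
  obtain ⟨m₁, hm₁⟩ := exists_nat_gt (((a : ℝ) + (b : ℝ) ^ 2) / d ^ b)
  refine ⟨m₁ + 1, fun m hm R hR => ?_⟩
  by_contra hcon
  have hm0 : 0 < m := lt_of_lt_of_le (Nat.succ_pos m₁) hm
  have hmR : (0 : ℝ) < m := by exact_mod_cast hm0
  have hbig : (a : ℝ) + (b : ℝ) ^ 2 < d ^ b * m := by
    rw [div_lt_iff₀ hdb] at hm₁
    have h1 : (m₁ : ℝ) ≤ m := by
      have : m₁ ≤ m := (Nat.le_succ m₁).trans hm
      exact_mod_cast this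
    have h2 : (m₁ : ℝ) * d ^ b ≤ (m : ℝ) * d ^ b := mul_le_mul_of_nonneg_right h1 hdb.le
    linarith
  -- degrees
  let dg : Fin m → ℕ := fun u => (Finset.univ.filter fun y => R u y).card
  let c : (Fin b → Fin m) → ℕ := fun y => (Finset.univ.filter fun u => ∀ j, R u (y j)).card
  have hsum : ({p : Fin m × Fin m | R p.1 p.2}.ncard : ℝ) = ∑ u, (dg u : ℝ) := by
    have h1 : {p : Fin m × Fin m | R p.1 p.2} =
        ((Finset.univ.filter fun p : Fin m × Fin m => R p.1 p.2 : Finset _) : Set _) := by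
      ext p
      simp
    rw [h1, Set.ncard_coe_finset, Finset.card_filter, Fintype.sum_prod_type, ← Nat.cast_sum]
    congr 1
    refine Finset.sum_congr rfl fun u _ => ?_
    exact (Finset.card_filter _ _).symm
  have hdg : ∀ u, (Finset.univ.filter fun y : Fin b → Fin m => ∀ j, R u (y j)).card =
      dg u ^ b := by
    intro u
    have h1 : (Finset.univ.filter fun y : Fin b → Fin m => ∀ j, R u (y j)) =
        Fintype.piFinset (fun _ : Fin b => Finset.univ.filter fun y => R u y) := by
      ext y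
      simp
    rw [h1, Fintype.card_piFinset_const]
  have hdouble : ∑ u, dg u ^ b = ∑ y : Fin b → Fin m, c y := by
    have h1 : ∀ u, dg u ^ b = ∑ y : Fin b → Fin m, if ∀ j, R u (y j) then 1 else 0 := by
      intro u
      rw [← hdg, Finset.card_filter]
    have h2 : ∀ y : Fin b → Fin m, c y = ∑ u, if ∀ j, R u (y j) then 1 else 0 := fun y =>
      Finset.card_filter _ _
    rw [Finset.sum_congr rfl fun u _ => h1 u, Finset.sum_congr rfl fun y _ => h2 y,
      Finset.sum_comm]
  have hinj : ∀ y : Fin b → Fin m, Function.Injective y → c y ≤ a := by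
    intro y hy
    by_contra hlt
    rw [not_le] at hlt
    obtain ⟨t, ht, htc⟩ := Finset.exists_subset_card_eq hlt.le
    obtain ⟨e⟩ : Nonempty (Fin a ≃ t) := ⟨(Fintype.equivFinOfCardEq (by
      rw [Fintype.card_coe, htc])).symm⟩
    refine hcon ⟨fun i => (e i : Fin m), y, ?_, hy, ?_⟩
    · intro i j hij
      exact e.injective (Subtype.ext hij)
    · intro i j
      have h1 := ht (e i).2
      exact (Finset.mem_filter.1 h1).2 j
  have hup : ∑ y : Fin b → Fin m, c y ≤ (a + b ^ 2) * m ^ b := by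
    rw [← Finset.sum_filter_add_sum_filter_not Finset.univ
      (fun y : Fin b → Fin m => Function.Injective y), add_mul]
    refine add_le_add ?_ ?_
    · refine (Finset.sum_le_card_nsmul _ _ a fun y hy => hinj y (Finset.mem_filter.1 hy).2).trans ?_
      rw [smul_eq_mul, mul_comm]
      refine Nat.mul_le_mul_left a ((Finset.card_filter_le _ _).trans ?_)
      rw [Finset.card_univ, Fintype.card_fun, Fintype.card_fin, Fintype.card_fin]
    · refine (Finset.sum_le_card_nsmul _ _ m fun y _ => ?_).trans ?_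
      · refine (Finset.card_filter_le _ _).trans ?_
        rw [Finset.card_univ, Fintype.card_fin]
      · rw [smul_eq_mul]
        exact kst_noninj m b
  have hpm := kst_pm (fun u => (dg u : ℝ)) (fun u => Nat.cast_nonneg _) b
  rw [← hsum] at hpm
  have hup' : ∑ u, (dg u : ℝ) ^ b ≤ ((a : ℝ) + (b : ℝ) ^ 2) * (m : ℝ) ^ b := by
    have h1 := hdouble.trans_le hup
    exact_mod_cast h1
  have h1 : (d * (m : ℝ) ^ 2) ^ b ≤ ({p : Fin m × Fin m | R p.1 p.2}.ncard : ℝ) ^ b :=
    pow_le_pow_left₀ (by positivity) hR b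
  have h2 : (m : ℝ) * (d * (m : ℝ) ^ 2) ^ b ≤
      (m : ℝ) ^ b * (((a : ℝ) + (b : ℝ) ^ 2) * (m : ℝ) ^ b) :=
    (mul_le_mul_of_nonneg_left h1 hmR.le).trans
      (hpm.trans (mul_le_mul_of_nonneg_left hup' (by positivity)))
  have h3 : (m : ℝ) * (d * (m : ℝ) ^ 2) ^ b = (d ^ b * m) * ((m : ℝ) ^ b * (m : ℝ) ^ b) := by
    rw [mul_pow, ← pow_mul, ← pow_add, mul_comm 2 b, mul_two]
    ring
  have h4 : (m : ℝ) ^ b * (((a : ℝ) + (b : ℝ) ^ 2) * (m : ℝ) ^ b) =
      ((a : ℝ) + (b : ℝ) ^ 2) * ((m : ℝ) ^ b * (m : ℝ) ^ b) := by ring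
  rw [h3, h4] at h2
  have h5 : (0 : ℝ) < (m : ℝ) ^ b * (m : ℝ) ^ b := by positivity
  have h6 := le_of_mul_le_mul_right h2 h5
  linarith

end Pool.Agent.ALC
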