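import Pool.Agent.ALC.SatX
import Pool.Agent.ALC.Kst
import Pool.Agent.ALC.Cnt
import Pool.Agent.ALB.ArcA

/-!
# ALC SAT: supersaturation, many edges have many crossings

PROOF.  Let `b = a * a`, `d = 2 ρ / C ^ 2` and let `m` be the number of `kst a b (d / 4)`
(`kst` with `d/4`; take `m ≥ 4` as well).  Let `n = card V`, `Λ` as in the statement.
(1) `#{(x, y) | s(x, y) ∈ Λ} = 2 #Λ ≥ 2 ρ r^2 ≥ d n^2` (edges are not diagonal), in particular
`n^2 ≥ 2 ρ r^2`, `n ≥ 1` for `r ≥ 1`, and `n → ∞` with `r`.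
(2) For `φ : Fin m → V` let `X φ = #{(i, j) | i ≠ j, s(φ i, φ j) ∈ Λ} ≤ m (m-1)`.  By `sum_two`
`∑_φ X φ = m (m-1) n^(m-2) · 2 #Λ ≥ m (m-1) d n^m`.  So the number of `φ` with
`X φ ≥ (d/2) m (m-1)` is at least `(d/2) n^m`; these `φ` satisfy `X φ ≥ (d/4) m^2`.
(3) The number of `φ` that are not injective is at most `m^2 n^(m-1) ≤ (d/4) n^m` if
`n ≥ 4 m^2 / d` (true for `r ≥ r₀`).  So at least `(d/4) n^m` many `φ` are injective with
`X φ ≥ (d/4) m^2`; call them good.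
(4) For a good `φ` apply `kst` to `R i j := s(φ i, φ j) ∈ Λ` (it is symmetric and irreflexive since
`Λ` consists of edges): `x : Fin a → Fin m`, `y : Fin b → Fin m` injective with `R (x i) (y j)`,
`x i ≠ y j` by irreflexivity; apply `satx` to `φ ∘ x`, `φ ∘ y`: there are `i₁ i₂ i₃ i₄ : Fin m` with
`s(φ i₁, φ i₂) ∈ Λ`, `s(φ i₃, φ i₄) ∈ Λ`, `D.N s(φ i₁, φ i₂) s(φ i₃, φ i₄) ≠ 0`.  By `D.NoAdj` and
`Drw.N_self` (`N e e = 0`) the four vertices are different, so the four indices are different.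
(5) So `(d/4) n^m ≤ ∑_{(i₁,i₂,i₃,i₄) different} ∑_φ [s(φ i₁,φ i₂) ∈ Λ][s(φ i₃,φ i₄) ∈ Λ] N(..)
 ≤ m^4 n^(m-4) ∑_{x,y,z,w} [s(x,y) ∈ Λ][s(z,w) ∈ Λ] N(s(x,y), s(z,w)) = m^4 n^(m-4) · 4 S`
by `sum_four`, `S = ∑_{e ∈ Λ} ∑_{e' ∈ Λ} N e e'`.  Hence `S ≥ d n^4 / (16 m^4) ≥ κ r^4` with
`κ = d (2 ρ)^2 / (16 m^4)`, because `n^4 ≥ (2 ρ r^2)^2`.
-/

set_option autoImplicit false

namespace Pool.Agent.ALC

open Pool.Agent.ALB

open Classical in
private theorem sat_sym2 {V : Type} [Fintype V] (Λ : Finset (Sym2 V))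
    (hΛ : ∀ e ∈ Λ, ¬ e.IsDiag) (g : Sym2 V → ℕ) :
    ∑ x : V, ∑ y : V, (if s(x, y) ∈ Λ then g s(x, y) else 0) = 2 * ∑ e ∈ Λ, g e := by
  have h1 : ∑ x : V, ∑ y : V, (if s(x, y) ∈ Λ then g s(x, y) else 0) =
      ∑ p : V × V, (if s(p.1, p.2) ∈ Λ then g s(p.1, p.2) else 0) :=
    (Fintype.sum_prod_type' (fun x y : V => if s(x, y) ∈ Λ then g s(x, y) else 0)).symm
  rw [h1, ← Finset.sum_filter]
  have h2 := Finset.sum_fiberwise_of_maps_to
    (s := Finset.univ.filter fun p : V × V => s(p.1, p.2) ∈ Λ) (t := Λ)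
    (g := fun p : V × V => s(p.1, p.2)) (fun p hp => (Finset.mem_filter.1 hp).2)
    (fun p : V × V => g s(p.1, p.2))
  rw [← h2, Finset.mul_sum]
  refine Finset.sum_congr rfl fun e he => ?_
  induction e with
  | _ a b =>
    have hab : a ≠ b := by
      intro h
      exact hΛ _ he (by simpa using h)
    have h3 : (Finset.univ.filter fun p : V × V => s(p.1, p.2) ∈ Λ).filter
        (fun p : V × V => s(p.1, p.2) = s(a, b)) = {(a, b), (b, a)} := by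
      ext p
      obtain ⟨x, y⟩ := p
      simp only [Finset.mem_filter, Finset.mem_univ, true_and, Finset.mem_insert,
        Finset.mem_singleton, Prod.mk.injEq, Sym2.eq_iff]
      constructor
      · rintro ⟨_, h⟩
        exact h
      · intro h
        refine ⟨?_, h⟩
        have h4 : s(x, y) = s(a, b) := Sym2.eq_iff.2 h
        rw [h4]
        exact he
    rw [h3, Finset.sum_pair]
    · have h5 : s(b, a) = s(a, b) := Sym2.eq_swap
      simp only [h5]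
      omega
    · intro h
      exact hab (Prod.mk.inj h).1

open Classical in
private theorem sat_X {V : Type} [Fintype V] {m : ℕ} (Λ : Finset (Sym2 V))
    (hΛ : ∀ e ∈ Λ, ¬ e.IsDiag) :
    ∑ φ : Fin m → V, (Finset.univ.filter fun p : Fin m × Fin m =>
      s(φ p.1, φ p.2) ∈ Λ).card =
      (m * m - m) * (Fintype.card V ^ (m - 2) * (2 * Λ.card)) := by
  have h1 : ∀ φ : Fin m → V, (Finset.univ.filter fun p : Fin m × Fin m =>
      s(φ p.1, φ p.2) ∈ Λ).card = ∑ p ∈ (Finset.univ : Finset (Fin m)).offDiag,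
        (if s(φ p.1, φ p.2) ∈ Λ then 1 else 0) := by
    intro φ
    rw [Finset.card_filter]
    symm
    apply Finset.sum_subset (Finset.subset_univ _)
    intro p _ hp
    have h2 : p.1 = p.2 := by
      by_contra h
      exact hp (by simp [Finset.mem_offDiag, h])
    rw [if_neg]
    intro h
    exact hΛ _ h (by simp [h2])
  rw [Finset.sum_congr rfl fun φ _ => h1 φ, Finset.sum_comm]
  have h2 : ∀ p ∈ (Finset.univ : Finset (Fin m)).offDiag,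
      ∑ φ : Fin m → V, (if s(φ p.1, φ p.2) ∈ Λ then 1 else 0) =
        Fintype.card V ^ (m - 2) * (2 * Λ.card) := by
    intro p hp
    have h3 : p.1 ≠ p.2 := (Finset.mem_offDiag.1 hp).2.2
    rw [sum_two h3 (fun x y => if s(x, y) ∈ Λ then 1 else 0)]
    have h4 := sat_sym2 Λ hΛ (fun _ => 1)
    rw [h4]
    simp
  rw [Finset.sum_congr rfl h2, Finset.sum_const, Finset.offDiag_card]
  simp

open Classical in
private theorem sat_inj {V : Type} [Fintype V] (m : ℕ) :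
    (Finset.univ.filter fun φ : Fin m → V => ¬ Function.Injective φ).card ≤
      m * m * (Fintype.card V ^ (m - 2) * Fintype.card V) := by
  have h1 : (Finset.univ.filter fun φ : Fin m → V => ¬ Function.Injective φ) ⊆
      (Finset.univ : Finset (Fin m)).offDiag.biUnion
        (fun p => Finset.univ.filter fun φ : Fin m → V => φ p.1 = φ p.2) := by
    intro φ hφ
    have h2 : ¬ Function.Injective φ := (Finset.mem_filter.1 hφ).2
    rw [Function.Injective] at h2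
    push Not at h2
    obtain ⟨i, j, hij, hne⟩ := h2
    rw [Finset.mem_biUnion]
    exact ⟨(i, j), by simp [Finset.mem_offDiag, hne], by simp [hij]⟩
  refine (Finset.card_le_card h1).trans (Finset.card_biUnion_le.trans ?_)
  have h2 : ∀ p ∈ (Finset.univ : Finset (Fin m)).offDiag,
      (Finset.univ.filter fun φ : Fin m → V => φ p.1 = φ p.2).card =
        Fintype.card V ^ (m - 2) * Fintype.card V := by
    intro p hp
    have h3 : p.1 ≠ p.2 := (Finset.mem_offDiag.1 hp).2.2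
    rw [Finset.card_filter, sum_two h3 (fun x y => if x = y then 1 else 0)]
    simp
  rw [Finset.sum_congr rfl h2, Finset.sum_const, Finset.offDiag_card, smul_eq_mul]
  apply Nat.mul_le_mul_right
  simp

open Classical in
private theorem sat_four {V : Type} [Fintype V] {m : ℕ} (Λ : Finset (Sym2 V))
    (hΛ : ∀ e ∈ Λ, ¬ e.IsDiag) (N : Sym2 V → Sym2 V → ℕ) (T : Finset (Fin m → V))
    (hT : ∀ φ ∈ T, ∃ i j k l : Fin m, i ≠ j ∧ i ≠ k ∧ i ≠ l ∧ j ≠ k ∧ j ≠ l ∧ k ≠ l ∧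
      s(φ i, φ j) ∈ Λ ∧ s(φ k, φ l) ∈ Λ ∧ N s(φ i, φ j) s(φ k, φ l) ≠ 0) :
    T.card ≤ m ^ 4 * (Fintype.card V ^ (m - 4) * (4 * ∑ e ∈ Λ, ∑ e' ∈ Λ, N e e')) := by
  set F : V → V → V → V → ℕ := fun x y z w =>
    if s(x, y) ∈ Λ then (if s(z, w) ∈ Λ then N s(x, y) s(z, w) else 0) else 0 with hF
  have hF4 : ∑ x, ∑ y, ∑ z, ∑ w, F x y z w = 4 * ∑ e ∈ Λ, ∑ e' ∈ Λ, N e e' := by
    have h1 : ∀ x y : V, ∑ z, ∑ w, F x y z w =
        if s(x, y) ∈ Λ then (2 * ∑ e' ∈ Λ, N s(x, y) e') else 0 := by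
      intro x y
      by_cases h : s(x, y) ∈ Λ
      · rw [if_pos h, ← sat_sym2 Λ hΛ (fun e' => N s(x, y) e')]
        simp only [hF, if_pos h]
      · simp [hF, h]
    simp only [h1]
    rw [sat_sym2 Λ hΛ (fun e => 2 * ∑ e' ∈ Λ, N e e'), ← Finset.mul_sum]
    ring
  set Q : Finset (Fin m × Fin m × Fin m × Fin m) := Finset.univ.filter fun q =>
    q.1 ≠ q.2.1 ∧ q.1 ≠ q.2.2.1 ∧ q.1 ≠ q.2.2.2 ∧ q.2.1 ≠ q.2.2.1 ∧ q.2.1 ≠ q.2.2.2 ∧
      q.2.2.1 ≠ q.2.2.2 with hQ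
  have hQc : Q.card ≤ m ^ 4 := by
    refine (Finset.card_le_univ _).trans ?_
    simp only [Fintype.card_prod, Fintype.card_fin]
    exact le_of_eq (by ring)
  calc T.card = ∑ φ ∈ T, 1 := by simp
    _ ≤ ∑ φ ∈ T, ∑ q ∈ Q, F (φ q.1) (φ q.2.1) (φ q.2.2.1) (φ q.2.2.2) := by
        refine Finset.sum_le_sum fun φ hφ => ?_
        obtain ⟨i, j, k, l, hij, hik, hil, hjk, hjl, hkl, h1, h2, h3⟩ := hT φ hφ
        have hq : ((i, j, k, l) : Fin m × Fin m × Fin m × Fin m) ∈ Q := by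
          simp [hQ, hij, hik, hil, hjk, hjl, hkl]
        refine le_trans ?_ (Finset.single_le_sum
          (f := fun q : Fin m × Fin m × Fin m × Fin m =>
            F (φ q.1) (φ q.2.1) (φ q.2.2.1) (φ q.2.2.2)) (fun q _ => Nat.zero_le _) hq)
        simp only [hF, if_pos h1, if_pos h2]
        omega
    _ ≤ ∑ φ : Fin m → V, ∑ q ∈ Q, F (φ q.1) (φ q.2.1) (φ q.2.2.1) (φ q.2.2.2) :=
        Finset.sum_le_sum_of_subset (Finset.subset_univ _)
    _ = ∑ q ∈ Q, ∑ φ : Fin m → V, F (φ q.1) (φ q.2.1) (φ q.2.2.1) (φ q.2.2.2) :=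
        Finset.sum_comm
    _ = ∑ q ∈ Q, Fintype.card V ^ (m - 4) * (4 * ∑ e ∈ Λ, ∑ e' ∈ Λ, N e e') := by
        refine Finset.sum_congr rfl fun q hq => ?_
        obtain ⟨h1, h2, h3, h4, h5, h6⟩ := (Finset.mem_filter.1 hq).2
        rw [sum_four h1 h2 h3 h4 h5 h6 F, hF4]
    _ = Q.card * (Fintype.card V ^ (m - 4) * (4 * ∑ e ∈ Λ, ∑ e' ∈ Λ, N e e')) := by
        rw [Finset.sum_const, smul_eq_mul]
    _ ≤ m ^ 4 * (Fintype.card V ^ (m - 4) * (4 * ∑ e ∈ Λ, ∑ e' ∈ Λ, N e e')) :=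
        Nat.mul_le_mul_right _ hQc

/-- An injective `φ` which sees a large part of `Λ` finds a crossing with four different indices. -/
private theorem sat_find {V : Type} [Fintype V] {G : SimpleGraph V} (D : Drw G) (hNA : D.NoAdj)
    {a m : ℕ} (ha : crK a ≠ 0) (Λ : Finset (Sym2 V)) (hΛ : ∀ e ∈ Λ, e ∈ G.edgeSet)
    (φ : Fin m → V) (hφ : Function.Injective φ) (x : Fin a → Fin m) (y : Fin (a * a) → Fin m)
    (hx : Function.Injective x) (hy : Function.Injective y)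
    (hR : ∀ i j, s(φ (x i), φ (y j)) ∈ Λ) :
    ∃ i j k l : Fin m, i ≠ j ∧ i ≠ k ∧ i ≠ l ∧ j ≠ k ∧ j ≠ l ∧ k ≠ l ∧
      s(φ i, φ j) ∈ Λ ∧ s(φ k, φ l) ∈ Λ ∧ D.N s(φ i, φ j) s(φ k, φ l) ≠ 0 := by
  have hadj : ∀ i j, G.Adj (φ (x i)) (φ (y j)) := fun i j =>
    (SimpleGraph.mem_edgeSet G).1 (hΛ _ (hR i j))
  have hne : ∀ i j, x i ≠ y j := by
    intro i j h
    have h1 := hadj i j
    rw [h] at h1
    exact G.loopless.irrefl _ h1
  obtain ⟨i, j, i', j', h⟩ := satx D (le_refl (a * a)) ha (φ ∘ x) (φ ∘ y) (hφ.comp hx)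
    (hφ.comp hy) (fun i j => hφ.ne (hne i j)) (fun i j => hadj i j)
  simp only [Function.comp_apply] at h
  have hjj : y j ≠ y j' → x i ≠ x i' := by
    intro h1 h2
    rw [← h2] at h
    exact h (hNA _ _ _ (hadj i j) (hadj i j') (hφ.ne h1))
  have hii : x i ≠ x i' → y j ≠ y j' := by
    intro h1 h2
    rw [← h2] at h
    apply h
    have h3 : s(φ (x i), φ (y j)) = s(φ (y j), φ (x i)) := Sym2.eq_swap
    have h4 : s(φ (x i'), φ (y j)) = s(φ (y j), φ (x i')) := Sym2.eq_swap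
    rw [h3, h4]
    exact hNA _ _ _ (hadj i j).symm (hadj i' j).symm (hφ.ne h1)
  have hor : x i ≠ x i' ∨ y j ≠ y j' := by
    by_contra hcon
    push Not at hcon
    rw [← hcon.1, ← hcon.2] at h
    exact h (D.N_self (hΛ _ (hR i j)))
  have h1 : x i ≠ x i' := by
    rcases hor with h1 | h1
    · exact h1
    · exact hjj h1
  exact ⟨x i, y j, x i', y j', hne i j, h1, hne i j', (hne i' j).symm, hii h1, hne i' j',
    hR i j, hR i' j', h⟩

theorem sat {a : ℕ} (ha : crK a ≠ 0) {C ρ : ℝ} (hC : 0 < C) (hρ : 0 < ρ) :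
    ∃ κ : ℝ, 0 < κ ∧ ∃ r₀ : ℕ, ∀ (V : Type) (_ : Fintype V) (G : SimpleGraph V) (D : Drw G),
      D.NoAdj → ∀ r : ℕ, r₀ ≤ r → (Fintype.card V : ℝ) ≤ C * (r : ℝ) →
      ∀ Λ : Finset (Sym2 V), (∀ e ∈ Λ, e ∈ G.edgeSet) → ρ * (r : ℝ) ^ 2 ≤ (Λ.card : ℝ) →
        κ * (r : ℝ) ^ 4 ≤ ((∑ e ∈ Λ, ∑ e' ∈ Λ, D.N e e' : ℕ) : ℝ) := by
  classical
  obtain ⟨d, hdd⟩ : ∃ d : ℝ, d = 2 * ρ / C ^ 2 := ⟨_, rfl⟩
  have hd : 0 < d := by rw [hdd]; positivity
  have hdC : d * C ^ 2 = 2 * ρ := by rw [hdd]; field_simp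
  obtain ⟨m₀, hm₀⟩ := kst a (a * a) (d := d / 4) (by positivity)
  obtain ⟨m, hm, hm4⟩ : ∃ m : ℕ, m₀ ≤ m ∧ 4 ≤ m := ⟨max m₀ 4, le_max_left _ _, le_max_right _ _⟩
  have hm4R : (4 : ℝ) ≤ m := by exact_mod_cast hm4
  obtain ⟨K, hK⟩ := exists_nat_ge ((4 * (m : ℝ) ^ 2 / d) ^ 2 / (2 * ρ))
  refine ⟨d * (2 * ρ) ^ 2 / (16 * (m : ℝ) ^ 4), by positivity, K + 1, ?_⟩
  intro V _ G D hNA r hr hCr Λ hΛ hρΛ
  have hdiag : ∀ e ∈ Λ, ¬ e.IsDiag := fun e he => G.not_isDiag_of_mem_edgeSet (hΛ e he)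
  obtain ⟨n, hn⟩ : ∃ n : ℕ, n = Fintype.card V := ⟨_, rfl⟩
  obtain ⟨S, hS⟩ : ∃ S : ℕ, S = ∑ e ∈ Λ, ∑ e' ∈ Λ, D.N e e' := ⟨_, rfl⟩
  rw [← hS]
  rw [← hn] at hCr
  have hr1 : (1 : ℝ) ≤ r := by
    have : 1 ≤ r := by omega
    exact_mod_cast this
  have hrK : (K : ℝ) ≤ r := by
    have : K ≤ r := by omega
    exact_mod_cast this
  -- `2 #Λ ≤ n ^ 2`
  have hL2 : 2 * Λ.card ≤ n * n := by
    have h1 := sat_sym2 Λ hdiag (fun _ => 1)
    have h2 : 2 * Λ.card = ∑ x : V, ∑ y : V, (if s(x, y) ∈ Λ then 1 else 0) := by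
      rw [h1]; simp
    rw [h2]
    calc ∑ x : V, ∑ y : V, (if s(x, y) ∈ Λ then 1 else 0) ≤ ∑ _x : V, ∑ _y : V, 1 := by
          refine Finset.sum_le_sum fun x _ => Finset.sum_le_sum fun y _ => ?_
          split_ifs <;> omega
      _ = n * n := by simp [hn]
  have hL2R : 2 * (Λ.card : ℝ) ≤ (n : ℝ) ^ 2 := by
    have : ((2 * Λ.card : ℕ) : ℝ) ≤ ((n * n : ℕ) : ℝ) := by exact_mod_cast hL2
    push_cast at this
    nlinarith
  have hn2 : 2 * ρ * (r : ℝ) ^ 2 ≤ (n : ℝ) ^ 2 := by linarith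
  have hn0 : (0 : ℝ) < n := by
    have h1 : (0 : ℝ) < (n : ℝ) ^ 2 := lt_of_lt_of_le (by positivity) hn2
    have h2 : (0 : ℝ) ≤ n := Nat.cast_nonneg n
    rcases h2.lt_or_eq with h | h
    · exact h
    · rw [← h] at h1; norm_num at h1
  have hn4 : 4 * (m : ℝ) ^ 2 / d ≤ n := by
    have h1 : (4 * (m : ℝ) ^ 2 / d) ^ 2 ≤ (n : ℝ) ^ 2 := by
      have h2 : (4 * (m : ℝ) ^ 2 / d) ^ 2 ≤ 2 * ρ * (r : ℝ) := by
        have h3 := hK.trans hrK
        rw [div_le_iff₀ (by positivity)] at h3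
        linarith
      have h4 : (r : ℝ) ≤ (r : ℝ) ^ 2 := by nlinarith
      have h5 : 2 * ρ * (r : ℝ) ≤ 2 * ρ * (r : ℝ) ^ 2 :=
        mul_le_mul_of_nonneg_left h4 (by positivity)
      linarith
    exact (pow_le_pow_iff_left₀ (by positivity) hn0.le (by norm_num)).1 h1
  have hn4' : (m : ℝ) ^ 2 ≤ d / 4 * n := by
    rw [div_le_iff₀ hd] at hn4
    linarith
  have hdn : d * (n : ℝ) ^ 2 ≤ 2 * (Λ.card : ℝ) := by
    have h1 : (n : ℝ) ^ 2 ≤ (C * r) ^ 2 := pow_le_pow_left₀ hn0.le hCr 2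
    have h2 : d * (n : ℝ) ^ 2 ≤ d * (C * r) ^ 2 := mul_le_mul_of_nonneg_left h1 hd.le
    have h3 : d * (C * r) ^ 2 = 2 * (ρ * (r : ℝ) ^ 2) := by
      rw [mul_pow, ← mul_assoc, hdC]; ring
    linarith
  -- the counting function
  set X : (Fin m → V) → ℕ := fun φ => (Finset.univ.filter fun p : Fin m × Fin m =>
      s(φ p.1, φ p.2) ∈ Λ).card with hX
  have hXm : ∀ φ, X φ ≤ m * m := by
    intro φ
    refine (Finset.card_le_univ _).trans ?_
    simp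
  have hXs := sat_X (m := m) Λ hdiag
  rw [← hn] at hXs
  -- powers of `n`
  have hpow2 : (n : ℝ) ^ m = (n : ℝ) ^ (m - 2) * (n : ℝ) ^ 2 := by
    rw [← pow_add]; congr 1; omega
  have hpow4 : (n : ℝ) ^ m = (n : ℝ) ^ (m - 4) * (n : ℝ) ^ 4 := by
    rw [← pow_add]; congr 1; omega
  -- the lower bound for the sum of `X`
  have hXlow : 3 / 4 * (m : ℝ) ^ 2 * (d * (n : ℝ) ^ m) ≤ ((∑ φ : Fin m → V, X φ : ℕ) : ℝ) := by
    have h1 : (∑ φ : Fin m → V, X φ) = (m * m - m) * (n ^ (m - 2) * (2 * Λ.card)) := hXs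
    have hmm : m ≤ m * m := Nat.le_mul_self m
    rw [h1]
    push_cast [Nat.cast_sub hmm]
    have h2 : 3 / 4 * (m : ℝ) ^ 2 ≤ (m : ℝ) * m - m := by nlinarith
    have h3 : d * (n : ℝ) ^ m ≤ (n : ℝ) ^ (m - 2) * (2 * (Λ.card : ℝ)) := by
      rw [hpow2]
      have h4 : (0 : ℝ) ≤ (n : ℝ) ^ (m - 2) := by positivity
      nlinarith [mul_le_mul_of_nonneg_left hdn h4]
    exact mul_le_mul h2 h3 (by positivity) (le_trans (by positivity) h2)
  -- the set of `φ` with large `X φ`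
  set T₁ : Finset (Fin m → V) := Finset.univ.filter fun φ => d / 4 * (m : ℝ) ^ 2 ≤ (X φ : ℝ)
    with hT₁
  have hcardV : ((Finset.univ : Finset (Fin m → V)).card : ℝ) = (n : ℝ) ^ m := by
    rw [Finset.card_univ, Fintype.card_fun, Fintype.card_fin, ← hn]
    push_cast
    rfl
  have hXup : ((∑ φ : Fin m → V, X φ : ℕ) : ℝ) ≤
      (T₁.card : ℝ) * (m : ℝ) ^ 2 + (n : ℝ) ^ m * (d / 4 * (m : ℝ) ^ 2) := by
    push_cast
    rw [← Finset.sum_filter_add_sum_filter_not Finset.univ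
      (fun φ => d / 4 * (m : ℝ) ^ 2 ≤ (X φ : ℝ))]
    apply add_le_add
    · have h1 : ∑ φ ∈ T₁, (X φ : ℝ) ≤ ∑ φ ∈ T₁, (m : ℝ) ^ 2 := by
        refine Finset.sum_le_sum fun φ _ => ?_
        have h2 : ((X φ : ℕ) : ℝ) ≤ ((m * m : ℕ) : ℝ) := by exact_mod_cast hXm φ
        push_cast at h2
        nlinarith
      rw [Finset.sum_const, nsmul_eq_mul] at h1
      exact h1
    · have h1 : ∑ φ ∈ Finset.univ.filter (fun φ : Fin m → V =>
          ¬ d / 4 * (m : ℝ) ^ 2 ≤ (X φ : ℝ)), (X φ : ℝ) ≤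
          ∑ φ ∈ Finset.univ.filter (fun φ : Fin m → V =>
          ¬ d / 4 * (m : ℝ) ^ 2 ≤ (X φ : ℝ)), d / 4 * (m : ℝ) ^ 2 := by
        refine Finset.sum_le_sum fun φ hφ => ?_
        exact (not_le.1 (Finset.mem_filter.1 hφ).2).le
      refine h1.trans ?_
      rw [Finset.sum_const, nsmul_eq_mul]
      apply mul_le_mul_of_nonneg_right _ (by positivity)
      rw [← hcardV]
      exact_mod_cast Finset.card_le_univ _
  have hT₁c : d / 2 * (n : ℝ) ^ m ≤ (T₁.card : ℝ) := by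
    have h1 := hXlow.trans hXup
    have h2 : (0 : ℝ) < (m : ℝ) ^ 2 := by positivity
    have h3 : (m : ℝ) ^ 2 * (d / 2 * (n : ℝ) ^ m) ≤ (m : ℝ) ^ 2 * (T₁.card : ℝ) := by
      nlinarith
    exact le_of_mul_le_mul_left h3 h2
  -- the good `φ`
  set T : Finset (Fin m → V) := T₁.filter fun φ => Function.Injective φ with hT
  have hTc : d / 4 * (n : ℝ) ^ m ≤ (T.card : ℝ) := by
    have h1 : T₁.card ≤ T.card +
        (Finset.univ.filter fun φ : Fin m → V => ¬ Function.Injective φ).card := by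
      rw [← Finset.card_filter_add_card_filter_not (s := T₁)
        (fun φ : Fin m → V => Function.Injective φ)]
      apply Nat.add_le_add_left
      exact Finset.card_le_card (Finset.filter_subset_filter _ (Finset.subset_univ _))
    have h2 := sat_inj (V := V) m
    rw [← hn] at h2
    have h3 : (T₁.card : ℝ) ≤ T.card + (m : ℝ) * m * ((n : ℝ) ^ (m - 2) * n) := by
      have h4 : T₁.card ≤ T.card + m * m * (n ^ (m - 2) * n) := h1.trans (by omega)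
      exact_mod_cast h4
    have h5 : (m : ℝ) * m * ((n : ℝ) ^ (m - 2) * n) ≤ d / 4 * (n : ℝ) ^ m := by
      rw [hpow2]
      have h6 : (0 : ℝ) ≤ (n : ℝ) ^ (m - 2) * n := by positivity
      have h7 := mul_le_mul_of_nonneg_right hn4' h6
      nlinarith
    linarith
  have hfour := sat_four Λ hdiag D.N T (fun φ hφ => by
    have hφ1 : φ ∈ T₁ := (Finset.mem_filter.1 hφ).1
    have hφi : Function.Injective φ := (Finset.mem_filter.1 hφ).2
    have hφX : d / 4 * (m : ℝ) ^ 2 ≤ (X φ : ℝ) := (Finset.mem_filter.1 hφ1).2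
    have hnc : ({p : Fin m × Fin m | s(φ p.1, φ p.2) ∈ Λ}.ncard : ℝ) = (X φ : ℝ) := by
      rw [Set.ncard_eq_toFinset_card']
      congr 2
      ext p
      simp
    obtain ⟨x, y, hx, hy, hR⟩ := hm₀ m hm (fun i j => s(φ i, φ j) ∈ Λ) (by rw [hnc]; exact hφX)
    exact sat_find D hNA ha Λ hΛ φ hφi x y hx hy hR)
  rw [← hn, ← hS] at hfour
  have hfourR : (T.card : ℝ) ≤ (m : ℝ) ^ 4 * ((n : ℝ) ^ (m - 4) * (4 * S)) := by
    exact_mod_cast hfour
  have h1 : d / 4 * ((n : ℝ) ^ (m - 4) * (n : ℝ) ^ 4) ≤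
      (m : ℝ) ^ 4 * ((n : ℝ) ^ (m - 4) * (4 * S)) := by
    rw [← hpow4]
    exact hTc.trans hfourR
  have h2 : (0 : ℝ) < (n : ℝ) ^ (m - 4) := by positivity
  have h3 : d / 4 * (n : ℝ) ^ 4 ≤ (m : ℝ) ^ 4 * (4 * S) := by
    have h4 : (n : ℝ) ^ (m - 4) * (d / 4 * (n : ℝ) ^ 4) ≤
        (n : ℝ) ^ (m - 4) * ((m : ℝ) ^ 4 * (4 * S)) := by nlinarith
    exact le_of_mul_le_mul_left h4 h2
  have h4 : (2 * ρ * (r : ℝ) ^ 2) ^ 2 ≤ ((n : ℝ) ^ 2) ^ 2 :=
    pow_le_pow_left₀ (by positivity) hn2 2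
  have h5 : d * (2 * ρ) ^ 2 * (r : ℝ) ^ 4 ≤ d * (n : ℝ) ^ 4 := by
    have h6 := mul_le_mul_of_nonneg_left h4 hd.le
    nlinarith
  rw [div_mul_eq_mul_div, div_le_iff₀ (by positivity)]
  linarith

end Pool.Agent.ALC
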