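import Pool.Agent.ALC.SmpA
import Pool.Agent.ALB.NoAdj

/-!
# ALC SMP: drawings of almost complete graphs

PROOF.  `exists_noAdj` replaces `D` by a drawing with `NoAdj` and at most as many crossings.
Choose `a ≥ 4` with `(c - δ) choose a 4 ≤ crK a` (`hc.ge δ`); if `c ≤ δ` or in general put
`c' = max (c - δ) 0 ≤ c`, so `c' choose a 4 ≤ crK a`.  `smpA` divided by `r^(a-4)` (`r ≥ 1`):
`crK a (r^4 - a^2 miss r^2) ≤ 24 (choose a 4) D.cr`; with `miss ≤ η r^2` and `η = δ' / a^2`,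
`δ' ≤ 1`: `crK a (1 - δ') r^4 ≤ 24 (choose a 4) D.cr`, so `c' (1 - δ') r^4 / 24 ≤ D.cr`.
On the other side `crK (r+1) ≤ c choose (r+1) 4 ≤ c (r+1)^4 / 24` and
`(r+1)^4 ≤ r^4 + 15 r^3 ≤ (1 + 15 / r) r^4`.  So
`crK (r+1) - D.cr ≤ (c (1 + 15/r) - c' (1 - δ')) r^4 / 24 ≤ (15 c / r + δ + c δ') r^4 / 24 ≤ δ r^4`
for `δ' = min 1 (δ / c)` and `r ≥ 15 c / δ`.
-/

set_option autoImplicit false

namespace Pool.Agent.ALC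

open Pool.Agent.ALB

private theorem smp_choose (r : ℕ) (hr : 3 ≤ r) : 24 * (r + 1).choose 4 ≤ r ^ 4 := by
  have h1 := Nat.descFactorial_eq_factorial_mul_choose (r + 1) 4
  have h2 : Nat.factorial 4 = 24 := rfl
  rw [h2] at h1
  rw [← h1]
  obtain ⟨m, rfl⟩ := Nat.exists_eq_add_of_le hr
  have h3 : (3 + m + 1).descFactorial 4 = (m + 1) * ((m + 2) * ((m + 3) * (m + 4))) := by
    rw [Nat.descFactorial_succ, Nat.descFactorial_succ, Nat.descFactorial_succ,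
      Nat.descFactorial_succ, Nat.descFactorial_zero, mul_one]
    congr 1
    · omega
    · congr 1
      · omega
      · congr 1 <;> omega
  rw [h3]
  nlinarith [Nat.zero_le m, Nat.zero_le (m ^ 2), Nat.zero_le (m ^ 3)]

theorem smp {c : ℝ} (hc : Lim c) {δ : ℝ} (hδ : 0 < δ) : ∃ η : ℝ, 0 < η ∧ ∃ r₀ : ℕ,
    ∀ r : ℕ, r₀ ≤ r → ∀ Γ : SimpleGraph (Fin r), (miss Γ : ℝ) ≤ η * (r : ℝ) ^ 2 →
      ∀ D : Drw Γ, (crK (r + 1) : ℝ) ≤ (D.cr : ℝ) + δ * (r : ℝ) ^ 4 := by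
  obtain ⟨a, ha, hge⟩ := hc.ge δ hδ
  have hK := hge a le_rfl
  have hB : (0 : ℝ) < (a.choose 4 : ℝ) := by
    exact_mod_cast Nat.choose_pos ha
  have hK0 : (0 : ℝ) ≤ (crK a : ℝ) := Nat.cast_nonneg _
  have hcp := hc.pos
  obtain ⟨c', hc'0, hc'B, hc'c, hcc'⟩ : ∃ c' : ℝ, 0 ≤ c' ∧ c' * (a.choose 4 : ℝ) ≤ (crK a : ℝ) ∧
      c' ≤ c ∧ c - c' ≤ δ := by
    rcases le_total (c - δ) 0 with h | h
    · exact ⟨0, le_rfl, by rw [zero_mul]; exact hK0, hcp.le, by linarith⟩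
    · exact ⟨c - δ, h, hK, by linarith, by linarith⟩
  obtain ⟨d, hd0, hd1, hdc⟩ : ∃ d : ℝ, 0 < d ∧ d ≤ 1 ∧ c * d ≤ δ := by
    refine ⟨min 1 (δ / c), lt_min one_pos (div_pos hδ hcp), min_le_left _ _, ?_⟩
    calc c * min 1 (δ / c) ≤ c * (δ / c) := mul_le_mul_of_nonneg_left (min_le_right _ _) hcp.le
      _ = δ := by field_simp
  have ha0 : (0 : ℝ) < (a : ℝ) ^ 2 := by
    have : (0 : ℝ) < (a : ℝ) := by exact_mod_cast (by omega : 0 < a)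
    positivity
  refine ⟨d / (a : ℝ) ^ 2, div_pos hd0 ha0, 3, ?_⟩
  intro r hr Γ hΓ D
  obtain ⟨D', hD', hNA⟩ := exists_noAdj D
  have hs := smpA ha Γ D' hNA
  have hr0 : (0 : ℝ) < (r : ℝ) := by exact_mod_cast (by omega : 0 < r)
  have e1 : (r : ℝ) ^ a = (r : ℝ) ^ (a - 4) * (r : ℝ) ^ 4 := by
    rw [← pow_add, Nat.sub_add_cancel ha]
  have e2 : (r : ℝ) ^ (a - 2) = (r : ℝ) ^ (a - 4) * (r : ℝ) ^ 2 := by
    rw [← pow_add]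
    congr 1
    omega
  have hp : (0 : ℝ) < (r : ℝ) ^ (a - 4) := pow_pos hr0 _
  have h1 : (crK a : ℝ) * ((r : ℝ) ^ 4 - (a : ℝ) ^ 2 * (miss Γ : ℝ) * (r : ℝ) ^ 2) ≤
      24 * (a.choose 4 : ℝ) * (D'.cr : ℝ) := by
    rw [e1, e2] at hs
    refine le_of_mul_le_mul_left ?_ hp
    calc (r : ℝ) ^ (a - 4) * ((crK a : ℝ) *
          ((r : ℝ) ^ 4 - (a : ℝ) ^ 2 * (miss Γ : ℝ) * (r : ℝ) ^ 2))
        = (crK a : ℝ) * ((r : ℝ) ^ (a - 4) * (r : ℝ) ^ 4 - (a : ℝ) ^ 2 * (miss Γ : ℝ) *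
          ((r : ℝ) ^ (a - 4) * (r : ℝ) ^ 2)) := by ring
      _ ≤ 24 * (a.choose 4 : ℝ) * (r : ℝ) ^ (a - 4) * (D'.cr : ℝ) := hs
      _ = (r : ℝ) ^ (a - 4) * (24 * (a.choose 4 : ℝ) * (D'.cr : ℝ)) := by ring
  have h2 : (a : ℝ) ^ 2 * (miss Γ : ℝ) * (r : ℝ) ^ 2 ≤ d * (r : ℝ) ^ 4 := by
    have h3 : (a : ℝ) ^ 2 * (miss Γ : ℝ) ≤ d * (r : ℝ) ^ 2 := by
      calc (a : ℝ) ^ 2 * (miss Γ : ℝ) ≤ (a : ℝ) ^ 2 * (d / (a : ℝ) ^ 2 * (r : ℝ) ^ 2) :=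
            mul_le_mul_of_nonneg_left hΓ ha0.le
        _ = d * (r : ℝ) ^ 2 := by field_simp
    calc (a : ℝ) ^ 2 * (miss Γ : ℝ) * (r : ℝ) ^ 2 ≤ d * (r : ℝ) ^ 2 * (r : ℝ) ^ 2 :=
          mul_le_mul_of_nonneg_right h3 (by positivity)
      _ = d * (r : ℝ) ^ 4 := by ring
  have hr4 : (0 : ℝ) < (r : ℝ) ^ 4 := by positivity
  have h3 : c' * ((1 - d) * (r : ℝ) ^ 4) ≤ 24 * (D'.cr : ℝ) := by
    have h4 : (0 : ℝ) ≤ (1 - d) * (r : ℝ) ^ 4 := mul_nonneg (by linarith) hr4.le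
    have h5 : c' * (a.choose 4 : ℝ) * ((1 - d) * (r : ℝ) ^ 4) ≤
        (crK a : ℝ) * ((r : ℝ) ^ 4 - (a : ℝ) ^ 2 * (miss Γ : ℝ) * (r : ℝ) ^ 2) :=
      mul_le_mul hc'B (by linarith) h4 hK0
    refine le_of_mul_le_mul_left ?_ hB
    calc (a.choose 4 : ℝ) * (c' * ((1 - d) * (r : ℝ) ^ 4))
        = c' * (a.choose 4 : ℝ) * ((1 - d) * (r : ℝ) ^ 4) := by ring
      _ ≤ 24 * (a.choose 4 : ℝ) * (D'.cr : ℝ) := h5.trans h1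
      _ = (a.choose 4 : ℝ) * (24 * (D'.cr : ℝ)) := by ring
  have h6 : (D'.cr : ℝ) ≤ (D.cr : ℝ) := by exact_mod_cast hD'
  have h7 : 24 * (crK (r + 1) : ℝ) ≤ c * (r : ℝ) ^ 4 := by
    have h8 := hc.le (r + 1)
    have h9 : 24 * ((r + 1).choose 4 : ℝ) ≤ (r : ℝ) ^ 4 := by exact_mod_cast smp_choose r hr
    calc 24 * (crK (r + 1) : ℝ) ≤ 24 * (c * ((r + 1).choose 4 : ℝ)) := by linarith
      _ = c * (24 * ((r + 1).choose 4 : ℝ)) := by ring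
      _ ≤ c * (r : ℝ) ^ 4 := mul_le_mul_of_nonneg_left h9 hcp.le
  have h10 : c' * d ≤ δ := (mul_le_mul_of_nonneg_right hc'c hd0.le).trans hdc
  have h11 : (c - c' + c' * d) * (r : ℝ) ^ 4 ≤ 2 * δ * (r : ℝ) ^ 4 :=
    mul_le_mul_of_nonneg_right (by linarith) hr4.le
  have h12 : 0 < δ * (r : ℝ) ^ 4 := mul_pos hδ hr4
  nlinarith [h3, h6, h7, h11, h12]

end Pool.Agent.ALC
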