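import Pool.Agent.ALC.Gl

/-!
# ALC CAS1: many edges on no path

PROOF.  Let `η₀, r₀` be the numbers of `gl` for `C, ρ` and `η = min 1 (η₀ / 4)`.  Use `Y = s`, the
graph `Γ` with `Γ.Adj i j ↔ i ∈ T ∧ j ∈ T ∧ i ≠ j`, the sets `E p` and `Λ = UE H T E` (as a finset).
`PS`: `fY = hK.fs`, `sub`, `walk` from `PFam`.  `miss Γ ≤ r + 2 r (r - #T) ≤ r + 2 η r^2 ≤ η₀ r^2`
for `r ≥ 2 / η₀`: a pair which is not an edge of `Γ` is on the diagonal or one of its two entries
is not in `T`.  `Λ` is disjoint from the `E p` by definition of `UE`.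
-/

set_option autoImplicit false

namespace Pool.Agent.ALC

open Pool.Agent.ALB

/-- the complete graph on `T` -/
private def gT {r : ℕ} (T : Finset (Fin r)) : SimpleGraph (Fin r) where
  Adj i j := i ∈ T ∧ j ∈ T ∧ i ≠ j
  symm.symm := fun _ _ h => ⟨h.2.1, h.1, h.2.2.symm⟩
  loopless := ⟨fun _ h => h.2.2 rfl⟩

private theorem miss_gT {r : ℕ} (T : Finset (Fin r)) :
    (miss (gT T) : ℝ) ≤ r + 2 * r * (r - (T.card : ℝ)) := by
  classical
  have h1 : {p : Fin r × Fin r | ¬ (gT T).Adj p.1 p.2} ⊆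
      (((Finset.univ : Finset (Fin r)).image (fun i => (i, i)) ∪
        ((Tᶜ ×ˢ (Finset.univ : Finset (Fin r))) ∪ ((Finset.univ : Finset (Fin r)) ×ˢ Tᶜ)) :
          Finset (Fin r × Fin r)) : Set (Fin r × Fin r)) := by
    rintro ⟨i, j⟩ h
    rw [Finset.mem_coe, Finset.mem_union, Finset.mem_union, Finset.mem_product,
      Finset.mem_product, Finset.mem_compl, Finset.mem_compl]
    have h' : ¬ (i ∈ T ∧ j ∈ T ∧ i ≠ j) := h
    by_cases hi : i ∈ T
    · by_cases hj : j ∈ T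
      · by_cases hij : i = j
        · left
          rw [Finset.mem_image]
          exact ⟨i, Finset.mem_univ i, by rw [← hij]⟩
        · exact absurd ⟨hi, hj, hij⟩ h'
      · right
        right
        exact ⟨Finset.mem_univ i, hj⟩
    · right
      left
      exact ⟨hi, Finset.mem_univ j⟩
  have h2 : miss (gT T) ≤ r + (r - T.card) * r + r * (r - T.card) := by
    refine (Set.ncard_le_ncard h1 (Finset.finite_toSet _)).trans ?_
    rw [Set.ncard_coe_finset]
    refine (Finset.card_union_le _ _).trans ?_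
    rw [add_assoc]
    refine add_le_add (Finset.card_image_le.trans (by rw [Finset.card_univ, Fintype.card_fin])) ?_
    refine (Finset.card_union_le _ _).trans ?_
    rw [Finset.card_product, Finset.card_product, Finset.card_compl, Finset.card_univ,
      Fintype.card_fin]
  have h3 : T.card ≤ r := by
    have := Finset.card_le_univ T
    rwa [Fintype.card_fin] at this
  have h4 : ((r - T.card : ℕ) : ℝ) = (r : ℝ) - T.card := Nat.cast_sub h3
  have h5 : (miss (gT T) : ℝ) ≤ ((r + (r - T.card) * r + r * (r - T.card) : ℕ) : ℝ) :=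
    Nat.cast_le.2 h2
  refine h5.trans (le_of_eq ?_)
  rw [Nat.cast_add, Nat.cast_add, Nat.cast_mul, Nat.cast_mul, h4]
  ring

theorem cas1 {c : ℝ} (hc : Lim c) {C ρ : ℝ} (hC : 0 < C) (hρ : 0 < ρ) :
    ∃ η : ℝ, 0 < η ∧ ∃ r₀ : ℕ, ∀ (V : Type) (_ : Fintype V) (H : SimpleGraph V) (D : Drw H),
      D.NoAdj → ∀ r : ℕ, r₀ ≤ r → (Fintype.card V : ℝ) ≤ C * (r : ℝ) →
      ∀ (v : V) (f : V → Fin r) (s : Fin r → V) (T : Finset (Fin r))
        (E : Sym2 (Fin r) → Finset (Sym2 V)), KD H v f s → PFam H v f s T E →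
        (r : ℝ) - (T.card : ℝ) ≤ η * (r : ℝ) →
        ρ * (r : ℝ) ^ 2 ≤ ((UE H T E).ncard : ℝ) → crK (r + 1) ≤ D.cr := by
  classical
  obtain ⟨η₀, hη₀, r₁, hgl⟩ := gl hc hC hρ
  refine ⟨min 1 (η₀ / 4), lt_min one_pos (by positivity), max r₁ (⌈2 / η₀⌉₊ + 1), ?_⟩
  intro V _ H D hD r hr hV v f s T E hK hE hT hΛ
  have hr1 : r₁ ≤ r := (le_max_left _ _).trans hr
  have hr2 : 2 / η₀ ≤ (r : ℝ) := by
    have h1 : ⌈2 / η₀⌉₊ ≤ r := by
      have := (le_max_right r₁ (⌈2 / η₀⌉₊ + 1)).trans hr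
      omega
    exact (Nat.le_ceil _).trans (Nat.cast_le.2 h1)
  have hr3 : 2 ≤ (r : ℝ) * η₀ := (div_le_iff₀ hη₀).1 hr2
  have hr0 : (0 : ℝ) ≤ r := Nat.cast_nonneg r
  have hT' : (r : ℝ) - (T.card : ℝ) ≤ η₀ / 4 * r :=
    hT.trans (mul_le_mul_of_nonneg_right (min_le_right _ _) hr0)
  have hfin : (UE H T E).Finite := Set.toFinite _
  have hcard : (UE H T E).ncard = hfin.toFinset.card := Set.ncard_eq_toFinset_card _ hfin
  refine hgl V _ H D hD r hr1 hV f s (gT T) E hfin.toFinset ⟨hK.fs, ?_, ?_⟩ ?_ ?_ ?_ ?_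
  · intro p hp
    induction p using Sym2.ind with
    | _ i j =>
      have h1 : (gT T).Adj i j := (SimpleGraph.mem_edgeSet _).1 hp
      intro e he
      obtain ⟨h2, -, h3⟩ := hE.sub i j h1.1 h1.2.1 h1.2.2 e he
      exact ⟨h2, h3⟩
  · intro i j h1
    exact hE.walk i j h1.1 h1.2.1 h1.2.2
  · refine (miss_gT T).trans ?_
    have h1 : 2 * (r : ℝ) * (r - (T.card : ℝ)) ≤ 2 * r * (η₀ / 4 * r) :=
      mul_le_mul_of_nonneg_left hT' (by positivity)
    nlinarith
  · intro e he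
    rw [Set.Finite.mem_toFinset] at he
    exact he.1
  · intro p hp
    induction p using Sym2.ind with
    | _ i j =>
      have h1 : (gT T).Adj i j := (SimpleGraph.mem_edgeSet _).1 hp
      intro e he h2
      rw [Set.Finite.mem_toFinset] at h2
      exact h2.2 i h1.1 j h1.2.1 h1.2.2 he
  · rw [← hcard]
    exact hΛ

end Pool.Agent.ALC
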