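import Pool.Agent.ALC.RA
import Pool.Agent.ALC.RB
import Pool.Agent.ALC.RC
import Pool.Agent.ALC.Cr
import Pool.Agent.ALB.Res
import Pool.Agent.ALB.NoAdj
import Pool.Agent.ALB.Lim

/-!
# ALC CORE: degenerate graphs

PROOF.  `exists_limit` gives `c ≥ 0`.  If `c = 0` then `crK k ≤ 0` for all `k` and there is nothing to
prove (`ε = 1`).  If `c > 0` then `Lim c`.  Let `C, rC` be the numbers of `rC`, `ε', rA` the numbers of
`rA` for the constant `C` and `g = 1/6`, `rB` the number of `rB`, `ε = ε' / 2` and `k₀` larger than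
`rA + 1`, `rB + 1`, `rC + 1`, `2` and such that `(1 + ε'/2) (r + 1) ≤ (1 + ε') r` for `r ≥ k₀ - 1`
(i.e. `1 + ε'/2 ≤ (ε'/2) r`).
Let `k ≥ k₀`, `r = k - 1`.  `exists_vc` gives `A`, `H = G.comap val` with `VC H r`; `exists_comap` and
`exists_noAdj` give a drawing `D'` of `H` with `D'.NoAdj`, `D'.cr ≤ D.cr`.
`card {x // x ∈ A} = #A`.  If `C r ≤ #A` use `rC` (`vc_deg`).  If `6 #A ≤ 7 r` use `rB`.  Otherwise
`(1 + 1/6) r ≤ #A ≤ C r`; `H` is not `r`-colourable, so there is `v ∈ A` with at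
most `(1 + ε) k ≤ (1 + ε') r` neighbours in `A`; the set of the neighbours of `⟨v, _⟩` in `H` has the
same number of elements (the image under the injective `Subtype.val`).  Use `rA`.
-/

set_option autoImplicit false

namespace Pool.Agent.ALC

open Pool.Agent.ALB

theorem core : ∃ ε : ℝ, 0 < ε ∧ ∃ k₀ : ℕ, ∀ (n : ℕ) (G : SimpleGraph (Fin n)) (k : ℕ), k₀ ≤ k →
    (∀ A : Finset (Fin n),
      ¬ (G.comap (Subtype.val : {x // x ∈ A} → Fin n)).Colorable (k - 1) → ∃ v ∈ A,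
      ({x | x ∈ A ∧ G.Adj v x}.ncard : ℝ) ≤ (1 + ε) * (k : ℝ)) →
    ¬ G.Colorable (k - 1) → ∀ D : Drw G, crK k ≤ D.cr := by
  classical
  obtain ⟨c, hc0, hc1, hc2⟩ := exists_limit
  rcases hc0.eq_or_lt with h0 | hpos
  · refine ⟨1, one_pos, 0, ?_⟩
    intro n G k _ _ _ D
    have h1 := hc1 k
    rw [← h0, zero_mul] at h1
    have h2 : crK k = 0 := by exact_mod_cast le_antisymm h1 (Nat.cast_nonneg _)
    rw [h2]
    exact Nat.zero_le _
  have hc : Lim c := ⟨hpos, hc1, hc2⟩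
  obtain ⟨C, hC, r3, h3⟩ := rC hc
  obtain ⟨ε', hε', r1, h1⟩ := rA hc hC (show (0:ℝ) < 1/6 by norm_num)
  obtain ⟨r2, h2⟩ := rB hc
  obtain ⟨N, hN⟩ := exists_nat_ge ((1 + ε'/2) / (ε'/2))
  refine ⟨ε'/2, by positivity, max (max (r1+1) (r2+1)) (max (r3+1) (max 2 (N+1))), ?_⟩
  intro n G k hk hdeg hχ D
  simp only [max_le_iff] at hk
  obtain ⟨⟨hk1, hk2⟩, hk3, hk4, hk5⟩ := hk
  obtain ⟨r, rfl⟩ : ∃ r, k = r + 1 := ⟨k - 1, by omega⟩
  rw [Nat.add_sub_cancel] at hχ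
  have hr0 : 0 < r := by omega
  have hεr : (1 + ε'/2) * ((r:ℝ) + 1) ≤ (1 + ε') * (r:ℝ) := by
    have h4 : (N:ℝ) ≤ (r:ℝ) := by exact_mod_cast (by omega : N ≤ r)
    have h5 : (1 + ε'/2) / (ε'/2) ≤ (r:ℝ) := hN.trans h4
    rw [div_le_iff₀ (by positivity)] at h5
    nlinarith
  obtain ⟨A, hA⟩ := exists_vc hr0 hχ
  obtain ⟨D1, hD1⟩ := exists_comap D (Subtype.val : {x // x ∈ A} → Fin n) Subtype.val_injective
  obtain ⟨D2, hD2, hNA⟩ := exists_noAdj D1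
  refine le_trans ?_ (hD2.trans hD1)
  by_cases hbig : C * (r:ℝ) ≤ (Fintype.card {x // x ∈ A} : ℝ)
  · exact h3 _ _ _ D2 hNA r (by omega) (fun x => vc_deg hA x) hbig
  by_cases hsm : 6 * Fintype.card {x // x ∈ A} ≤ 7 * r
  · exact h2 _ _ _ D2 r (by omega) hA hsm
  obtain ⟨v, hv, hvd⟩ := hdeg A hA.nc
  refine h1 _ _ _ D2 hNA r (by omega) hA ?_ (not_le.1 hbig).le ⟨⟨v, hv⟩, ?_⟩
  · have h6 : 7 * r < 6 * Fintype.card {x // x ∈ A} := not_le.1 hsm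
    have h7 : (7:ℝ) * (r:ℝ) < 6 * (Fintype.card {x // x ∈ A} : ℝ) := by exact_mod_cast h6
    linarith
  · have h8 : {x : {x // x ∈ A} | (G.comap (Subtype.val : {x // x ∈ A} → Fin n)).Adj ⟨v, hv⟩ x}.ncard ≤
        {x | x ∈ A ∧ G.Adj v x}.ncard := by
      refine Set.ncard_le_ncard_of_injOn Subtype.val ?_ Subtype.val_injective.injOn (Set.toFinite _)
      intro x hx
      exact ⟨x.2, hx⟩
    have h9 : ({x : {x // x ∈ A} | (G.comap (Subtype.val : {x // x ∈ A} → Fin n)).Adj ⟨v, hv⟩ x}.ncard : ℝ) ≤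
        ({x | x ∈ A ∧ G.Adj v x}.ncard : ℝ) := by exact_mod_cast h8
    push_cast at hvd
    linarith

end Pool.Agent.ALC
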