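import Pool.Agent.ALC.Del

/-!
# ALC CRL: crossing lemma by sampling

PROOF.  `B` from `del_lin`.  Let `n = card V` and let `χ` run over the functions `V → Fin q`,
`S_χ = {x | χ x = 0}` (`q ≥ 1`), `L_χ` the set of the edges of `G` inside `S_χ`.  For a set `A` of `j`
vertices the number of `χ` with `A ⊆ S_χ` is `q^(n - j)` (`Fintype.card_pi`/`Finset.card_pi`, or
`Fintype.piFinset`).  Hence, as real numbers, dividing by `q^n`:
average of `#S_χ` is `n / q`, average of `#L_χ` is `#(ed G) / q^2` (an edge has two vertices), and the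
average of `∑_{e, f ∈ L_χ} N e f` is `D.cr / q^4` (if `N e f ≠ 0` then `e ≠ f` (`Drw.N_self`), and by
`D.NoAdj` the edges `e, f` have no common vertex, so `4` different vertices).
`del_lin` for every `χ` and averaging: `#(ed G) / q^2 ≤ B n / q + D.cr / q^4`; multiply by `q^4`.
-/

set_option autoImplicit false

namespace Pool.Agent.ALC

open Pool.Agent.ALB

private theorem cnt {V : Type} [Fintype V] [DecidableEq V] (q : ℕ) (z : Fin q) (A : Finset V) :
    (Finset.univ.filter (fun χ : V → Fin q => ∀ x ∈ A, χ x = z)).card * q ^ A.card = q ^ Fintype.card V := by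
  have h1 : Finset.univ.filter (fun χ : V → Fin q => ∀ x ∈ A, χ x = z) =
      Fintype.piFinset (fun x => if x ∈ A then {z} else Finset.univ) := by
    ext χ
    rw [Finset.mem_filter, Fintype.mem_piFinset]
    constructor
    · rintro ⟨-, h⟩ x
      split_ifs with hx
      · exact Finset.mem_singleton.2 (h x hx)
      · exact Finset.mem_univ _
    · intro h
      refine ⟨Finset.mem_univ _, fun x hx => ?_⟩
      have := h x
      rw [if_pos hx] at this
      exact Finset.mem_singleton.1 this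
  have h2 : q ^ A.card = ∏ x : V, (if x ∈ A then q else 1) := by
    rw [Finset.prod_ite_mem, Finset.univ_inter, Finset.prod_const]
  rw [h1, Fintype.card_piFinset, h2, ← Finset.prod_mul_distrib]
  have h3 : ∀ x : V, (if x ∈ A then ({z} : Finset (Fin q)) else Finset.univ).card * (if x ∈ A then q else 1) = q := by
    intro x
    split_ifs with hx
    · rw [Finset.card_singleton, one_mul]
    · rw [Finset.card_univ, Fintype.card_fin, mul_one]
  rw [Finset.prod_congr rfl (fun x _ => h3 x), Finset.prod_const, Finset.card_univ]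

theorem crL {a : ℕ} (ha : crK a ≠ 0) : ∃ B : ℕ, 0 < B ∧ ∀ (V : Type) (_ : Fintype V)
    (G : SimpleGraph V) (D : Drw G), D.NoAdj → ∀ q : ℕ, 0 < q →
      q ^ 2 * (ed G).card ≤ B * Fintype.card V * q ^ 3 + D.cr := by
  classical
  obtain ⟨B, hB, hd⟩ := del_lin ha
  refine ⟨B, hB, ?_⟩
  intro V hV G D hNA q hq
  let z : Fin q := ⟨0, hq⟩
  let SS : (V → Fin q) → Finset V := fun χ => Finset.univ.filter (fun x => χ x = z)
  let LL : (V → Fin q) → Finset (Sym2 V) := fun χ => (ed G).filter (fun e => ∀ x ∈ e, χ x = z)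
  have h1 : ∀ χ : V → Fin q, (LL χ).card ≤ B * (SS χ).card + ∑ e ∈ LL χ, ∑ f ∈ LL χ, D.N e f := by
    intro χ
    refine hd V hV G D (SS χ) (LL χ) ?_
    intro e
    simp only [LL, SS, Finset.mem_filter, mem_ed, Finset.mem_univ, true_and]
  have hsum := Finset.sum_le_sum (fun χ (_ : χ ∈ (Finset.univ : Finset (V → Fin q))) => h1 χ)
  rw [Finset.sum_add_distrib, ← Finset.mul_sum] at hsum
  -- vertices
  have hSS : (∑ χ : V → Fin q, (SS χ).card) * q = Fintype.card V * q ^ Fintype.card V := by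
    have e1 : ∀ χ : V → Fin q, (SS χ).card = ∑ x : V, if χ x = z then 1 else 0 := fun χ => Finset.card_filter _ _
    rw [Finset.sum_congr rfl (fun χ _ => e1 χ), Finset.sum_comm, Finset.sum_mul]
    have e2 : ∀ x : V, (∑ χ : V → Fin q, if χ x = z then 1 else 0) * q = q ^ Fintype.card V := by
      intro x
      have e3 := cnt q z ({x} : Finset V)
      rw [Finset.card_singleton, pow_one] at e3
      rw [← Finset.card_filter]
      simpa using e3
    rw [Finset.sum_congr rfl (fun x _ => e2 x), Finset.sum_const, Finset.card_univ, smul_eq_mul]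
  -- edges
  have hLL : (∑ χ : V → Fin q, (LL χ).card) * q ^ 2 = (ed G).card * q ^ Fintype.card V := by
    have e1 : ∀ χ : V → Fin q, (LL χ).card = ∑ e ∈ ed G, if (∀ x ∈ e, χ x = z) then 1 else 0 := fun χ =>
      Finset.card_filter _ _
    rw [Finset.sum_congr rfl (fun χ _ => e1 χ), Finset.sum_comm, Finset.sum_mul]
    have e2 : ∀ e ∈ ed G, (∑ χ : V → Fin q, if (∀ x ∈ e, χ x = z) then 1 else 0) * q ^ 2 = q ^ Fintype.card V := by
      intro e he
      have e3 := cnt q z e.toFinset
      rw [Sym2.card_toFinset_of_not_isDiag e (G.not_isDiag_of_mem_edgeSet (mem_ed.1 he))] at e3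
      rw [← Finset.card_filter, ← e3]
      simp only [Sym2.mem_toFinset]
    rw [Finset.sum_congr rfl e2, Finset.sum_const, smul_eq_mul]
  -- pairs
  have hXX : (∑ χ : V → Fin q, ∑ e ∈ LL χ, ∑ f ∈ LL χ, D.N e f) * q ^ 4 = D.cr * q ^ Fintype.card V := by
    have e1 : ∀ χ : V → Fin q, ∑ e ∈ LL χ, ∑ f ∈ LL χ, D.N e f =
        ∑ e ∈ ed G, ∑ f ∈ ed G, if ((∀ x ∈ e, χ x = z) ∧ (∀ x ∈ f, χ x = z)) then D.N e f else 0 := by
      intro χ
      rw [Finset.sum_filter]
      refine Finset.sum_congr rfl fun e _ => ?_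
      by_cases h2 : ∀ x ∈ e, χ x = z
      · rw [if_pos h2, Finset.sum_filter]
        refine Finset.sum_congr rfl fun f _ => ?_
        by_cases h3 : ∀ x ∈ f, χ x = z
        · rw [if_pos h3, if_pos ⟨h2, h3⟩]
        · rw [if_neg h3, if_neg (fun h4 => h3 h4.2)]
      · rw [if_neg h2]
        refine (Finset.sum_eq_zero fun f _ => ?_).symm
        rw [if_neg (fun h4 => h2 h4.1)]
    rw [Finset.sum_congr rfl (fun χ _ => e1 χ), Finset.sum_comm, Drw.cr, Finset.sum_mul, Finset.sum_mul]
    refine Finset.sum_congr rfl fun e he => ?_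
    rw [Finset.sum_comm, Finset.sum_mul, Finset.sum_mul]
    refine Finset.sum_congr rfl fun f hf => ?_
    by_cases h0 : D.N e f = 0
    · rw [h0, zero_mul]
      have e2 : ∀ χ : V → Fin q, (if ((∀ x ∈ e, χ x = z) ∧ (∀ x ∈ f, χ x = z)) then 0 else 0) = 0 := fun χ => by
        split_ifs <;> rfl
      rw [Finset.sum_congr rfl (fun χ _ => e2 χ), Finset.sum_const_zero, zero_mul]
    · have hdis : Disjoint e.toFinset f.toFinset := by
        rw [Finset.disjoint_left]
        intro x hx hx'
        rw [Sym2.mem_toFinset] at hx hx'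
        obtain ⟨v, rfl⟩ := hx
        obtain ⟨w, rfl⟩ := hx'
        rw [mem_ed] at he hf
        by_cases hvw : v = w
        · subst hvw
          exact h0 (D.N_self he)
        · exact h0 (hNA x v w he hf hvw)
      have e3 := cnt q z (e.toFinset ∪ f.toFinset)
      rw [Finset.card_union_of_disjoint hdis, Sym2.card_toFinset_of_not_isDiag e (G.not_isDiag_of_mem_edgeSet (mem_ed.1 he)),
        Sym2.card_toFinset_of_not_isDiag f (G.not_isDiag_of_mem_edgeSet (mem_ed.1 hf))] at e3
      have e4 : Finset.univ.filter (fun χ : V → Fin q => ∀ x ∈ e.toFinset ∪ f.toFinset, χ x = z) =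
          Finset.univ.filter (fun χ : V → Fin q => (∀ x ∈ e, χ x = z) ∧ (∀ x ∈ f, χ x = z)) := by
        refine Finset.filter_congr fun χ _ => ?_
        constructor
        · intro h5
          exact ⟨fun x hx => h5 x (Finset.mem_union_left _ (Sym2.mem_toFinset.2 hx)),
            fun x hx => h5 x (Finset.mem_union_right _ (Sym2.mem_toFinset.2 hx))⟩
        · rintro ⟨h5, h6⟩ x hx
          rcases Finset.mem_union.1 hx with h7 | h7
          · exact h5 x (Sym2.mem_toFinset.1 h7)
          · exact h6 x (Sym2.mem_toFinset.1 h7)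
      rw [e4] at e3
      rw [← Finset.sum_filter, Finset.sum_const, smul_eq_mul]
      calc _ * D.N e f * q ^ 4 = D.N e f * (_ * q ^ (2 + 2)) := by ring
        _ = _ := by rw [e3]
  -- end
  have hqn : 0 < q ^ Fintype.card V := pow_pos hq _
  refine Nat.le_of_mul_le_mul_right ?_ hqn
  have hfin := Nat.mul_le_mul_right (q ^ 4) hsum
  have g1 : (∑ χ : V → Fin q, (LL χ).card) * q ^ 4 = q ^ 2 * (ed G).card * q ^ Fintype.card V := by
    calc (∑ χ : V → Fin q, (LL χ).card) * q ^ 4 = q ^ 2 * ((∑ χ : V → Fin q, (LL χ).card) * q ^ 2) := by ring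
      _ = _ := by rw [hLL]; ring
  have g2 : (B * (∑ χ : V → Fin q, (SS χ).card) + ∑ χ : V → Fin q, ∑ e ∈ LL χ, ∑ f ∈ LL χ, D.N e f) * q ^ 4 =
      (B * Fintype.card V * q ^ 3 + D.cr) * q ^ Fintype.card V := by
    calc (B * (∑ χ : V → Fin q, (SS χ).card) + ∑ χ : V → Fin q, ∑ e ∈ LL χ, ∑ f ∈ LL χ, D.N e f) * q ^ 4 =
        B * q ^ 3 * ((∑ χ : V → Fin q, (SS χ).card) * q) + (∑ χ : V → Fin q, ∑ e ∈ LL χ, ∑ f ∈ LL χ, D.N e f) * q ^ 4 := by
          ring
      _ = _ := by rw [hSS, hXX]; ring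
  rw [← g1, ← g2]
  exact hfin

end Pool.Agent.ALC
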