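import Pool.Agent.ALC.MdDefs
import Pool.Agent.ALB.Psd

/-!
# ALC TMX: a drawing of a subdivision has a crossing

PROOF.  `tm_cross`: suppose `D.N e f = 0` for all edges `e, f` of `G` inside `S`.  Apply `psd` with
`k = a`, the given `Y` and the following sets `E p`: for `p = s(i, j)` with `i < j` let `W_p` be the
walk of `h.walk i j` made a path (`Walk.toPath` / `bypass`; its support and its edges are subsets) and
`E p = W_p.edges.toFinset`; for the other `p` let `E p = ∅`.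
All ends of the edges of `E p` are in `I p ∪ {Y i, Y j} ⊆ S`.  `hT`: `Y l ∉ I p`.  `hdis`: let
`e ∈ E p ∩ E q`, `p ≠ q`; every end of `e` is in `(I p ∪ p-ends) ∩ (I q ∪ q-ends)`, which (disjointness,
`Y l ∉ I`) consists of common ends `Y l`, `l ∈ p ∩ q`; this has at most one element as `p ≠ q`, but
`e` has two different ends.  The set of the common non-terminals is empty, the `N`-terms vanish.
So `crK a ≤ 0`.
`Drw.sub`: `pos`, `arc` the same, everything is inherited.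
-/

set_option autoImplicit false

namespace Pool.Agent.ALC

open Pool.Agent.ALB

theorem tm_cross {V : Type} [Fintype V] {G : SimpleGraph V} (D : Drw G) {a : ℕ}
    (ha : crK a ≠ 0) {S : Finset V} {Y : Fin a → V} {I : Sym2 (Fin a) → Finset V}
    (h : TM G (⊤ : SimpleGraph (Fin a)) S Y I) :
    ∃ e f : Sym2 V, (e ∈ G.edgeSet ∧ ∀ x ∈ e, x ∈ S) ∧ (f ∈ G.edgeSet ∧ ∀ x ∈ f, x ∈ S) ∧
      D.N e f ≠ 0 := by
  classical
  by_contra hcon
  push Not at hcon
  let E : Sym2 (Fin a) → Finset (Sym2 V) := fun p =>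
    (Set.toFinite {e : Sym2 V | e ∈ G.edgeSet ∧ ∀ x ∈ e, x ∈ I p ∨ ∃ i ∈ p, x = Y i}).toFinset
  have hEm : ∀ p e, e ∈ E p ↔ e ∈ G.edgeSet ∧ ∀ x ∈ e, x ∈ I p ∨ ∃ i ∈ p, x = Y i := by
    intro p e
    exact (Set.toFinite _).mem_toFinset
  have hS : ∀ p ∈ (⊤ : SimpleGraph (Fin a)).edgeSet, ∀ e ∈ E p, e ∈ G.edgeSet ∧ ∀ x ∈ e, x ∈ S := by
    intro p hp e he
    rw [hEm] at he
    refine ⟨he.1, fun x hx => ?_⟩
    rcases he.2 x hx with h1 | ⟨i, -, rfl⟩
    · exact h.sub p hp h1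
    · exact h.mem i
  have hps := psd D Y h.inj E (fun p e he => ((hEm p e).1 he).1) (by
    intro i j hij
    obtain ⟨W, hW⟩ := h.walk i j hij
    refine ⟨W, fun e he => ?_⟩
    rw [hEm]
    refine ⟨W.edges_subset_edgeSet he, fun x hx => ?_⟩
    have hxs : x ∈ W.support := by
      obtain ⟨y, rfl⟩ := hx
      exact W.fst_mem_support_of_mem_edges he
    rcases hW x hxs with rfl | rfl | h1
    · exact Or.inr ⟨i, Sym2.mem_mk_left i j, rfl⟩
    · exact Or.inr ⟨j, Sym2.mem_mk_right i j, rfl⟩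
    · exact Or.inl h1) (by
    intro i j hij e he x hx hxY
    rw [hEm] at he
    obtain ⟨l, rfl⟩ := hxY
    rcases he.2 _ hx with h1 | ⟨i', hi', h1⟩
    · exact absurd h1 (h.term s(i, j) hij l)
    · rcases Sym2.mem_iff.1 hi' with rfl | rfl
      · exact Or.inl h1
      · exact Or.inr h1) (by
    intro p hp q hq hpq e he hf
    rw [hEm] at he hf
    have key : ∀ x ∈ e, ∃ i, i ∈ p ∧ i ∈ q ∧ x = Y i := by
      intro x hx
      rcases he.2 x hx with h1 | ⟨i, hi, rfl⟩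
      · rcases hf.2 x hx with h2 | ⟨j, hj, rfl⟩
        · exact absurd h2 (Finset.disjoint_left.1 (h.disj p hp q hq hpq) h1)
        · exact absurd h1 (h.term p hp j)
      · rcases hf.2 _ hx with h2 | ⟨j, hj, h2⟩
        · exact absurd h2 (h.term q hq i)
        · have := h.inj h2
          subst this
          exact ⟨i, hi, hj, rfl⟩
    induction e using Sym2.ind with
    | _ x y =>
      have hxy : x ≠ y := G.ne_of_adj he.1
      obtain ⟨i, hi1, hi2, hi3⟩ := key x (Sym2.mem_mk_left x y)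
      obtain ⟨j, hj1, hj2, hj3⟩ := key y (Sym2.mem_mk_right x y)
      have hij : i ≠ j := by
        rintro rfl
        exact hxy (hi3.trans hj3.symm)
      have e1 : p = s(i, j) := (Sym2.mem_and_mem_iff hij).1 ⟨hi1, hj1⟩
      have e2 : q = s(i, j) := (Sym2.mem_and_mem_iff hij).1 ⟨hi2, hj2⟩
      exact hpq (e1.trans e2.symm))
  apply ha
  refine Nat.le_zero.1 (hps.trans (le_of_eq ?_))
  refine Finset.sum_eq_zero fun p hp => Finset.sum_eq_zero fun q hq => ?_
  rw [Finset.mem_erase] at hq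
  rw [mem_ed] at hp
  have hq1 : q ∈ (⊤ : SimpleGraph (Fin a)).edgeSet := mem_ed.1 hq.2
  have h1 : ∑ e ∈ E p, ∑ f ∈ E q, D.N e f = 0 :=
    Finset.sum_eq_zero fun e he => Finset.sum_eq_zero fun f hf => hcon e f (hS p hp e he) (hS q hq1 f hf)
  have h2 : {x : V | x ∉ Set.range Y ∧ (∃ e ∈ E p, x ∈ e) ∧ (∃ f ∈ E q, x ∈ f)} = ∅ := by
    rw [Set.eq_empty_iff_forall_notMem]
    rintro x ⟨hx, ⟨e, he, hxe⟩, ⟨f, hf, hxf⟩⟩
    rw [hEm] at he hf
    rcases he.2 x hxe with g1 | ⟨i, -, rfl⟩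
    · rcases hf.2 x hxf with g2 | ⟨i, -, rfl⟩
      · exact Finset.disjoint_left.1 (h.disj p hp q hq1 (Ne.symm hq.1)) g1 g2
      · exact hx ⟨i, rfl⟩
    · exact hx ⟨i, rfl⟩
  rw [h1, h2, Set.ncard_empty, add_zero]

theorem Drw_sub {V : Type} {G G' : SimpleGraph V} (D : Drw G) (h : G' ≤ G) :
    ∃ D' : Drw G', ∀ e f, D'.N e f = D.N e f := by
  refine ⟨⟨D.pos, D.arc, D.inj, fun u v huv => D.isArc u v (h huv), fun u v w huv => D.avoid u v w (h huv),
    fun e he f hf hne => D.fin e (SimpleGraph.edgeSet_mono h he) f (SimpleGraph.edgeSet_mono h hf) hne⟩, fun e f => rfl⟩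

end Pool.Agent.ALC
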