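import Pool.Agent.ALC.Md
import Pool.Agent.ALC.Tmx
import Pool.Agent.ALB.ArcA

/-!
# ALC DEL: linear lower bound for the number of crossings

PROOF.  `B` from `mader a`.  Induction on `ein G S` (for all graphs `G` on `V` and all drawings).  If
`ein G S ≤ B #S` nothing is to show.  Otherwise `S` is nonempty (no edges inside `∅`), `mader` gives
a `TM`, and `tm_cross` two edges `e, f` of `G` inside `S` with `D.N e f ≠ 0`; `e ≠ f` by `Drw.N_self`.
Let `G' = G.deleteEdges {e}` with the drawing `D'` of `Drw_sub`.  `ein G' S + 1 = ein G S` and the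
double sum for `G'` is smaller by at least `D.N e f ≥ 1` (the edges of `G'` inside `S` are the ones of
`G` without `e`).  The induction hypothesis gives the claim.
-/

set_option autoImplicit false

namespace Pool.Agent.ALC

open Pool.Agent.ALB

theorem del_lin {a : ℕ} (ha : crK a ≠ 0) : ∃ B : ℕ, 0 < B ∧ ∀ (V : Type) (_ : Fintype V)
    (G : SimpleGraph V) (D : Drw G) (S : Finset V) (L : Finset (Sym2 V)),
    (∀ e, e ∈ L ↔ e ∈ G.edgeSet ∧ ∀ x ∈ e, x ∈ S) →
      L.card ≤ B * S.card + ∑ e ∈ L, ∑ f ∈ L, D.N e f := by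
  classical
  obtain ⟨B, hB, hm⟩ := mader a
  refine ⟨B, hB, ?_⟩
  intro V hV G D S L hL
  have key : ∀ n : ℕ, ∀ (G : SimpleGraph V) (D : Drw G) (L : Finset (Sym2 V)),
      (∀ e, e ∈ L ↔ e ∈ G.edgeSet ∧ ∀ x ∈ e, x ∈ S) → L.card = n →
      L.card ≤ B * S.card + ∑ e ∈ L, ∑ f ∈ L, D.N e f := by
    intro n
    induction n with
    | zero =>
      intro G D L _ h0
      rw [h0]
      exact Nat.zero_le _
    | succ n ih =>
      intro G D L hL hn
      by_cases hle : L.card ≤ B * S.card
      · exact hle.trans (Nat.le_add_right _ _)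
      · have hein : ein G S = L.card := by
          have e1 : {e | e ∈ G.edgeSet ∧ ∀ x ∈ e, x ∈ S} = (L : Set (Sym2 V)) := by
            ext e
            exact (hL e).symm
          rw [ein, e1, Set.ncard_coe_finset]
        have hSne : S.Nonempty := by
          by_contra hS
          rw [Finset.not_nonempty_iff_eq_empty] at hS
          obtain ⟨e, he⟩ : L.Nonempty := Finset.card_pos.1 (by omega)
          have h1 := ((hL e).1 he).2
          induction e using Sym2.ind with
          | _ x y =>
            have h2 := h1 x (Sym2.mem_mk_left x y)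
            rw [hS] at h2
            exact Finset.notMem_empty _ h2
        obtain ⟨Y, I, hTM⟩ := hm V hV G S hSne (by rw [hein]; omega)
        obtain ⟨e, f, he, hf, hN⟩ := tm_cross D ha hTM
        have heL : e ∈ L := (hL e).2 he
        have hfL : f ∈ L := (hL f).2 hf
        obtain ⟨D', hD'⟩ := Drw_sub D (G.deleteEdges_le {e})
        have hL' : ∀ e', e' ∈ L.erase e ↔ e' ∈ (G.deleteEdges {e}).edgeSet ∧ ∀ x ∈ e', x ∈ S := by
          intro e'
          rw [Finset.mem_erase, hL, SimpleGraph.edgeSet_deleteEdges, Set.mem_diff, Set.mem_singleton_iff]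
          tauto
        have hc : (L.erase e).card = n := by
          rw [Finset.card_erase_of_mem heL, hn]
          rfl
        have h1 := ih (G.deleteEdges {e}) D' (L.erase e) hL' hc
        simp only [hD'] at h1
        have h2 : ∑ e' ∈ L, ∑ f' ∈ L, D.N e' f' = (∑ f' ∈ L, D.N e f') + ∑ e' ∈ L.erase e, ∑ f' ∈ L, D.N e' f' :=
          (Finset.add_sum_erase L (fun e' => ∑ f' ∈ L, D.N e' f') heL).symm
        have h3 : 1 ≤ ∑ f' ∈ L, D.N e f' :=
          (Nat.one_le_iff_ne_zero.2 hN).trans (Finset.single_le_sum (f := fun f' => D.N e f') (fun _ _ => Nat.zero_le _) hfL)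
        have h4 : ∑ e' ∈ L.erase e, ∑ f' ∈ L.erase e, D.N e' f' ≤ ∑ e' ∈ L.erase e, ∑ f' ∈ L, D.N e' f' :=
          Finset.sum_le_sum fun e' _ => Finset.sum_le_sum_of_subset (Finset.erase_subset e L)
        omega
  exact key L.card G D L hL rfl

end Pool.Agent.ALC
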