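import Pool.Agent.ALC.Psg

/-!
# ALC GAIN: drawing along a path system, unused edges

PROOF.  `Y` is injective (`fY`).  Apply `psg` to `Y`, `E`: for `p = s(i, j)` an edge of `Γ` and
`e ∈ E p` we have `e.map f = p`, so a vertex `x` of `e` has colour `f x = i` or `j`, and if
`x = Y l` then `l = i` or `l = j` (hypothesis `hT`); two sets `E p`, `E q` with `p ≠ q` are disjoint
(`e.map f = p` and `= q`).  So there is `D'` with
`D'.cr ≤ ∑_{p,q} ∑_{e ∈ E p, e' ∈ E q} N e e' + ∑_{p,q} #{x | x on E p and on E q}`.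
Second sum: exchange, `∑_x #{p | x on E p}^2`; if `x` is on `E p` then `f x ∈ p`, i.e.
`p = s(f x, j)`, so there are at most `r` such `p`; total `≤ card V * r^2`.
First sum: with `A = (ed Γ).biUnion E` (a disjoint union, `Finset.sum_biUnion`) it is
`∑_{e ∈ A} ∑_{e' ∈ A} N e e'`; `A` and `Λ` are disjoint subsets of `ed G`, so
`∑_{A × A} + ∑_{Λ × Λ} ≤ ∑_{ed G × ed G} = D.cr`.
-/

set_option autoImplicit false

namespace Pool.Agent.ALC

open Pool.Agent.ALB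

private lemma gain_mem {V : Type} {r : ℕ} {f : V → Fin r} {e : Sym2 V} {p : Sym2 (Fin r)}
    (h : e.map f = p) {x : V} (hx : x ∈ e) : f x ∈ p := by
  rw [← h, Sym2.mem_map]
  exact ⟨x, hx, rfl⟩

/-- the number of common vertices -/
private lemma gain_on {V : Type} [Fintype V] {r : ℕ} (P : Finset (Sym2 (Fin r)))
    (On : Sym2 (Fin r) → V → Prop) (f : V → Fin r) (hf : ∀ p ∈ P, ∀ x, On p x → f x ∈ p)
    (B : Sym2 (Fin r) → Sym2 (Fin r) → Set V) (hB : ∀ p ∈ P, ∀ q ∈ P, ∀ x ∈ B p q, On p x ∧ On q x) :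
    ∑ p ∈ P, ∑ q ∈ P, (B p q).ncard ≤ Fintype.card V * r ^ 2 := by
  classical
  have h1 : ∀ x, ∑ p ∈ P, (if On p x then 1 else 0) ≤ r := by
    intro x
    rw [← Finset.card_filter]
    have hsub : P.filter (fun p => On p x) ⊆ Finset.univ.image (fun j : Fin r => s(f x, j)) := by
      intro p hp
      obtain ⟨hp, hx⟩ := Finset.mem_filter.1 hp
      obtain ⟨j, hj⟩ := hf p hp x hx
      exact Finset.mem_image.2 ⟨j, Finset.mem_univ _, hj.symm⟩
    refine (Finset.card_le_card hsub).trans (Finset.card_image_le.trans ?_)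
    rw [Finset.card_univ, Fintype.card_fin]
  calc ∑ p ∈ P, ∑ q ∈ P, (B p q).ncard
      ≤ ∑ p ∈ P, ∑ q ∈ P, ∑ x : V, (if On p x then 1 else 0) * (if On q x then 1 else 0) := by
        refine Finset.sum_le_sum fun p hp => Finset.sum_le_sum fun q hq => ?_
        have h2 : B p q ⊆ ((Finset.univ.filter fun x : V => On p x ∧ On q x : Finset V) : Set V) := by
          intro x hx
          rw [Finset.mem_coe, Finset.mem_filter]
          exact ⟨Finset.mem_univ _, hB p hp q hq x hx⟩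
        refine (Set.ncard_le_ncard h2 (Finset.finite_toSet _)).trans ?_
        rw [Set.ncard_coe_finset, Finset.card_filter]
        refine Finset.sum_le_sum fun x _ => ?_
        by_cases ha : On p x <;> by_cases hb : On q x <;> simp [ha, hb]
    _ = ∑ x : V, (∑ p ∈ P, (if On p x then 1 else 0)) * (∑ q ∈ P, (if On q x then 1 else 0)) := by
        rw [Finset.sum_congr rfl fun p _ => Finset.sum_comm, Finset.sum_comm]
        refine Finset.sum_congr rfl fun x _ => ?_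
        rw [Finset.sum_mul_sum]
    _ ≤ ∑ _x : V, r ^ 2 := by
        refine Finset.sum_le_sum fun x _ => ?_
        rw [pow_two]
        exact Nat.mul_le_mul (h1 x) (h1 x)
    _ = Fintype.card V * r ^ 2 := by
        rw [Finset.sum_const, Finset.card_univ, smul_eq_mul]

theorem gain {V : Type} [Fintype V] {G : SimpleGraph V} (D : Drw G) {r : ℕ} {f : V → Fin r}
    {Y : Fin r → V} {Γ : SimpleGraph (Fin r)} {E : Sym2 (Fin r) → Finset (Sym2 V)}
    (h : PS G f Y Γ E) (Λ : Finset (Sym2 V)) (hΛ : ∀ e ∈ Λ, e ∈ G.edgeSet)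
    (hE : ∀ p ∈ Γ.edgeSet, ∀ e ∈ E p, e ∉ Λ) :
    ∃ D' : Drw Γ, D'.cr + ∑ e ∈ Λ, ∑ e' ∈ Λ, D.N e e' ≤ D.cr + Fintype.card V * r ^ 2 := by
  classical
  have hY : Function.Injective Y := fun i j hij => by rw [← h.fY i, ← h.fY j, hij]
  have hT : ∀ i j, Γ.Adj i j → ∀ e ∈ E s(i, j), ∀ x ∈ e, x ∈ Set.range Y → x = Y i ∨ x = Y j := by
    rintro i j hij e he x hx ⟨l, rfl⟩
    have h1 := gain_mem (h.sub s(i, j) hij e he).2 hx
    rw [h.fY, Sym2.mem_iff] at h1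
    rcases h1 with h1 | h1
    · exact Or.inl (by rw [h1])
    · exact Or.inr (by rw [h1])
  have hdis : ∀ p ∈ Γ.edgeSet, ∀ q ∈ Γ.edgeSet, p ≠ q → ∀ e ∈ E p, e ∉ E q := by
    intro p hp q hq hpq e he he'
    exact hpq ((h.sub p hp e he).2.symm.trans (h.sub q hq e he').2)
  obtain ⟨D', hD'⟩ := psg D Γ Y hY E (fun p hp e he => (h.sub p hp e he).1) h.walk hT hdis
  refine ⟨D', ?_⟩
  have hB := gain_on (ed Γ) (fun p x => ∃ e ∈ E p, x ∈ e) f
    (fun p hp x hx => by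
      obtain ⟨e, he, hx⟩ := hx
      exact gain_mem (h.sub p (mem_ed.1 hp) e he).2 hx)
    (fun p q => {x : V | x ∉ Set.range Y ∧ (∃ e ∈ E p, x ∈ e) ∧ (∃ f ∈ E q, x ∈ f)})
    (fun p _ q _ x hx => ⟨hx.2.1, hx.2.2⟩)
  have hpd : Set.PairwiseDisjoint (↑(ed Γ) : Set (Sym2 (Fin r))) E := by
    intro p hp q hq hpq
    rw [Function.onFun, Finset.disjoint_left]
    exact fun e he => hdis p (mem_ed.1 (Finset.mem_coe.1 hp)) q (mem_ed.1 (Finset.mem_coe.1 hq)) hpq e he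
  have hA : ∑ p ∈ ed Γ, ∑ q ∈ ed Γ, ∑ e ∈ E p, ∑ e' ∈ E q, D.N e e' =
      ∑ e ∈ (ed Γ).biUnion E, ∑ e' ∈ (ed Γ).biUnion E, D.N e e' := by
    rw [Finset.sum_biUnion hpd]
    refine Finset.sum_congr rfl fun p _ => ?_
    rw [Finset.sum_comm]
    refine Finset.sum_congr rfl fun e _ => ?_
    rw [Finset.sum_biUnion hpd]
  have hAsub : (ed Γ).biUnion E ⊆ ed G := by
    intro e he
    obtain ⟨p, hp, he⟩ := Finset.mem_biUnion.1 he
    exact mem_ed.2 (h.sub p (mem_ed.1 hp) e he).1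
  have hΛsub : Λ ⊆ ed G := fun e he => mem_ed.2 (hΛ e he)
  have hdj : Disjoint ((ed Γ).biUnion E) Λ := by
    rw [Finset.disjoint_left]
    intro e he
    obtain ⟨p, hp, he⟩ := Finset.mem_biUnion.1 he
    exact hE p (mem_ed.1 hp) e he
  have hsum : ∑ e ∈ (ed Γ).biUnion E, ∑ e' ∈ (ed Γ).biUnion E, D.N e e' + ∑ e ∈ Λ, ∑ e' ∈ Λ, D.N e e' ≤ D.cr := by
    calc _ ≤ ∑ e ∈ (ed Γ).biUnion E, ∑ e' ∈ ed G, D.N e e' + ∑ e ∈ Λ, ∑ e' ∈ ed G, D.N e e' :=
          Nat.add_le_add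
            (Finset.sum_le_sum fun e _ => Finset.sum_le_sum_of_subset hAsub)
            (Finset.sum_le_sum fun e _ => Finset.sum_le_sum_of_subset hΛsub)
      _ = ∑ e ∈ (ed Γ).biUnion E ∪ Λ, ∑ e' ∈ ed G, D.N e e' := (Finset.sum_union hdj).symm
      _ ≤ ∑ e ∈ ed G, ∑ e' ∈ ed G, D.N e e' :=
          Finset.sum_le_sum_of_subset (Finset.union_subset hAsub hΛsub)
      _ = D.cr := rfl
  have hsplit : ∑ p ∈ ed Γ, ∑ q ∈ ed Γ, ((∑ e ∈ E p, ∑ f ∈ E q, D.N e f) +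
      {x : V | x ∉ Set.range Y ∧ (∃ e ∈ E p, x ∈ e) ∧ (∃ f ∈ E q, x ∈ f)}.ncard) =
      ∑ p ∈ ed Γ, ∑ q ∈ ed Γ, ∑ e ∈ E p, ∑ f ∈ E q, D.N e f +
        ∑ p ∈ ed Γ, ∑ q ∈ ed Γ,
          {x : V | x ∉ Set.range Y ∧ (∃ e ∈ E p, x ∈ e) ∧ (∃ f ∈ E q, x ∈ f)}.ncard := by
    rw [← Finset.sum_add_distrib]
    exact Finset.sum_congr rfl fun p _ => Finset.sum_add_distrib
  rw [hsplit, hA] at hD'
  omega

end Pool.Agent.ALC
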