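import Pool.Agent.ALC.Gain
import Pool.Agent.ALC.Sat
import Pool.Agent.ALC.Smp

/-!
# ALC GL: a path system with many unused edges

PROOF.  `hc.ge (c/2)` gives `a ≥ 4` with `crK a ≥ (c/2) choose a 4 > 0`, so `crK a ≠ 0`.  Let `κ, r₁`
be the numbers of `sat` (for `a, C, ρ`) and `η, r₂` the ones of `smp` for `δ = κ / 2`.  For
`r ≥ r₀ = max r₁ r₂ (2 C / κ + 1)`: `gain` gives `D' : Drw Γ` with
`D'.cr ≤ D.cr - κ r^4 + card V r^2 ≤ D.cr - κ r^4 + C r^3`, and `smp` gives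
`crK (r+1) ≤ D'.cr + (κ/2) r^4 ≤ D.cr - (κ/2) r^4 + C r^3 ≤ D.cr`.
-/

set_option autoImplicit false

namespace Pool.Agent.ALC

open Pool.Agent.ALB

theorem gl {c : ℝ} (hc : Lim c) {C ρ : ℝ} (hC : 0 < C) (hρ : 0 < ρ) :
    ∃ η : ℝ, 0 < η ∧ ∃ r₀ : ℕ, ∀ (V : Type) (_ : Fintype V) (G : SimpleGraph V) (D : Drw G),
      D.NoAdj → ∀ r : ℕ, r₀ ≤ r → (Fintype.card V : ℝ) ≤ C * (r : ℝ) →
      ∀ (f : V → Fin r) (Y : Fin r → V) (Γ : SimpleGraph (Fin r))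
        (E : Sym2 (Fin r) → Finset (Sym2 V)) (Λ : Finset (Sym2 V)), PS G f Y Γ E →
        (miss Γ : ℝ) ≤ η * (r : ℝ) ^ 2 → (∀ e ∈ Λ, e ∈ G.edgeSet) →
        (∀ p ∈ Γ.edgeSet, ∀ e ∈ E p, e ∉ Λ) → ρ * (r : ℝ) ^ 2 ≤ (Λ.card : ℝ) →
        crK (r + 1) ≤ D.cr := by
  obtain ⟨a, ha4, ha⟩ := hc.ge (c / 2) (half_pos hc.pos)
  have haK : crK a ≠ 0 := by
    intro h0
    have h1 := ha a le_rfl
    rw [h0] at h1
    have h2 : (0 : ℝ) < (c - c / 2) * (a.choose 4 : ℝ) := by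
      apply mul_pos
      · have := hc.pos
        linarith
      · exact_mod_cast Nat.choose_pos ha4
    simp only [Nat.cast_zero] at h1
    linarith
  obtain ⟨κ, hκ, r₁, H1⟩ := sat haK hC hρ
  obtain ⟨η, hη, r₂, H2⟩ := smp hc (half_pos hκ)
  refine ⟨η, hη, max (max r₁ r₂) (⌈2 * C / κ⌉₊ + 1), ?_⟩
  intro V _ G D hD r hr hV f Y Γ E Λ hPS hmiss hΛ hE hcard
  have hr1 : r₁ ≤ r := le_trans (le_trans (le_max_left _ _) (le_max_left _ _)) hr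
  have hr2 : r₂ ≤ r := le_trans (le_trans (le_max_right _ _) (le_max_left _ _)) hr
  have hr3 : ⌈2 * C / κ⌉₊ + 1 ≤ r := le_trans (le_max_right _ _) hr
  have h1 := H1 V inferInstance G D hD r hr1 hV Λ hΛ hcard
  obtain ⟨D', hD'⟩ := gain D hPS Λ hΛ hE
  have h2 := H2 r hr2 Γ hmiss D'
  have h3 : (D'.cr : ℝ) + ((∑ e ∈ Λ, ∑ e' ∈ Λ, D.N e e' : ℕ) : ℝ) ≤
      (D.cr : ℝ) + (Fintype.card V : ℝ) * (r : ℝ) ^ 2 := by exact_mod_cast hD'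
  have h4 : (Fintype.card V : ℝ) * (r : ℝ) ^ 2 ≤ C * (r : ℝ) * (r : ℝ) ^ 2 :=
    mul_le_mul_of_nonneg_right hV (by positivity)
  have hrR : 2 * C / κ ≤ (r : ℝ) := by
    have h5 : (2 * C / κ : ℝ) ≤ (⌈2 * C / κ⌉₊ : ℝ) := Nat.le_ceil _
    have h6 : ((⌈2 * C / κ⌉₊ + 1 : ℕ) : ℝ) ≤ (r : ℝ) := by exact_mod_cast hr3
    push_cast at h6
    linarith
  have h7 : C ≤ κ / 2 * (r : ℝ) := by
    rw [div_le_iff₀ hκ] at hrR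
    linarith
  have h8 : C * (r : ℝ) * (r : ℝ) ^ 2 ≤ κ / 2 * (r : ℝ) ^ 4 := by
    have h9 : 0 ≤ (r : ℝ) ^ 3 := by positivity
    have h10 := mul_le_mul_of_nonneg_right h7 h9
    calc C * (r : ℝ) * (r : ℝ) ^ 2 = C * (r : ℝ) ^ 3 := by ring
      _ ≤ κ / 2 * (r : ℝ) * (r : ℝ) ^ 3 := h10
      _ = κ / 2 * (r : ℝ) ^ 4 := by ring
  have h11 : (crK (r + 1) : ℝ) ≤ (D.cr : ℝ) := by linarith
  exact_mod_cast h11

end Pool.Agent.ALC
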