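import Pool.Agent.ALC.Rec

/-!
# ALC GOOD: a vertex of a good colour class is on almost all paths of its class

PROOF.  `n₁ = #{l | (i, l) ∈ NR}`, `d = #{e ∈ UE | w ∈ e}`, `L = {l ∈ T | l ≠ i ∧ On E w s(i, l)}`.
(1) `r ≤ d + 2 #L`: `w` has at least `r` neighbours, i.e. it is on at least `r` edges.  An edge `e`
at `w` which is not in `UE` is in `E s(i', j')` with `i' ≠ j'` in `T`; `e.map f = s(i', j')` contains
`f w = i`, so it is `s(i, l)` with `l ∈ L`; at most two edges for every `l` by `PFam.two`.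
(2) Every colour `j ≠ i` occurs at a neighbour `y ≠ v` of `w`: otherwise `recolour` shows that the
pair `(i, l)` is not rigid for all `l ∈ L`, `l ≠ j`, so `#L - 1 ≤ n₁` and `r ≤ d + 2 (n₁ + 1)`,
against `hnum`.
(3) For `j ∈ T`, `j ≠ i` with `¬ On E w s(i, j)` choose `y j` as in (2) with `f (y j) = j`.  The edge
`s(w, y j)` is in `UE`: if it is in `E s(i', j')` then `s(i', j') = s(i, j)` by the colours and
`On E w s(i, j)`.  The edges are different for different `j`.  So the number of these `j` is at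
most `d`.
-/

set_option autoImplicit false

namespace Pool.Agent.ALC

open Pool.Agent.ALB

theorem good {V : Type} [Fintype V] {H : SimpleGraph V} {r : ℕ} {v : V} {f : V → Fin r}
    {s : Fin r → V} {T : Finset (Fin r)} {E : Sym2 (Fin r) → Finset (Sym2 V)} (h : KD H v f s)
    (hT : ∀ i ∈ T, Un H v f s i) (hE : PFam H v f s T E)
    (hdeg : ∀ x : V, r ≤ {y | H.Adj x y}.ncard) {i : Fin r} (hi : i ∈ T) {w : V} (hwv : w ≠ v)
    (hfw : f w = i) (hws : w ≠ s i)
    (hnum : 2 * {l | (i, l) ∈ NR H v f s T E}.ncard + {e | e ∈ UE H T E ∧ w ∈ e}.ncard + 2 < r) :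
    {j | j ∈ T ∧ j ≠ i ∧ ¬ On E w s(i, j)}.ncard ≤ {e | e ∈ UE H T E ∧ w ∈ e}.ncard := by
  classical
  -- an edge at `w` in some `E s(i', j')`
  have key : ∀ e : Sym2 V, w ∈ e → ∀ i' ∈ T, ∀ j' ∈ T, i' ≠ j' → e ∈ E s(i', j') →
      ∃ l ∈ T, l ≠ i ∧ e ∈ E s(i, l) ∧ s(i', j') = s(i, l) := by
    intro e hwe i' hi' j' hj' hne he
    have hm := (hE.sub i' j' hi' hj' hne e he).2.2
    have hwm : f w ∈ e.map f := Sym2.mem_map.2 ⟨w, hwe, rfl⟩
    rw [hm, hfw, Sym2.mem_iff] at hwm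
    rcases hwm with h1 | h1
    · subst h1
      exact ⟨j', hj', fun h2 => hne h2.symm, he, rfl⟩
    · subst h1
      refine ⟨i', hi', hne, ?_, Sym2.eq_swap⟩
      rw [Sym2.eq_swap]
      exact he
  set L : Finset (Fin r) := Finset.univ.filter (fun l => l ∈ T ∧ l ≠ i ∧ On E w s(i, l)) with hL
  -- (1)
  have h1 : r ≤ {e | e ∈ UE H T E ∧ w ∈ e}.ncard + 2 * L.card := by
    have hinj : {y | H.Adj w y}.ncard ≤ {e | e ∈ H.edgeSet ∧ w ∈ e}.ncard := by
      refine Set.ncard_le_ncard_of_injOn (fun y => s(w, y)) ?_ ?_ (Set.toFinite _)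
      · intro y hy
        exact ⟨hy, Sym2.mem_mk_left _ _⟩
      · intro y _ z _ hyz
        exact Sym2.congr_right.1 hyz
    have hsub : {e | e ∈ H.edgeSet ∧ w ∈ e} ⊆
        {e | e ∈ UE H T E ∧ w ∈ e} ∪ ⋃ l ∈ L, {e | e ∈ E s(i, l) ∧ w ∈ e} := by
      rintro e ⟨he, hwe⟩
      by_cases hu : e ∈ UE H T E
      · exact Or.inl ⟨hu, hwe⟩
      · right
        have hu' : ∃ i' ∈ T, ∃ j' ∈ T, i' ≠ j' ∧ e ∈ E s(i', j') := by
          by_contra hcon
          push Not at hcon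
          exact hu ⟨he, hcon⟩
        obtain ⟨i', hi', j', hj', hne, hee⟩ := hu'
        obtain ⟨l, hl, hli, hel, _⟩ := key e hwe i' hi' j' hj' hne hee
        simp only [Set.mem_iUnion]
        refine ⟨l, ?_, hel, hwe⟩
        rw [hL, Finset.mem_filter]
        exact ⟨Finset.mem_univ _, hl, hli, e, hel, hwe⟩
    have h2 := Set.ncard_le_ncard hsub (Set.toFinite _)
    have h3 := Set.ncard_union_le {e | e ∈ UE H T E ∧ w ∈ e}
      (⋃ l ∈ L, {e | e ∈ E s(i, l) ∧ w ∈ e})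
    have h4 : (⋃ l ∈ L, {e | e ∈ E s(i, l) ∧ w ∈ e}).ncard ≤
        ∑ l ∈ L, {e | e ∈ E s(i, l) ∧ w ∈ e}.ncard := by
      have gen : ∀ M : Finset (Fin r), (⋃ l ∈ M, {e | e ∈ E s(i, l) ∧ w ∈ e}).ncard ≤
          ∑ l ∈ M, {e | e ∈ E s(i, l) ∧ w ∈ e}.ncard := by
        intro M
        induction M using Finset.induction_on with
        | empty => simp
        | insert a M ha ih =>
          rw [Finset.sum_insert ha, Finset.set_biUnion_insert]
          exact (Set.ncard_union_le _ _).trans (Nat.add_le_add_left ih _)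
      exact gen L
    have h5 : ∑ l ∈ L, {e | e ∈ E s(i, l) ∧ w ∈ e}.ncard ≤ ∑ l ∈ L, 2 := by
      refine Finset.sum_le_sum fun l hl => ?_
      rw [hL, Finset.mem_filter] at hl
      exact hE.two i l hi hl.2.1 (Ne.symm hl.2.2.1) w
    rw [Finset.sum_const, smul_eq_mul] at h5
    have h6 := hdeg w
    omega
  -- (2)
  have h2 : ∀ j, j ≠ i → ∃ y, y ≠ v ∧ H.Adj w y ∧ f y = j := by
    intro j hji
    by_contra hcon
    push Not at hcon
    have h3 : (L.erase j : Set (Fin r)) ⊆ {l | (i, l) ∈ NR H v f s T E} := by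
      intro l hl
      rw [Finset.mem_coe, Finset.mem_erase, hL, Finset.mem_filter] at hl
      obtain ⟨hlj, -, hlT, hli, hon⟩ := hl
      refine ⟨hi, hlT, Ne.symm hli, ?_⟩
      exact recolour h (hT i hi) (hT l hlT) hwv hfw hws (Ne.symm hli) (Ne.symm hji) (Ne.symm hlj)
        hcon hon
    have h4 := Set.ncard_le_ncard h3 (Set.toFinite _)
    rw [Set.ncard_coe_finset] at h4
    have h5 : L.card ≤ (L.erase j).card + 1 := by
      have := Finset.pred_card_le_card_erase (s := L) (a := j)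
      omega
    omega
  -- (3)
  choose y hyv hya hyf using h2
  refine Set.ncard_le_ncard_of_injOn
    (fun j => if hj : j ≠ i then s(w, y j hj) else s(w, w)) ?_ ?_ (Set.toFinite _)
  · rintro j ⟨hjT, hji, hon⟩
    simp only [dif_pos hji]
    refine ⟨⟨hya j hji, ?_⟩, Sym2.mem_mk_left _ _⟩
    intro i' hi' j' hj' hne hee
    obtain ⟨l, hl, hli, hel, hp⟩ := key _ (Sym2.mem_mk_left _ _) i' hi' j' hj' hne hee
    apply hon
    have hm := (hE.sub i l hi hl (Ne.symm hli) _ hel).2.2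
    rw [Sym2.map_mk, hfw, hyf j hji] at hm
    have hlj : j = l := Sym2.congr_right.1 hm
    subst hlj
    exact ⟨_, hel, Sym2.mem_mk_left _ _⟩
  · rintro j ⟨-, hji, -⟩ l ⟨-, hli, -⟩ hjl
    simp only [dif_pos hji, dif_pos hli] at hjl
    have h3 : y j hji = y l hli := Sym2.congr_right.1 hjl
    rw [← hyf j hji, ← hyf l hli, h3]

end Pool.Agent.ALC
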