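import Pool.Agent.ALC.Defs

/-!
# ALC KEM: Kempe chains

PROOF.  Suppose `s j` is not reachable from `s i` in `B = Bg H v f i j`.  Define `g : V → Fin r` by
`g v = i`; for `x ≠ v`: if `x` is reachable from `s i` in `B` then `g x = Equiv.swap i j (f x)`,
otherwise `g x = f x`.  `g` is a proper colouring of `H`, against `h.nc`:
* a vertex `x` reachable from `s i` has `f x = i` or `f x = j` and `x ≠ v` (induction on the walk,
  or look at the last edge; for `x = s i`: `f (s i) = i`, and `s i ≠ v` by `h.adj`);
* `x, y ≠ v` adjacent in `H`: both reachable: `f x ≠ f y` and `swap` is injective; both not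
  reachable: clear; `x` reachable, `y` not: `f x ∈ {i, j}`, so `g x ∈ {i, j}`; if `f y ∈ {i, j}` then
  (`f x ≠ f y`) the edge is in `B` and `y` would be reachable; so `g y = f y ∉ {i, j}`;
* the edge `v x`: `g v = i`.  If `f x = i` then `x = s i` (`hi`) is reachable and `g x = j ≠ i`; if
  `f x = j` then `x = s j` (`hj`) is not reachable, `g x = j ≠ i`; otherwise `x` is not reachable and
  `g x = f x ≠ i`.
-/

set_option autoImplicit false

namespace Pool.Agent.ALC

open Pool.Agent.ALB

private theorem kem_reach {V : Type} {H : SimpleGraph V} {r : ℕ} {v : V} {f : V → Fin r}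
    {i j : Fin r} {a x : V} (ha : a ≠ v) (hf : f a = i ∨ f a = j)
    (hx : (Bg H v f i j).Reachable a x) : x ≠ v ∧ (f x = i ∨ f x = j) := by
  obtain ⟨w⟩ := hx
  induction w with
  | nil => exact ⟨ha, hf⟩
  | cons hadj _ ih =>
    apply ih
    · exact hadj.2.2.1
    · rcases hadj.2.2.2 with h | h
      · exact Or.inr h.2
      · exact Or.inl h.2

theorem kempe {V : Type} {H : SimpleGraph V} {r : ℕ} {v : V} {f : V → Fin r} {s : Fin r → V}
    (h : KD H v f s) {i j : Fin r} (hi : Un H v f s i) (hj : Un H v f s j) (hij : i ≠ j) :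
    (Bg H v f i j).Reachable (s i) (s j) := by
  classical
  by_contra hn
  apply h.nc
  have hv : s i ≠ v := (h.adj i).ne'
  have hR : ∀ x, (Bg H v f i j).Reachable (s i) x → x ≠ v ∧ (f x = i ∨ f x = j) :=
    fun x hx => kem_reach hv (Or.inl (h.fs i)) hx
  have key : ∀ x y, (Bg H v f i j).Reachable (s i) x → y ≠ v → H.Adj x y →
      ¬ (Bg H v f i j).Reachable (s i) y → f y ≠ i ∧ f y ≠ j := by
    intro x y hx hy hxy hny
    obtain ⟨hxv, hxf⟩ := hR x hx
    have hne := h.off x y hxv hy hxy
    constructor
    · intro hfy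
      apply hny
      have hadj : (Bg H v f i j).Adj x y := by
        refine ⟨hxy, hxv, hy, ?_⟩
        rcases hxf with h1 | h1
        · exact absurd (h1.trans hfy.symm) hne
        · exact Or.inr ⟨h1, hfy⟩
      exact hx.trans hadj.reachable
    · intro hfy
      apply hny
      have hadj : (Bg H v f i j).Adj x y := by
        refine ⟨hxy, hxv, hy, ?_⟩
        rcases hxf with h1 | h1
        · exact Or.inl ⟨h1, hfy⟩
        · exact absurd (h1.trans hfy.symm) hne
      exact hx.trans hadj.reachable
  have hsw : ∀ c : Fin r, c = i ∨ c = j → Equiv.swap i j c = i ∨ Equiv.swap i j c = j := by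
    rintro c (rfl | rfl)
    · right
      exact Equiv.swap_apply_left _ _
    · left
      exact Equiv.swap_apply_right _ _
  obtain ⟨g, hg⟩ : ∃ g : V → Fin r, g = fun x => if x = v then i else
      if (Bg H v f i j).Reachable (s i) x then Equiv.swap i j (f x) else f x := ⟨_, rfl⟩
  have gv : g v = i := by
    rw [hg]
    exact if_pos rfl
  have g1 : ∀ x, (Bg H v f i j).Reachable (s i) x → g x = Equiv.swap i j (f x) := by
    intro x hx
    rw [hg]
    show (if x = v then i else _) = _
    rw [if_neg (hR x hx).1, if_pos hx]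
  have g2 : ∀ x, x ≠ v → ¬ (Bg H v f i j).Reachable (s i) x → g x = f x := by
    intro x hx hx'
    rw [hg]
    show (if x = v then i else _) = _
    rw [if_neg hx, if_neg hx']
  have hvx : ∀ x, H.Adj v x → g x ≠ i := by
    intro x hx
    have hxv : x ≠ v := hx.ne'
    by_cases hr : (Bg H v f i j).Reachable (s i) x
    · rw [g1 x hr]
      rcases (hR x hr).2 with h1 | h1
      · rw [h1, Equiv.swap_apply_left]
        exact hij.symm
      · exfalso
        apply hn
        rw [← hj x hx h1]
        exact hr
    · rw [g2 x hxv hr]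
      intro h1
      apply hr
      rw [hi x hx h1]
  have hmix : ∀ x y, x ≠ v → y ≠ v → H.Adj x y → (Bg H v f i j).Reachable (s i) x →
      g x ≠ g y := by
    intro x y hx hy hxy hr
    by_cases hr' : (Bg H v f i j).Reachable (s i) y
    · rw [g1 x hr, g1 y hr']
      intro he
      exact h.off x y hx hy hxy ((Equiv.swap i j).injective he)
    · obtain ⟨k1, k2⟩ := key x y hr hy hxy hr'
      rw [g1 x hr, g2 y hy hr']
      intro he
      rcases hsw _ (hR x hr).2 with h1 | h1
      · exact k1 (he.symm.trans h1)
      · exact k2 (he.symm.trans h1)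
  refine ⟨SimpleGraph.Coloring.mk g ?_⟩
  intro x y hxy
  by_cases hx : x = v
  · subst hx
    rw [gv]
    exact (hvx y hxy).symm
  · by_cases hy : y = v
    · subst hy
      rw [gv]
      exact hvx x hxy.symm
    · by_cases hr : (Bg H v f i j).Reachable (s i) x
      · exact hmix x y hx hy hxy hr
      · by_cases hr' : (Bg H v f i j).Reachable (s i) y
        · exact (hmix y x hy hx hxy.symm hr').symm
        · rw [g2 x hx hr, g2 y hy hr']
          exact h.off x y hx hy hxy

end Pool.Agent.ALC
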