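import Pool.Agent.ALC.Psg
import Pool.Agent.ALC.Pf
import Pool.Agent.ALC.Sing

/-!
# ALC KEXA: a vertex of degree r, some hub edges are rerouted

PROOF.  `exists_pfam h univ` gives `E`.  Terminals: `Y : Fin (r + 1) → V`, `Y 0 = v`,
`Y (i+1) = s i` (or index the terminals by `Option (Fin r)`; `crK (r+1)` is the minimum over the
drawings of `⊤` on `Fin (r+1)`).  The other vertices are the `a c`.
Every `w ∈ W` is a terminal: `w ≠ v`, `H.Adj v w`, so `w = s (f w)` by `hT`; and the only vertex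
`x ≠ v` of colour `f w` is `w` (`w` is adjacent to all other vertices, `h.off`); (*) by `sing` the
vertices on `E s(i, f w)` are `s i` and `w` only.
The sets: `E' {0, i+1} = {s(v, s i)}`; `E' {i+1, j+1} = {s(s i, a k), s(s j, a k)}` with
`k = c s(s i, s j)` if `s(s i, s j) ∈ Λ`; and `E' {i+1, j+1} = E s(i, j)` otherwise.
Disjointness: edges at `v` are only in the sets of the first kind.  An edge `s(w, a k)`, `w ∈ W`, is
in no `E s(i, j)` by (*) (`f w` would be `i` or `j`), and is in at most one set of the second kind by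
`hc`.  Sets `E s(i, j)` for different pairs are disjoint by the colours.
Terminals on `E' p` are the two ends (colours; `v` is on no `E s(i, j)`; `a k` is no terminal).
Vertices: `a k` is on `E s(i, j)` only if `f (a k)` is `i` or `j` (at most `r` pairs), and in a set of
the second kind only if `c s(s i, s j) = k` (at most `r` pairs: by `hc` every `s i` is in at most
one of them).  So it is on at most `2 r` sets, and on both of at most `4 r^2` pairs of sets; total
`≤ 4 m r^2`.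
Crossings: let `A` be the union of all `E' p`.  `A` and `Λ` are disjoint: for `e ∈ Λ`, both ends are
in `W`, `e = s(s i, s j)` is not of the form `s(w, a k)`, does not contain `v`, and is in no
`E s(i', j')` except `s(i', j') = s(i, j)`, which is not used.  So
`∑_{A × A} N + ∑_{e ∈ Λ} ∑_{f ∈ ed H} N e f ≤ D.cr`.  Apply `psg` (or `Pool.Agent.ALB.psd`).
-/

set_option autoImplicit false

namespace Pool.Agent.ALC

open Pool.Agent.ALB

/-- the sets of the drawing -/
private def KQ {V : Type} {r m : ℕ} (v : V) (s : Fin r → V) (a : Fin m → V) (Λ : Finset (Sym2 V))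
    (c : Sym2 V → Fin m) (E : Sym2 (Fin r) → Finset (Sym2 V)) (p : Sym2 (Fin (r + 1)))
    (e : Sym2 V) : Prop :=
  (∃ i : Fin r, p = s(0, i.succ) ∧ e = s(v, s i)) ∨
  (∃ i j : Fin r, i ≠ j ∧ p = s(i.succ, j.succ) ∧ s(s i, s j) ∈ Λ ∧
    e = s(s i, a (c s(s i, s j)))) ∨
  (∃ i j : Fin r, i ≠ j ∧ p = s(i.succ, j.succ) ∧ s(s i, s j) ∉ Λ ∧ e ∈ E s(i, j))

/-- the number of common vertices -/
private lemma kexA_on {V ι : Type} [Fintype V] (P : Finset ι) (On : ι → V → Prop) (X : Finset V)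
    (d : ℕ) (hd : ∀ x ∈ X, {p | p ∈ P ∧ On p x}.ncard ≤ d) (B : ι → ι → Set V)
    (hB : ∀ p ∈ P, ∀ q ∈ P, ∀ x ∈ B p q, x ∈ X ∧ On p x ∧ On q x) :
    ∑ p ∈ P, ∑ q ∈ P, (B p q).ncard ≤ X.card * d ^ 2 := by
  classical
  have h1 : ∀ x ∈ X, ∑ p ∈ P, (if On p x then 1 else 0) ≤ d := by
    intro x hx
    rw [← Finset.card_filter, ← Set.ncard_coe_finset]
    refine le_trans (le_of_eq ?_) (hd x hx)
    congr 1
    ext p
    rw [Finset.mem_coe, Finset.mem_filter]
    rfl
  calc ∑ p ∈ P, ∑ q ∈ P, (B p q).ncard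
      ≤ ∑ p ∈ P, ∑ q ∈ P, ∑ x ∈ X, (if On p x then 1 else 0) * (if On q x then 1 else 0) := by
        refine Finset.sum_le_sum fun p hp => Finset.sum_le_sum fun q hq => ?_
        have h2 : B p q ⊆ ((X.filter fun x : V => On p x ∧ On q x : Finset V) : Set V) := by
          intro x hx
          rw [Finset.mem_coe, Finset.mem_filter]
          exact ⟨(hB p hp q hq x hx).1, (hB p hp q hq x hx).2⟩
        refine (Set.ncard_le_ncard h2 (Finset.finite_toSet _)).trans ?_
        rw [Set.ncard_coe_finset, Finset.card_filter]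
        refine Finset.sum_le_sum fun x _ => ?_
        by_cases ha : On p x <;> by_cases hb : On q x <;> simp [ha, hb]
    _ = ∑ x ∈ X, (∑ p ∈ P, (if On p x then 1 else 0)) * (∑ q ∈ P, (if On q x then 1 else 0)) := by
        rw [Finset.sum_congr rfl fun p _ => Finset.sum_comm, Finset.sum_comm]
        refine Finset.sum_congr rfl fun x _ => ?_
        rw [Finset.sum_mul_sum]
    _ ≤ ∑ _x ∈ X, d ^ 2 := by
        refine Finset.sum_le_sum fun x hx => ?_
        rw [pow_two]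
        exact Nat.mul_le_mul (h1 x hx) (h1 x hx)
    _ = X.card * d ^ 2 := by
        rw [Finset.sum_const, smul_eq_mul]

theorem kexA {V : Type} [Fintype V] {H : SimpleGraph V} (D : Drw H) {r m : ℕ} {v : V}
    {f : V → Fin r} {s : Fin r → V} (h : KD H v f s) (hT : ∀ i, Un H v f s i)
    (W : Finset V) (hW : ∀ w ∈ W, ∀ x, x ≠ w → H.Adj w x) (hv : v ∉ W)
    (a : Fin m → V) (ha : Function.Injective a) (hav : ∀ k, a k ≠ v ∧ a k ∉ Set.range s)
    (hall : ∀ x, x ≠ v → x ∉ Set.range s → x ∈ Set.range a)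
    (Λ : Finset (Sym2 V)) (c : Sym2 V → Fin m)
    (hΛ : ∀ e ∈ Λ, e ∈ H.edgeSet ∧ ∀ x ∈ e, x ∈ W)
    (hc : ∀ x y z, s(x, y) ∈ Λ → s(x, z) ∈ Λ → y ≠ z → c s(x, y) ≠ c s(x, z)) :
    crK (r + 1) + ∑ e ∈ Λ, ∑ e' ∈ ed H, D.N e e' ≤ D.cr + 16 * m * r ^ 2 := by
  classical
  obtain ⟨E, hE⟩ := exists_pfam h Finset.univ (fun i _ => hT i)
  have hWs : ∀ w ∈ W, w = s (f w) := by
    intro w hw
    have hne : v ≠ w := fun h' => hv (h' ▸ hw)
    exact hT (f w) w (hW w hw v hne).symm rfl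
  have hWf : ∀ w ∈ W, ∀ x, x ≠ v → f x = f w → x = w := by
    intro w hw x hx hfx
    by_contra hne
    exact h.off w x (fun h' => hv (h' ▸ hw)) hx (hW w hw x hne) hfx.symm
  have hsinj : Function.Injective s := fun i j hij => by rw [← h.fs i, ← h.fs j, hij]
  have hsv : ∀ i, s i ≠ v := fun i => (h.adj i).ne'
  have has : ∀ k i, a k ≠ s i := fun k i h' => (hav k).2 ⟨i, h'.symm⟩
  -- vertices on a path which ends in `W`
  have hstar : ∀ i j, i ≠ j → s j ∈ W → ∀ e ∈ E s(i, j), ∀ x ∈ e, x = s i ∨ x = s j := by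
    intro i j hij hj e he x hx
    refine sing h hE (Finset.mem_univ i) (Finset.mem_univ j) hij ?_ ⟨e, he, hx⟩
    intro y hy hfy
    exact hWf (s j) hj y hy (hfy.trans (h.fs j).symm)
  have hnoak : ∀ i j i' k, i' ≠ j → s i ∈ W → s(s i, a k) ∉ E s(i', j) := by
    intro i j i' k hne hi he
    have hm := (hE.sub i' j (Finset.mem_univ _) (Finset.mem_univ _) hne _ he).2.2
    have hi' : f (s i) ∈ s(i', j) := by
      rw [← hm, Sym2.mem_map]
      exact ⟨s i, Sym2.mem_mk_left _ _, rfl⟩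
    rw [h.fs, Sym2.mem_iff] at hi'
    rcases hi' with hi' | hi'
    · subst hi'
      have he2 : s(s i, a k) ∈ E s(j, i) := by
        rw [Sym2.eq_swap (a := j)]
        exact he
      rcases hstar j i hne.symm hi _ he2 (a k) (Sym2.mem_mk_right _ _) with h1 | h1
      · exact has k j h1
      · exact has k i h1
    · subst hi'
      rcases hstar i' i hne hi _ he (a k) (Sym2.mem_mk_right _ _) with h1 | h1
      · exact has k i' h1
      · exact has k i h1
  have hΛW : ∀ x y, s(x, y) ∈ Λ → x ∈ W ∧ y ∈ W := fun x y hxy =>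
    ⟨(hΛ _ hxy).2 x (Sym2.mem_mk_left _ _), (hΛ _ hxy).2 y (Sym2.mem_mk_right _ _)⟩
  -- terminals
  obtain ⟨Y, hY0, hYs⟩ : ∃ Y : Fin (r + 1) → V, Y 0 = v ∧ ∀ i : Fin r, Y i.succ = s i :=
    ⟨Fin.cons v s, Fin.cons_zero _ _, fun i => Fin.cons_succ _ _ i⟩
  have hYr : ∀ x, x ∈ Set.range Y ↔ x = v ∨ x ∈ Set.range s := by
    intro x
    constructor
    · rintro ⟨l, rfl⟩
      rcases Fin.eq_zero_or_eq_succ l with hl | ⟨l', hl⟩
      · rw [hl, hY0]; exact Or.inl rfl
      · rw [hl, hYs]; exact Or.inr ⟨l', rfl⟩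
    · rintro (hx | ⟨l, rfl⟩)
      · exact ⟨0, hY0.trans hx.symm⟩
      · exact ⟨l.succ, hYs l⟩
  have hY : Function.Injective Y := by
    intro i j hij
    rcases Fin.eq_zero_or_eq_succ i with hi | ⟨i', hi⟩ <;>
      rcases Fin.eq_zero_or_eq_succ j with hj | ⟨j', hj⟩ <;> subst hi <;> subst hj
    · rfl
    · rw [hY0, hYs] at hij
      exact (hsv j' hij.symm).elim
    · rw [hY0, hYs] at hij
      exact (hsv i' hij).elim
    · rw [hYs, hYs] at hij
      rw [hsinj hij]
  -- the sets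
  obtain ⟨E', hE'⟩ : ∃ E' : Sym2 (Fin (r + 1)) → Finset (Sym2 V),
      ∀ p e, e ∈ E' p ↔ KQ v s a Λ c E p e :=
    ⟨fun p => Finset.univ.filter fun e => KQ v s a Λ c E p e, fun p e => by
      rw [Finset.mem_filter]
      exact ⟨fun h' => h'.2, fun h' => ⟨Finset.mem_univ _, h'⟩⟩⟩
  have hsub : ∀ p, ∀ e ∈ E' p, e ∈ H.edgeSet := by
    intro p e he
    rcases (hE' p e).1 he with ⟨i, _, rfl⟩ | ⟨i, j, hij, _, hL, rfl⟩ | ⟨i, j, hij, _, hL, he⟩
    · exact h.adj i
    · exact hW (s i) (hΛW _ _ hL).1 _ (has _ _)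
    · exact (hE.sub i j (Finset.mem_univ _) (Finset.mem_univ _) hij e he).1
  have hwalk : ∀ i j : Fin r, i ≠ j → ∃ U : H.Walk (s i) (s j),
      ∀ e ∈ U.edges, e ∈ E' s(i.succ, j.succ) := by
    intro i j hij
    by_cases hL : s(s i, s j) ∈ Λ
    · have h1 : H.Adj (s i) (a (c s(s i, s j))) := hW (s i) (hΛW _ _ hL).1 _ (has _ _)
      have h2 : H.Adj (s j) (a (c s(s i, s j))) := hW (s j) (hΛW _ _ hL).2 _ (has _ _)
      refine ⟨SimpleGraph.Walk.cons h1 (SimpleGraph.Walk.cons h2.symm SimpleGraph.Walk.nil), ?_⟩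
      intro e he
      rw [SimpleGraph.Walk.edges_cons, SimpleGraph.Walk.edges_cons, SimpleGraph.Walk.edges_nil,
        List.mem_cons, List.mem_singleton] at he
      rw [hE']
      rcases he with rfl | rfl
      · exact Or.inr (Or.inl ⟨i, j, hij, rfl, hL, rfl⟩)
      · refine Or.inr (Or.inl ⟨j, i, hij.symm, Sym2.eq_swap, ?_, ?_⟩)
        · rw [Sym2.eq_swap]; exact hL
        · rw [Sym2.eq_swap (a := s j) (b := s i)]; exact Sym2.eq_swap
    · obtain ⟨U, hU⟩ := hE.walk i j (Finset.mem_univ _) (Finset.mem_univ _) hij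
      refine ⟨U, fun e he => ?_⟩
      rw [hE']
      exact Or.inr (Or.inr ⟨i, j, hij, rfl, hL, hU e he⟩)
  have hhub : ∀ i : Fin r, s(v, s i) ∈ E' s(0, i.succ) := by
    intro i
    rw [hE']
    exact Or.inl ⟨i, rfl, rfl⟩
  have hW' : ∀ i j, (⊤ : SimpleGraph (Fin (r + 1))).Adj i j →
      ∃ U : H.Walk (Y i) (Y j), ∀ e ∈ U.edges, e ∈ E' s(i, j) := by
    intro i j hij
    have hne : i ≠ j := hij.ne
    rcases Fin.eq_zero_or_eq_succ i with hi | ⟨i', hi⟩ <;>
      rcases Fin.eq_zero_or_eq_succ j with hj | ⟨j', hj⟩ <;> subst hi <;> subst hj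
    · exact (hne rfl).elim
    · rw [hY0, hYs]
      refine ⟨SimpleGraph.Walk.cons (h.adj j') SimpleGraph.Walk.nil, fun e he => ?_⟩
      rw [SimpleGraph.Walk.edges_cons, SimpleGraph.Walk.edges_nil, List.mem_singleton] at he
      rw [he]
      exact hhub j'
    · rw [hY0, hYs]
      refine ⟨SimpleGraph.Walk.cons (h.adj i').symm SimpleGraph.Walk.nil, fun e he => ?_⟩
      rw [SimpleGraph.Walk.edges_cons, SimpleGraph.Walk.edges_nil, List.mem_singleton] at he
      rw [he, Sym2.eq_swap, Sym2.eq_swap (a := s i')]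
      exact hhub i'
    · rw [hYs, hYs]
      exact hwalk i' j' fun h' => hne (h' ▸ rfl)
  -- terminals on the sets
  have hterm : ∀ p, ∀ e ∈ E' p, ∀ l, Y l ∈ e → l ∈ p := by
    intro p e he l hl
    rcases (hE' p e).1 he with ⟨i, rfl, rfl⟩ | ⟨i, j, hij, rfl, hL, rfl⟩ | ⟨i, j, hij, rfl, hL, he⟩
    · rw [Sym2.mem_iff, ← hYs, ← hY0] at hl
      rcases hl with hl | hl
      · rw [hY hl]; exact Sym2.mem_mk_left _ _
      · rw [hY hl]; exact Sym2.mem_mk_right _ _
    · rw [Sym2.mem_iff] at hl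
      rcases hl with hl | hl
      · rw [← hYs] at hl
        rw [hY hl]; exact Sym2.mem_mk_left _ _
      · exfalso
        rcases (hYr _).1 ⟨l, hl⟩ with h1 | h1
        · exact (hav _).1 h1
        · exact (hav _).2 h1
    · obtain ⟨_, h2, h3⟩ := hE.sub i j (Finset.mem_univ _) (Finset.mem_univ _) hij e he
      rcases Fin.eq_zero_or_eq_succ l with h4 | ⟨l', h4⟩
      · rw [h4, hY0] at hl
        exact (h2 hl).elim
      · rw [h4, hYs] at hl
        have h5 : f (s l') ∈ s(i, j) := by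
          rw [← h3, Sym2.mem_map]
          exact ⟨_, hl, rfl⟩
        rw [h.fs, Sym2.mem_iff] at h5
        rw [h4, Sym2.mem_iff]
        rcases h5 with h5 | h5
        · exact Or.inl (by rw [h5])
        · exact Or.inr (by rw [h5])
  have hT' : ∀ i j, (⊤ : SimpleGraph (Fin (r + 1))).Adj i j → ∀ e ∈ E' s(i, j), ∀ x ∈ e,
      x ∈ Set.range Y → x = Y i ∨ x = Y j := by
    rintro i j hij e he x hx ⟨l, rfl⟩
    have h1 := hterm _ e he l hx
    rw [Sym2.mem_iff] at h1
    rcases h1 with h1 | h1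
    · exact Or.inl (by rw [h1])
    · exact Or.inr (by rw [h1])
  -- the sets are disjoint
  have hdis : ∀ p q, p ≠ q → ∀ e ∈ E' p, e ∉ E' q := by
    intro p q hpq e he he'
    rcases (hE' p e).1 he with ⟨i, hp, h1⟩ | ⟨i, j, hij, hp, hL, h1⟩ | ⟨i, j, hij, hp, hL, h1⟩ <;>
      rcases (hE' q e).1 he' with ⟨i', hq, h1'⟩ | ⟨i', j', hij', hq, hL', h1'⟩ |
        ⟨i', j', hij', hq, hL', h1'⟩
    · rw [h1, Sym2.eq_iff] at h1'
      rcases h1' with ⟨_, h2⟩ | ⟨h2, _⟩
      · exact hpq (by rw [hp, hq, hsinj h2])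
      · exact hsv i' h2.symm
    · rw [h1, Sym2.eq_iff] at h1'
      rcases h1' with ⟨h2, _⟩ | ⟨h2, _⟩
      · exact hsv i' h2.symm
      · exact (hav _).1 h2.symm
    · refine (hE.sub i' j' (Finset.mem_univ _) (Finset.mem_univ _) hij' e h1').2.1 ?_
      rw [h1]
      exact Sym2.mem_mk_left _ _
    · rw [h1', Sym2.eq_iff] at h1
      rcases h1 with ⟨h2, _⟩ | ⟨h2, _⟩
      · exact hsv i h2.symm
      · exact (hav _).1 h2.symm
    · rw [h1, Sym2.eq_iff] at h1'
      rcases h1' with ⟨h2, h3⟩ | ⟨h2, _⟩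
      · have hii := hsinj h2
        subst hii
        have hk := ha h3
        by_cases hjj : j = j'
        · subst hjj
          exact hpq (hp.trans hq.symm)
        · exact hc (s i) (s j) (s j') hL hL' (fun h' => hjj (hsinj h')) hk
      · exact has _ _ h2.symm
    · rw [h1] at h1'
      exact hnoak i j' i' _ hij' (hΛW _ _ hL).1 h1'
    · refine (hE.sub i j (Finset.mem_univ _) (Finset.mem_univ _) hij e h1).2.1 ?_
      rw [h1']
      exact Sym2.mem_mk_left _ _
    · rw [h1'] at h1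
      exact hnoak i' j i _ hij (hΛW _ _ hL').1 h1
    · have h2 := (hE.sub i j (Finset.mem_univ _) (Finset.mem_univ _) hij e h1).2.2
      have h3 := (hE.sub i' j' (Finset.mem_univ _) (Finset.mem_univ _) hij' e h1').2.2
      rw [h2] at h3
      apply hpq
      have h4 : Sym2.map Fin.succ s(i, j) = Sym2.map Fin.succ s(i', j') := by rw [h3]
      rw [Sym2.map_mk, Sym2.map_mk] at h4
      rw [hp, hq]
      exact h4
  obtain ⟨D', hD'⟩ := psg D (⊤ : SimpleGraph (Fin (r + 1))) Y hY E' (fun p _ e he => hsub p e he)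
    hW' hT' (fun p _ q _ hpq e he => hdis p q hpq e he)
  have hcr : crK (r + 1) ≤ D'.cr := Nat.sInf_le ⟨D', rfl⟩
  -- vertices
  have hcount : ∑ p ∈ ed (⊤ : SimpleGraph (Fin (r + 1))), ∑ q ∈ ed (⊤ : SimpleGraph (Fin (r + 1))),
      {x : V | x ∉ Set.range Y ∧ (∃ e ∈ E' p, x ∈ e) ∧ (∃ f ∈ E' q, x ∈ f)}.ncard ≤
        (Finset.univ.image a).card * (2 * r) ^ 2 := by
    refine kexA_on _ (fun p x => ∃ e ∈ E' p, x ∈ e) _ (2 * r) ?_ _ ?_
    · intro x hx
      obtain ⟨k, _, rfl⟩ := Finset.mem_image.1 hx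
      have hg : ∀ i : Fin r, ∃ q : Sym2 (Fin (r + 1)), ∀ j, s(s i, s j) ∈ Λ →
          c s(s i, s j) = k → s(i.succ, j.succ) = q := by
        intro i
        by_cases hex : ∃ j, s(s i, s j) ∈ Λ ∧ c s(s i, s j) = k
        · obtain ⟨j₀, h1, h2⟩ := hex
          refine ⟨s(i.succ, j₀.succ), fun j h3 h4 => ?_⟩
          by_cases hjj : j = j₀
          · rw [hjj]
          · exact (hc (s i) (s j) (s j₀) h3 h1 (fun h' => hjj (hsinj h')) (h4.trans h2.symm)).elim
        · exact ⟨s(0, 0), fun j h3 h4 => (hex ⟨j, h3, h4⟩).elim⟩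
      choose g hg using hg
      have hsub2 : {p | p ∈ ed (⊤ : SimpleGraph (Fin (r + 1))) ∧ ∃ e ∈ E' p, a k ∈ e} ⊆
          ((Finset.univ.image g ∪
            Finset.univ.image (fun j : Fin r => s((f (a k)).succ, j.succ)) :
              Finset (Sym2 (Fin (r + 1)))) : Set (Sym2 (Fin (r + 1)))) := by
        rintro p ⟨_, e, he, hx⟩
        rw [Finset.mem_coe, Finset.mem_union, Finset.mem_image, Finset.mem_image]
        rcases (hE' p e).1 he with ⟨i, hp, h1⟩ | ⟨i, j, hij, hp, hL, h1⟩ | ⟨i, j, hij, hp, hL, h1⟩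
        · exfalso
          rw [h1, Sym2.mem_iff] at hx
          rcases hx with hx | hx
          · exact (hav k).1 hx
          · exact has k i hx
        · left
          rw [h1, Sym2.mem_iff] at hx
          rcases hx with hx | hx
          · exact (has k i hx).elim
          · exact ⟨i, Finset.mem_univ _, by rw [hp, hg i j hL (ha hx).symm]⟩
        · right
          have h2 := (hE.sub i j (Finset.mem_univ _) (Finset.mem_univ _) hij e h1).2.2
          have h3 : f (a k) ∈ s(i, j) := by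
            rw [← h2, Sym2.mem_map]
            exact ⟨_, hx, rfl⟩
          rw [Sym2.mem_iff] at h3
          rcases h3 with h3 | h3
          · exact ⟨j, Finset.mem_univ _, by rw [hp, h3]⟩
          · exact ⟨i, Finset.mem_univ _, by rw [hp, h3]; exact Sym2.eq_swap⟩
      refine (Set.ncard_le_ncard hsub2 (Finset.finite_toSet _)).trans ?_
      rw [Set.ncard_coe_finset]
      refine (Finset.card_union_le _ _).trans ?_
      have h1 : (Finset.univ.image g).card ≤ r :=
        Finset.card_image_le.trans (by rw [Finset.card_univ, Fintype.card_fin])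
      have h2 : (Finset.univ.image (fun j : Fin r => s((f (a k)).succ, j.succ))).card ≤ r :=
        Finset.card_image_le.trans (by rw [Finset.card_univ, Fintype.card_fin])
      omega
    · rintro p _ q _ x ⟨h1, h2, h3⟩
      refine ⟨?_, h2, h3⟩
      rw [hYr] at h1
      obtain ⟨k, hk⟩ := hall x (fun h' => h1 (Or.inl h')) (fun h' => h1 (Or.inr h'))
      exact Finset.mem_image.2 ⟨k, Finset.mem_univ _, hk⟩
  have hcard : (Finset.univ.image a).card ≤ m :=
    Finset.card_image_le.trans (by rw [Finset.card_univ, Fintype.card_fin])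
  have hcount' : (Finset.univ.image a).card * (2 * r) ^ 2 ≤ 16 * m * r ^ 2 := by
    calc (Finset.univ.image a).card * (2 * r) ^ 2 ≤ m * (2 * r) ^ 2 := Nat.mul_le_mul_right _ hcard
      _ ≤ 16 * m * r ^ 2 := by nlinarith [Nat.zero_le (m * r ^ 2)]
  -- crossings
  have hpd : Set.PairwiseDisjoint (↑(ed (⊤ : SimpleGraph (Fin (r + 1)))) : Set (Sym2 (Fin (r + 1)))) E' := by
    intro p hp q hq hpq
    rw [Function.onFun, Finset.disjoint_left]
    exact fun e he => hdis p q hpq e he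
  have hA : ∑ p ∈ ed (⊤ : SimpleGraph (Fin (r + 1))), ∑ q ∈ ed (⊤ : SimpleGraph (Fin (r + 1))),
      ∑ e ∈ E' p, ∑ e' ∈ E' q, D.N e e' =
      ∑ e ∈ (ed (⊤ : SimpleGraph (Fin (r + 1)))).biUnion E',
        ∑ e' ∈ (ed (⊤ : SimpleGraph (Fin (r + 1)))).biUnion E', D.N e e' := by
    rw [Finset.sum_biUnion hpd]
    refine Finset.sum_congr rfl fun p _ => ?_
    rw [Finset.sum_comm]
    refine Finset.sum_congr rfl fun e _ => ?_
    rw [Finset.sum_biUnion hpd]
  have hAsub : (ed (⊤ : SimpleGraph (Fin (r + 1)))).biUnion E' ⊆ ed H := by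
    intro e he
    obtain ⟨p, _, he⟩ := Finset.mem_biUnion.1 he
    exact mem_ed.2 (hsub p e he)
  have hΛsub : Λ ⊆ ed H := fun e he => mem_ed.2 (hΛ e he).1
  have hdj : Disjoint ((ed (⊤ : SimpleGraph (Fin (r + 1)))).biUnion E') Λ := by
    rw [Finset.disjoint_left]
    intro e he heΛ
    obtain ⟨p, _, he⟩ := Finset.mem_biUnion.1 he
    rcases (hE' p e).1 he with ⟨i, hp, h1⟩ | ⟨i, j, hij, hp, hL, h1⟩ | ⟨i, j, hij, hp, hL, h1⟩
    · exact hv ((hΛ e heΛ).2 v (by rw [h1]; exact Sym2.mem_mk_left _ _))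
    · have h2 := hWs _ ((hΛ e heΛ).2 (a (c s(s i, s j))) (by rw [h1]; exact Sym2.mem_mk_right _ _))
      exact has _ _ h2
    · have h2 := (hE.sub i j (Finset.mem_univ _) (Finset.mem_univ _) hij e h1).2.2
      apply hL
      have h3 := (hΛ e heΛ).2
      have h4 : e = s(s i, s j) := by
        induction e using Sym2.ind with
        | _ x y =>
          have hx := hWs x (h3 x (Sym2.mem_mk_left _ _))
          have hy := hWs y (h3 y (Sym2.mem_mk_right _ _))
          rw [Sym2.map_mk, Sym2.eq_iff] at h2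
          rcases h2 with ⟨h5, h6⟩ | ⟨h5, h6⟩
          · rw [hx, hy, h5, h6]
          · rw [hx, hy, h5, h6]
            exact Sym2.eq_swap
      rw [← h4]
      exact heΛ
  have hsum : ∑ e ∈ (ed (⊤ : SimpleGraph (Fin (r + 1)))).biUnion E',
      ∑ e' ∈ (ed (⊤ : SimpleGraph (Fin (r + 1)))).biUnion E', D.N e e' +
        ∑ e ∈ Λ, ∑ e' ∈ ed H, D.N e e' ≤ D.cr := by
    calc _ ≤ ∑ e ∈ (ed (⊤ : SimpleGraph (Fin (r + 1)))).biUnion E', ∑ e' ∈ ed H, D.N e e' +
          ∑ e ∈ Λ, ∑ e' ∈ ed H, D.N e e' :=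
          Nat.add_le_add_right (Finset.sum_le_sum fun e _ => Finset.sum_le_sum_of_subset hAsub) _
      _ = ∑ e ∈ (ed (⊤ : SimpleGraph (Fin (r + 1)))).biUnion E' ∪ Λ, ∑ e' ∈ ed H, D.N e e' :=
          (Finset.sum_union hdj).symm
      _ ≤ ∑ e ∈ ed H, ∑ e' ∈ ed H, D.N e e' :=
          Finset.sum_le_sum_of_subset (Finset.union_subset hAsub hΛsub)
      _ = D.cr := rfl
  have hsplit : ∑ p ∈ ed (⊤ : SimpleGraph (Fin (r + 1))), ∑ q ∈ ed (⊤ : SimpleGraph (Fin (r + 1))),
      ((∑ e ∈ E' p, ∑ f ∈ E' q, D.N e f) +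
      {x : V | x ∉ Set.range Y ∧ (∃ e ∈ E' p, x ∈ e) ∧ (∃ f ∈ E' q, x ∈ f)}.ncard) =
      ∑ p ∈ ed (⊤ : SimpleGraph (Fin (r + 1))), ∑ q ∈ ed (⊤ : SimpleGraph (Fin (r + 1))),
        ∑ e ∈ E' p, ∑ f ∈ E' q, D.N e f +
        ∑ p ∈ ed (⊤ : SimpleGraph (Fin (r + 1))), ∑ q ∈ ed (⊤ : SimpleGraph (Fin (r + 1))),
          {x : V | x ∉ Set.range Y ∧ (∃ e ∈ E' p, x ∈ e) ∧ (∃ f ∈ E' q, x ∈ f)}.ncard := by
    rw [← Finset.sum_add_distrib]
    exact Finset.sum_congr rfl fun p _ => Finset.sum_add_distrib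
  rw [hsplit, hA] at hD'
  omega

end Pool.Agent.ALC
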