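import Pool.Agent.ALC.KexA
import Pool.Agent.ALB.Clique

/-!
# ALC KEXB: a vertex of degree r, averaging over the rerouted classes

PROOF.  `p = #W`.  If `p = 0` the claim is `m * crK 0 ≤ 0` and `m ≤ 0`.  Let `p > 0`.
The set `{x | x ≠ v, x ∉ range s}` has `card V - 1 - r = m` elements (`s` is injective, `v` is not in
its range): enumerate it by `a : Fin m → V`.  Enumerate `W` by `y : Fin p → V` (`W.equivFin`), and let
`ix : V → Fin p` be an inverse (`ix (y i) = i`).  For `t : Fin p` (or `t < p`) let
`k_t(e) = (ix x + ix x' + t) % p` for `e = s(x, x')` (symmetric, so defined on `Sym2` by `Sym2.lift`),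
`Λ_t` the set of the edges `e` with both ends in `W` and `k_t(e) < m`, and `c_t(e) : Fin m` the number
`k_t(e)` for `e ∈ Λ_t` (if `m = 0` then `Λ_t = ∅`, and `kexA` needs a map to `Fin 0`; treat
`m = 0` separately: then `V` is `{v} ∪ range s` and `card V = r + 1`; the claim is
`p * crK (r+1) ≤ p * D.cr`, all vertices have degree `r` by not being `r`-colourable, so
`crK_le_cr_of_clique` applies: if `x, x'` were different and not adjacent, giving them the same colour
and all others different colours would be an `r`-colouring).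
`hc`: for fixed `x, t` the map `x' ↦ k_t(s(x, x'))` is injective on `W`.
Sum the inequality of `kexA` over `t`: every edge `e` inside `W` is in `Λ_t` for exactly `m` values of
`t` (`m ≤ p`), so
`∑_t ∑_{e ∈ Λ_t} ∑_{e' ∈ ed H} N e e' = m ∑_{e ⊆ W} ∑_{e' ∈ ed H} N e e' ≥ m * crK p`, the last step
by `crK_le_of_clique` with `Y = y` (the edges `q.map y` are different edges of `H` inside `W`).
-/

set_option autoImplicit false

namespace Pool.Agent.ALC

open Pool.Agent.ALB

/-- a graph with `r + 1` vertices which is not `r`-colourable is complete -/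
theorem adj_of_card_succ {V : Type} [Fintype V] {H : SimpleGraph V} {r : ℕ}
    (hnc : ¬ H.Colorable r) (hn : Fintype.card V = r + 1) (x y : V) (hxy : x ≠ y) : H.Adj x y := by
  classical
  by_contra hcon
  refine hnc ?_
  have hcard : Fintype.card {z : V // z ≠ y} = r := by
    have := Fintype.card_subtype_compl (fun z : V => z = y)
    simp only [Fintype.card_subtype_eq, hn, Nat.add_sub_cancel] at this
    exact this
  have C : H.Coloring {z : V // z ≠ y} := SimpleGraph.Coloring.mk
    (fun z => if h : z = y then ⟨x, hxy⟩ else ⟨z, h⟩) (by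
      intro u w huw heq
      by_cases hu : u = y
      · by_cases hw : w = y
        · exact huw.ne (hu.trans hw.symm)
        · simp only [dif_pos hu, dif_neg hw, Subtype.mk.injEq] at heq
          subst hu
          subst heq
          exact hcon huw.symm
      · by_cases hw : w = y
        · simp only [dif_neg hu, dif_pos hw, Subtype.mk.injEq] at heq
          subst hw
          subst heq
          exact hcon huw
        · simp only [dif_neg hu, dif_neg hw, Subtype.mk.injEq] at heq
          exact huw.ne heq)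
  rw [← hcard]
  exact C.colorable

/-- the claim for a graph with `r + 1` vertices -/
theorem crK_le_of_card_succ {V : Type} [Fintype V] {H : SimpleGraph V} (D : Drw H) {r : ℕ}
    (hnc : ¬ H.Colorable r) (hn : Fintype.card V = r + 1) : crK (r + 1) ≤ D.cr := by
  have e := Fintype.equivFinOfCardEq hn
  exact crK_le_cr_of_clique D e.symm e.symm.injective
    (fun i j hij => adj_of_card_succ hnc hn _ _ fun h => hij (e.symm.injective h))

/-- at least `m` values of `t < p` satisfy `(A + t) % p < m` -/
theorem kexB_count {A p m : ℕ} (hp : 0 < p) (hm : m ≤ p) :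
    m ≤ ((Finset.range p).filter fun t => (A + t) % p < m).card := by
  have key : ∀ j < m, (A + (j + (p - A % p)) % p) % p = j := by
    intro j hj
    have hA : A % p < p := Nat.mod_lt _ hp
    rw [Nat.add_mod_mod, ← Nat.mod_add_mod]
    have h3 : A % p + (j + (p - A % p)) = j + p := by omega
    rw [h3, Nat.add_mod_right, Nat.mod_eq_of_lt (hj.trans_le hm)]
  have h : (Finset.range m).card ≤ ((Finset.range p).filter fun t => (A + t) % p < m).card := by
    refine Finset.card_le_card_of_surjOn (fun t => (A + t) % p) ?_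
    intro j hj
    rw [Finset.mem_coe, Finset.mem_range] at hj
    refine ⟨(j + (p - A % p)) % p, ?_, key j hj⟩
    rw [Finset.mem_coe, Finset.mem_filter, Finset.mem_range]
    exact ⟨Nat.mod_lt _ hp, by rw [key j hj]; exact hj⟩
  rwa [Finset.card_range] at h

theorem kexB {V : Type} [Fintype V] {H : SimpleGraph V} (D : Drw H) {r m : ℕ} {v : V}
    {f : V → Fin r} {s : Fin r → V} (h : KD H v f s) (hT : ∀ i, Un H v f s i)
    (hn : Fintype.card V = r + 1 + m)
    (W : Finset V) (hW : ∀ w ∈ W, ∀ x, x ≠ w → H.Adj w x) (hv : v ∉ W) (hm : m ≤ W.card) :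
    W.card * crK (r + 1) + m * crK W.card ≤ W.card * (D.cr + 16 * m * r ^ 2) := by
  classical
  rcases Nat.eq_zero_or_pos W.card with hp0 | hp0
  · rw [hp0] at hm ⊢
    rw [Nat.le_zero.1 hm]
    simp
  rcases Nat.eq_zero_or_pos m with hm0 | hm0
  · subst hm0
    have := crK_le_of_card_succ D h.nc (by rw [hn, add_zero])
    rw [zero_mul, mul_zero, zero_mul, add_zero, add_zero]
    exact Nat.mul_le_mul_left _ this
  obtain ⟨p, hp⟩ : ∃ p, p = W.card := ⟨_, rfl⟩
  rw [← hp] at hm hp0 ⊢
  -- enumeration of the other vertices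
  obtain ⟨X, hX⟩ : ∃ X : Finset V, X = Finset.univ.filter fun x => x ≠ v ∧ x ∉ Set.range s :=
    ⟨_, rfl⟩
  have hsinj : Function.Injective s := by
    intro i j hij
    rw [← h.fs i, ← h.fs j, hij]
  have hXc : X.card = m := by
    have h1 : X = Finset.univ \ insert v (Finset.univ.image s) := by
      rw [hX]
      ext x
      simp only [Finset.mem_filter, Finset.mem_univ, true_and, Finset.mem_sdiff,
        Finset.mem_insert, Finset.mem_image, Set.mem_range, not_or]
    have h2 : v ∉ Finset.univ.image s := by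
      intro hv'
      obtain ⟨i, -, hi⟩ := Finset.mem_image.1 hv'
      have := h.adj i
      rw [hi] at this
      exact this.ne rfl
    rw [h1, Finset.card_sdiff_of_subset (Finset.subset_univ _), Finset.card_insert_of_notMem h2,
      Finset.card_image_of_injective _ hsinj, Finset.card_univ, Finset.card_univ,
      Fintype.card_fin, hn]
    omega
  obtain ⟨a, ha, hav, hall⟩ : ∃ a : Fin m → V, Function.Injective a ∧
      (∀ k, a k ≠ v ∧ a k ∉ Set.range s) ∧
      ∀ x, x ≠ v → x ∉ Set.range s → x ∈ Set.range a := by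
    have e := Finset.equivFinOfCardEq hXc
    refine ⟨fun k => (e.symm k : V), fun i j hij => e.symm.injective (Subtype.ext hij),
      fun k => ?_, fun x hx hx' => ?_⟩
    · have hk : (e.symm k : V) ∈ Finset.univ.filter fun x => x ≠ v ∧ x ∉ Set.range s :=
        hX ▸ (e.symm k).2
      exact (Finset.mem_filter.1 hk).2
    · have hxX : x ∈ X := by
        rw [hX]
        exact Finset.mem_filter.2 ⟨Finset.mem_univ _, hx, hx'⟩
      exact ⟨e ⟨x, hxX⟩, by simp⟩
  -- enumeration of `W`
  obtain ⟨y, hy, hyW, ix, hix, hixp⟩ : ∃ y : Fin p → V, Function.Injective y ∧ (∀ i, y i ∈ W) ∧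
      ∃ ix : V → ℕ, (∀ x ∈ W, ∀ x' ∈ W, ix x = ix x' → x = x') ∧ ∀ x ∈ W, ix x < p := by
    have e := Finset.equivFinOfCardEq hp.symm
    refine ⟨fun k => (e.symm k : V), fun i j hij => e.symm.injective (Subtype.ext hij),
      fun k => (e.symm k).2, fun x => if hx : x ∈ W then (e ⟨x, hx⟩ : ℕ) else 0, ?_, ?_⟩
    · intro x hx x' hx' hxx
      simp only [dif_pos hx, dif_pos hx'] at hxx
      have := e.injective (Fin.ext hxx)
      exact congrArg Subtype.val this
    · intro x hx
      simp only [dif_pos hx]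
      exact (e ⟨x, hx⟩).2
  -- the classes
  obtain ⟨A, hA⟩ : ∃ A : Sym2 V → ℕ, ∀ x x', A s(x, x') = ix x + ix x' :=
    ⟨Sym2.lift ⟨fun x x' => ix x + ix x', fun x x' => add_comm _ _⟩, fun x x' => rfl⟩
  obtain ⟨EW, hEW⟩ : ∃ EW : Finset (Sym2 V), EW = (ed H).filter fun e => ∀ x ∈ e, x ∈ W :=
    ⟨_, rfl⟩
  obtain ⟨S, hS⟩ : ∃ S : Sym2 V → ℕ, ∀ e, S e = ∑ e' ∈ ed H, D.N e e' := ⟨_, fun _ => rfl⟩
  have key : ∀ t : ℕ, crK (r + 1) + ∑ e ∈ EW.filter (fun e => (A e + t) % p < m), S e ≤
      D.cr + 16 * m * r ^ 2 := by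
    intro t
    have := kexA D h hT W hW hv a ha hav hall (EW.filter (fun e => (A e + t) % p < m))
      (fun e => if he : (A e + t) % p < m then ⟨(A e + t) % p, he⟩ else ⟨0, hm0⟩) ?_ ?_
    · simpa only [hS] using this
    · intro e he
      have he1 := (Finset.mem_filter.1 he).1
      rw [hEW] at he1
      exact ⟨mem_ed.1 (Finset.mem_filter.1 he1).1, (Finset.mem_filter.1 he1).2⟩
    · intro x u z hu hz huz heq
      have hu2 := (Finset.mem_filter.1 hu).2
      have hz2 := (Finset.mem_filter.1 hz).2
      have hu1 := (Finset.mem_filter.1 hu).1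
      have hz1 := (Finset.mem_filter.1 hz).1
      rw [hEW] at hu1 hz1
      have huW : u ∈ W := (Finset.mem_filter.1 hu1).2 u (Sym2.mem_mk_right x u)
      have hzW : z ∈ W := (Finset.mem_filter.1 hz1).2 z (Sym2.mem_mk_right x z)
      simp only [dif_pos hu2, dif_pos hz2, Fin.mk.injEq] at heq
      rw [hA, hA] at heq
      have h1 : (ix x + t) + ix u ≡ (ix x + t) + ix z [MOD p] := by
        unfold Nat.ModEq
        rw [show ix x + t + ix u = ix x + ix u + t by omega,
          show ix x + t + ix z = ix x + ix z + t by omega]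
        exact heq
      have h2 : ix u ≡ ix z [MOD p] := Nat.ModEq.add_left_cancel' _ h1
      exact huz (hix u huW z hzW (Nat.ModEq.eq_of_lt_of_lt h2 (hixp u huW) (hixp z hzW)))
  have hsum := Finset.sum_le_sum fun t (_ : t ∈ Finset.range p) => key t
  rw [Finset.sum_const, Finset.card_range, smul_eq_mul, Finset.sum_add_distrib, Finset.sum_const,
    Finset.card_range, smul_eq_mul] at hsum
  refine le_trans (Nat.add_le_add_left ?_ _) hsum
  have hswap : ∑ t ∈ Finset.range p, ∑ e ∈ EW.filter (fun e => (A e + t) % p < m), S e =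
      ∑ e ∈ EW, ((Finset.range p).filter fun t => (A e + t) % p < m).card * S e := by
    simp_rw [Finset.sum_filter]
    rw [Finset.sum_comm]
    refine Finset.sum_congr rfl fun e _ => ?_
    rw [← Finset.sum_filter, Finset.sum_const, smul_eq_mul]
  rw [hswap]
  have h3 : m * ∑ e ∈ EW, S e ≤
      ∑ e ∈ EW, ((Finset.range p).filter fun t => (A e + t) % p < m).card * S e := by
    rw [Finset.mul_sum]
    exact Finset.sum_le_sum fun e _ => Nat.mul_le_mul_right _ (kexB_count hp0 hm)
  refine le_trans (Nat.mul_le_mul_left m ?_) h3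
  -- `crK p ≤ ∑ e ∈ EW, S e`
  have hyA : ∀ i j, i ≠ j → H.Adj (y i) (y j) := fun i j hij =>
    hW _ (hyW i) _ fun h' => hij (hy h').symm
  have hinj : Function.Injective (Sym2.map y) := Sym2.map.injective hy
  have hmapEW : ∀ q ∈ (⊤ : SimpleGraph (Fin p)).edgeSet, q.map y ∈ EW := by
    intro q hq
    induction q using Sym2.ind with
    | _ i j =>
      rw [hEW]
      refine Finset.mem_filter.2 ⟨mem_ed.2 (hyA i j hq), fun x hx => ?_⟩
      rw [Sym2.map_mk, Sym2.mem_iff] at hx
      rcases hx with rfl | rfl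
      · exact hyW i
      · exact hyW j
  have hgen : ∀ (F : Finset (Sym2 V)) (g : Sym2 V → ℕ),
      (∀ q ∈ (⊤ : SimpleGraph (Fin p)).edgeSet, q.map y ∈ F) →
      ∑ q ∈ ed (⊤ : SimpleGraph (Fin p)), g (q.map y) ≤ ∑ e ∈ F, g e := by
    intro F g hF
    rw [← Finset.sum_image (f := g) (g := Sym2.map y) fun a _ b _ h => hinj h]
    refine Finset.sum_le_sum_of_subset fun e he => ?_
    obtain ⟨q, hq, rfl⟩ := Finset.mem_image.1 he
    exact hF q (mem_ed.1 hq)
  refine (crK_le_of_clique D y hy hyA).trans ?_
  refine le_trans (Finset.sum_le_sum fun q _ => hgen (ed H) (fun e => D.N (q.map y) e) ?_) ?_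
  · intro q' hq'
    have := hmapEW q' hq'
    rw [hEW] at this
    exact (Finset.mem_filter.1 this).1
  · refine le_trans (hgen EW (fun e => ∑ e' ∈ ed H, D.N e e') hmapEW) ?_
    exact Finset.sum_le_sum fun e _ => (hS e).ge

end Pool.Agent.ALC
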