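import Pool.Agent.ALC.Core
import Pool.Agent.ALB.Str
import Pool.Agent.ALB.FrzIn
import Pool.Agent.ALB.FrzOut

/-! # ALC: main theorem in the form of the frozen statement -/

set_option autoImplicit false

namespace Pool.Agent.ALC

open Pool.Agent.ALB

/-- **Albertson's conjecture** for graphs all of whose `t`-chromatic induced subgraphs have a
vertex of degree at most `(1+ε)t`, in the form of the frozen statement. -/
theorem main : ∃ ε : ℝ, 0 < ε ∧ ∃ t₀ : ℕ, ∀ (n : ℕ) (G : SimpleGraph (Fin n)) (t : ℕ), t₀ ≤ t →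
    (∀ A : Finset (Fin n),
      ¬ (G.comap (Subtype.val : {x // x ∈ A} → Fin n)).Colorable (t - 1) → ∃ v ∈ A,
      ({x | x ∈ A ∧ G.Adj v x}.ncard : ℝ) ≤ (1 + ε) * (t : ℝ)) →
    (t : ℕ∞) ≤ G.chromaticNumber →
      ∀ (pos : Fin n → ℝ × ℝ) (γ : ∀ u v : Fin n, Path (pos u) (pos v)), IsFrz G pos γ →
        ∃ (pos' : Fin t → ℝ × ℝ) (γ' : ∀ u v : Fin t, Path (pos' u) (pos' v)),
          IsFrz (⊤ : SimpleGraph (Fin t)) pos' γ' ∧
          (XS (⊤ : SimpleGraph (Fin t)) pos' γ').ncard ≤ (XS G pos γ).ncard := by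
  obtain ⟨ε, hε, k0, h0⟩ := core
  refine ⟨ε, hε, max k0 1, ?_⟩
  intro n G t ht hG hχ pos γ hf
  have ht1 : 1 ≤ t := le_trans (le_max_right _ _) ht
  obtain ⟨D, hD⟩ := frz_in hf
  have hcol : ¬ G.Colorable (t - 1) := by
    intro hc
    have h := hc.chromaticNumber_le
    have h2 : (t : ℕ∞) ≤ ((t - 1 : ℕ) : ℕ∞) := le_trans hχ h
    have h3 : t ≤ t - 1 := by exact_mod_cast h2
    omega
  have hle := h0 n G t (le_trans (le_max_left _ _) ht) hG hcol D
  obtain ⟨D', hD'⟩ := exists_opt t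
  obtain ⟨pos', γ', hfz, hcr⟩ := frz_out D'
  exact ⟨pos', γ', hfz, by rw [hcr, hD', ← hD]; exact hle⟩

end Pool.Agent.ALC
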