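import Pool.Agent.ALC.Md1

/-!
# ALC MD: Mader theorem on subdivisions of complete graphs

PROOF.  `b_m = 2^m (a + 1)`.  By induction on `m`: for every nonempty `S` with
`b_m #S ≤ ein G S` there are a graph `X` on `Fin a` with at least `m` edges, or `X = ⊤`, and
`Y, I` with `TM G X S Y I`.
`m = 0`: `ein G S ≤ #S^2` (an edge inside `S` is `s(x, y)` with `x, y ∈ S`), so `#S ≥ a + 1 ≥ a`; take an
injection `Y : Fin a → S`, `X = ⊥`, `I = ∅`.
`m → m + 1`: `mad_step` with `b = b_(m+1)` gives `U, N`; `b_(m+1) #N ≤ 2 ein G N`, i.e.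
`b_m #N ≤ ein G N`, and the induction hypothesis gives `X, Y, I` inside `N`.  If `X = ⊤` or `X` has at
least `m + 1` edges, done (`TM` inside `N` is `TM` inside `S`).  Otherwise there are `i ≠ j`, not
adjacent in `X`; let `X' = X ⊔ edge i j` (`SimpleGraph.edge`), one more edge, `I' s(i,j) = U` and
`I' = I` otherwise; `U` is disjoint from `N` which contains everything else; the walk is given by
`mad_step` for `x = Y i`, `y = Y j` (for the order `j, i` reverse it).
With `m = a * a` (more than the number of edges of `K_a`; if `X` had at least `m` edges then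
`a = 0`, and `X = ⊤` as well) we get `X = ⊤`; `B = b_m`.
-/

set_option autoImplicit false

namespace Pool.Agent.ALC



private theorem TM.mono {V : Type} {G : SimpleGraph V} {a : ℕ} {X : SimpleGraph (Fin a)}
    {N S : Finset V} {Y : Fin a → V} {I : Sym2 (Fin a) → Finset V} (h : TM G X N Y I)
    (hNS : N ⊆ S) : TM G X S Y I :=
  ⟨h.inj, fun i => hNS (h.mem i), fun p hp => (h.sub p hp).trans hNS, h.term, h.disj, h.walk⟩

private theorem ein_le_sq {V : Type} (G : SimpleGraph V) (S : Finset V) :
    ein G S ≤ S.card * S.card := by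
  classical
  unfold ein
  have h1 : {e | e ∈ G.edgeSet ∧ ∀ x ∈ e, x ∈ S} ⊆
      (((S ×ˢ S).image fun q : V × V => s(q.1, q.2) : Finset (Sym2 V)) : Set (Sym2 V)) := by
    intro e he
    obtain ⟨-, he⟩ := he
    induction e with
    | h x y =>
      rw [Finset.mem_coe, Finset.mem_image]
      exact ⟨(x, y), Finset.mem_product.2 ⟨he x (Sym2.mem_mk_left x y),
        he y (Sym2.mem_mk_right x y)⟩, rfl⟩
  refine (Set.ncard_le_ncard h1 (Finset.finite_toSet _)).trans ?_
  rw [Set.ncard_coe_finset]
  refine Finset.card_image_le.trans ?_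
  rw [Finset.card_product]

private theorem mader_aux (a : ℕ) : ∀ m : ℕ, ∀ (V : Type) (_ : Fintype V) (G : SimpleGraph V)
    (S : Finset V), S.Nonempty → 2 ^ m * (a + 1) * S.card ≤ ein G S →
      ∃ X : SimpleGraph (Fin a), (m ≤ X.edgeSet.ncard ∨ X = ⊤) ∧
        ∃ (Y : Fin a → V) (I : Sym2 (Fin a) → Finset V), TM G X S Y I := by
  classical
  intro m
  induction m with
  | zero =>
    intro V iV G S hS h
    have h1 := h.trans (ein_le_sq G S)
    rw [pow_zero, one_mul] at h1
    have h2 : a + 1 ≤ S.card := Nat.le_of_mul_le_mul_right h1 hS.card_pos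
    let f : Fin a ↪ {x // x ∈ S} :=
      (Fin.castLEEmb (Nat.le_of_succ_le h2)).trans S.equivFin.symm.toEmbedding
    refine ⟨⊥, Or.inl (Nat.zero_le _), fun i => (f i : V), fun _ => ∅, ?_⟩
    refine ⟨?_, fun i => (f i).2, ?_, ?_, ?_, ?_⟩
    · intro i j hij
      exact f.injective (Subtype.ext hij)
    · intro p hp
      simp at hp
    · intro p hp
      simp at hp
    · intro p hp
      simp at hp
    · intro i j hij
      simp at hij
  | succ m ih =>
    intro V iV G S hS h
    have hb : 0 < 2 ^ (m + 1) * (a + 1) := by positivity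
    obtain ⟨U, N, hU, hN, hUN, hNne, hcard, hwalk⟩ := mad_step G hb S hS h
    have h1 : 2 ^ m * (a + 1) * N.card ≤ ein G N := by
      have : 2 ^ (m + 1) * (a + 1) * N.card = 2 * (2 ^ m * (a + 1) * N.card) := by ring
      omega
    obtain ⟨X, hX, Y, I, hT⟩ := ih V iV G N hNne h1
    by_cases htop : X = ⊤
    · exact ⟨X, Or.inr htop, Y, I, hT.mono hN⟩
    have hm : m ≤ X.edgeSet.ncard := hX.resolve_right htop
    have hex : ∃ i j, i ≠ j ∧ ¬ X.Adj i j := by
      by_contra hcon
      push Not at hcon
      apply htop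
      ext i j
      rw [SimpleGraph.top_adj]
      exact ⟨fun hij => hij.ne, fun hij => hcon i j hij⟩
    obtain ⟨i, j, hij, hna⟩ := hex
    have hed : (X ⊔ SimpleGraph.edge i j).edgeSet = insert s(i, j) X.edgeSet := by
      rw [SimpleGraph.edgeSet_sup, SimpleGraph.edgeSet_edge_of_ne hij, Set.union_comm]
      rfl
    have hnin : s(i, j) ∉ X.edgeSet := by
      rw [SimpleGraph.mem_edgeSet]
      exact hna
    have hcases : ∀ p ∈ (X ⊔ SimpleGraph.edge i j).edgeSet, p = s(i, j) ∨
        (p ≠ s(i, j) ∧ p ∈ X.edgeSet) := by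
      intro p hp
      rw [hed, Set.mem_insert_iff] at hp
      by_cases hps : p = s(i, j)
      · exact Or.inl hps
      · exact Or.inr ⟨hps, hp.resolve_left hps⟩
    refine ⟨X ⊔ SimpleGraph.edge i j, Or.inl ?_, Y, Function.update I s(i, j) U, ?_⟩
    · rw [hed, Set.ncard_insert_of_notMem hnin (Set.toFinite _)]
      omega
    · refine ⟨hT.inj, fun l => hN (hT.mem l), ?_, ?_, ?_, ?_⟩
      · intro p hp
        rcases hcases p hp with rfl | ⟨hne, hpX⟩
        · rw [Function.update_self]
          exact hU
        · rw [Function.update_of_ne hne]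
          exact (hT.sub p hpX).trans hN
      · intro p hp l
        rcases hcases p hp with rfl | ⟨hne, hpX⟩
        · rw [Function.update_self]
          intro hl
          exact Finset.disjoint_left.1 hUN hl (hT.mem l)
        · rw [Function.update_of_ne hne]
          exact hT.term p hpX l
      · intro p hp q hq hpq
        rcases hcases p hp with rfl | ⟨hne, hpX⟩
        · rcases hcases q hq with rfl | ⟨hne', hqX⟩
          · exact absurd rfl hpq
          · rw [Function.update_self, Function.update_of_ne hne']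
            exact hUN.mono_right (hT.sub q hqX)
        · rcases hcases q hq with rfl | ⟨hne', hqX⟩
          · rw [Function.update_self, Function.update_of_ne hne]
            exact (hUN.mono_right (hT.sub p hpX)).symm
          · rw [Function.update_of_ne hne, Function.update_of_ne hne']
            exact hT.disj p hpX q hqX hpq
      · intro x y hxy
        rcases hcases s(x, y) ((SimpleGraph.mem_edgeSet _).2 hxy) with he | ⟨hne, hpX⟩
        · rw [he, Function.update_self]
          exact hwalk (Y x) (hT.mem x) (Y y) (hT.mem y)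
        · rw [Function.update_of_ne hne]
          exact hT.walk x y ((SimpleGraph.mem_edgeSet _).1 hpX)

theorem mader (a : ℕ) : ∃ B : ℕ, 0 < B ∧ ∀ (V : Type) (_ : Fintype V) (G : SimpleGraph V)
    (S : Finset V), S.Nonempty → B * S.card ≤ ein G S →
      ∃ (Y : Fin a → V) (I : Sym2 (Fin a) → Finset V), TM G (⊤ : SimpleGraph (Fin a)) S Y I := by
  classical
  refine ⟨2 ^ (Fintype.card (Sym2 (Fin a)) + 1) * (a + 1), by positivity, ?_⟩
  intro V iV G S hS h
  obtain ⟨X, hX, Y, I, hT⟩ := mader_aux a (Fintype.card (Sym2 (Fin a)) + 1) V iV G S hS h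
  have htop : X = ⊤ := by
    refine hX.resolve_left ?_
    intro hle
    have h1 : X.edgeSet.ncard ≤ Fintype.card (Sym2 (Fin a)) := by
      rw [← Nat.card_eq_fintype_card, ← Set.ncard_univ]
      exact Set.ncard_le_ncard (Set.subset_univ _) (Set.toFinite _)
    omega
  subst htop
  exact ⟨Y, I, hT⟩

end Pool.Agent.ALC
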