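import Pool.Agent.ALC.MdDefs

/-!
# ALC MD1: a connected set whose neighbourhood is dense

PROOF (Mader; Diestel, Graph Theory, proof of Proposition 7.2.1).  Choose a nonempty `S' ⊆ S` of
minimal cardinality with `b #S' ≤ ein G S'`; it is enough to find `U, N ⊆ S'`, so write `S` for `S'`.
For `U ⊆ S` let `N U = {x ∈ S \ U | ∃ u ∈ U, G.Adj u x}`.  Consider the sets `U ⊆ S` such that `U` is
nonempty, any two points of `U` are joined by a walk of `G` inside `U`, and
(*) `b (#(S \ U) + 1) ≤ ein G (S \ U) + #(N U)`.
Every singleton `{u}`, `u ∈ S`, has these properties: `ein G S = ein G (S \ {u}) + #(N {u})` and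
`#(S \ {u}) + 1 = #S`.  Let `U` be such a set of maximal cardinality, `N = N U`.
`N ≠ ∅`: otherwise `b (#(S \ U) + 1) ≤ ein G (S \ U)`, so `ein G (S \ U) > 0`, `S \ U` is nonempty,
smaller than `S` and satisfies `b #(S \ U) ≤ ein G (S \ U)`, a contradiction.
Every `v ∈ N` has at least `b` neighbours in `N`: otherwise let `d ≤ b - 1` be their number and
`U' = U ∪ {v}`, connected as `v` has a neighbour in `U`.  Let `D` be the number of neighbours of `v`
in `S \ U`.  `ein G (S \ U') = ein G (S \ U) - D`, `#(N U') ≥ #N - 1 + (D - d)` (the elements of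
`N \ {v}` and the neighbours of `v` in `(S \ U) \ N`), `#(S \ U') + 1 = #(S \ U)`.  So
`ein G (S \ U') + #(N U') ≥ ein G (S \ U) + #N - 1 - d ≥ b (#(S \ U) + 1) - b = b (#(S \ U') + 1)`,
against the maximality of `U`.
Hence `2 ein G N = ∑_{v ∈ N} (number of neighbours of v in N) ≥ b #N`.
For `x, y ∈ N` choose neighbours `u, u'` in `U` and a walk from `u` to `u'` inside `U`.
-/

set_option autoImplicit false

namespace Pool.Agent.ALC



open Classical in
private lemma ein_two {V : Type} [Fintype V] (G : SimpleGraph V) (S : Finset V) :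
    2 * ein G S = ∑ v ∈ S, (S.filter (fun w => G.Adj v w)).card := by
  let G' : SimpleGraph V :=
    { Adj := fun x y => G.Adj x y ∧ x ∈ S ∧ y ∈ S
      symm := ⟨fun x y h => ⟨h.1.symm, h.2.2, h.2.1⟩⟩
      loopless := ⟨fun x h => h.1.ne rfl⟩ }
  have hG' : ∀ x y, G'.Adj x y ↔ G.Adj x y ∧ x ∈ S ∧ y ∈ S := fun x y => Iff.rfl
  have h1 : ein G S = G'.edgeFinset.card := by
    unfold ein
    rw [← Set.ncard_coe_finset, SimpleGraph.coe_edgeFinset]
    congr 1
    ext e
    induction e using Sym2.ind with
    | _ x y =>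
      simp only [Set.mem_ofPred_eq, SimpleGraph.mem_edgeSet, hG', Sym2.mem_iff]
      constructor
      · rintro ⟨h1, h2⟩
        exact ⟨h1, h2 x (Or.inl rfl), h2 y (Or.inr rfl)⟩
      · rintro ⟨h1, h2, h3⟩
        refine ⟨h1, ?_⟩
        rintro z (rfl | rfl)
        · exact h2
        · exact h3
  rw [h1, ← SimpleGraph.sum_degrees_eq_twice_card_edges]
  rw [← Finset.sum_subset (Finset.subset_univ S)]
  · refine Finset.sum_congr rfl fun v hv => ?_
    rw [← SimpleGraph.card_neighborFinset_eq_degree]
    congr 1
    ext w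
    rw [SimpleGraph.mem_neighborFinset, hG', Finset.mem_filter]
    tauto
  · intro v _ hv
    rw [← SimpleGraph.card_neighborFinset_eq_degree, Finset.card_eq_zero,
      Finset.eq_empty_iff_forall_notMem]
    intro w hw
    rw [SimpleGraph.mem_neighborFinset, hG'] at hw
    exact hv hw.2.1

open Classical in
private lemma ein_ins {V : Type} [Fintype V] (G : SimpleGraph V) (T : Finset V) {v : V}
    (hv : v ∉ T) :
    ein G (insert v T) = ein G T + (T.filter (fun w => G.Adj v w)).card := by
  have h1 := ein_two G (insert v T)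
  have h2 := ein_two G T
  rw [Finset.sum_insert hv] at h1
  have h3 : ((insert v T).filter (fun w => G.Adj v w)) = T.filter (fun w => G.Adj v w) := by
    rw [Finset.filter_insert, if_neg (fun h => h.ne rfl)]
  have h4 : ∑ x ∈ T, ((insert v T).filter (fun w => G.Adj x w)).card =
      ∑ x ∈ T, ((T.filter (fun w => G.Adj x w)).card + if G.Adj v x then 1 else 0) := by
    refine Finset.sum_congr rfl fun x _ => ?_
    rw [Finset.filter_insert]
    by_cases h : G.Adj x v
    · rw [if_pos h, if_pos h.symm, Finset.card_insert_of_notMem]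
      exact fun h' => hv (Finset.mem_filter.1 h').1
    · rw [if_neg h, if_neg (fun h' => h h'.symm), add_zero]
  rw [h3, h4, Finset.sum_add_distrib, ← Finset.card_filter] at h1
  omega

theorem mad_step {V : Type} [Fintype V] (G : SimpleGraph V) {b : ℕ} (hb : 0 < b)
    (S : Finset V) (hS : S.Nonempty) (h : b * S.card ≤ ein G S) :
    ∃ U N : Finset V, U ⊆ S ∧ N ⊆ S ∧ Disjoint U N ∧ N.Nonempty ∧ b * N.card ≤ 2 * ein G N ∧
      ∀ x ∈ N, ∀ y ∈ N, ∃ W : G.Walk x y, ∀ z ∈ W.support, z = x ∨ z = y ∨ z ∈ U := by
  classical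
  induction S using Finset.strongInduction with
  | H S ih =>
  by_cases hmin : ∃ T, T ⊂ S ∧ T.Nonempty ∧ b * T.card ≤ ein G T
  · obtain ⟨T, hTS, hT, hbT⟩ := hmin
    obtain ⟨U, N, hU, hN, h1⟩ := ih T hTS hT hbT
    exact ⟨U, N, hU.trans hTS.1, hN.trans hTS.1, h1⟩
  push Not at hmin
  -- the neighbourhood
  set Nb : Finset V → Finset V := fun U => (S \ U).filter (fun x => ∃ u ∈ U, G.Adj u x) with hNb
  set P : Finset V → Prop := fun U => U.Nonempty ∧
    (∀ x ∈ U, ∀ y ∈ U, ∃ W : G.Walk x y, ∀ z ∈ W.support, z ∈ U) ∧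
    b * ((S \ U).card + 1) ≤ ein G (S \ U) + (Nb U).card with hP
  obtain ⟨u0, hu0⟩ := hS
  have hP0 : P {u0} := by
    refine ⟨Finset.singleton_nonempty _, ?_, ?_⟩
    · intro x hx y hy
      rw [Finset.mem_singleton] at hx hy
      subst hx
      subst hy
      refine ⟨SimpleGraph.Walk.nil, fun z hz => ?_⟩
      rw [SimpleGraph.Walk.support_nil, List.mem_singleton] at hz
      rw [hz]
      exact Finset.mem_singleton_self _
    · have h1 : insert u0 (S \ {u0}) = S := by
        rw [Finset.sdiff_singleton_eq_erase]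
        exact Finset.insert_erase hu0
      have h2 := ein_ins G (S \ {u0}) (v := u0) (by simp)
      rw [h1] at h2
      have h3 : (S \ {u0}).card + 1 = S.card := by
        rw [Finset.sdiff_singleton_eq_erase]
        exact Finset.card_erase_add_one hu0
      have h4 : Nb {u0} = (S \ {u0}).filter (fun w => G.Adj u0 w) := by
        rw [hNb]
        ext x
        simp
      rw [h3, h4, ← h2]
      exact h
  obtain ⟨U, hU, hmax⟩ := Finset.exists_max_image (S.powerset.filter P) Finset.card
    ⟨{u0}, Finset.mem_filter.2 ⟨Finset.mem_powerset.2 (Finset.singleton_subset_iff.2 hu0), hP0⟩⟩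
  rw [Finset.mem_filter, Finset.mem_powerset] at hU
  obtain ⟨hUS, hU0, hUc, hUb⟩ := hU
  have hNS : Nb U ⊆ S := fun x hx => (Finset.mem_sdiff.1 (Finset.mem_filter.1 hx).1).1
  have hNU : ∀ x ∈ Nb U, x ∉ U := fun x hx => (Finset.mem_sdiff.1 (Finset.mem_filter.1 hx).1).2
  have hNa : ∀ x ∈ Nb U, ∃ u ∈ U, G.Adj u x := fun x hx => (Finset.mem_filter.1 hx).2
  -- every vertex of the neighbourhood has many neighbours in it
  have hdeg : ∀ v ∈ Nb U, b ≤ ((Nb U).filter (fun w => G.Adj v w)).card := by
    intro v hv
    by_contra hlt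
    push Not at hlt
    have hvU : v ∉ U := hNU v hv
    have hvS : v ∈ S := hNS hv
    obtain ⟨u, huU, huv⟩ := hNa v hv
    have hPU : P (insert v U) := by
      refine ⟨⟨v, Finset.mem_insert_self _ _⟩, ?_, ?_⟩
      · -- connected
        have hu : ∀ x ∈ insert v U, ∃ W : G.Walk x u, ∀ z ∈ W.support, z ∈ insert v U := by
          intro x hx
          rcases Finset.mem_insert.1 hx with rfl | hxU
          · refine ⟨SimpleGraph.Walk.cons huv.symm SimpleGraph.Walk.nil, fun z hz => ?_⟩
            rw [SimpleGraph.Walk.support_cons, SimpleGraph.Walk.support_nil, List.mem_cons,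
              List.mem_singleton] at hz
            rcases hz with rfl | rfl
            · exact hx
            · exact Finset.mem_insert_of_mem huU
          · obtain ⟨W, hW⟩ := hUc x hxU u huU
            exact ⟨W, fun z hz => Finset.mem_insert_of_mem (hW z hz)⟩
        intro x hx y hy
        obtain ⟨W1, hW1⟩ := hu x hx
        obtain ⟨W2, hW2⟩ := hu y hy
        refine ⟨W1.append W2.reverse, fun z hz => ?_⟩
        rw [SimpleGraph.Walk.mem_support_append_iff, SimpleGraph.Walk.support_reverse,
          List.mem_reverse] at hz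
        rcases hz with hz | hz
        · exact hW1 z hz
        · exact hW2 z hz
      · have hvm : v ∉ S \ insert v U := by simp
        have h1 : insert v (S \ insert v U) = S \ U := by
          ext x
          rw [Finset.mem_insert, Finset.mem_sdiff, Finset.mem_sdiff, Finset.mem_insert]
          constructor
          · rintro (rfl | ⟨h1, h2⟩)
            · exact ⟨hvS, hvU⟩
            · exact ⟨h1, fun h3 => h2 (Or.inr h3)⟩
          · rintro ⟨h1, h2⟩
            by_cases h3 : x = v
            · exact Or.inl h3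
            · exact Or.inr ⟨h1, fun h4 => h4.elim h3 h2⟩
        have h2 := ein_ins G (S \ insert v U) hvm
        have h3 := Finset.card_insert_of_notMem hvm
        rw [h1] at h2 h3
        -- the new neighbourhood
        have h4 : ((Nb U).erase v).card + ((S \ insert v U).filter (fun w => G.Adj v w)).card ≤
            (Nb (insert v U)).card + ((Nb U).filter (fun w => G.Adj v w)).card := by
          rw [← Finset.card_union_add_card_inter]
          refine Nat.add_le_add (Finset.card_le_card ?_) (Finset.card_le_card ?_)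
          · intro x hx
            rcases Finset.mem_union.1 hx with hx | hx
            · obtain ⟨h5, h6⟩ := Finset.mem_erase.1 hx
              obtain ⟨w, hw, hwx⟩ := hNa x h6
              refine Finset.mem_filter.2 ⟨Finset.mem_sdiff.2 ⟨hNS h6, ?_⟩, w,
                Finset.mem_insert_of_mem hw, hwx⟩
              rw [Finset.mem_insert]
              exact fun h7 => h7.elim h5 (hNU x h6)
            · obtain ⟨h5, h6⟩ := Finset.mem_filter.1 hx
              exact Finset.mem_filter.2 ⟨h5, v, Finset.mem_insert_self _ _, h6⟩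
          · intro x hx
            obtain ⟨h5, h6⟩ := Finset.mem_inter.1 hx
            exact Finset.mem_filter.2 ⟨(Finset.mem_erase.1 h5).2, (Finset.mem_filter.1 h6).2⟩
        have h5 := Finset.card_erase_add_one hv
        rw [h3] at hUb
        have h6 : b * ((S \ insert v U).card + 1 + 1) = b * ((S \ insert v U).card + 1) + b := by
          ring
        rw [h6] at hUb
        omega
    have h7 := hmax (insert v U) (Finset.mem_filter.2 ⟨Finset.mem_powerset.2
      (Finset.insert_subset hvS hUS), hPU⟩)
    rw [Finset.card_insert_of_notMem hvU] at h7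
    omega
  refine ⟨U, Nb U, hUS, hNS, ?_, ?_, ?_, ?_⟩
  · rw [Finset.disjoint_left]
    exact fun x hx hx' => hNU x hx' hx
  · by_contra hne
    rw [Finset.not_nonempty_iff_eq_empty] at hne
    rw [hne, Finset.card_empty, add_zero] at hUb
    have h1 : (S \ U).Nonempty := by
      by_contra h2
      rw [Finset.not_nonempty_iff_eq_empty] at h2
      have h3 := ein_two G (S \ U)
      rw [h2] at h3 hUb
      rw [Finset.sum_empty] at h3
      rw [Finset.card_empty] at hUb
      omega
    have h2 : S \ U ⊂ S := by
      refine Finset.ssubset_iff_subset_ne.2 ⟨Finset.sdiff_subset, fun h3 => ?_⟩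
      obtain ⟨x, hx⟩ := hU0
      have h4 := hUS hx
      rw [← h3, Finset.mem_sdiff] at h4
      exact h4.2 hx
    have h3 := hmin (S \ U) h2 h1
    have h4 : b * ((S \ U).card + 1) = b * (S \ U).card + b := by ring
    omega
  · rw [ein_two, mul_comm, ← smul_eq_mul]
    exact Finset.card_nsmul_le_sum _ _ _ hdeg
  · intro x hx y hy
    obtain ⟨u, hu, hux⟩ := hNa x hx
    obtain ⟨u', hu', huy⟩ := hNa y hy
    obtain ⟨W, hW⟩ := hUc u hu u' hu'
    refine ⟨SimpleGraph.Walk.cons hux.symm (W.append
      (SimpleGraph.Walk.cons huy SimpleGraph.Walk.nil)), fun z hz => ?_⟩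
    rw [SimpleGraph.Walk.support_cons, List.mem_cons, SimpleGraph.Walk.mem_support_append_iff,
      SimpleGraph.Walk.support_cons, SimpleGraph.Walk.support_nil, List.mem_cons,
      List.mem_singleton] at hz
    rcases hz with rfl | hz | rfl | rfl
    · exact Or.inl rfl
    · exact Or.inr (Or.inr (hW z hz))
    · exact Or.inr (Or.inr hu')
    · exact Or.inr (Or.inl rfl)

end Pool.Agent.ALC
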