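import Mathlib

/-!
# ALC MDDEFS: topological minors (definitions)

`ein G S` is the number of edges of `G` inside `S`.  `TM G X S Y I`: a subdivision of the graph `X`
on `Fin a` in `G`, inside `S`: branch vertices `Y i`, pairwise disjoint sets `I p` of inner
vertices for the edges `p` of `X`, disjoint from the branch vertices, and for every edge
`p = s(i, j)` a walk from `Y i` to `Y j` with all vertices in `I p ∪ {Y i, Y j}`.
-/

set_option autoImplicit false

namespace Pool.Agent.ALC

/-- the number of edges of `G` with both ends in `S` -/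
noncomputable def ein {V : Type} (G : SimpleGraph V) (S : Finset V) : ℕ :=
  {e | e ∈ G.edgeSet ∧ ∀ x ∈ e, x ∈ S}.ncard

/-- a subdivision of `X` in `G` inside `S` -/
structure TM {V : Type} (G : SimpleGraph V) {a : ℕ} (X : SimpleGraph (Fin a)) (S : Finset V)
    (Y : Fin a → V) (I : Sym2 (Fin a) → Finset V) : Prop where
  inj : Function.Injective Y
  mem : ∀ i, Y i ∈ S
  sub : ∀ p ∈ X.edgeSet, I p ⊆ S
  term : ∀ p ∈ X.edgeSet, ∀ i, Y i ∉ I p
  disj : ∀ p ∈ X.edgeSet, ∀ q ∈ X.edgeSet, p ≠ q → Disjoint (I p) (I q)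
  walk : ∀ i j, X.Adj i j → ∃ W : G.Walk (Y i) (Y j),
    ∀ x ∈ W.support, x = Y i ∨ x = Y j ∨ x ∈ I s(i, j)

end Pool.Agent.ALC
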