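import Pool.Agent.ALC.Defs
import Pool.Agent.ALB.WalkArc

/-!
# ALC PSG: drawing a graph `Γ` along a path system

The proof is the one of `Pool.Agent.ALB.psd` (there `Γ = K_k`).
-/

set_option autoImplicit false

namespace Pool.Agent.ALC

open Pool.Agent.ALB

/-- a vertex on the arc of an edge belongs to the edge -/
private lemma psg_mem {V : Type} {G : SimpleGraph V} (D : Drw G) {e : Sym2 V}
    (he : e ∈ G.edgeSet) {x : V} (hx : D.pos x ∈ D.arc e) : x ∈ e := by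
  induction e using Sym2.ind with
  | _ a b =>
    rcases D.avoid a b x he hx with h | h
    · rw [h]; exact Sym2.mem_mk_left _ _
    · rw [h]; exact Sym2.mem_mk_right _ _

private lemma psg_ncard {ι α : Type} (s : Finset ι) (f : ι → Set α) :
    (⋃ i ∈ s, f i).ncard ≤ ∑ i ∈ s, (f i).ncard := by
  classical
  induction s using Finset.induction_on with
  | empty => simp
  | insert a s ha ih =>
    rw [Finset.set_biUnion_insert, Finset.sum_insert ha]
    exact (Set.ncard_union_le _ _).trans (Nat.add_le_add_left ih _)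

/-- **Path system drawing.**  Terminals `Y : ι → V`; for every edge `p = s(i,j)` of `Γ` a
finite set `E p` of edges of `G` which contains a walk from `Y i` to `Y j`, whose vertices are
`Y i`, `Y j` or non-terminals; the sets `E p` are pairwise disjoint.  Then `Γ` can be drawn with
at most `∑_{p, q} (∑_{e ∈ E p, f ∈ E q} N e f + #{non-terminals on both})` crossings (twice). -/
theorem psg {V ι : Type} [Fintype V] [Fintype ι] {G : SimpleGraph V} (D : Drw G)
    (Γ : SimpleGraph ι) (Y : ι → V) (hY : Function.Injective Y)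
    (E : Sym2 ι → Finset (Sym2 V))
    (hE : ∀ p ∈ Γ.edgeSet, ∀ e ∈ E p, e ∈ G.edgeSet)
    (hW : ∀ i j, Γ.Adj i j → ∃ W : G.Walk (Y i) (Y j), ∀ e ∈ W.edges, e ∈ E s(i, j))
    (hT : ∀ i j, Γ.Adj i j → ∀ e ∈ E s(i, j), ∀ x ∈ e, x ∈ Set.range Y → x = Y i ∨ x = Y j)
    (hdis : ∀ p ∈ Γ.edgeSet, ∀ q ∈ Γ.edgeSet, p ≠ q → ∀ e ∈ E p, e ∉ E q) :
    ∃ D' : Drw Γ, D'.cr ≤ ∑ p ∈ ed Γ, ∑ q ∈ ed Γ,
        ((∑ e ∈ E p, ∑ f ∈ E q, D.N e f) +
          {x : V | x ∉ Set.range Y ∧ (∃ e ∈ E p, x ∈ e) ∧ (∃ f ∈ E q, x ∈ f)}.ncard) := by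
  classical
  -- the arcs
  have hR : ∀ p : Sym2 ι, ∃ R : Set ℂ, ∀ i j, p = s(i, j) → Γ.Adj i j →
      R ⊆ {z | ∃ e ∈ E p, z ∈ D.arc e} ∧ IsArc (D.pos (Y i)) (D.pos (Y j)) R := by
    intro p
    induction p using Sym2.ind with
    | _ a b =>
      by_cases hab : Γ.Adj a b
      · obtain ⟨W, hWe⟩ := hW a b hab
        obtain ⟨R, hR1, hR2⟩ := walk_arc D W fun h => hab.ne (hY h)
        refine ⟨R, fun i j h _ => ⟨fun z hz => ?_, ?_⟩⟩
        · obtain ⟨e, he, hz'⟩ := hR1 hz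
          exact ⟨e, hWe e he, hz'⟩
        · rw [Sym2.eq_iff] at h
          rcases h with ⟨h1, h2⟩ | ⟨h1, h2⟩
          · rw [← h1, ← h2]; exact hR2
          · rw [← h1, ← h2]; exact hR2.symm
      · refine ⟨∅, fun i j h hij => ?_⟩
        exfalso
        rw [Sym2.eq_iff] at h
        rcases h with ⟨h1, h2⟩ | ⟨h1, h2⟩
        · exact hab (h1 ▸ h2 ▸ hij)
        · exact hab (h1 ▸ h2 ▸ hij.symm)
  choose R hR using hR
  have hRsub : ∀ p ∈ Γ.edgeSet, ∀ z ∈ R p, ∃ e ∈ E p, z ∈ D.arc e := by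
    intro p hp z hz
    induction p using Sym2.ind with
    | _ a b => exact (hR _ a b rfl hp).1 hz
  -- the set of the common points
  set S : Sym2 ι → Sym2 ι → Set ℂ := fun p q =>
    (⋃ e ∈ E p, ⋃ f ∈ E q, ((D.arc e ∩ D.arc f) \ Set.range D.pos)) ∪
      D.pos '' {x : V | x ∉ Set.range Y ∧ (∃ e ∈ E p, x ∈ e) ∧ (∃ f ∈ E q, x ∈ f)} with hS
  have hsub : ∀ p ∈ Γ.edgeSet, ∀ q ∈ Γ.edgeSet,
      (R p ∩ R q) \ Set.range (D.pos ∘ Y) ⊆ S p q := by
    rintro p hp q hq z ⟨⟨h1, h2⟩, h3⟩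
    obtain ⟨e, he, hze⟩ := hRsub p hp z h1
    obtain ⟨f, hf, hzf⟩ := hRsub q hq z h2
    by_cases hz : z ∈ Set.range D.pos
    · obtain ⟨x, rfl⟩ := hz
      refine Or.inr ⟨x, ⟨?_, ⟨e, he, psg_mem D (hE p hp e he) hze⟩,
        ⟨f, hf, psg_mem D (hE q hq f hf) hzf⟩⟩, rfl⟩
      rintro ⟨i, rfl⟩
      exact h3 ⟨i, rfl⟩
    · refine Or.inl ?_
      simp only [Set.mem_iUnion]
      exact ⟨e, he, f, hf, ⟨hze, hzf⟩, hz⟩
  have hfin : ∀ p ∈ Γ.edgeSet, ∀ q ∈ Γ.edgeSet, p ≠ q → (S p q).Finite := by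
    intro p hp q hq hpq
    refine Set.Finite.union ?_ ((Set.toFinite _).image _)
    refine Set.Finite.biUnion (E p).finite_toSet fun e he => ?_
    refine Set.Finite.biUnion (E q).finite_toSet fun f hf => ?_
    exact D.fin e (hE p hp e he) f (hE q hq f hf) fun h => hdis p hp q hq hpq e he (h ▸ hf)
  set D' : Drw Γ :=
    { pos := D.pos ∘ Y
      arc := R
      inj := D.inj.comp hY
      isArc := fun u v h => (hR _ u v rfl h).2
      avoid := fun u v w h hw => by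
        obtain ⟨e, he, hz⟩ := hRsub s(u, v) h _ hw
        rcases hT u v h e he (Y w) (psg_mem D (hE _ h e he) hz) ⟨w, rfl⟩ with h1 | h1
        · exact Or.inl (hY h1)
        · exact Or.inr (hY h1)
      fin := fun p hp q hq hpq => (hfin p hp q hq hpq).subset (hsub p hp q hq) } with hD'
  refine ⟨D', ?_⟩
  unfold Drw.cr
  refine Finset.sum_le_sum fun p hp => ?_
  have hp' := mem_ed.1 hp
  rw [← Finset.add_sum_erase _ _ hp, Drw.N_self D' hp', zero_add]
  refine le_trans ?_ (Finset.sum_le_sum_of_subset (Finset.erase_subset p _))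
  refine Finset.sum_le_sum fun q hq => ?_
  obtain ⟨hqp, hq1⟩ := Finset.mem_erase.1 hq
  have hq' := mem_ed.1 hq1
  refine (Set.ncard_le_ncard (hsub p hp' q hq') (hfin p hp' q hq' hqp.symm)).trans ?_
  refine (Set.ncard_union_le _ _).trans (Nat.add_le_add ?_ (Set.ncard_image_le (Set.toFinite _)))
  refine (psg_ncard _ _).trans (Finset.sum_le_sum fun e _ => ?_)
  exact psg_ncard _ _

end Pool.Agent.ALC
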