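import Pool.Agent.ALC.Kem

/-!
# ALC REC: recolouring a vertex shows that pairs are not rigid

PROOF.  Since `w ≠ s i` has colour `i` and `Un H v f s i`, `w` is not adjacent to `v`.  Let
`f' = Function.update f w j`.  Then `KD H v f' s`: `off`: for an edge `w y` with `y ≠ v`, `f' w = j`
and `f' y = f y ≠ j` (`hj`, note `y ≠ w`); the other edges as before; `fs`: `s l' ≠ w` for all
`l'` (for `l' = i` by `hws`, otherwise because `f (s l') = l' ≠ i = f w`), so `f' (s l') = l'`.
`Un H v f' s i` and `Un H v f' s l`: a neighbour `x` of `v` is not `w`, so `f' x = f x`.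
By `kempe` there is a walk from `s i` to `s l` in `Bg H v f' i l`.  All its vertices have
`f'`-colour `i` or `l`, so they are different from `w` (`f' w = j ≠ i, l`), and `f' = f` on them: the
walk maps to a walk `W` in `Bg H v f i l` which does not contain `w` (for instance: the graph
`Bg H v f' i l` is contained in `Bg H v f i l` and none of its edges contains `w`; `Walk.mapLe`).
If the pair were rigid, the edge `e ∈ E s(i, l)` with `w ∈ e` would be an edge of `W`,
contradiction.
-/

set_option autoImplicit false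

namespace Pool.Agent.ALC

open Pool.Agent.ALB

theorem recolour {V : Type} {H : SimpleGraph V} {r : ℕ} {v : V} {f : V → Fin r}
    {s : Fin r → V} (h : KD H v f s) {E : Sym2 (Fin r) → Finset (Sym2 V)} {i j l : Fin r}
    {w : V} (hi : Un H v f s i) (hl : Un H v f s l) (hw : w ≠ v) (hfw : f w = i)
    (hws : w ≠ s i) (hil : i ≠ l) (hij : i ≠ j) (hjl : j ≠ l)
    (hj : ∀ y, y ≠ v → H.Adj w y → f y ≠ j) (hon : On E w s(i, l)) :
    ¬ Rig H v f s E i l := by
  classical
  intro hR
  have hwv : ¬ H.Adj v w := fun hadj => hws (hi w hadj hfw)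
  obtain ⟨f', hf'⟩ : ∃ f' : V → Fin r, f' = Function.update f w j := ⟨_, rfl⟩
  have fw : f' w = j := by
    rw [hf']
    exact Function.update_self _ _ _
  have fo : ∀ x, x ≠ w → f' x = f x := fun x hx => by
    rw [hf']
    exact Function.update_of_ne hx _ _
  have hsw : ∀ m, s m ≠ w := by
    intro m hm
    have h1 := h.fs m
    rw [hm, hfw] at h1
    rw [← h1] at hm
    exact hws hm.symm
  have hKD : KD H v f' s := by
    refine ⟨h.nc, ?_, h.adj, fun m => by rw [fo _ (hsw m), h.fs]⟩
    intro x y hx hy hxy
    by_cases hxw : x = w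
    · rw [hxw] at hxy ⊢
      rw [fw, fo y hxy.ne']
      exact (hj y hy hxy).symm
    · by_cases hyw : y = w
      · rw [hyw] at hxy ⊢
        rw [fw, fo x hxw]
        exact hj x hx hxy.symm
      · rw [fo x hxw, fo y hyw]
        exact h.off x y hx hy hxy
  have hun : ∀ m, Un H v f s m → Un H v f' s m := by
    intro m hm x hx hfx
    have hxw : x ≠ w := by
      rintro rfl
      exact hwv hx
    rw [fo x hxw] at hfx
    exact hm x hx hfx
  obtain ⟨W⟩ := kempe hKD (hun i hi) (hun l hl) hil
  have hnw : ∀ x y, (Bg H v f' i l).Adj x y → x ≠ w := by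
    rintro x y hxy rfl
    rcases hxy.2.2.2 with h1 | h1
    · exact hij (h1.1.symm.trans fw)
    · exact hjl (fw.symm.trans h1.1)
  have hle : Bg H v f' i l ≤ Bg H v f i l := by
    intro x y hxy
    have h1 := hnw x y hxy
    have h2 := hnw y x hxy.symm
    refine ⟨hxy.1, hxy.2.1, hxy.2.2.1, ?_⟩
    have h3 := hxy.2.2.2
    rwa [fo x h1, fo y h2] at h3
  obtain ⟨e, he, hwe⟩ := hon
  have hmem := hR (W.mapLe hle) e he
  have hmem' : e ∈ W.edges := by
    simpa using hmem
  have he' := W.edges_subset_edgeSet hmem'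
  induction e using Sym2.ind with
  | _ x y =>
    have hadj : (Bg H v f' i l).Adj x y := he'
    rcases Sym2.mem_iff.1 hwe with h1 | h1
    · exact hnw x y hadj h1.symm
    · exact hnw y x hadj.symm h1.symm

end Pool.Agent.ALC
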