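import Pool.Agent.ALC.Defs
import Pool.Agent.ALB.Psd

/-!
# ALC SATX: a drawing of a large complete bipartite graph has a crossing

PROOF.  Suppose all `D.N s(x i, y j) s(x i', y j') = 0`.  For `i < j` in `Fin a` let
`t i j : Fin b` be the number `i * a + j < a * a ≤ b` (different for different pairs `i < j`).
Apply `Pool.Agent.ALB.psd` with `k = a`, `Y = x` and, for `p = s(i, j)` with `i < j`,
`E p = {s(x i, y (t i j)), s(x j, y (t i j))}` (and `E p = ∅` for the diagonal): walk
`x i - y (t i j) - x j`; vertices of these edges in `range x` are `x i` or `x j` because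
`x i' ≠ y j'`; disjointness because `t` is injective on the pairs.  In the bound of `psd` all
`N`-terms vanish and for `p ≠ q` no vertex `y ..` is on both `E p` and `E q`, so the set there is
empty.  Hence `crK a ≤ 0`.  (To define `E` on `Sym2` use `Sym2.lift` or a filter, or
`E p = univ.filter (fun e => ∃ i j, i < j ∧ p = s(i, j) ∧ (e = s(x i, y (t i j)) ∨ e = s(x j, y (t i j))))`
with `open Classical`.)
-/

set_option autoImplicit false

namespace Pool.Agent.ALC

open Pool.Agent.ALB

theorem satx {V : Type} [Fintype V] {G : SimpleGraph V} (D : Drw G) {a b : ℕ}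
    (hb : a * a ≤ b) (ha : crK a ≠ 0) (x : Fin a → V) (y : Fin b → V)
    (hx : Function.Injective x) (hy : Function.Injective y) (hxy : ∀ i j, x i ≠ y j)
    (hadj : ∀ i j, G.Adj (x i) (y j)) :
    ∃ i j i' j', D.N s(x i, y j) s(x i', y j') ≠ 0 := by
  classical
  by_contra hcon
  push Not at hcon
  apply ha
  -- the codes of the pairs
  have hcard : Fintype.card (Sym2 (Fin a)) ≤ Fintype.card (Fin b) := by
    have h1 : Fintype.card (Sym2 (Fin a)) ≤ Fintype.card (Fin a × Fin a) :=
      Fintype.card_le_of_surjective (fun p : Fin a × Fin a => s(p.1, p.2)) (by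
        intro q
        induction q using Sym2.ind with
        | _ u v => exact ⟨(u, v), rfl⟩)
    rw [Fintype.card_prod, Fintype.card_fin] at h1
    rw [Fintype.card_fin]
    exact h1.trans hb
  obtain ⟨c⟩ := Function.Embedding.nonempty_of_card_le hcard
  obtain ⟨E, hE⟩ : ∃ E : Sym2 (Fin a) → Finset (Sym2 V),
      ∀ p e, e ∈ E p ↔ ∃ k, k ∈ p ∧ e = s(x k, y (c p)) := by
    refine ⟨fun p => ((Finset.univ : Finset (Fin a)).filter (fun k => k ∈ p)).image
      (fun k => s(x k, y (c p))), fun p e => ?_⟩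
    simp only [Finset.mem_image, Finset.mem_filter, Finset.mem_univ, true_and]
    constructor
    · rintro ⟨k, hk, rfl⟩
      exact ⟨k, hk, rfl⟩
    · rintro ⟨k, hk, rfl⟩
      exact ⟨k, hk, rfl⟩
  -- vertices of the edges
  have hmem : ∀ p e z, e ∈ E p → z ∈ e → (∃ k, k ∈ p ∧ z = x k) ∨ z = y (c p) := by
    intro p e z he hz
    obtain ⟨k, hk, rfl⟩ := (hE p e).1 he
    rcases Sym2.mem_iff.1 hz with h | h
    · exact Or.inl ⟨k, hk, h⟩
    · exact Or.inr h
  have hbound := psd D x hx E
    (fun p e he => by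
      obtain ⟨k, -, rfl⟩ := (hE p e).1 he
      exact hadj k (c p))
    (fun i j _ => by
      refine ⟨SimpleGraph.Walk.cons (hadj i (c s(i, j)))
        (SimpleGraph.Walk.cons (hadj j (c s(i, j))).symm SimpleGraph.Walk.nil), fun e he => ?_⟩
      rw [SimpleGraph.Walk.edges_cons, SimpleGraph.Walk.edges_cons, SimpleGraph.Walk.edges_nil,
        List.mem_cons, List.mem_cons] at he
      rw [hE]
      rcases he with he | he | he
      · exact ⟨i, Sym2.mem_mk_left i j, he⟩
      · exact ⟨j, Sym2.mem_mk_right i j, by rw [he, Sym2.eq_swap]⟩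
      · exact absurd he (List.not_mem_nil))
    (fun i j _ e he z hz hzx => by
      rcases hmem _ e z he hz with ⟨k, hk, hzk⟩ | hzy
      · rcases Sym2.mem_iff.1 hk with h | h
        · exact Or.inl (by rw [hzk, h])
        · exact Or.inr (by rw [hzk, h])
      · obtain ⟨l, hl⟩ := hzx
        exact absurd (hl.trans hzy) (hxy l _))
    (fun p _ q _ hpq e he he' => by
      obtain ⟨k, -, h1⟩ := (hE p e).1 he
      obtain ⟨l, -, h2⟩ := (hE q e).1 he'
      have h3 : s(x k, y (c p)) = s(x l, y (c q)) := h1.symm.trans h2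
      rcases Sym2.eq_iff.1 h3 with ⟨-, h4⟩ | ⟨h4, -⟩
      · exact hpq (c.injective (hy h4))
      · exact hxy _ _ h4)
  refine Nat.le_zero.1 (hbound.trans (le_of_eq ?_))
  refine Finset.sum_eq_zero fun p _ => Finset.sum_eq_zero fun q hq => ?_
  have hpq : q ≠ p := (Finset.mem_erase.1 hq).1
  have h1 : (∑ e ∈ E p, ∑ f ∈ E q, D.N e f) = 0 := by
    refine Finset.sum_eq_zero fun e he => Finset.sum_eq_zero fun f hf => ?_
    obtain ⟨k, -, rfl⟩ := (hE p e).1 he
    obtain ⟨l, -, rfl⟩ := (hE q f).1 hf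
    exact hcon k (c p) l (c q)
  have h2 : {z : V | z ∉ Set.range x ∧ (∃ e ∈ E p, z ∈ e) ∧ (∃ f ∈ E q, z ∈ f)} = ∅ := by
    rw [Set.eq_empty_iff_forall_notMem]
    rintro z ⟨hz, ⟨e, he, hze⟩, ⟨f, hf, hzf⟩⟩
    rcases hmem p e z he hze with ⟨k, -, hzk⟩ | hz1
    · exact hz ⟨k, hzk.symm⟩
    · rcases hmem q f z hf hzf with ⟨k, -, hzk⟩ | hz2
      · exact hz ⟨k, hzk.symm⟩
      · exact hpq (c.injective (hy (hz2.symm.trans hz1)))
  rw [h1, h2, Set.ncard_empty, add_zero]

end Pool.Agent.ALC
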