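import Pool.Agent.ALC.Defs
import Pool.Agent.ALC.Cnt
import Pool.Agent.ALB.Clique

/-!
# ALC SMPA: counting cliques of an almost complete graph, averaging

PROOF.  Call `φ : Fin a → Fin r` good if `Γ.Adj (φ i) (φ j)` for all `i ≠ j` (in particular `φ` is
injective).
(1) The number of good `φ` is at least `r^a - a^2 * miss Γ * r^(a-2)` (as real numbers): `φ` is
not good iff `¬ Γ.Adj (φ i) (φ j)` for some `i ≠ j`; for fixed `i ≠ j` their number is
`miss Γ * r^(a-2)` by `sum_two`.
(2) For good `φ`, `crK_le_of_clique D φ` gives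
`crK a ≤ ∑_{p, q edges of K_a} N (p.map φ) (q.map φ)`, and
`4 ∑_{p,q} N (p.map φ) (q.map φ) = ∑_{i ≠ j} ∑_{k ≠ l} N s(φ i, φ j) s(φ k, φ l)` (every edge of
`K_a` is `s(i,j)` for exactly two ordered pairs).  If `{i,j}` and `{k,l}` meet then the term is `0`
(`D.NoAdj`, and `Drw.N_self` for equal edges; here the vertices are adjacent in `Γ` because `φ` is
good).  So `4 crK a ≤ ∑_{i,j,k,l different} g (φ i) (φ j) (φ k) (φ l)`, where
`g x y z w = N s(x,y) s(z,w)` if `Γ.Adj x y` and `Γ.Adj z w`, and `0` otherwise.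
(3) Sum over all good `φ`, then enlarge to all `φ`: by `sum_four` and
`#{(i,j,k,l) different} = a (a-1) (a-2) (a-3) = 24 choose a 4`,
`4 crK a · #good ≤ 24 (choose a 4) r^(a-4) ∑_{x,y,z,w} g x y z w` and
`∑_{x,y,z,w} g x y z w = 4 D.cr` (every edge is `s(x,y)` for two ordered pairs).
-/

set_option autoImplicit false

namespace Pool.Agent.ALC

open Pool.Agent.ALB

private theorem half {V : Type} [Fintype V] (G : SimpleGraph V) [DecidableRel G.Adj]
    (g : Sym2 V → ℕ) :
    ∑ x, ∑ y, (if G.Adj x y then g s(x, y) else 0) = 2 * ∑ e ∈ ed G, g e := by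
  classical
  rw [← Finset.sum_product', ← Finset.sum_filter]
  have h := Finset.sum_fiberwise_of_maps_to (s := (Finset.univ ×ˢ Finset.univ).filter
    (fun p : V × V => G.Adj p.1 p.2)) (t := ed G) (g := fun p : V × V => s(p.1, p.2))
    (fun p hp => by
      rw [Finset.mem_filter] at hp
      exact mem_ed.2 hp.2) (fun p : V × V => g s(p.1, p.2))
  rw [← h, Finset.mul_sum]
  refine Finset.sum_congr rfl fun e he => ?_
  rw [mem_ed] at he
  induction e using Sym2.ind with
  | _ u v =>
    have huv : G.Adj u v := he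
    have h1 : ((Finset.univ ×ˢ Finset.univ).filter (fun p : V × V => G.Adj p.1 p.2)).filter
        (fun p : V × V => s(p.1, p.2) = s(u, v)) = {(u, v), (v, u)} := by
      ext ⟨x, y⟩
      simp only [Finset.mem_filter, Finset.mem_product, Finset.mem_univ, true_and,
        Finset.mem_insert, Finset.mem_singleton, Prod.mk.injEq, Sym2.eq_iff]
      constructor
      · rintro ⟨-, h⟩
        exact h
      · rintro (⟨rfl, rfl⟩ | ⟨rfl, rfl⟩)
        · exact ⟨huv, Or.inl ⟨rfl, rfl⟩⟩
        · exact ⟨huv.symm, Or.inr ⟨rfl, rfl⟩⟩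
    have h2 : ((u, v) : V × V) ≠ (v, u) := by
      intro h
      exact huv.ne (Prod.mk.inj h).1
    rw [h1, Finset.sum_pair h2, Sym2.eq_swap (a := v), two_mul]

/-- the good maps -/
private def Gd {r a : ℕ} (Γ : SimpleGraph (Fin r)) (φ : Fin a → Fin r) : Prop :=
  ∀ i j, i ≠ j → Γ.Adj (φ i) (φ j)

private def Df {a : ℕ} (i j k l : Fin a) : Prop :=
  i ≠ j ∧ i ≠ k ∧ i ≠ l ∧ j ≠ k ∧ j ≠ l ∧ k ≠ l

open Classical in
private theorem miss_sum {r : ℕ} (Γ : SimpleGraph (Fin r)) :
    ∑ x, ∑ y, (if Γ.Adj x y then 0 else 1) = miss Γ := by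
  rw [← Finset.sum_product']
  unfold miss
  have h : {p : Fin r × Fin r | ¬ Γ.Adj p.1 p.2} =
      (((Finset.univ ×ˢ Finset.univ).filter (fun p : Fin r × Fin r => ¬ Γ.Adj p.1 p.2) :
        Finset (Fin r × Fin r)) : Set (Fin r × Fin r)) := by
    ext p
    simp
  rw [h, Set.ncard_coe_finset, Finset.card_filter]
  refine Finset.sum_congr rfl fun p _ => ?_
  by_cases h : Γ.Adj p.1 p.2
  · simp [h]
  · simp [h]

open Classical in
private theorem good_card {r a : ℕ} (Γ : SimpleGraph (Fin r)) :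
    r ^ a ≤ (Finset.univ.filter (fun φ : Fin a → Fin r => Gd Γ φ)).card +
      a ^ 2 * miss Γ * r ^ (a - 2) := by
  have h1 : r ^ a = (Finset.univ.filter (fun φ : Fin a → Fin r => Gd Γ φ)).card +
      (Finset.univ.filter (fun φ : Fin a → Fin r => ¬ Gd Γ φ)).card := by
    rw [Finset.card_filter_add_card_filter_not, Finset.card_univ, Fintype.card_fun,
      Fintype.card_fin, Fintype.card_fin]
  rw [h1]
  refine Nat.add_le_add_left ?_ _
  rw [Finset.card_filter]
  calc ∑ φ : Fin a → Fin r, (if ¬ Gd Γ φ then 1 else 0)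
      ≤ ∑ φ : Fin a → Fin r, ∑ i, ∑ j, (if i ≠ j then (if Γ.Adj (φ i) (φ j) then 0 else 1)
          else 0) := by
        refine Finset.sum_le_sum fun φ _ => ?_
        by_cases h : Gd Γ φ
        · simp [h]
        · rw [if_pos h]
          unfold Gd at h
          push Not at h
          obtain ⟨i, j, hij, hA⟩ := h
          have e1 : (1 : ℕ) = (if i ≠ j then (if Γ.Adj (φ i) (φ j) then 0 else 1) else 0) := by
            rw [if_pos hij, if_neg hA]
          refine (le_of_eq e1).trans ?_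
          refine le_trans ?_ (Finset.single_le_sum (f := fun i => ∑ j, (if i ≠ j then
            (if Γ.Adj (φ i) (φ j) then 0 else 1) else 0)) (fun _ _ => Nat.zero_le _)
            (Finset.mem_univ i))
          exact Finset.single_le_sum (f := fun j => (if i ≠ j then
            (if Γ.Adj (φ i) (φ j) then 0 else 1) else 0)) (fun _ _ => Nat.zero_le _)
            (Finset.mem_univ j)
    _ = ∑ i : Fin a, ∑ j : Fin a, ∑ φ : Fin a → Fin r, (if i ≠ j then
          (if Γ.Adj (φ i) (φ j) then 0 else 1) else 0) := by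
        rw [Finset.sum_comm]
        refine Finset.sum_congr rfl fun i _ => ?_
        rw [Finset.sum_comm]
    _ ≤ ∑ i : Fin a, ∑ j : Fin a, r ^ (a - 2) * miss Γ := by
        refine Finset.sum_le_sum fun i _ => Finset.sum_le_sum fun j _ => ?_
        by_cases h : i = j
        · simp [h]
        · simp only [ne_eq, h, not_false_eq_true, if_true]
          rw [sum_two h (fun x y => if Γ.Adj x y then 0 else 1), miss_sum, Fintype.card_fin]
    _ = a ^ 2 * miss Γ * r ^ (a - 2) := by
        simp only [Finset.sum_const, Finset.card_univ, Fintype.card_fin, smul_eq_mul]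
        ring

open Classical in
private theorem card_df {a : ℕ} :
    ∑ i : Fin a, ∑ j : Fin a, ∑ k : Fin a, ∑ l : Fin a, (if Df i j k l then 1 else 0) =
      24 * a.choose 4 := by
  have key : ∀ s : Finset (Fin a), ∑ x, (if x ∉ s then 1 else 0) = a - s.card := by
    intro s
    rw [← Finset.card_filter, Finset.filter_notMem_eq_sdiff, Finset.card_sdiff_of_subset (Finset.subset_univ _),
      Finset.card_univ, Fintype.card_fin]
  have h1 : ∀ i j k : Fin a, i ≠ j → i ≠ k → j ≠ k →
      ∑ l : Fin a, (if Df i j k l then 1 else 0) = a - 3 := by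
    intro i j k hij hik hjk
    have hc : ({i, j, k} : Finset (Fin a)).card = 3 := by
      rw [Finset.card_insert_of_notMem, Finset.card_pair hjk]
      simp [hij, hik]
    rw [← hc, ← key]
    refine Finset.sum_congr rfl fun l _ => ?_
    congr 1
    simp only [Df, Finset.mem_insert, Finset.mem_singleton, eq_iff_iff, not_or]
    constructor
    · rintro ⟨-, -, h1, -, h2, h3⟩
      exact ⟨h1.symm, h2.symm, h3.symm⟩
    · rintro ⟨h1, h2, h3⟩
      exact ⟨hij, hik, Ne.symm h1, hjk, Ne.symm h2, Ne.symm h3⟩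
  have h2 : ∀ i j : Fin a, i ≠ j →
      ∑ k : Fin a, ∑ l : Fin a, (if Df i j k l then 1 else 0) = (a - 2) * (a - 3) := by
    intro i j hij
    have hc : ({i, j} : Finset (Fin a)).card = 2 := Finset.card_pair hij
    rw [← hc, ← key, Finset.sum_mul]
    refine Finset.sum_congr rfl fun k _ => ?_
    by_cases hk : k ∉ ({i, j} : Finset (Fin a))
    · rw [if_pos hk, one_mul]
      simp only [Finset.mem_insert, Finset.mem_singleton, not_or] at hk
      exact h1 i j k hij (Ne.symm hk.1) (Ne.symm hk.2)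
    · rw [if_neg hk, zero_mul]
      refine Finset.sum_eq_zero fun l _ => if_neg fun h => hk ?_
      simp only [Finset.mem_insert, Finset.mem_singleton, not_or]
      exact ⟨h.2.1.symm, h.2.2.2.1.symm⟩
  have h3 : ∀ i : Fin a, ∑ j : Fin a, ∑ k : Fin a, ∑ l : Fin a, (if Df i j k l then 1 else 0) =
      (a - 1) * ((a - 2) * (a - 3)) := by
    intro i
    have hc : ({i} : Finset (Fin a)).card = 1 := Finset.card_singleton i
    rw [← hc, ← key, Finset.sum_mul]
    refine Finset.sum_congr rfl fun j _ => ?_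
    by_cases hj : j ∉ ({i} : Finset (Fin a))
    · rw [if_pos hj, one_mul]
      rw [Finset.mem_singleton] at hj
      exact h2 i j (Ne.symm hj)
    · rw [if_neg hj, zero_mul]
      refine Finset.sum_eq_zero fun k _ => Finset.sum_eq_zero fun l _ => if_neg fun h => hj ?_
      rw [Finset.mem_singleton]
      exact h.1.symm
  rw [Finset.sum_congr rfl fun i _ => h3 i, Finset.sum_const, Finset.card_univ, Fintype.card_fin,
    smul_eq_mul]
  have h4 := Nat.descFactorial_eq_factorial_mul_choose a 4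
  have h5 : Nat.factorial 4 = 24 := rfl
  rw [h5] at h4
  rw [← h4]
  have h6 : a.descFactorial 4 = (a - 3) * ((a - 2) * ((a - 1) * ((a - 0) * 1))) := rfl
  rw [h6, Nat.sub_zero]
  ring

open Classical in
private theorem term_le {r a : ℕ} {Γ : SimpleGraph (Fin r)} (D : Drw Γ) (hD : D.NoAdj)
    {φ : Fin a → Fin r} (hφ : Gd Γ φ) (i j k l : Fin a) (hij : i ≠ j) (hkl : k ≠ l) :
    D.N s(φ i, φ j) s(φ k, φ l) ≤
      if Df i j k l then (if Γ.Adj (φ i) (φ j) then (if Γ.Adj (φ k) (φ l) then
        D.N s(φ i, φ j) s(φ k, φ l) else 0) else 0) else 0 := by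
  have key : ∀ x y z : Fin a, x ≠ y → x ≠ z → D.N s(φ x, φ y) s(φ x, φ z) = 0 := by
    intro x y z hxy hxz
    by_cases h : y = z
    · subst h
      exact D.N_self (hφ x y hxy)
    · exact hD _ _ _ (hφ x y hxy) (hφ x z hxz) (hφ y z h).ne
  by_cases h : Df i j k l
  · rw [if_pos h, if_pos (hφ i j hij), if_pos (hφ k l hkl)]
  · rw [if_neg h, Nat.le_zero]
    unfold Df at h
    by_cases h1 : i = k
    · subst h1
      exact key _ _ _ hij hkl
    by_cases h2 : i = l
    · subst h2
      rw [Sym2.eq_swap (a := φ k)]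
      exact key _ _ _ hij hkl.symm
    by_cases h3 : j = k
    · subst h3
      rw [Sym2.eq_swap (a := φ i)]
      exact key _ _ _ hij.symm hkl
    by_cases h4 : j = l
    · subst h4
      rw [Sym2.eq_swap (a := φ i), Sym2.eq_swap (a := φ k)]
      exact key _ _ _ hij.symm hkl.symm
    exact absurd ⟨hij, h1, h2, h3, h4, hkl⟩ h

open Classical in
private theorem good_le {r a : ℕ} {Γ : SimpleGraph (Fin r)} (D : Drw Γ) (hD : D.NoAdj)
    {φ : Fin a → Fin r} (hφ : Gd Γ φ) :
    4 * crK a ≤ ∑ i : Fin a, ∑ j : Fin a, ∑ k : Fin a, ∑ l : Fin a, (if Df i j k l then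
      (if Γ.Adj (φ i) (φ j) then (if Γ.Adj (φ k) (φ l) then
        D.N s(φ i, φ j) s(φ k, φ l) else 0) else 0) else 0) := by
  have hinj : Function.Injective φ := by
    intro i j hij
    by_contra h
    exact (hφ i j h).ne hij
  have h1 := crK_le_of_clique D φ hinj hφ
  have h2 : 4 * ∑ p ∈ ed (⊤ : SimpleGraph (Fin a)), ∑ q ∈ ed (⊤ : SimpleGraph (Fin a)),
      D.N (p.map φ) (q.map φ) = ∑ i : Fin a, ∑ j : Fin a, (if (⊤ : SimpleGraph (Fin a)).Adj i j
        then (∑ k : Fin a, ∑ l : Fin a, (if (⊤ : SimpleGraph (Fin a)).Adj k l then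
          D.N s(φ i, φ j) s(φ k, φ l) else 0)) else 0) := by
    have h3 := half (⊤ : SimpleGraph (Fin a)) (fun p => 2 *
      ∑ q ∈ ed (⊤ : SimpleGraph (Fin a)), D.N (p.map φ) (q.map φ))
    rw [← Finset.mul_sum, ← mul_assoc] at h3
    rw [show (4 : ℕ) = 2 * 2 from rfl, ← h3]
    refine Finset.sum_congr rfl fun i _ => Finset.sum_congr rfl fun j _ => ?_
    by_cases hij : (⊤ : SimpleGraph (Fin a)).Adj i j
    · rw [if_pos hij, if_pos hij]
      exact (half (⊤ : SimpleGraph (Fin a)) (fun q => D.N (s(i, j).map φ) (q.map φ))).symm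
    · rw [if_neg hij, if_neg hij]
  refine (Nat.mul_le_mul_left 4 h1).trans ?_
  rw [h2]
  refine Finset.sum_le_sum fun i _ => Finset.sum_le_sum fun j _ => ?_
  by_cases hij : (⊤ : SimpleGraph (Fin a)).Adj i j
  · rw [if_pos hij]
    refine Finset.sum_le_sum fun k _ => Finset.sum_le_sum fun l _ => ?_
    by_cases hkl : (⊤ : SimpleGraph (Fin a)).Adj k l
    · rw [if_pos hkl]
      exact term_le D hD hφ i j k l hij hkl
    · rw [if_neg hkl]
      exact Nat.zero_le _
  · rw [if_neg hij]
    exact Nat.zero_le _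

open Classical in
private theorem cr_sum {r : ℕ} {Γ : SimpleGraph (Fin r)} (D : Drw Γ) :
    ∑ x, ∑ y, ∑ z, ∑ w, (if Γ.Adj x y then (if Γ.Adj z w then D.N s(x, y) s(z, w) else 0)
      else 0) = 4 * D.cr := by
  have h3 := half Γ (fun e => 2 * ∑ f ∈ ed Γ, D.N e f)
  rw [← Finset.mul_sum, ← mul_assoc] at h3
  unfold Drw.cr
  rw [show (4 : ℕ) = 2 * 2 from rfl, ← h3]
  refine Finset.sum_congr rfl fun i _ => Finset.sum_congr rfl fun j _ => ?_
  by_cases hij : Γ.Adj i j
  · simp only [if_pos hij]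
    exact half Γ (fun f => D.N s(i, j) f)
  · simp only [if_neg hij]
    simp

open Classical in
private theorem nat_form {r a : ℕ} (Γ : SimpleGraph (Fin r)) (D : Drw Γ) (hD : D.NoAdj) :
    crK a * (Finset.univ.filter (fun φ : Fin a → Fin r => Gd Γ φ)).card ≤
      24 * a.choose 4 * r ^ (a - 4) * D.cr := by
  have h1 : 4 * crK a * (Finset.univ.filter (fun φ : Fin a → Fin r => Gd Γ φ)).card ≤
      24 * a.choose 4 * (r ^ (a - 4) * (4 * D.cr)) := by
    calc 4 * crK a * (Finset.univ.filter (fun φ : Fin a → Fin r => Gd Γ φ)).card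
        = ∑ φ ∈ Finset.univ.filter (fun φ : Fin a → Fin r => Gd Γ φ), 4 * crK a := by
          rw [Finset.sum_const, smul_eq_mul, mul_comm]
      _ ≤ ∑ φ ∈ Finset.univ.filter (fun φ : Fin a → Fin r => Gd Γ φ),
          ∑ i : Fin a, ∑ j : Fin a, ∑ k : Fin a, ∑ l : Fin a, (if Df i j k l then
            (if Γ.Adj (φ i) (φ j) then (if Γ.Adj (φ k) (φ l) then
              D.N s(φ i, φ j) s(φ k, φ l) else 0) else 0) else 0) := by
          refine Finset.sum_le_sum fun φ hφ => ?_
          exact good_le D hD (Finset.mem_filter.1 hφ).2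
      _ ≤ ∑ φ : Fin a → Fin r,
          ∑ i : Fin a, ∑ j : Fin a, ∑ k : Fin a, ∑ l : Fin a, (if Df i j k l then
            (if Γ.Adj (φ i) (φ j) then (if Γ.Adj (φ k) (φ l) then
              D.N s(φ i, φ j) s(φ k, φ l) else 0) else 0) else 0) :=
          Finset.sum_le_sum_of_subset (Finset.filter_subset _ _)
      _ = ∑ i : Fin a, ∑ j : Fin a, ∑ k : Fin a, ∑ l : Fin a, ∑ φ : Fin a → Fin r,
          (if Df i j k l then
            (if Γ.Adj (φ i) (φ j) then (if Γ.Adj (φ k) (φ l) then
              D.N s(φ i, φ j) s(φ k, φ l) else 0) else 0) else 0) := by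
          rw [Finset.sum_comm]
          refine Finset.sum_congr rfl fun i _ => ?_
          rw [Finset.sum_comm]
          refine Finset.sum_congr rfl fun j _ => ?_
          rw [Finset.sum_comm]
          refine Finset.sum_congr rfl fun k _ => ?_
          rw [Finset.sum_comm]
      _ = ∑ i : Fin a, ∑ j : Fin a, ∑ k : Fin a, ∑ l : Fin a,
          (if Df i j k l then 1 else 0) * (r ^ (a - 4) * (4 * D.cr)) := by
          refine Finset.sum_congr rfl fun i _ => Finset.sum_congr rfl fun j _ =>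
            Finset.sum_congr rfl fun k _ => Finset.sum_congr rfl fun l _ => ?_
          by_cases h : Df i j k l
          · simp only [if_pos h, one_mul]
            rw [sum_four h.1 h.2.1 h.2.2.1 h.2.2.2.1 h.2.2.2.2.1 h.2.2.2.2.2
              (fun x y z w => if Γ.Adj x y then (if Γ.Adj z w then D.N s(x, y) s(z, w) else 0)
                else 0), cr_sum, Fintype.card_fin]
          · simp only [if_neg h, zero_mul, Finset.sum_const_zero]
      _ = 24 * a.choose 4 * (r ^ (a - 4) * (4 * D.cr)) := by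
          simp only [← Finset.sum_mul]
          rw [card_df]
  have h2 : 4 * (crK a * (Finset.univ.filter (fun φ : Fin a → Fin r => Gd Γ φ)).card) ≤
      4 * (24 * a.choose 4 * r ^ (a - 4) * D.cr) := by
    calc _ = 4 * crK a * (Finset.univ.filter (fun φ : Fin a → Fin r => Gd Γ φ)).card := by ring
      _ ≤ _ := h1
      _ = _ := by ring
  exact Nat.le_of_mul_le_mul_left h2 (by norm_num)

theorem smpA {r a : ℕ} (ha : 4 ≤ a) (Γ : SimpleGraph (Fin r)) (D : Drw Γ) (hD : D.NoAdj) :
    (crK a : ℝ) * ((r : ℝ) ^ a - (a : ℝ) ^ 2 * (miss Γ : ℝ) * (r : ℝ) ^ (a - 2)) ≤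
      24 * (a.choose 4 : ℝ) * (r : ℝ) ^ (a - 4) * (D.cr : ℝ) := by
  classical
  have h1 : ((crK a * (Finset.univ.filter (fun φ : Fin a → Fin r => Gd Γ φ)).card : ℕ) : ℝ) ≤
      ((24 * a.choose 4 * r ^ (a - 4) * D.cr : ℕ) : ℝ) := by
    exact_mod_cast nat_form Γ D hD
  have h2 : ((r ^ a : ℕ) : ℝ) ≤ (((Finset.univ.filter (fun φ : Fin a → Fin r => Gd Γ φ)).card +
      a ^ 2 * miss Γ * r ^ (a - 2) : ℕ) : ℝ) := by
    exact_mod_cast good_card (a := a) Γ
  push_cast at h1 h2
  refine le_trans (mul_le_mul_of_nonneg_left ?_ (Nat.cast_nonneg _)) h1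
  linarith

end Pool.Agent.ALC
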