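import Pool.Agent.ALC.Defs
import Pool.Agent.ALB.Crit1

/-!
# ALC UMA: a maximal matching of the complement

PROOF.  `Pool.Agent.ALB.IsM Hᶜ φ`: `φ` is an involution with `¬ H.Adj x (φ x)`, `x ≠ φ x` for the
points which are not fixed; `fixn φ` is the number of fixed points (`ALB/GalDefs`).  Take such a
`φ` with `fixn φ` minimal (`id` is one) and `Q = {x | φ x ≠ x}`, `#Q = card V - fixn φ`.
`colorable_of_matching` (contrapositive, `j = r`) gives `2 r < card V + fixn φ`, and the sum is even
(`even_card_add_fixn`), so `2 (r + 1) ≤ card V + fixn φ` and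
`#Q + 2 (r + 1) ≤ 2 card V`.  If `x ≠ y` are fixed points with `¬ H.Adj x y` then the involution
which exchanges `x` and `y` and agrees with `φ` otherwise is also `IsM` and has two fixed points
less, a contradiction.
-/

set_option autoImplicit false

namespace Pool.Agent.ALC

open Pool.Agent.ALB

theorem exists_match {V : Type} [Fintype V] {H : SimpleGraph V} {r : ℕ}
    (h : ¬ H.Colorable r) : ∃ Q : Finset V, Q.card + 2 * (r + 1) ≤ 2 * Fintype.card V ∧
      ∀ x, x ∉ Q → ∀ y, y ∉ Q → x ≠ y → H.Adj x y := by
  classical
  have hne : ({φ | IsM Hᶜ φ} : Set (V → V)).Nonempty :=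
    ⟨id, fun _ => rfl, fun v hv => absurd rfl hv⟩
  obtain ⟨φ, hφ, hmin⟩ : ∃ φ : V → V, IsM Hᶜ φ ∧ ∀ ψ : V → V, IsM Hᶜ ψ → fixn φ ≤ fixn ψ := by
    refine ⟨Function.argminOn fixn {φ | IsM Hᶜ φ} hne, Function.argminOn_mem _ _ hne,
      fun ψ hψ => Function.argminOn_le fixn {φ | IsM Hᶜ φ} hψ⟩
  have h1 : 2 * r < Fintype.card V + fixn φ := by
    by_contra h2
    exact h (colorable_of_matching hφ (by omega))
  have h3 := even_card_add_fixn hφ
  have h4 : fixn φ = (Finset.univ.filter fun v => φ v = v).card := by
    unfold fixn
    congr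
  have h5 : (Finset.univ.filter fun v => φ v = v).card +
      (Finset.univ.filter fun v => ¬ φ v = v).card = Fintype.card V := by
    rw [Finset.card_filter_add_card_filter_not]
    exact Finset.card_univ
  refine ⟨Finset.univ.filter fun v => ¬ φ v = v, ?_, ?_⟩
  · obtain ⟨m, hm⟩ := h3
    omega
  · intro x hx y hy hxy
    have hx' : φ x = x := by
      by_contra h6
      exact hx (Finset.mem_filter.2 ⟨Finset.mem_univ _, h6⟩)
    have hy' : φ y = y := by
      by_contra h6
      exact hy (Finset.mem_filter.2 ⟨Finset.mem_univ _, h6⟩)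
    by_contra hadj
    let ψ : V → V := fun z => if z = x then y else if z = y then x else φ z
    have px : ψ x = y := if_pos rfl
    have py : ψ y = x := by
      show (if y = x then y else if y = y then x else φ y) = x
      rw [if_neg (Ne.symm hxy), if_pos rfl]
    have pz : ∀ z, z ≠ x → z ≠ y → ψ z = φ z := by
      intro z h6 h7
      show (if z = x then y else if z = y then x else φ z) = φ z
      rw [if_neg h6, if_neg h7]
    have hψ : IsM Hᶜ ψ := by
      constructor
      · intro z
        by_cases h6 : z = x
        · rw [h6, px, py]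
        by_cases h7 : z = y
        · rw [h7, py, px]
        rw [pz z h6 h7, pz, hφ.1 z]
        · intro h8
          apply h6
          rw [← hφ.1 z, h8, hx']
        · intro h8
          apply h7
          rw [← hφ.1 z, h8, hy']
      · intro z hz
        by_cases h6 : z = x
        · rw [h6, px]
          exact (SimpleGraph.compl_adj _ _ _).2 ⟨hxy, hadj⟩
        by_cases h7 : z = y
        · rw [h7, py]
          exact ((SimpleGraph.compl_adj _ _ _).2 ⟨hxy, hadj⟩).symm
        rw [pz z h6 h7] at hz ⊢
        exact hφ.2 z hz
    have h8 := hmin ψ hψ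
    have h9 : fixn ψ = (Finset.univ.filter fun v => ψ v = v).card := by
      unfold fixn
      congr
    have h10 : (Finset.univ.filter fun v => ψ v = v).card <
        (Finset.univ.filter fun v => φ v = v).card := by
      apply Finset.card_lt_card
      rw [Finset.ssubset_iff_of_subset]
      · refine ⟨x, Finset.mem_filter.2 ⟨Finset.mem_univ _, hx'⟩, fun h11 => ?_⟩
        have h12 := (Finset.mem_filter.1 h11).2
        rw [px] at h12
        exact hxy h12.symm
      · intro z hz
        have h11 := (Finset.mem_filter.1 hz).2
        refine Finset.mem_filter.2 ⟨Finset.mem_univ _, ?_⟩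
        by_cases h6 : z = x
        · rw [h6, px] at h11
          exact absurd h11.symm hxy
        by_cases h7 : z = y
        · rw [h7, py] at h11
          exact absurd h11 hxy
        rw [pz z h6 h7] at h11
        exact h11
    omega

end Pool.Agent.ALC
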