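import Pool.Agent.ALC.VzDefs

/-!
# ALC VZ1: exchanging two colours on a component

PROOF.  Call `x` marked if it is reachable from `u` in `Bij G c i j`.  Let
`c' e = Equiv.swap i j (c e)` if some vertex of `e` is marked, and `c' e = c e` otherwise.
Observation: if `G.Adj x y` and `c s(x,y) ∈ {i, j}` then `x` is marked iff `y` is.  So, if `x` is
marked, `c' s(x,y) = swap i j (c s(x,y))` for all `y` with `G.Adj x y`, and if `x` is not marked,
`c' s(x,y) = c s(x,y)` for all such `y` (if `y` is marked then `c s(x,y) ∉ {i, j}` is fixed by the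
swap).  Everything follows (`swap i j` maps `S` to `S`).
-/

set_option autoImplicit false

namespace Pool.Agent.ALC



private theorem swap_mem {S : Finset ℕ} {i j : ℕ} (hi : i ∈ S) (hj : j ∈ S) {k : ℕ} :
    Equiv.swap i j k ∈ S ↔ k ∈ S := by
  rw [Equiv.swap_apply_def]
  split_ifs with h1 h2
  · subst h1
    exact ⟨fun _ => hi, fun _ => hj⟩
  · subst h2
    exact ⟨fun _ => hj, fun _ => hi⟩
  · exact Iff.rfl

theorem swap_comp {V : Type} {G : SimpleGraph V} {c : Sym2 V → ℕ} {S : Finset ℕ}
    (h : EC G c S) {i j : ℕ} (hi : i ∈ S) (hj : j ∈ S) (u : V) :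
    ∃ c' : Sym2 V → ℕ, EC G c' S ∧
      (∀ x, (Bij G c i j).Reachable u x → ∀ k, Mi G c' S x k ↔ Mi G c S x (Equiv.swap i j k)) ∧
      (∀ x, ¬ (Bij G c i j).Reachable u x → ∀ k, Mi G c' S x k ↔ Mi G c S x k) := by
  classical
  have hmk : ∀ x y, G.Adj x y → (c s(x, y) = i ∨ c s(x, y) = j) →
      (Bij G c i j).Reachable u x → (Bij G c i j).Reachable u y := by
    intro x y hxy hc hx
    have hadj : (Bij G c i j).Adj x y := ⟨hxy, hc⟩
    exact hx.trans hadj.reachable
  obtain ⟨c', hc'⟩ : ∃ c' : Sym2 V → ℕ, ∀ e, c' e =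
      if ∃ z ∈ e, (Bij G c i j).Reachable u z then Equiv.swap i j (c e) else c e :=
    ⟨fun e => if ∃ z ∈ e, (Bij G c i j).Reachable u z then Equiv.swap i j (c e) else c e,
      fun _ => rfl⟩
  have K1 : ∀ x y, (Bij G c i j).Reachable u x → c' s(x, y) = Equiv.swap i j (c s(x, y)) := by
    intro x y hx
    rw [hc', if_pos ⟨x, Sym2.mem_mk_left x y, hx⟩]
  have K2 : ∀ x y, G.Adj x y → ¬ (Bij G c i j).Reachable u x → c' s(x, y) = c s(x, y) := by
    intro x y hxy hx
    by_cases hy : (Bij G c i j).Reachable u y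
    · have hn : ¬ (c s(x, y) = i ∨ c s(x, y) = j) := by
        intro hn
        refine hx (hmk y x hxy.symm ?_ hy)
        rw [Sym2.eq_swap]
        exact hn
      push Not at hn
      rw [hc', if_pos ⟨y, Sym2.mem_mk_right x y, hy⟩, Equiv.swap_apply_of_ne_of_ne hn.1 hn.2]
    · rw [hc', if_neg]
      rintro ⟨z, hz, hz'⟩
      rw [Sym2.mem_iff] at hz
      rcases hz with rfl | rfl
      · exact hx hz'
      · exact hy hz'
  refine ⟨c', ⟨?_, ?_⟩, ?_, ?_⟩
  · intro x y hxy
    by_cases hx : (Bij G c i j).Reachable u x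
    · rw [K1 x y hx, swap_mem hi hj]
      exact h.mem x y hxy
    · rw [K2 x y hxy hx]
      exact h.mem x y hxy
  · intro x y z hxy hxz hyz
    by_cases hx : (Bij G c i j).Reachable u x
    · rw [K1 x y hx, K1 x z hx]
      exact fun h' => h.ne x y z hxy hxz hyz ((Equiv.swap i j).injective h')
    · rw [K2 x y hxy hx, K2 x z hxz hx]
      exact h.ne x y z hxy hxz hyz
  · intro x hx k
    unfold Mi
    rw [swap_mem hi hj]
    refine and_congr Iff.rfl (forall_congr' fun y => forall_congr' fun hxy => not_congr ?_)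
    rw [K1 x y hx]
    constructor
    · rintro rfl
      rw [Equiv.swap_apply_self]
    · intro h'
      rw [h', Equiv.swap_apply_self]
  · intro x hx k
    unfold Mi
    refine and_congr Iff.rfl (forall_congr' fun y => forall_congr' fun hxy => not_congr ?_)
    rw [K2 x y hxy hx]

end Pool.Agent.ALC
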