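import Pool.Agent.ALC.VzDefs

/-!
# ALC VZ2: a component of two colours misses at most two colours

PROOF.  Let `B = Bij G c i j`, `K` the set of the vertices reachable from `u` in `B`.  In `B` a
vertex `x` has at most one neighbour by an edge of colour `i` and at most one by an edge of colour
`j` (`h.ne`), so its degree plus `[Mi G c S x i] + [Mi G c S x j]` is at most `2`.  The graph `B`
induced on `K` is connected (`SimpleGraph.ConnectedComponent`; for instance
`(B.connectedComponentMk u).toSimpleGraph` or `B.induce K`), so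
`#K ≤ #(edges of B in K) + 1`
(`SimpleGraph.Connected.card_vert_le_card_edgeSet_add_one`), and the sum of the degrees over `K`
is twice the number of these edges (`sum_degrees_eq_twice_card_edges`), hence `≥ 2 #K - 2`.  So
`∑_{x ∈ K} ([Mi x i] + [Mi x j]) ≤ 2 #K - (2 #K - 2) = 2`.
-/

set_option autoImplicit false

namespace Pool.Agent.ALC



private theorem nb_le {V : Type} [Fintype V] {G : SimpleGraph V} {c : Sym2 V → ℕ} {S : Finset ℕ}
    (h : EC G c S) (x : V) (k : ℕ) [DecidablePred (fun y => G.Adj x y ∧ c s(x, y) = k)] [Decidable (Mi G c S x k)] :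
    (Finset.univ.filter (fun y => G.Adj x y ∧ c s(x, y) = k)).card + (if Mi G c S x k then 1 else 0) ≤ 1 := by
  have h1 : (Finset.univ.filter (fun y => G.Adj x y ∧ c s(x, y) = k)).card ≤ 1 := by
    rw [Finset.card_le_one]
    intro y hy z hz
    rw [Finset.mem_filter] at hy hz
    by_contra hyz
    exact h.ne x y z hy.2.1 hz.2.1 hyz (hy.2.2.trans hz.2.2.symm)
  split_ifs with hM
  · have h2 : Finset.univ.filter (fun y => G.Adj x y ∧ c s(x, y) = k) = ∅ := by
      rw [Finset.filter_eq_empty_iff]
      intro y _ hy
      exact hM.2 y hy.1 hy.2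
    rw [h2, Finset.card_empty]
  · omega

theorem comp_le {V : Type} [Fintype V] {G : SimpleGraph V} {c : Sym2 V → ℕ} {S : Finset ℕ}
    (h : EC G c S) {i j : ℕ} (hij : i ≠ j) (u : V) :
    {x | (Bij G c i j).Reachable u x ∧ Mi G c S x i}.ncard +
      {x | (Bij G c i j).Reachable u x ∧ Mi G c S x j}.ncard ≤ 2 := by
  classical
  let B := Bij G c i j
  let K := B.connectedComponentMk u
  have hcon : K.toSimpleGraph.Connected := K.connected_toSimpleGraph
  have h1 := hcon.card_vert_le_card_edgeSet_add_one
  have h2 := K.toSimpleGraph.sum_degrees_eq_twice_card_edges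
  have hdeg : ∀ x : K, K.toSimpleGraph.degree x + (if Mi G c S (x : V) i then 1 else 0) +
      (if Mi G c S (x : V) j then 1 else 0) ≤ 2 := by
    intro x
    have e1 := nb_le h (x : V) i
    have e2 := nb_le h (x : V) j
    have e3 : K.toSimpleGraph.degree x ≤ (Finset.univ.filter (fun y => G.Adj (x : V) y ∧ c s((x : V), y) = i)).card +
        (Finset.univ.filter (fun y => G.Adj (x : V) y ∧ c s((x : V), y) = j)).card := by
      refine le_trans ?_ (Finset.card_union_le _ _)
      rw [← SimpleGraph.card_neighborFinset_eq_degree]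
      refine Finset.card_le_card_of_injOn (fun y : K => (y : V)) ?_ (fun a _ b _ hab => Subtype.ext hab)
      intro y hy
      rw [Finset.mem_coe, SimpleGraph.mem_neighborFinset] at hy
      have hy' : B.Adj (x : V) (y : V) := hy
      rw [Finset.mem_coe, Finset.mem_union, Finset.mem_filter, Finset.mem_filter]
      rcases hy'.2 with h3 | h3
      · exact Or.inl ⟨Finset.mem_univ _, hy'.1, h3⟩
      · exact Or.inr ⟨Finset.mem_univ _, hy'.1, h3⟩
    omega
  have hnc : ∀ k : ℕ, {x | (Bij G c i j).Reachable u x ∧ Mi G c S x k}.ncard =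
      ∑ x : K, (if Mi G c S (x : V) k then 1 else 0) := by
    intro k
    rw [← Finset.card_filter, ← Set.ncard_coe_finset]
    rw [← Set.ncard_image_of_injective _ (Subtype.val_injective (p := fun x => x ∈ K))]
    congr 1
    ext x
    simp only [Set.mem_setOf_eq, Finset.coe_filter, Finset.mem_univ, true_and, Set.mem_image, Subtype.exists,
      exists_and_right, exists_eq_right]
    constructor
    · rintro ⟨h3, h4⟩
      exact ⟨SimpleGraph.ConnectedComponent.sound h3.symm, h4⟩
    · rintro ⟨h3, h4⟩
      exact ⟨(SimpleGraph.ConnectedComponent.exact h3).symm, h4⟩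
  rw [hnc i, hnc j]
  have h3 : ∑ x : K, (K.toSimpleGraph.degree x + (if Mi G c S (x : V) i then 1 else 0) +
      (if Mi G c S (x : V) j then 1 else 0)) ≤ ∑ _x : K, 2 := Finset.sum_le_sum fun x _ => hdeg x
  rw [Finset.sum_add_distrib, Finset.sum_add_distrib, h2] at h3
  rw [Finset.sum_const, Finset.card_univ, smul_eq_mul] at h3
  rw [Nat.card_eq_fintype_card, Nat.card_eq_fintype_card, ← SimpleGraph.edgeFinset_card] at h1
  omega

end Pool.Agent.ALC
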