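import Pool.Agent.ALC.Vz1
import Pool.Agent.ALC.Vz2

/-!
# ALC VZ3: balancing the missing colours

PROOF.  For a pair `(c, M)` with the properties in `hex` let `X k = #{u ∈ N | k ∈ M u}`.  Choose
`(c, M)` with `∑_{k ∈ S} (X k)^2` minimal (values in `ℕ`).  Suppose `X i ≥ X j + 3` for some
`i, j ∈ S` (then `i ≠ j`).  Let `B = Bij G c i j`.  Every `u` is in exactly one connected component
of `B`; for a component `K` let `X i K = #{u ∈ N ∩ K | i ∈ M u}`.  As `∑_K X i K = X i > X j = ∑_K X j K`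
(`Finset.sum_fiberwise`/`card_eq_sum_card_fiberwise` over `B.connectedComponentMk`) there is a `K`
with `X i K > X j K`, and `X i K + X j K ≤ 2` by `comp_le` (`i ∈ M u` implies `Mi G c S u i`); so
`t = X i K - X j K` is `1` or `2`.  Take `c'` from `swap_comp` for this component (`u` any vertex of
`K`) and `M' u = (M u).image (Equiv.swap i j)` for `u ∈ K`, `M' u = M u` for `u ∉ K`.  `(c', M')` has
the same properties, `X' i = X i - t`, `X' j = X j + t` and `X' k = X k` for the other `k`; the sum of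
the squares changes by `-2 t (X i - X j - t) < 0`, a contradiction.
-/

set_option autoImplicit false

namespace Pool.Agent.ALC



theorem balance {V : Type} [Fintype V] {G : SimpleGraph V} {S : Finset ℕ} (N : Finset V)
    (w : V → ℕ)
    (hex : ∃ (c : Sym2 V → ℕ) (M : V → Finset ℕ), EC G c S ∧
      ∀ u ∈ N, (M u).card = w u ∧ ∀ i ∈ M u, Mi G c S u i) :
    ∃ (c : Sym2 V → ℕ) (M : V → Finset ℕ), EC G c S ∧
      (∀ u ∈ N, (M u).card = w u ∧ ∀ i ∈ M u, Mi G c S u i) ∧
      ∀ i ∈ S, ∀ j ∈ S, {u | u ∈ N ∧ i ∈ M u}.ncard ≤ {u | u ∈ N ∧ j ∈ M u}.ncard + 2 := by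
  classical
  -- minimal pair
  let X : (V → Finset ℕ) → ℕ → ℕ := fun M k => (N.filter fun u => k ∈ M u).card
  let P : ℕ → Prop := fun n => ∃ (c : Sym2 V → ℕ) (M : V → Finset ℕ), EC G c S ∧
      (∀ u ∈ N, (M u).card = w u ∧ ∀ i ∈ M u, Mi G c S u i) ∧ ∑ k ∈ S, X M k ^ 2 = n
  have hP : ∃ n, P n := by
    obtain ⟨c, M, h1, h2⟩ := hex
    exact ⟨_, c, M, h1, h2, rfl⟩
  obtain ⟨c, M, hc, hM, hn⟩ := Nat.find_spec hP
  have hmin : ∀ m, m < Nat.find hP → ¬ P m := fun m hm => Nat.find_min hP hm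
  refine ⟨c, M, hc, hM, ?_⟩
  intro i hi j hj
  have hX : ∀ k, {u | u ∈ N ∧ k ∈ M u}.ncard = X M k := by
    intro k
    have : {u | u ∈ N ∧ k ∈ M u} = ((N.filter fun u => k ∈ M u : Finset V) : Set V) := by
      ext u
      simp
    rw [this, Set.ncard_coe_finset]
  rw [hX i, hX j]
  by_contra hcon
  have hge : X M j + 3 ≤ X M i := by omega
  have hij : i ≠ j := by
    rintro rfl
    omega
  -- a component with more `i` than `j`
  let cp : V → (Bij G c i j).ConnectedComponent := (Bij G c i j).connectedComponentMk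
  have hfib : ∀ k, X M k = ∑ K ∈ N.image cp, ((N.filter fun u => k ∈ M u).filter
      fun u => cp u = K).card := by
    intro k
    refine Finset.card_eq_sum_card_fiberwise ?_
    intro x hx
    exact Finset.mem_image_of_mem cp (Finset.mem_filter.mp hx).1
  obtain ⟨K, hK, hlt⟩ : ∃ K ∈ N.image cp,
      ((N.filter fun u => j ∈ M u).filter fun u => cp u = K).card <
        ((N.filter fun u => i ∈ M u).filter fun u => cp u = K).card := by
    apply Finset.exists_lt_of_sum_lt
    rw [← hfib, ← hfib]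
    omega
  obtain ⟨u0, hu0, rfl⟩ := Finset.mem_image.mp hK
  have hcp : ∀ x, cp x = cp u0 ↔ (Bij G c i j).Reachable u0 x := by
    intro x
    rw [SimpleGraph.ConnectedComponent.eq]
    exact ⟨fun h => h.symm, fun h => h.symm⟩
  have hle := comp_le hc hij u0
  have hsub : ∀ k, ((N.filter fun u => k ∈ M u).filter fun u => cp u = cp u0).card ≤
      {x | (Bij G c i j).Reachable u0 x ∧ Mi G c S x k}.ncard := by
    intro k
    rw [← Set.ncard_coe_finset]
    refine Set.ncard_le_ncard ?_ (Set.toFinite _)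
    intro x hx
    have hx1 := Finset.mem_filter.mp (Finset.mem_coe.mp hx)
    have hx2 := Finset.mem_filter.mp hx1.1
    exact ⟨(hcp x).mp hx1.2, (hM x hx2.1).2 k hx2.2⟩
  have hai := hsub i
  have haj := hsub j
  -- the exchange
  obtain ⟨c', hc', hin, hout⟩ := swap_comp hc hi hj u0
  let M' : V → Finset ℕ := fun u =>
    if (Bij G c i j).Reachable u0 u then (M u).image (Equiv.swap i j) else M u
  have hM'in : ∀ u, (Bij G c i j).Reachable u0 u → ∀ k, k ∈ M' u ↔ Equiv.swap i j k ∈ M u := by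
    intro u hu k
    have : M' u = (M u).image (Equiv.swap i j) := if_pos hu
    rw [this, Finset.mem_image]
    constructor
    · rintro ⟨l, hl, rfl⟩
      rwa [Equiv.swap_apply_self]
    · intro h
      exact ⟨_, h, Equiv.swap_apply_self i j k⟩
  have hM'out : ∀ u, ¬ (Bij G c i j).Reachable u0 u → M' u = M u := fun u hu => if_neg hu
  have hM' : ∀ u ∈ N, (M' u).card = w u ∧ ∀ k ∈ M' u, Mi G c' S u k := by
    intro u hu
    by_cases hr : (Bij G c i j).Reachable u0 u
    · constructor
      · have : M' u = (M u).image (Equiv.swap i j) := if_pos hr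
        rw [this, Finset.card_image_of_injective _ (Equiv.injective _)]
        exact (hM u hu).1
      · intro k hk
        rw [hM'in u hr] at hk
        exact (hin u hr k).mpr ((hM u hu).2 _ hk)
    · rw [hM'out u hr]
      refine ⟨(hM u hu).1, fun k hk => ?_⟩
      exact (hout u hr k).mpr ((hM u hu).2 k hk)
  -- counting
  have hsplit : ∀ (L : V → Finset ℕ) (k : ℕ), X L k =
      ((N.filter fun u => k ∈ L u).filter fun u => cp u = cp u0).card +
      ((N.filter fun u => k ∈ L u).filter fun u => ¬ cp u = cp u0).card := by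
    intro L k
    exact (Finset.card_filter_add_card_filter_not _).symm
  have hIn : ∀ k, ((N.filter fun u => k ∈ M' u).filter fun u => cp u = cp u0) =
      ((N.filter fun u => Equiv.swap i j k ∈ M u).filter fun u => cp u = cp u0) := by
    intro k
    ext u
    simp only [Finset.mem_filter]
    constructor
    · rintro ⟨⟨h1, h2⟩, h3⟩
      exact ⟨⟨h1, (hM'in u ((hcp u).mp h3) k).mp h2⟩, h3⟩
    · rintro ⟨⟨h1, h2⟩, h3⟩
      exact ⟨⟨h1, (hM'in u ((hcp u).mp h3) k).mpr h2⟩, h3⟩
  have hOut : ∀ k, ((N.filter fun u => k ∈ M' u).filter fun u => ¬ cp u = cp u0) =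
      ((N.filter fun u => k ∈ M u).filter fun u => ¬ cp u = cp u0) := by
    intro k
    ext u
    simp only [Finset.mem_filter]
    constructor
    · rintro ⟨⟨h1, h2⟩, h3⟩
      rw [hM'out u (fun h => h3 ((hcp u).mpr h))] at h2
      exact ⟨⟨h1, h2⟩, h3⟩
    · rintro ⟨⟨h1, h2⟩, h3⟩
      rw [← hM'out u (fun h => h3 ((hcp u).mpr h))] at h2
      exact ⟨⟨h1, h2⟩, h3⟩
  have hXk : ∀ k, k ≠ i → k ≠ j → X M' k = X M k := by
    intro k hki hkj
    rw [hsplit M' k, hsplit M k, hIn, hOut, Equiv.swap_apply_of_ne_of_ne hki hkj]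
  have hXi' := hsplit M' i
  have hXi := hsplit M i
  have hXj' := hsplit M' j
  have hXj := hsplit M j
  rw [hIn, hOut, Equiv.swap_apply_left] at hXi'
  rw [hIn, hOut, Equiv.swap_apply_right] at hXj'
  have hsum : ∀ L : V → Finset ℕ, ∑ k ∈ S, X L k ^ 2 =
      X L i ^ 2 + (X L j ^ 2 + ∑ k ∈ (S.erase i).erase j, X L k ^ 2) := by
    intro L
    rw [← Finset.add_sum_erase S _ hi,
      ← Finset.add_sum_erase (S.erase i) _ (Finset.mem_erase.mpr ⟨hij.symm, hj⟩)]
  have hrest : ∑ k ∈ (S.erase i).erase j, X M' k ^ 2 =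
      ∑ k ∈ (S.erase i).erase j, X M k ^ 2 := by
    refine Finset.sum_congr rfl fun k hk => ?_
    have hk1 := Finset.mem_erase.mp hk
    have hk2 := Finset.mem_erase.mp hk1.2
    rw [hXk k hk2.1 hk1.1]
  have hlt2 : ∑ k ∈ S, X M' k ^ 2 < Nat.find hP := by
    rw [← hn, hsum M', hsum M, hrest]
    generalize ((N.filter fun u => i ∈ M u).filter fun u => cp u = cp u0).card = a at *
    generalize ((N.filter fun u => j ∈ M u).filter fun u => cp u = cp u0).card = b at *
    generalize ((N.filter fun u => i ∈ M u).filter fun u => ¬ cp u = cp u0).card = a' at *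
    generalize ((N.filter fun u => j ∈ M u).filter fun u => ¬ cp u = cp u0).card = b' at *
    rw [hXi', hXj', hXi, hXj]
    rw [hXi, hXj] at hge
    have hab : a + b ≤ 2 := by omega
    obtain ⟨t, rfl⟩ : ∃ t, a = b + t := ⟨a - b, by omega⟩
    have ht : 1 ≤ t := by omega
    have ht2 : t ≤ 2 := by omega
    nlinarith [mul_le_mul ht (show b + b' + 3 ≤ b + t + a' from hge) (by omega) (by omega)]
  exact hmin _ hlt2 ⟨c', M', hc', hM', rfl⟩

end Pool.Agent.ALC
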