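import Pool.Agent.ALC.Vz3

/-!
# ALC VZ4: adding a vertex

PROOF (Schrijver, Combinatorial Optimization, proof of Theorem 28.2).  Induction on `n`.
`N = {x | G.Adj v x}` (as a finset).  If `N = ∅` then `dl G v = G` and there is nothing to show
(this covers `n = 0`).  Let `n = n' + 1`.  We may assume that `u₀ ∈ N` (if not, replace `u₀` by any
element of `N`; the hypothesis remains true).
(1) Let `w u₀ = 1` and `w u = 2` for `u ≠ u₀`.  `hex` of `balance` for the graph `dl G v`: a vertex
`u ∈ N` has degree `deg_G u - 1` in `dl G v`; the colours at `u` are different, so exactly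
`n - (deg_G u - 1)` colours of `S` are missing at `u`: at least `2` for `u ≠ u₀` and at least `1` for
`u = u₀`.  Choose `M u` of the right size among them.
(2) `balance` gives `c, M`; let `X i = #{u ∈ N | i ∈ M u}`.  `∑_{i ∈ S} X i = ∑_{u ∈ N} #(M u) =
2 #N - 1 ≤ 2 n - 1` is odd, and `#S = n`.
There is an `i ∈ S` with `X i = 1`: some `X i` is odd; if it is not `1` it is at least `3`, so all
`X j ≥ 1`; if no `X j` is `1` then all `X j ≥ 2` and the sum is at least `2 n`, a contradiction.
(3) Let `u` be the only element of `N` with `i ∈ M u`.  Let `G'` be `G` without the edge `s(v, u)` and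
without the edges `s(x,y)` of `dl G v` with `c s(x,y) = i`, i.e. `G'.Adj x y` iff `G.Adj x y` and
`¬ (x, y ≠ v and c s(x,y) = i)` and `s(x,y) ≠ s(v,u)`.  Induction hypothesis for `G'`, `v`, `u₀`,
`S.erase i`, `n'`:
* the degree of `v` in `G'` is `#N - 1 ≤ n'`;
* let `x` be a neighbour of `v` in `G'`, so `x ∈ N`, `x ≠ u`, `i ∉ M x`.  If the colour `i` occurs at
  `x` in `dl G v` then `deg_{G'} x = deg_G x - 1` which is `≤ n'`, and `≤ n' - 1` for `x ≠ u₀`.
  Otherwise `i ∉ M x` is missing at `x` as well as the `w x` colours of `M x`, so at least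
  `w x + 1` colours are missing and `deg_{dl G v} x ≤ n - w x - 1`, `deg_{G'} x ≤ deg_G x ≤ n - w x`,
  which is `n' ` for `x = u₀` and `n' - 1` for `x ≠ u₀`;
* `c` is a colouring of `dl G' v` with colours in `S.erase i`.
So there is a colouring `c'` of `G'` with colours in `S.erase i`.  The colouring of `G`: `i` on
`s(v, u)` and on the edges of `dl G v` of colour `i`, and `c'` on the others.  Two edges of colour
`i` do not meet: the edges of colour `i` of `c` form a matching avoiding `v`, and `i` is missing at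
`u` (`i ∈ M u`).
-/

set_option autoImplicit false

namespace Pool.Agent.ALC



private theorem miss_lb {V : Type} [Fintype V] (H : SimpleGraph V) (c : Sym2 V → ℕ)
    (S : Finset ℕ) (x : V) [DecidablePred fun i => Mi H c S x i] :
    S.card ≤ {y | H.Adj x y}.ncard + (S.filter fun i => Mi H c S x i).card := by
  classical
  have h1 : S ⊆ (Set.toFinite {y | H.Adj x y}).toFinset.image (fun y => c s(x, y)) ∪
      S.filter fun i => Mi H c S x i := by
    intro i hi
    rw [Finset.mem_union, Finset.mem_image, Finset.mem_filter]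
    by_cases h : Mi H c S x i
    · exact Or.inr ⟨hi, h⟩
    · left
      have h2 : ¬ ∀ y, H.Adj x y → c s(x, y) ≠ i := fun h3 => h ⟨hi, h3⟩
      push Not at h2
      obtain ⟨y, hy, hyi⟩ := h2
      exact ⟨y, (Set.Finite.mem_toFinset _).2 hy, hyi⟩
  refine (Finset.card_le_card h1).trans ((Finset.card_union_le _ _).trans ?_)
  refine Nat.add_le_add_right (Finset.card_image_le.trans ?_) _
  rw [Set.ncard_eq_toFinset_card _ (Set.toFinite _)]

private theorem miss_ub {V : Type} [Fintype V] {H : SimpleGraph V} {c : Sym2 V → ℕ}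
    {S : Finset ℕ} (hc : EC H c S) (x : V) (W : Finset ℕ) (hW : ∀ i ∈ W, Mi H c S x i) :
    {y | H.Adj x y}.ncard + W.card ≤ S.card := by
  classical
  rw [Set.ncard_eq_toFinset_card _ (Set.toFinite _)]
  have h1 : Set.InjOn (fun y => c s(x, y)) ((Set.toFinite {y | H.Adj x y}).toFinset : Set V) := by
    intro y hy z hz hyz
    rw [Set.Finite.coe_toFinset] at hy hz
    by_contra hne
    exact hc.ne x y z hy hz hne hyz
  rw [← Finset.card_image_of_injOn h1, ← Finset.card_union_of_disjoint]
  · apply Finset.card_le_card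
    intro i hi
    rw [Finset.mem_union, Finset.mem_image] at hi
    rcases hi with ⟨y, hy, rfl⟩ | hi
    · exact hc.mem x y ((Set.Finite.mem_toFinset _).1 hy)
    · exact (hW i hi).1
  · rw [Finset.disjoint_left]
    intro i hi hiW
    rw [Finset.mem_image] at hi
    obtain ⟨y, hy, rfl⟩ := hi
    exact (hW _ hiW).2 y ((Set.Finite.mem_toFinset _).1 hy) rfl

private theorem exists_one (n m : ℕ) (S : Finset ℕ) (Y : ℕ → ℕ) (hS : S.card = n) (hm : m + 1 ≤ 2 * n)
    (hodd : ¬ Even m) (hsum : ∑ i ∈ S, Y i = m) (hb : ∀ i ∈ S, ∀ j ∈ S, Y i ≤ Y j + 2) :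
    ∃ i ∈ S, Y i = 1 := by
  by_contra hno
  push Not at hno
  have h1 : ∃ i ∈ S, ¬ Even (Y i) := by
    by_contra h2
    push Not at h2
    apply hodd
    rw [← hsum]
    exact Finset.even_sum _ h2
  obtain ⟨i₀, hi₀, ho⟩ := h1
  have h3 : 3 ≤ Y i₀ := by
    have h4 := hno i₀ hi₀
    rcases Nat.lt_or_ge (Y i₀) 3 with h5 | h5
    · exfalso
      have h6 : Y i₀ = 0 ∨ Y i₀ = 2 := by omega
      rcases h6 with h6 | h6
      · exact ho (by rw [h6]; exact ⟨0, rfl⟩)
      · exact ho (by rw [h6]; exact ⟨1, rfl⟩)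
    · exact h5
  have h4 : ∀ j ∈ S, 2 ≤ Y j := by
    intro j hj
    have h5 := hb i₀ hi₀ j hj
    have h6 := hno j hj
    omega
  have h5 : S.card • 2 ≤ ∑ i ∈ S, Y i := Finset.card_nsmul_le_sum S Y 2 h4
  rw [hsum, hS, smul_eq_mul] at h5
  omega

theorem vz_step : ∀ (n : ℕ) (V : Type) (_ : Fintype V) (G : SimpleGraph V) (v u₀ : V)
    (S : Finset ℕ), S.card = n → {x | G.Adj v x}.ncard ≤ n →
    (∀ x, G.Adj v x → {y | G.Adj x y}.ncard ≤ n ∧ (x ≠ u₀ → {y | G.Adj x y}.ncard + 1 ≤ n)) →
    (∃ c, EC (dl G v) c S) → ∃ c, EC G c S := by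
  classical
  intro n
  induction n with
  | zero =>
    intro V _ G v u₀ S _ hN _ hc
    obtain ⟨c, hc⟩ := hc
    have h0 : ∀ x, ¬ G.Adj v x := by
      intro x hx
      have h1 : {x | G.Adj v x}.ncard = 0 := Nat.le_zero.1 hN
      rw [Set.ncard_eq_zero (Set.toFinite _)] at h1
      have h2 : x ∈ ({x | G.Adj v x} : Set V) := hx
      rw [h1] at h2
      exact h2
    have h1 : ∀ x y, G.Adj x y → (dl G v).Adj x y := by
      intro x y hxy
      refine ⟨hxy, ?_, ?_⟩
      · rintro rfl
        exact h0 y hxy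
      · rintro rfl
        exact h0 x hxy.symm
    exact ⟨c, fun x y hxy => hc.mem x y (h1 x y hxy),
      fun x y z hxy hxz hne => hc.ne x y z (h1 x y hxy) (h1 x z hxz) hne⟩
  | succ n' ih =>
    intro V instV G v u₀ S hS hN hdeg hc
    by_cases hex : ∃ x, G.Adj v x
    swap
    · obtain ⟨c, hc⟩ := hc
      have h0 : ∀ x, ¬ G.Adj v x := fun x hx => hex ⟨x, hx⟩
      have h1 : ∀ x y, G.Adj x y → (dl G v).Adj x y := by
        intro x y hxy
        refine ⟨hxy, ?_, ?_⟩
        · rintro rfl
          exact h0 y hxy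
        · rintro rfl
          exact h0 x hxy.symm
      exact ⟨c, fun x y hxy => hc.mem x y (h1 x y hxy),
        fun x y z hxy hxz hne => hc.ne x y z (h1 x y hxy) (h1 x z hxz) hne⟩
    -- we may assume that `u₀` is a neighbour
    obtain ⟨r, hr, hdeg'⟩ : ∃ r, G.Adj v r ∧ ∀ x, G.Adj v x → {y | G.Adj x y}.ncard ≤ n' + 1 ∧
        (x ≠ r → {y | G.Adj x y}.ncard + 1 ≤ n' + 1) := by
      by_cases hu : G.Adj v u₀
      · exact ⟨u₀, hu, hdeg⟩
      · obtain ⟨x₀, hx₀⟩ := hex
        refine ⟨x₀, hx₀, fun x hx => ⟨(hdeg x hx).1, fun _ => (hdeg x hx).2 ?_⟩⟩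
        rintro rfl
        exact hu hx
    obtain ⟨N, hNdef⟩ : ∃ N : Finset V, N = Finset.univ.filter (fun x => G.Adj v x) := ⟨_, rfl⟩
    have hNm : ∀ x, x ∈ N ↔ G.Adj v x := by
      intro x
      rw [hNdef, Finset.mem_filter]
      exact ⟨fun h => h.2, fun h => ⟨Finset.mem_univ x, h⟩⟩
    have hNc : N.card ≤ n' + 1 := by
      have h1 : ({x | G.Adj v x} : Set V) = (N : Set V) := by
        ext x
        rw [Finset.mem_coe, hNm]
        rfl
      rwa [h1, Set.ncard_coe_finset] at hN
    obtain ⟨w, hw⟩ : ∃ w : V → ℕ, w = fun x => if x = r then 1 else 2 := ⟨_, rfl⟩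
    have hwr : w r = 1 := by
      rw [hw]
      exact if_pos rfl
    have hwn : ∀ x, x ≠ r → w x = 2 := by
      intro x hx
      rw [hw]
      exact if_neg hx
    -- degrees in `dl G v`
    have hdl : ∀ x, G.Adj v x → {y | (dl G v).Adj x y}.ncard + 1 = {y | G.Adj x y}.ncard := by
      intro x hx
      have h1 : ({y | (dl G v).Adj x y} : Set V) = {y | G.Adj x y} \ {v} := by
        ext y
        constructor
        · rintro ⟨h2, _, h3⟩
          exact ⟨h2, h3⟩
        · rintro ⟨h2, h3⟩
          exact ⟨h2, hx.ne', h3⟩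
      rw [h1]
      exact Set.ncard_sdiff_singleton_add_one (show v ∈ {y | G.Adj x y} from hx.symm)
        (Set.toFinite _)
    have hbal := balance (G := dl G v) (S := S) N w ?_
    swap
    · obtain ⟨c, hc⟩ := hc
      have h1 : ∀ x, ∃ M : Finset ℕ, x ∈ N → M.card = w x ∧ ∀ i ∈ M, Mi (dl G v) c S x i := by
        intro x
        by_cases hx : x ∈ N
        · have hx' := (hNm x).1 hx
          have h2 := miss_lb (dl G v) c S x
          have h3 := hdl x hx'
          have h4 : w x ≤ (S.filter fun i => Mi (dl G v) c S x i).card := by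
            have h5 := hdeg' x hx'
            by_cases hxr : x = r
            · rw [hxr, hwr, ← hxr]
              omega
            · rw [hwn x hxr]
              have h6 := h5.2 hxr
              omega
          obtain ⟨M, hM1, hM2⟩ := Finset.exists_subset_card_eq h4
          exact ⟨M, fun _ => ⟨hM2, fun i hi => (Finset.mem_filter.1 (hM1 hi)).2⟩⟩
        · exact ⟨∅, fun h => absurd h hx⟩
      choose M hM using h1
      exact ⟨c, M, hc, fun u hu => hM u hu⟩
    obtain ⟨c, M, hcE, hM, hb⟩ := hbal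
    -- the colour `i` that belongs to exactly one `M u`
    have hY : ∀ i, {u | u ∈ N ∧ i ∈ M u}.ncard = (N.filter fun u => i ∈ M u).card := by
      intro i
      rw [← Set.ncard_coe_finset]
      congr 1
      ext u
      rw [Finset.mem_coe, Finset.mem_filter]
      rfl
    have hsum : ∑ i ∈ S, (N.filter fun u => i ∈ M u).card = ∑ u ∈ N, w u := by
      have h1 : ∑ i ∈ S, (N.filter fun u => i ∈ M u).card =
          ∑ i ∈ S, ∑ u ∈ N, if i ∈ M u then 1 else 0 := by
        refine Finset.sum_congr rfl fun i _ => ?_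
        rw [Finset.card_filter]
      rw [h1, Finset.sum_comm]
      refine Finset.sum_congr rfl fun u hu => ?_
      rw [← Finset.card_filter, ← (hM u hu).1]
      congr 1
      ext i
      rw [Finset.mem_filter]
      exact ⟨fun h => h.2, fun h => ⟨((hM u hu).2 i h).1, h⟩⟩
    have hsumw : ∑ u ∈ N, w u + 1 = 2 * N.card := by
      have hrN : r ∈ N := (hNm r).2 hr
      rw [← Finset.add_sum_erase N w hrN]
      have h1 : ∑ x ∈ N.erase r, w x = ∑ x ∈ N.erase r, 2 := by
        refine Finset.sum_congr rfl fun x hx => ?_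
        exact hwn x (Finset.ne_of_mem_erase hx)
      rw [h1, hwr, Finset.sum_const, smul_eq_mul, Finset.card_erase_of_mem hrN]
      have h3 : 0 < N.card := Finset.card_pos.2 ⟨r, hrN⟩
      omega
    obtain ⟨i, hiS, hi1⟩ := exists_one (n' + 1) (∑ u ∈ N, w u) S
      (fun i => (N.filter fun u => i ∈ M u).card) hS (by omega)
      (by
        intro he
        obtain ⟨k, hk⟩ := he
        omega) hsum (fun i hi j hj => by
        have h1 := hb i hi j hj
        rwa [hY, hY] at h1)
    obtain ⟨u, hu⟩ := Finset.card_eq_one.1 hi1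
    have huN : u ∈ N ∧ i ∈ M u := by
      have h1 : u ∈ N.filter fun u => i ∈ M u := by
        rw [hu]
        exact Finset.mem_singleton_self u
      exact Finset.mem_filter.1 h1
    have huv : G.Adj v u := (hNm u).1 huN.1
    have humis : Mi (dl G v) c S u i := (hM u huN.1).2 i huN.2
    have huniq : ∀ x, G.Adj v x → x ≠ u → i ∉ M x := by
      intro x hx hxu hi
      have h1 : x ∈ N.filter fun u => i ∈ M u := Finset.mem_filter.2 ⟨(hNm x).2 hx, hi⟩
      rw [hu, Finset.mem_singleton] at h1
      exact hxu h1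
    -- the graph `G'`
    obtain ⟨G', hG'⟩ : ∃ G' : SimpleGraph V, ∀ x y, G'.Adj x y ↔ (G.Adj x y ∧
        ¬ (x ≠ v ∧ y ≠ v ∧ c s(x, y) = i) ∧ s(x, y) ≠ s(v, u)) := by
      refine ⟨⟨fun x y => G.Adj x y ∧ ¬ (x ≠ v ∧ y ≠ v ∧ c s(x, y) = i) ∧ s(x, y) ≠ s(v, u),
        ⟨fun x y h => ⟨h.1.symm, ?_, ?_⟩⟩, ⟨fun x h => h.1.ne rfl⟩⟩, fun x y => Iff.rfl⟩
      · rintro ⟨h1, h2, h3⟩
        apply h.2.1
        refine ⟨h2, h1, ?_⟩
        rw [Sym2.eq_swap]
        exact h3
      · rw [Sym2.eq_swap]
        exact h.2.2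
    have hle : ∀ x, {y | G'.Adj x y}.ncard ≤ {y | G.Adj x y}.ncard := fun x =>
      Set.ncard_le_ncard (fun y hy => ((hG' x y).1 hy).1) (Set.toFinite _)
    obtain ⟨c', hc'⟩ := ih V instV G' v r (S.erase i) (by rw [Finset.card_erase_of_mem hiS, hS]; rfl)
      (by
        have h1 : ({x | G'.Adj v x} : Set V) ⊆ {x | G.Adj v x} \ {u} := by
          intro x hx
          have h2 := (hG' v x).1 hx
          refine ⟨h2.1, ?_⟩
          rintro rfl
          exact h2.2.2 rfl
        have h2 := Set.ncard_le_ncard h1 (Set.toFinite _)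
        have h3 := Set.ncard_sdiff_singleton_add_one (show u ∈ {x | G.Adj v x} from huv)
          (Set.toFinite _)
        omega)
      (by
        intro x hx
        have hx' := (hG' v x).1 hx
        have hxG : G.Adj v x := hx'.1
        have hxu : x ≠ u := by
          rintro rfl
          exact hx'.2.2 rfl
        have hdx := hdeg' x hxG
        by_cases hmis : Mi (dl G v) c S x i
        · have h1 : ∀ j ∈ insert i (M x), Mi (dl G v) c S x j := by
            intro j hj
            rcases Finset.mem_insert.1 hj with rfl | hj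
            · exact hmis
            · exact (hM x ((hNm x).2 hxG)).2 j hj
          have h2 := miss_ub hcE x _ h1
          rw [Finset.card_insert_of_notMem (huniq x hxG hxu), (hM x ((hNm x).2 hxG)).1] at h2
          have h3 := hdl x hxG
          have h4 := hle x
          by_cases hxr : x = r
          · have h5 : w x = 1 := by rw [hxr, hwr]
            exact ⟨by omega, fun h6 => absurd hxr h6⟩
          · have h5 := hwn x hxr
            exact ⟨by omega, fun _ => by omega⟩
        · have h1 : ∃ y, (dl G v).Adj x y ∧ c s(x, y) = i := by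
            by_contra h2
            push Not at h2
            exact hmis ⟨hiS, h2⟩
          obtain ⟨y₀, hy₀, hci⟩ := h1
          have h2 : ({y | G'.Adj x y} : Set V) ⊆ {y | G.Adj x y} \ {y₀} := by
            intro y hy
            have h3 := (hG' x y).1 hy
            refine ⟨h3.1, ?_⟩
            rintro rfl
            exact h3.2.1 ⟨hy₀.2.1, hy₀.2.2, hci⟩
          have h3 := Set.ncard_le_ncard h2 (Set.toFinite _)
          have h4 := Set.ncard_sdiff_singleton_add_one (show y₀ ∈ {y | G.Adj x y} from hy₀.1)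
            (Set.toFinite _)
          refine ⟨by omega, fun h5 => ?_⟩
          have h6 := hdx.2 h5
          omega)
      (by
        refine ⟨c, fun x y hxy => ?_, fun x y z hxy hxz hne => ?_⟩
        · have h1 := (hG' x y).1 hxy.1
          refine Finset.mem_erase.2 ⟨fun h2 => h1.2.1 ⟨hxy.2.1, hxy.2.2, h2⟩, ?_⟩
          exact hcE.mem x y ⟨h1.1, hxy.2⟩
        · exact hcE.ne x y z ⟨((hG' x y).1 hxy.1).1, hxy.2⟩ ⟨((hG' x z).1 hxz.1).1, hxz.2⟩ hne)
    -- the colouring of `G`
    obtain ⟨P, hP⟩ : ∃ P : Sym2 V → Prop, P = fun e => e = s(v, u) ∨ (v ∉ e ∧ c e = i) := ⟨_, rfl⟩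
    have hPn : ∀ x y, G.Adj x y → ¬ P s(x, y) → G'.Adj x y := by
      intro x y hxy hn
      rw [hP] at hn
      refine (hG' x y).2 ⟨hxy, fun h1 => hn (Or.inr ⟨?_, h1.2.2⟩), fun h1 => hn (Or.inl h1)⟩
      intro h2
      rcases Sym2.mem_iff.1 h2 with h3 | h3
      · exact h1.1 h3.symm
      · exact h1.2.1 h3.symm
    have hPP : ∀ x y z, G.Adj x y → G.Adj x z → y ≠ z → P s(x, y) → P s(x, z) → False := by
      intro x y z hxy hxz hne h1 h2
      rw [hP] at h1 h2
      have key : ∀ a b, G.Adj x a → G.Adj x b → s(x, a) = s(v, u) → v ∉ s(x, b) →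
          c s(x, b) = i → False := by
        intro a b hxa hxb h3 h4 h5
        have hxv : x ≠ v := fun h6 => h4 (Sym2.mem_iff.2 (Or.inl h6.symm))
        have hbv : b ≠ v := fun h6 => h4 (Sym2.mem_iff.2 (Or.inr h6.symm))
        rcases Sym2.eq_iff.1 h3 with ⟨h6, _⟩ | ⟨h6, _⟩
        · exact hxv h6
        · subst h6
          exact humis.2 b ⟨hxb, hxv, hbv⟩ h5
      rcases h1 with h1 | ⟨h1, h1'⟩
      · rcases h2 with h2 | ⟨h2, h2'⟩
        · rw [← h2] at h1
          apply hne
          rcases Sym2.eq_iff.1 h1 with ⟨_, h3⟩ | ⟨h3, h4⟩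
          · exact h3
          · rw [h4, h3]
        · exact key y z hxy hxz h1 h2 h2'
      · rcases h2 with h2 | ⟨h2, h2'⟩
        · exact key z y hxz hxy h2 h1 h1'
        · have hxv : x ≠ v := fun h6 => h1 (Sym2.mem_iff.2 (Or.inl h6.symm))
          have hyv : y ≠ v := fun h6 => h1 (Sym2.mem_iff.2 (Or.inr h6.symm))
          have hzv : z ≠ v := fun h6 => h2 (Sym2.mem_iff.2 (Or.inr h6.symm))
          exact hcE.ne x y z ⟨hxy, hxv, hyv⟩ ⟨hxz, hxv, hzv⟩ hne (h1'.trans h2'.symm)
    refine ⟨fun e => if P e then i else c' e, fun x y hxy => ?_, fun x y z hxy hxz hne => ?_⟩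
    · show (if P s(x, y) then i else c' s(x, y)) ∈ S
      by_cases h1 : P s(x, y)
      · rw [if_pos h1]
        exact hiS
      · rw [if_neg h1]
        exact Finset.mem_of_mem_erase (hc'.mem x y (hPn x y hxy h1))
    · show (if P s(x, y) then i else c' s(x, y)) ≠ (if P s(x, z) then i else c' s(x, z))
      by_cases h1 : P s(x, y)
      · by_cases h2 : P s(x, z)
        · exact (hPP x y z hxy hxz hne h1 h2).elim
        · rw [if_pos h1, if_neg h2]
          exact (Finset.ne_of_mem_erase (hc'.mem x z (hPn x z hxz h2))).symm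
      · by_cases h2 : P s(x, z)
        · rw [if_neg h1, if_pos h2]
          exact Finset.ne_of_mem_erase (hc'.mem x y (hPn x y hxy h1))
        · rw [if_neg h1, if_neg h2]
          exact hc'.ne x y z (hPn x y hxy h1) (hPn x z hxz h2) hne

end Pool.Agent.ALC
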