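import Mathlib

/-!
# ALC VZDEFS: edge colourings (definitions for Vizing's theorem)

The modules `Vz*` prove Vizing's theorem for simple graphs along the proof in Schrijver's book
(Theorem 28.2 there), after Ehrenfeucht, Faber and Kierstead.
-/

set_option autoImplicit false

namespace Pool.Agent.ALC

/-- `c` is a proper edge colouring of `G` with colours in `S` -/
structure EC {V : Type} (G : SimpleGraph V) (c : Sym2 V → ℕ) (S : Finset ℕ) : Prop where
  mem : ∀ x y, G.Adj x y → c s(x, y) ∈ S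
  ne : ∀ x y z, G.Adj x y → G.Adj x z → y ≠ z → c s(x, y) ≠ c s(x, z)

/-- the colour `i` of `S` is missing at `x` -/
def Mi {V : Type} (G : SimpleGraph V) (c : Sym2 V → ℕ) (S : Finset ℕ) (x : V) (i : ℕ) : Prop :=
  i ∈ S ∧ ∀ y, G.Adj x y → c s(x, y) ≠ i

/-- `G - v` (with `v` as isolated vertex) -/
def dl {V : Type} (G : SimpleGraph V) (v : V) : SimpleGraph V where
  Adj x y := G.Adj x y ∧ x ≠ v ∧ y ≠ v
  symm.symm := fun _ _ h => ⟨h.1.symm, h.2.2, h.2.1⟩
  loopless := ⟨fun _ h => h.1.ne rfl⟩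

/-- the edges of the colours `i` and `j` -/
def Bij {V : Type} (G : SimpleGraph V) (c : Sym2 V → ℕ) (i j : ℕ) : SimpleGraph V where
  Adj x y := G.Adj x y ∧ (c s(x, y) = i ∨ c s(x, y) = j)
  symm.symm := fun x y h => ⟨h.1.symm, by rw [Sym2.eq_swap]; exact h.2⟩
  loopless := ⟨fun _ h => h.1.ne rfl⟩

end Pool.Agent.ALC
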